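import Pool.Agent.Lib.MP_2619d0_ag.R.E1

/-!
Row E2: one more variable.
-/

set_option autoImplicit false

namespace MP2619.R

universe v u

open IntermediateField

/-- the vector `(a z_0, b z_0, z_1, …, z_n)` -/
def dbl {N : Type u} [Field N] {n : ℕ} (a b : N) (z : Fin (n + 1) → N) : Fin (n + 1 + 1) → N :=
  Fin.cons (a * z 0) (Fin.cons (b * z 0) (fun i => z i.succ))

/-- `F(dbl a b z) = (a³ + b³) z_0³ + z_1³ + … = F(z)`, since `a³ + b³ = 1` in characteristic two. -/
theorem F_dbl {N : Type u} [Field N] (h2 : (2 : N) = 0) {n : ℕ} (a b : N)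
    (hab : b ^ 3 = 1 + a ^ 3) (z : Fin (n + 1) → N) :
    ∑ i, dbl a b z i ^ 3 = ∑ i, z i ^ 3 := by
  unfold dbl
  rw [Fin.sum_univ_succ, Fin.sum_univ_succ, Fin.sum_univ_succ (f := fun i => z i ^ 3)]
  simp only [Fin.cons_zero, Fin.cons_succ]
  rw [mul_pow, mul_pow, hab]
  linear_combination (a ^ 3 * z 0 ^ 3) * h2

/-- auxiliary tower argument for `pr_dbl` -/
theorem odd_of_cube_tower {k : Type v} {N : Type u} [Field k] [Field N] [Algebra k N]
    (w : k) (hw : w ^ 2 + w + 1 = 0) (K' L : IntermediateField k N) (c : N) (hc : c ^ 3 ∈ K')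
    (hL : ∀ E : IntermediateField k N, K' ≤ E → c ∈ E → L ≤ E)
    (hodd : Odd (Module.finrank L N)) : Odd (Module.finrank K' N) := by
  have hw' : (algebraMap k K' w) ^ 2 + algebraMap k K' w + 1 = 0 := by
    rw [← map_pow, ← map_add, ← map_one (algebraMap k K'), ← map_add, hw, map_zero]
  have h1 : Odd (Module.finrank K' (adjoin K' ({c} : Set N))) :=
    cube_odd _ hw' c ⟨⟨c ^ 3, hc⟩, rfl⟩
  have hle : L ≤ (adjoin K' ({c} : Set N)).restrictScalars k :=
    hL _ (fun x hx => (adjoin K' ({c} : Set N)).algebraMap_mem ⟨x, hx⟩)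
      (subset_adjoin K' ({c} : Set N) rfl)
  have h2 : Odd (Module.finrank (adjoin K' ({c} : Set N)) N) :=
    Odd.of_dvd_nat hodd (finrank_dvd_of_le_left hle)
  rw [← Module.finrank_mul_finrank K' (adjoin K' ({c} : Set N)) N]
  exact h1.mul h2

/-- Let `z = (z_0, …, z_n)` and `Pr k (a, z)`. Let `K⁺ = k(a z_0, b z_0, z_1, …)` and
`E = K⁺(z_0) = k(a, b, z)`. `z_0 ≠ 0`, `z_0³ = (a z_0)³ + (b z_0)³ ∈ K⁺`, so `[E : K⁺]` is odd by `cube_odd`
(over `K⁺`). `[N : E]` divides `[N : k(a, z)]`, so it is odd. So `[N : K⁺]` is odd, and `dbl a b z` is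
algebraically independent by `fin_iff_ind` (`n + 2` elements, degree not zero). -/
theorem pr_dbl {k : Type v} {N : Type u} [Field k] [Field N] [Algebra k N] (h2 : (2 : k) = 0)
    (w : k) (hw : w ^ 2 + w + 1 = 0) {n : ℕ} (a b : N) (hab : b ^ 3 = 1 + a ^ 3)
    (z : Fin (n + 1) → N) (hP : Pr k (Fin.cons a z : Fin (n + 1 + 1) → N)) :
    Pr k (dbl a b z) := by
  obtain ⟨hind, hodd⟩ := hP
  have hz0 : z 0 ≠ 0 := by
    have h := hind.ne_zero (1 : Fin (n + 1 + 1))
    simpa using h
  have h2N : (2 : N) = 0 := by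
    have h := congrArg (algebraMap k N) h2
    rw [map_ofNat, map_zero] at h
    exact h
  have hmem : ∀ i, dbl a b z i ∈ adjoin k (Set.range (dbl a b z)) := fun i =>
    subset_adjoin k _ ⟨i, rfl⟩
  have haz : a * z 0 ∈ adjoin k (Set.range (dbl a b z)) := hmem 0
  have hbz : b * z 0 ∈ adjoin k (Set.range (dbl a b z)) := hmem 1
  have hzs : ∀ i : Fin n, z i.succ ∈ adjoin k (Set.range (dbl a b z)) := fun i =>
    hmem i.succ.succ
  have hcube : z 0 ^ 3 ∈ adjoin k (Set.range (dbl a b z)) := by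
    have h : z 0 ^ 3 = (a * z 0) ^ 3 + (b * z 0) ^ 3 := by
      rw [mul_pow, mul_pow, hab]
      linear_combination (-(a ^ 3 * z 0 ^ 3)) * h2N
    rw [h]
    exact add_mem (pow_mem haz 3) (pow_mem hbz 3)
  have h3 : Odd (Module.finrank (adjoin k (Set.range (dbl a b z))) N) := by
    refine odd_of_cube_tower w hw _ _ (z 0) hcube (fun E hE hzE => ?_) hodd
    rw [adjoin_le_iff]
    rintro _ ⟨i, rfl⟩
    refine Fin.cases ?_ (fun j => ?_) i
    · rw [Fin.cons_zero]
      have h := div_mem (hE haz) hzE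
      rwa [mul_div_cancel_right₀ _ hz0] at h
    · rw [Fin.cons_succ]
      exact Fin.cases hzE (fun l => hE (hzs l)) j
  exact ⟨(fin_iff_ind _ _ hind hodd.pos.ne').2 h3.pos.ne', h3⟩

open scoped IntermediateField.algebraAdjoinAdjoin in
private theorem E2b_aux {k : Type*} {L : Type u} [Field k] [Field L] [Algebra k L] (S : Set L) :
    Algebra.trdeg k (IntermediateField.adjoin k S) ≤ Cardinal.mk S := by
  have h1 : Algebra.trdeg k (Algebra.adjoin k S) ≤ Cardinal.mk S := by
    have h2 : Function.Surjective (MvPolynomial.aeval (fun s : S =>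
        (⟨s.1, Algebra.subset_adjoin s.2⟩ : Algebra.adjoin k S)) :
          MvPolynomial S k →ₐ[k] Algebra.adjoin k S) := by
      rw [← AlgHom.range_eq_top, ← Algebra.adjoin_range_eq_range_aeval, eq_top_iff]
      rintro ⟨y, hy⟩ _
      have h3 : (Algebra.adjoin k (Set.range fun s : S =>
        (⟨s.1, Algebra.subset_adjoin s.2⟩ : Algebra.adjoin k S))).map
          (Algebra.adjoin k S).val = Algebra.adjoin k S := by
        rw [AlgHom.map_adjoin]
        congr 1
        ext z
        constructor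
        · rintro ⟨_, ⟨s, rfl⟩, rfl⟩
          exact s.2
        · intro hz
          exact ⟨_, ⟨⟨z, hz⟩, rfl⟩, rfl⟩
      have h4 := hy
      rw [← h3] at h4
      obtain ⟨y', hy', hyy⟩ := h4
      have : y' = ⟨y, hy⟩ := Subtype.ext hyy
      rw [← this]
      exact hy'
    have h3 := lift_trdeg_le_of_surjective _ h2
    rw [MvPolynomial.trdeg_of_isDomain] at h3
    simpa using h3
  have h2 := trdeg_add_eq k (Algebra.adjoin k S) (A := IntermediateField.adjoin k S)
  have h3 : Algebra.trdeg (Algebra.adjoin k S) (IntermediateField.adjoin k S) = 0 := by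
    rw [trdeg_eq_zero_iff]
    infer_instance
  rw [h3, add_zero] at h2
  rw [← h2]
  exact h1

/-- `rat k (dbl a b y) ⊂ (rat k y)(a, b)`, and `b` is algebraic over `k(a)`; the transcendence degree
increases at most by one. (`rat k` of the image of `y` in `N` is isomorphic to `rat k y`.) -/
theorem trdeg_dbl {k : Type v} {M N : Type u} [Field k] [Field M] [Field N] [Algebra k M]
    [Algebra k N] [Algebra M N] [IsScalarTower k M N] {n : ℕ} (a b : N) (hab : b ^ 3 = 1 + a ^ 3)
    (y : Fin (n + 1) → M) (D : ℕ) (hD : Algebra.trdeg k (rat k y) ≤ D) :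
    Algebra.trdeg k (rat k (dbl a b (fun i => algebraMap M N (y i)))) ≤ (D + 1 : ℕ) := by
  let φ : M →ₐ[k] N := IsScalarTower.toAlgHom k M N
  let E : IntermediateField k N := (rat k y).map φ
  have hE : Algebra.trdeg k E ≤ D := by
    have e1 : Algebra.trdeg k E ≤ Algebra.trdeg k (rat k y) :=
      trdeg_le_of_injective ((rat k y).equivMap φ).symm.toAlgHom
        ((rat k y).equivMap φ).symm.injective
    exact e1.trans hD
  let F1 : IntermediateField E N := adjoin E ({a} : Set N)
  let F2 : IntermediateField F1 N := adjoin F1 ({b} : Set N)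
  have h1 : Algebra.trdeg E F1 ≤ 1 := by
    have := E2b_aux (k := E) (L := N) ({a} : Set N)
    simpa using this
  have haF1 : a ∈ F1 := mem_adjoin_simple_self E a
  have hint : IsIntegral F1 b := by
    refine IsIntegral.of_pow (n := 3) (by norm_num) ?_
    rw [hab]
    have : (1 + a ^ 3 : N) = algebraMap F1 N (1 + ⟨a, haF1⟩ ^ 3) := by
      simp [map_add]
    rw [this]
    exact isIntegral_algebraMap
  have hkF1 : IsScalarTower k F1 N := IsScalarTower.of_algebraMap_eq (fun _ => rfl)
  have hEF1' : IsScalarTower E F1 N := IsScalarTower.of_algebraMap_eq (fun _ => rfl)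
  have hkEF2 : IsScalarTower k E F2 := IsScalarTower.of_algebraMap_eq (fun _ => rfl)
  have halg : Algebra.IsAlgebraic F1 F2 := isAlgebraic_adjoin_simple hint
  have h2 : Algebra.trdeg F1 F2 = 0 := trdeg_eq_zero
  have i1 : FaithfulSMul E F1 :=
    (faithfulSMul_iff_algebraMap_injective _ _).mpr (algebraMap E F1).injective
  have i2 : FaithfulSMul E F2 :=
    (faithfulSMul_iff_algebraMap_injective _ _).mpr (algebraMap E F2).injective
  have i3 : FaithfulSMul F1 F2 :=
    (faithfulSMul_iff_algebraMap_injective _ _).mpr (algebraMap F1 F2).injective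
  have i4 : FaithfulSMul k E :=
    (faithfulSMul_iff_algebraMap_injective _ _).mpr (algebraMap k E).injective
  have h3 : Algebra.trdeg E F1 + Algebra.trdeg F1 F2 = Algebra.trdeg E F2 :=
    trdeg_add_eq E F1 (A := F2)
  have h4 : Algebra.trdeg k E + Algebra.trdeg E F2 = Algebra.trdeg k F2 :=
    trdeg_add_eq k E (A := F2)
  have h5 : Algebra.trdeg k F2 ≤ (D + 1 : ℕ) := by
    rw [← h4, ← h3, h2, add_zero]
    push_cast
    exact add_le_add hE h1
  have hF1F2 : ∀ z : N, z ∈ F1 → z ∈ F2 := fun z hz => F2.algebraMap_mem (⟨z, hz⟩ : F1)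
  have hEF1 : ∀ z : N, z ∈ E → z ∈ F1 := fun z hz => F1.algebraMap_mem (⟨z, hz⟩ : E)
  have haF2 : a ∈ F2 := hF1F2 a haF1
  have hbF2 : b ∈ F2 := mem_adjoin_simple_self F1 b
  have hform : ∀ i, ∃ c ∈ F2, ∃ p, dbl a b (fun i => algebraMap M N (y i)) i =
      c * algebraMap M N (y p) := by
    intro i
    refine Fin.cases ?_ (fun i => ?_) i
    · exact ⟨a, haF2, 0, rfl⟩
    · refine Fin.cases ?_ (fun i => ?_) i
      · exact ⟨b, hbF2, 0, rfl⟩
      · exact ⟨1, one_mem _, i.succ, by simp [dbl]⟩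
  let F3 : IntermediateField k N :=
    { F2.toSubfield with
      algebraMap_mem' := fun r => by
        have : algebraMap k N r = algebraMap F1 N (algebraMap k F1 r) := by
          rw [← IsScalarTower.algebraMap_apply]
        rw [this]
        exact F2.algebraMap_mem _ }
  have hle : rat k (dbl a b (fun i => algebraMap M N (y i))) ≤ F3 := by
    unfold rat
    rw [adjoin_le_iff]
    rintro z ⟨i, j, rfl⟩
    obtain ⟨c, hc, p, hp⟩ := hform i
    obtain ⟨d, hd, q, hq⟩ := hform j
    change _ ∈ F2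
    rw [hp, hq, mul_div_mul_comm]
    refine mul_mem (div_mem hc hd) (hF1F2 _ (hEF1 _ ?_))
    refine ⟨y p / y q, subset_adjoin _ _ ⟨p, q, rfl⟩, ?_⟩
    exact map_div₀ φ (y p) (y q)
  have h6 : Algebra.trdeg k (rat k (dbl a b (fun i => algebraMap M N (y i)))) ≤
      Algebra.trdeg k F3 :=
    trdeg_le_of_injective (inclusion hle) (inclusion_injective hle)
  exact h6.trans h5

/-- Given odd data `x`, `y` of level `(n + 1, D)`, take `N, a, b` from `exists_ab` and
`x⁺ = dbl a b x`, `y⁺ = dbl a b y` (images in `N`): `x⁺ + y⁺ = dbl a b (x + y)`. These are odd data of level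
`(n + 2, D + 1)` by `F_dbl`, `pr_dbl`, `trdeg_dbl`. -/
theorem etrick {n D : ℕ} (hS : S.{v, u} (n + 1 + 1) (D + 1)) : S.{v, u} (n + 1) D := by
  intro k M _ _ _ x y h
  obtain ⟨w, hw⟩ := h.om
  obtain ⟨N, _, _, _, _, a, b, hab, _, hN⟩ := exists_ab k M w hw
  have h2N : (2 : N) = 0 := by
    have h3 := congrArg (algebraMap k N) h.two
    rwa [map_ofNat, map_zero] at h3
  have hP : Pr k (fun i => x i + y i) := ⟨h.ind, h.odd⟩
  have hP2 := pr_dbl h.two w hw a b hab _ (hN _ _ hP)
  have hadd : (fun i => dbl a b (fun i => algebraMap M N (x i)) i +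
      dbl a b (fun i => algebraMap M N (y i)) i) =
      dbl a b (fun i => algebraMap M N (x i + y i)) := by
    funext i
    refine Fin.cases ?_ (fun i => Fin.cases ?_ (fun i => ?_) i) i
    · simp only [dbl, Fin.cons_zero, map_add]
      ring
    · simp only [dbl, Fin.cons_succ, Fin.cons_zero, map_add]
      ring
    · simp only [dbl, Fin.cons_succ, map_add]
  have hF : ∀ z : Fin (n + 1) → M, ∑ i, z i ^ 3 = 0 →
      ∑ i, dbl a b (fun i => algebraMap M N (z i)) i ^ 3 = 0 := by
    intro z hz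
    rw [F_dbl h2N a b hab]
    have h3 := congrArg (algebraMap M N) hz
    rw [map_sum, map_zero] at h3
    rw [← h3]
    refine Finset.sum_congr rfl ?_
    intro i _
    rw [map_pow]
  refine hS k N (dbl a b (fun i => algebraMap M N (x i))) (dbl a b (fun i => algebraMap M N (y i)))
    ⟨h.two, ⟨w, hw⟩, ?_, ?_, hF x h.Fx, hF y h.Fy, ?_⟩
  · rw [hadd]
    exact hP2.1
  · rw [hadd]
    exact hP2.2
  · exact trdeg_dbl a b hab y D h.small

end MP2619.R
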