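import Pool.Agent.Lib.MP_2619d0_ag.R.F1
import Pool.Agent.Lib.MP_2619d0_ag.OddDegree
import Pool.Agent.Lib.MP_2619d0_ag.K.K2

/-!
Row F2: no odd data with a constant point.
-/

set_option autoImplicit false

namespace MP2619.R

universe v u

open IntermediateField

/-- Springer's theorem in characteristic two. -/
theorem f2_springer {K : Type v} {L : Type u} [Field K] [Field L] [Algebra K L] (h2 : (2 : K) = 0)
    (hodd : Odd (Module.finrank K L)) {ι : Type} [Fintype ι] (q : ι → ι → K)
    (haniso : ∀ v : ι → K, ∑ i, ∑ j, q i j * (v i * v j) = 0 → v = 0)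
    (v : ι → L) (h : ∑ i, ∑ j, algebraMap K L (q i j) * (v i * v j) = 0) : v = 0 := by
  have hfd : FiniteDimensional K L := Module.finite_of_finrank_pos hodd.pos
  have hsep : Algebra.IsSeparable K L := MP2619.K.K2_sep h2 hodd
  obtain ⟨x, hx⟩ := Field.exists_primitive_element K L
  have hint : IsIntegral K x := Algebra.IsIntegral.isIntegral x
  have hdeg : (minpoly K x).natDegree = Module.finrank K L := by
    rw [← IntermediateField.adjoin.finrank hint, hx]
    exact IntermediateField.finrank_top'
  have hsurj : ∀ y : L, ∃ g : Polynomial K, Polynomial.aeval x g = y := by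
    intro y
    have hy : y ∈ (⊤ : IntermediateField K L) := IntermediateField.mem_top
    rw [← hx, ← IntermediateField.mem_toSubalgebra,
      IntermediateField.adjoin_simple_toSubalgebra_of_isAlgebraic hint.isAlgebraic,
      Algebra.adjoin_singleton_eq_range_aeval] at hy
    exact hy
  choose f hf using fun i => hsurj (v i)
  have hirr := minpoly.irreducible hint
  have hall := Pool.Agent.Lib.MP_2619d0_ag.springer_poly (fun _ => 0) q
    (fun v _ h => haniso v h) _ (minpoly K x) hirr hdeg hodd f
    (by
      simp)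
    (by
      rw [minpoly.dvd_iff, map_sum]
      rw [← h]
      refine Finset.sum_congr rfl fun i _ => ?_
      rw [map_sum]
      refine Finset.sum_congr rfl fun j _ => ?_
      rw [map_mul, map_mul, Polynomial.aeval_C, hf i, hf j])
  funext i
  rw [Pi.zero_apply, ← hf i]
  exact (minpoly.dvd_iff).mp (hall i)

/-- common denominators for two elements of the field generated by independent elements -/
theorem f2_frac {k : Type v} {M : Type u} [Field k] [Field M] [Algebra k M] {n : ℕ}
    (u : Fin n → M) (s l : adjoin k (Set.range u)) :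
    ∃ P Q R : MvPolynomial (Fin n) k, R ≠ 0 ∧
      (s : M) * MvPolynomial.aeval u R = MvPolynomial.aeval u P ∧
      (l : M) * MvPolynomial.aeval u R = MvPolynomial.aeval u Q := by
  have key : ∀ z : adjoin k (Set.range u), ∃ P R : MvPolynomial (Fin n) k, R ≠ 0 ∧
      (z : M) * MvPolynomial.aeval u R = MvPolynomial.aeval u P := by
    intro z
    obtain ⟨r, t, hrt⟩ := (mem_adjoin_range_iff k u (z : M)).mp z.2
    by_cases ht : MvPolynomial.aeval u t = 0
    · refine ⟨0, 1, one_ne_zero, ?_⟩
      rw [hrt, ht, div_zero, zero_mul, map_zero]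
    · refine ⟨r, t, ?_, ?_⟩
      · rintro rfl
        exact ht (map_zero _)
      · rw [hrt, div_mul_cancel₀ _ ht]
  obtain ⟨P, R, hR, hP⟩ := key s
  obtain ⟨P', R', hR', hP'⟩ := key l
  refine ⟨P * R', P' * R, R * R', mul_ne_zero hR hR', ?_, ?_⟩
  · rw [map_mul, map_mul, ← hP]
    ring
  · rw [map_mul, map_mul, ← hP']
    ring

/-- the quadratic form of a constant point is anisotropic over `k(u)` -/
theorem f2_aniso {k : Type v} {M : Type u} [Field k] [Field M] [Algebra k M] (h2 : (2 : k) = 0)
    {N : ℕ} (hN : 2 ≤ N) (u : Fin (N + 1) → M) (hu : AlgebraicIndependent k u)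
    (a : Fin (N + 1) → k) (ha0 : a ≠ 0) (ha : ∑ i, a i ^ 3 = 0)
    (s l : adjoin k (Set.range u))
    (h : (s : M) ^ 2 * ∑ i, u i ^ 3 + (s : M) * l * ∑ i, u i ^ 2 * algebraMap k M (a i) +
      (l : M) ^ 2 * ∑ i, algebraMap k M (a i) ^ 2 * u i = 0) : s = 0 ∧ l = 0 := by
  obtain ⟨P, Q, R, hR, hP, hQ⟩ := f2_frac u s l
  have hRu : MvPolynomial.aeval u R ≠ 0 := by
    intro h0
    exact hR (hu (by rw [h0, map_zero]))
  have hpoly : P ^ 2 * ∑ i, MvPolynomial.X i ^ 3 +
      P * Q * ∑ i, MvPolynomial.X i ^ 2 * MvPolynomial.C (a i) +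
      Q ^ 2 * ∑ i, MvPolynomial.C (a i) ^ 2 * MvPolynomial.X i = 0 := by
    apply hu
    rw [map_zero]
    simp only [map_add, map_mul, map_pow, map_sum, MvPolynomial.aeval_X, MvPolynomial.aeval_C]
    rw [← hP, ← hQ]
    linear_combination (MvPolynomial.aeval u R) ^ 2 * h
  obtain ⟨h3, h4⟩ := const_poly h2 hN a ha0 ha P Q hpoly
  rw [h3, map_zero] at hP
  rw [h4, map_zero] at hQ
  constructor
  · apply Subtype.ext
    exact (mul_eq_zero.mp hP).resolve_right hRu
  · apply Subtype.ext
    exact (mul_eq_zero.mp hQ).resolve_right hRu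

/-- the case of a point with coordinates in `k` -/
theorem f2_const {k : Type v} {M : Type u} [Field k] [Field M] [Algebra k M] (h2 : (2 : k) = 0)
    {N : ℕ} (hN : 2 ≤ N) (x y : Fin (N + 1) → M)
    (hu : AlgebraicIndependent k (fun i => x i + y i))
    (hodd : Odd (Module.finrank (adjoin k (Set.range fun i => x i + y i)) M))
    (hx : ∑ i, x i ^ 3 = 0)
    (a : Fin (N + 1) → k) (ha0 : a ≠ 0) (ha : ∑ i, a i ^ 3 = 0) (c : M)
    (hy : ∀ i, y i = c * algebraMap k M (a i)) : False := by
  have h2M : (2 : M) = 0 := by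
    rw [← map_ofNat (algebraMap k M) 2, h2, map_zero]
  set u : Fin (N + 1) → M := fun i => x i + y i with hudef
  have hui : ∀ i, u i ∈ adjoin k (Set.range u) := fun i => subset_adjoin _ _ ⟨i, rfl⟩
  set K := adjoin k (Set.range u) with hK
  have h2K : (2 : K) = 0 := by
    apply Subtype.ext
    exact h2M
  let U : Fin (N + 1) → K := fun i => ⟨u i, hui i⟩
  let A : Fin (N + 1) → K := fun i => algebraMap k K (a i)
  have hA : ∀ i, ((A i : K) : M) = algebraMap k M (a i) := fun i => rfl
  let q : Fin 2 → Fin 2 → K := fun i j =>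
    if i = 0 then (if j = 0 then ∑ i, U i ^ 3 else ∑ i, U i ^ 2 * A i) else
      (if j = 0 then 0 else ∑ i, A i ^ 2 * U i)
  have hq : ∀ (L : Type u) [Field L] [Algebra K L] (v : Fin 2 → L),
      ∑ i, ∑ j, algebraMap K L (q i j) * (v i * v j) =
      v 0 ^ 2 * algebraMap K L (∑ i, U i ^ 3) + v 0 * v 1 * algebraMap K L (∑ i, U i ^ 2 * A i) +
      v 1 ^ 2 * algebraMap K L (∑ i, A i ^ 2 * U i) := by
    intro L _ _ v
    rw [Fin.sum_univ_two, Fin.sum_univ_two, Fin.sum_univ_two]
    simp only [q]
    simp
    ring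
  have hzero := f2_springer h2K hodd q (by
    intro v hv
    have h5 := hq K v
    have h6 : ∑ i, ∑ j, algebraMap K K (q i j) * (v i * v j) = 0 := hv
    rw [h5] at h6
    have h7 : algebraMap K M _ = algebraMap K M 0 := congrArg (algebraMap K M) h6
    obtain ⟨h8, h9⟩ := f2_aniso h2 hN u hu a ha0 ha (v 0) (v 1) (by
      rw [map_zero] at h7
      rw [← h7]
      simp only [map_add, map_mul, map_pow, map_sum, Algebra.algebraMap_self, RingHom.id_apply]
      rfl)
    funext i
    fin_cases i
    · exact h8
    · exact h9) (![1, c]) (by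
      rw [hq M]
      simp only [Matrix.cons_val_zero, Matrix.cons_val_one]
      have e1 : algebraMap K M (∑ i, U i ^ 3) = ∑ i, u i ^ 3 := by
        rw [map_sum]
        rfl
      have e2 : algebraMap K M (∑ i, U i ^ 2 * A i) = ∑ i, u i ^ 2 * algebraMap k M (a i) := by
        rw [map_sum]
        rfl
      have e3 : algebraMap K M (∑ i, A i ^ 2 * U i) = ∑ i, algebraMap k M (a i) ^ 2 * u i := by
        rw [map_sum]
        rfl
      rw [e1, e2, e3]
      have e4 : ∑ i, algebraMap k M (a i) ^ 3 = 0 := by
        rw [← map_zero (algebraMap k M), ← ha, map_sum]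
        refine Finset.sum_congr rfl fun i _ => ?_
        rw [map_pow]
      have e5 : ∑ i, x i ^ 3 = ∑ i, (u i ^ 3 + c * (u i ^ 2 * algebraMap k M (a i)) +
          c ^ 2 * (algebraMap k M (a i) ^ 2 * u i) - c ^ 3 * algebraMap k M (a i) ^ 3) := by
        refine Finset.sum_congr rfl fun i _ => ?_
        have e6 : x i = u i - c * algebraMap k M (a i) := by
          rw [hudef, ← hy i]
          ring
        rw [e6]
        linear_combination (-2 * c * u i ^ 2 * algebraMap k M (a i) +
          c ^ 2 * algebraMap k M (a i) ^ 2 * u i) * h2M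
      rw [Finset.sum_sub_distrib, Finset.sum_add_distrib, Finset.sum_add_distrib,
        ← Finset.mul_sum, ← Finset.mul_sum, ← Finset.mul_sum, e4, mul_zero, sub_zero, hx] at e5
      rw [one_pow, one_mul, one_mul]
      exact e5.symm)
  have := congrFun hzero 0
  simp at this

/-- Let `x, y` be odd data of level `(N + 1, 0)`, `u = x + y`. `y ≠ 0` (otherwise `F(u) = F(x) = 0`, but `u` is
algebraically independent), say `y_j ≠ 0`; `a_i = y_i / y_j ∈ rat k y` is algebraic over `k` (`trdeg = 0`:
`Algebra.trdeg_eq_zero_iff` or the like), `λ = y_j`, `y = λ a`, `F(a) = 0`. Let `k' = adjoin k (range a)`, an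
algebraic extension of `k`; `u` is algebraically independent over `k'`; `K' = adjoin k' (range u)`;
`[M : K']` divides `[M : k(u)]` (`k(u) ⊂ K'`), so it is odd. Expanding `0 = F(x) = F(u + λ a)`
(characteristic two): `F(u) + λ ∑ u_i² a_i + λ² ∑ a_i² u_i = 0`. The quadratic form
`s² F(u) + s l ∑ u_i² a_i + l² ∑ a_i² u_i` over `K'` is anisotropic by `const_poly` (clear denominators), so it
is anisotropic over `M` by `springer_poly` (file `OddDegree.lean`, `t = 0`; `M / K'` has a primitive element,
see the proof of `springer` there, `K2_sep` in `K/K2.lean`). But `(1, λ)` is a zero. -/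
theorem base {N : ℕ} (hN : 2 ≤ N) : S.{v, u} (N + 1) 0 := by
  intro k M _ _ _ x y hd
  -- `y` is not zero
  obtain ⟨j, hj⟩ : ∃ j, y j ≠ 0 := by
    by_contra hcon
    push Not at hcon
    have h1 : (fun i => x i + y i) = x := by
      funext i
      rw [hcon i, add_zero]
    have h3 := hd.ind
    rw [h1] at h3
    have h4 : (∑ i : Fin (N + 1), MvPolynomial.X i ^ 3 : MvPolynomial (Fin (N + 1)) k) = 0 := by
      apply h3
      rw [map_zero, map_sum]
      rw [← hd.Fx]
      refine Finset.sum_congr rfl fun i _ => ?_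
      rw [map_pow, MvPolynomial.aeval_X]
    have h5 := congrArg (MvPolynomial.eval (fun i : Fin (N + 1) => if i = 0 then (1 : k) else 0)) h4
    rw [map_zero, map_sum, Fin.sum_univ_succ] at h5
    simp at h5
  -- the ratios are algebraic over `k`
  have halg : Algebra.IsAlgebraic k (rat k y) := by
    rw [← trdeg_eq_zero_iff]
    have := hd.small
    rw [Nat.cast_zero] at this
    exact le_antisymm this (zero_le)
  have hmem : ∀ i, y i / y j ∈ algebraicClosure k M := by
    intro i
    rw [mem_algebraicClosure_iff]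
    have h1 : y i / y j ∈ rat k y := subset_adjoin _ _ ⟨i, j, rfl⟩
    have h3 := halg.isAlgebraic (⟨y i / y j, h1⟩ : rat k y)
    exact (isAlgebraic_algebraMap_iff (algebraMap (rat k y) M).injective).mpr h3
  let k' := algebraicClosure k M
  let a : Fin (N + 1) → k' := fun i => ⟨y i / y j, hmem i⟩
  have h2k' : (2 : k') = 0 := by
    rw [← map_ofNat (algebraMap k k') 2, hd.two, map_zero]
  have hu' : AlgebraicIndependent k' (fun i => x i + y i) :=
    AlgebraicIndependent.algebraicClosure hd.ind
  have hle : adjoin k (Set.range fun i => x i + y i) ≤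
      (adjoin k' (Set.range fun i => x i + y i)).restrictScalars k := by
    rw [adjoin_le_iff]
    exact subset_adjoin _ _
  have hdvd := finrank_dvd_of_le_left hle
  have hodd' : Odd (Module.finrank (adjoin k' (Set.range fun i => x i + y i)) M) :=
    hd.odd.of_dvd_nat hdvd
  refine f2_const h2k' hN x y hu' hodd' hd.Fx a ?_ ?_ (y j) ?_
  · intro h0
    have h1 := congrArg Subtype.val (congrFun h0 j)
    change y j / y j = 0 at h1
    rw [div_self hj] at h1
    exact one_ne_zero h1
  · apply Subtype.ext
    have h1 : ((∑ i, a i ^ 3 : k') : M) = ∑ i, (y i / y j) ^ 3 := by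
      change algebraMap k' M (∑ i, a i ^ 3) = _
      rw [map_sum]
      rfl
    rw [h1]
    simp_rw [div_pow]
    rw [← Finset.sum_div, hd.Fy, zero_div]
    rfl
  · intro i
    change y i = y j * (y i / y j)
    rw [mul_div_cancel₀ _ hj]

end MP2619.R
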