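import Pool.Agent.Lib.MP_2619d0_ag.R.G1
import Pool.Agent.Lib.MP_2619d0_ag.R.E2
import Pool.Agent.Lib.MP_2619d0_ag.R.F2

/-!
The main theorem in characteristic two.
-/

set_option autoImplicit false

namespace MP2619.R

universe v u

theorem S_mono {n D D' : ℕ} (h : D ≤ D') (hS : S.{v, u} n D') : S.{v, u} n D := by
  intro k M _ _ _ x y hd
  exact hS k M x y { hd with small := hd.small.trans (by exact_mod_cast h) }

/-- There are no odd data of level `(n, D)` if `n ≥ 3`, `3 D ≤ n - 1` and `(n, D) ≠ (4, 1)`. -/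
theorem S_main : ∀ (n D : ℕ), 3 ≤ n → 3 * D + 1 ≤ n → (n = 4 → D = 0) → S.{v, u} n D := by
  intro n
  induction n using Nat.strong_induction_on with
  | _ n ih =>
    intro D hn hD h4
    rcases Nat.eq_zero_or_pos D with rfl | hD0
    · obtain ⟨N, rfl⟩ : ∃ N, n = N + 1 := ⟨n - 1, by omega⟩
      exact base (by omega)
    · obtain ⟨E, rfl⟩ : ∃ E, D = E + 1 := ⟨D - 1, by omega⟩
      have hn5 : 5 ≤ n := by
        by_contra hcon
        have : n = 4 := by omega
        have := h4 this
        omega
      by_cases h3 : 3 ∣ n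
      · -- n divisible by three
        have h6 : 6 ≤ n := by omega
        have hprev : S.{v, u} (n - 1) (E + 1) :=
          ih (n - 1) (by omega) (E + 1) (by omega) (by omega) (by omega)
        have hup : S.{v, u} (n + 1) (E + 1 + 1) := by
          obtain ⟨m, rfl⟩ : ∃ m, n = m + 1 := ⟨n - 1, by omega⟩
          exact step_not_three (by omega) hprev
        obtain ⟨m, rfl⟩ : ∃ m, n = m + 1 := ⟨n - 1, by omega⟩
        exact etrick hup
      · obtain ⟨m, rfl⟩ : ∃ m, n = m + 1 + 1 := ⟨n - 2, by omega⟩
        exact step_not_three (by omega) (ih m (by omega) E (by omega) (by omega) (by omega))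

end MP2619.R
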