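import Pool.Agent.Lib.MP_2619d0_ag.R.TF8
import Pool.Agent.Lib.MP_2619d0_ag.K.K8

/-!
Families of quadratically parametrised varieties with a point of small transcendence degree.
-/

set_option autoImplicit false

namespace MP2619.R

universe u

open MvPolynomial Pool.Agent.Lib.MP_2619d0_ag Pool.Agent.Lib.MP_2619d0_ag.T MP2619.K MP2619.T

theorem TQ_trdeg {n : ℕ} {E L : Type u} [Field E] [Field L] [Algebra ℂ E] [Algebra ℂ L]
    [Algebra E L] [IsScalarTower ℂ E L] (w : Fin n → E) :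
    Algebra.trdeg ℂ (ratioF (fun j => algebraMap E L (w j))) ≤ Algebra.trdeg ℂ (ratioF w) := by
  have h1 : ratioF (fun j => algebraMap E L (w j)) =
      (ratioF w).map (IsScalarTower.toAlgHom ℂ E L) := by
    unfold ratioF
    rw [IntermediateField.adjoin_map]
    congr 1
    ext z
    constructor
    · rintro ⟨i, j, rfl⟩
      exact ⟨w i / w j, ⟨i, j, rfl⟩, map_div₀ _ _ _⟩
    · rintro ⟨_, ⟨i, j, rfl⟩, rfl⟩
      exact ⟨i, j, map_div₀ _ _ _⟩
  rw [h1]
  let e := (ratioF w).equivMap (IsScalarTower.toAlgHom ℂ E L)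
  exact e.trdeg_eq.ge

variable {m n : ℕ} {E L : Type u} [Field E] [Field L] [Algebra ℂ E] [Algebra ℂ L] [Algebra E L]
  [IsScalarTower ℂ E L]

theorem quad_small (hmain : ∀ n D : ℕ, 5 ≤ n → 3 * D ≤ n - 1 → S.{0, u} n D)
    (hm : 3 ≤ m) (hn : 2 ≤ n) {F : MvPolynomial (Fin (m+1+1)) ℂ} (hF : VG F)
    (φ : Fin (m+1+1) → MvPolynomial (Fin n) E)
    (hφ : ∀ j, (φ j).IsHomogeneous 2) (p : Fin n → L) (hp : GenE E p)
    (x : Fin (m+1+1) → L) (hxd : x = fun j => aeval p (φ j)) (hx : HG F x)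
    (e : Fin n → E) (he : e ≠ 0)
    (hD : 3 * Algebra.trdeg ℂ (ratioF (fun j => eval e (φ j))) ≤ (m : Cardinal.{u}) + 1) :
    ¬ Odd (Module.finrank (ratioField x) L) := by
  intro hodd
  have h0 : aeval φ F = 0 := by
    refine hp (2 * 3) _ (hF.1.aeval _ hφ) ?_
    have h2 : aeval x F = ((aeval p : MvPolynomial (Fin n) E →ₐ[E] L).restrictScalars ℂ)
        (aeval φ F) := by
      rw [MvPolynomial.comp_aeval_apply, hxd]
      rfl
    rw [(hx 3 F hF.1).2 dvd_rfl] at h2
    exact h2.symm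
  have hFw : ∀ e : Fin n → E, aeval (fun j => algebraMap E L (eval e (φ j))) F = 0 := by
    intro e
    have h2 := fc_phi (L := L) hF φ h0 (fun i => algebraMap E L (e i))
    have h3 : (fun j => aeval (fun i => algebraMap E L (e i)) (φ j)) =
        fun j => algebraMap E L (eval e (φ j)) := by
      funext j
      have h4 := MvPolynomial.aeval_algebraMap_apply (A := E) L e (φ j)
      rw [← MvPolynomial.aeval_eq_eval]
      exact h4
    rw [h3] at h2
    rw [← h2]
    exact aeval_eq_Fc hF.1 _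
  refine quad_false (by omega) hn hF φ hφ h0 p hp x hxd hx hodd e he _ rfl ?_
  intro hne
  obtain ⟨h1, -⟩ := third_hom2 (N := m+1) (by omega) hF x hx hodd _ (hFw e) hne
  refine third_convert (by omega) hF _ x h1 ?_
  exact third_small_main hmain hm hF x hx hodd _ (hFw e) hne
    (le_trans (mul_le_mul_right (TQ_trdeg _) 3) hD)

end MP2619.R
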