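import Pool.Agent.Lib.MP_2619d0_ag.R.Defs

/-!
Row A8: towers of fields generated by algebraically independent elements.
-/

set_option autoImplicit false

namespace MP2619.R

universe v u

open IntermediateField

variable {k : Type v} {M : Type u} [Field k] [Field M] [Algebra k M]

/-- `u` is a transcendence basis of a field over which `M` has odd degree. -/
def Pr (k : Type v) {M : Type u} [Field k] [Field M] [Algebra k M] {n : ℕ} (u : Fin n → M) : Prop :=
  AlgebraicIndependent k u ∧ Odd (Module.finrank (adjoin k (Set.range u)) M)

/-- `M` is finite over `k(u)`, `u` algebraically independent, `n` elements, so `trdeg k M = n` and `M` is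
finitely generated over `k`. For `n` other elements `z` of `M`: `z` is algebraically independent iff
`z` is a transcendence basis iff `M` is algebraic over `k(z)` iff `M` is finite over `k(z)`
(`Algebra.trdeg`, `AlgebraicIndependent.isTranscendenceBasis_of_trdeg_le`-type lemmas,
`exists_isTranscendenceBasis_subset`; a finitely generated algebraic extension is finite). -/
theorem fin_iff_ind {n : ℕ} (u z : Fin n → M) (hu : AlgebraicIndependent k u)
    (hfin : Module.finrank (adjoin k (Set.range u)) M ≠ 0) :
    AlgebraicIndependent k z ↔ Module.finrank (adjoin k (Set.range z)) M ≠ 0 := by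
  have hfd : FiniteDimensional (adjoin k (Set.range u)) M :=
    Module.finite_of_finrank_pos (Nat.pos_of_ne_zero hfin)
  have halgF : Algebra.IsAlgebraic (adjoin k (Set.range u)) M := Algebra.IsAlgebraic.of_finite _ _
  have hub : IsTranscendenceBasis k u :=
    hu.isTranscendenceBasis_iff_isAlgebraic.mpr (isAlgebraic_adjoin_iff_top.mp halgF)
  have htr := hub.lift_cardinalMk_eq_trdeg
  have : Algebra.EssFiniteType k (adjoin k (Set.range u)) :=
    essFiniteType_iff.mpr (fg_adjoin_of_finite (Set.finite_range u))
  have : Algebra.EssFiniteType k M := Algebra.EssFiniteType.comp k (adjoin k (Set.range u)) M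
  have : Algebra.EssFiniteType (adjoin k (Set.range z)) M :=
    Algebra.EssFiniteType.of_comp k (adjoin k (Set.range z)) M
  constructor
  · intro hz
    have hzb : IsTranscendenceBasis k z :=
      hz.isTranscendenceBasis_of_lift_trdeg_le_of_finite (le_of_eq (by rw [← htr]))
    have halgz : Algebra.IsAlgebraic (adjoin k (Set.range z)) M :=
      isAlgebraic_adjoin_iff_top.mpr (hz.isTranscendenceBasis_iff_isAlgebraic.mp hzb)
    have hfd2 : Module.Finite (adjoin k (Set.range z)) M :=
      Algebra.finite_of_essFiniteType_of_isAlgebraic
    exact (Module.finrank_pos).ne'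
  · intro hz
    have : FiniteDimensional (adjoin k (Set.range z)) M :=
      Module.finite_of_finrank_pos (Nat.pos_of_ne_zero hz)
    have halgz : Algebra.IsAlgebraic (adjoin k (Set.range z)) M := Algebra.IsAlgebraic.of_finite _ _
    have : Algebra.IsAlgebraic (Algebra.adjoin k (Set.range z)) M :=
      isAlgebraic_adjoin_iff_top.mp halgz
    have hzb : IsTranscendenceBasis k z :=
      Algebra.IsAlgebraic.isTranscendenceBasis_of_lift_le_trdeg_of_finite k z (le_of_eq (by rw [← htr]))
    exact hzb.1

/-- `k(a, v) = k(v)(a)`: `adjoin_adjoin_left`, `restrictScalars`; the degrees agree because the two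
subfields of `M` have the same elements. -/
theorem finrank_cons {n : ℕ} (a : M) (v : Fin n → M) :
    Module.finrank (adjoin k (Set.range (Fin.cons a v : Fin (n + 1) → M))) M =
      Module.finrank (adjoin (adjoin k (Set.range v)) ({a} : Set M)) M := by
  have h : adjoin k (Set.range (Fin.cons a v : Fin (n + 1) → M)) =
      (adjoin (adjoin k (Set.range v)) ({a} : Set M)).restrictScalars k := by
    rw [adjoin_adjoin_left, Fin.range_cons, Set.union_singleton]
  rw [h]
  rfl

/-- `algebraicIndependent_fin_succ`-type lemmas (`AlgebraicIndependent.option_iff`,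
`algebraicIndependent_insert`, ...), with `Algebra.adjoin` replaced by the field generated. -/
theorem ind_cons {n : ℕ} (a : M) (v : Fin n → M) :
    AlgebraicIndependent k (Fin.cons a v : Fin (n + 1) → M) ↔
      AlgebraicIndependent k v ∧ Transcendental (adjoin k (Set.range v)) a := by
  have h := algebraicIndependent_equiv' (R := k) (finSuccEquiv n)
    (f := fun o : Option (Fin n) => o.elim a v) (g := (Fin.cons a v : Fin (n + 1) → M)) (by
      funext i
      refine Fin.cases ?_ (fun i => ?_) i
      · simp
      · simp)
  rw [h, AlgebraicIndependent.option_iff, IntermediateField.transcendental_adjoin_iff]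

theorem pr_cons {n : ℕ} (a : M) (v : Fin n → M) : Pr k (Fin.cons a v : Fin (n + 1) → M) ↔
    AlgebraicIndependent k v ∧ Transcendental (adjoin k (Set.range v)) a ∧
      Odd (Module.finrank (adjoin (adjoin k (Set.range v)) ({a} : Set M)) M) := by
  rw [Pr, ind_cons, finrank_cons, and_assoc]

/-- If the two fields are equal then so are the degrees, and `u` is algebraically independent by
`fin_iff_ind`. -/
theorem pr_of_adjoin {n : ℕ} (u v : Fin n → M) (h : adjoin k (Set.range u) = adjoin k (Set.range v))
    (hv : Pr k v) : Pr k u := by
  have hne : Module.finrank (adjoin k (Set.range v)) M ≠ 0 := by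
    intro h0
    have := hv.2
    rw [h0] at this
    exact absurd this (by decide)
  refine ⟨(fin_iff_ind v u hv.1 hne).2 ?_, ?_⟩
  · rw [h]
    exact hne
  · rw [h]
    exact hv.2

/-- The case of one element: `U0` transcendental over `K`, `M / K(U0)` finite. -/
theorem fin_of_trans {K : Type v} [Field K] [Algebra K M] (U0 : M)
    (hfin0 : Module.finrank (adjoin K ({U0} : Set M)) M ≠ 0)
    (h0 : Transcendental K U0) (U : M) :
    Transcendental K U ↔ Module.finrank (adjoin K ({U} : Set M)) M ≠ 0 := by
  have hr : ∀ x : M, Set.range (fun _ : Fin 1 => x) = {x} := fun x => Set.range_const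
  have hi : ∀ x : M, AlgebraicIndependent K (fun _ : Fin 1 => x) ↔ Transcendental K x :=
    fun x => algebraicIndependent_unique_type_iff
  have h := fin_iff_ind (k := K) (fun _ : Fin 1 => U0) (fun _ : Fin 1 => U) ((hi U0).2 h0)
    (by rw [hr]; exact hfin0)
  rw [hi, hr] at h
  exact h

end MP2619.R
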