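import Pool.Agent.Lib.MP_2619d0_ag.R.A5
import Pool.Agent.Lib.MP_2619d0_ag.R.A8

/-!
Row A9: passing to the residue field of an odd place.
-/

set_option autoImplicit false

namespace MP2619.R

universe v u

open IntermediateField

variable {k : Type v} {M : Type u} [Field k] [Field M] [Algebra k M]

/-- the residue field as an algebra over the constants -/
theorem cst_of_tower {K : IntermediateField k M} {O : ValuationSubring M} (h : Cst K O) :
    Cst k O := by
  intro c
  exact h (algebraMap k K c)

/-- Let `O` be an odd place of `M` over `K = k(v)`, `v` algebraically independent over `k`. The residue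
field `κ` of `O` is an extension of odd degree of the field generated by the residues `v̄`, which are
algebraically independent over `k`. (`K → κ` is injective and maps `v` to `v̄`; its range is
`adjoin k (range v̄)`: the image of `adjoin k (range v)`.) -/
theorem pass {n : ℕ} (v : Fin n → M) (hv : AlgebraicIndependent k v) (O : ValuationSubring M)
    (hO : OP (adjoin k (Set.range v)) O) (vO : Fin n → O) (hvO : ∀ i, (vO i : M) = v i) :
    letI : Algebra k (IsLocalRing.ResidueField O) := (rc (cst_of_tower hO.cst)).toAlgebra
    Pr k (fun i => IsLocalRing.residue O (vO i)) := by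
  letI : Algebra k (IsLocalRing.ResidueField O) := (rc (cst_of_tower hO.cst)).toAlgebra
  let φ : adjoin k (Set.range v) →ₐ[k] IsLocalRing.ResidueField O :=
    { rc hO.cst with commutes' := fun c => rfl }
  have hφ : ∀ z, φ z = rc hO.cst z := fun z => rfl
  have hmem : ∀ i, v i ∈ adjoin k (Set.range v) := fun i => subset_adjoin k _ ⟨i, rfl⟩
  let v' : Fin n → adjoin k (Set.range v) := fun i => ⟨v i, hmem i⟩
  have hv' : AlgebraicIndependent k v' := by
    rw [← AlgHom.algebraicIndependent_iff (adjoin k (Set.range v)).val
      (RingHom.injective (adjoin k (Set.range v)).val.toRingHom)]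
    exact hv
  have hφv : ∀ i, φ (v' i) = IsLocalRing.residue O (vO i) := by
    intro i
    have h1 : vO i = ⟨v i, hO.cst (v' i)⟩ := Subtype.ext (hvO i)
    rw [h1]
    rfl
  have hcomp : (fun i => IsLocalRing.residue O (vO i)) = φ ∘ v' := by
    funext i
    exact (hφv i).symm
  refine ⟨?_, ?_⟩
  · rw [hcomp]
    exact (AlgHom.algebraicIndependent_iff φ (RingHom.injective φ.toRingHom)).2 hv'
  · have hE : (adjoin k (Set.range fun i => IsLocalRing.residue O (vO i))).toSubfield =
        (rc hO.cst).fieldRange := by
      apply le_antisymm
      · have h2 : adjoin k (Set.range fun i => IsLocalRing.residue O (vO i)) ≤ φ.fieldRange := by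
          rw [adjoin_le_iff]
          rintro _ ⟨i, rfl⟩
          exact ⟨v' i, hφv i⟩
        exact h2
      · rintro _ ⟨⟨z, hz⟩, rfl⟩
        have h3 : φ ⟨z, hz⟩ ∈ adjoin k (Set.range fun i => IsLocalRing.residue O (vO i)) := by
          refine adjoin_induction k (s := Set.range v)
            (p := fun x hx => φ ⟨x, hx⟩ ∈
              adjoin k (Set.range fun i => IsLocalRing.residue O (vO i))) ?_ ?_ ?_ ?_ ?_ hz
          · rintro _ ⟨i, rfl⟩
            have h4 := hφv i
            exact subset_adjoin k _ ⟨i, h4.symm⟩
          · intro c
            have h5 : φ ⟨algebraMap k M c, (adjoin k (Set.range v)).algebraMap_mem c⟩ =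
              algebraMap k _ c := φ.commutes c
            rw [h5]
            exact (adjoin k (Set.range fun i => IsLocalRing.residue O (vO i))).algebraMap_mem c
          · intro x y hx hy h6 h7
            have h8 : φ ⟨x + y, add_mem hx hy⟩ = φ ⟨x, hx⟩ + φ ⟨y, hy⟩ := by
              rw [← map_add]
              rfl
            rw [h8]
            exact add_mem h6 h7
          · intro x hx h6
            have h8 : φ ⟨x⁻¹, inv_mem hx⟩ = (φ ⟨x, hx⟩)⁻¹ := by
              rw [← map_inv₀]
              rfl
            rw [h8]
            exact inv_mem h6
          · intro x y hx hy h6 h7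
            have h8 : φ ⟨x * y, mul_mem hx hy⟩ = φ ⟨x, hx⟩ * φ ⟨y, hy⟩ := by
              rw [← map_mul]
              rfl
            rw [h8]
            exact mul_mem h6 h7
        exact h3
    have h9 : Module.finrank (adjoin k (Set.range fun i => IsLocalRing.residue O (vO i)))
        (IsLocalRing.ResidueField O) = Module.finrank
          (adjoin k (Set.range fun i => IsLocalRing.residue O (vO i))).toSubfield
          (IsLocalRing.ResidueField O) := rfl
    rw [h9, hE]
    have h10 := hO.odd
    unfold rdeg at h10
    rw [dif_pos hO.cst] at h10
    exact h10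

end MP2619.R
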