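import Pool.Agent.Lib.MP_2619d0_ag.R.D1
import Pool.Agent.Lib.MP_2619d0_ag.R.A9

/-!
Row D3: the place `t = 1` of `M(t)`.
-/

set_option autoImplicit false

namespace MP2619.R

universe v u

open IntermediateField

/-- the valuation ring of a prime element of a Dedekind domain -/
theorem D3_place {S M : Type*} [CommRing S] [IsDedekindDomain S] [Field M] [Algebra S M]
    [IsFractionRing S M] (π : S) (hPp : (Ideal.span {π}).IsPrime) (hπ0 : π ≠ 0) :
    ∃ O : ValuationSubring M,
      (∀ a, algebraMap S M a ∈ O) ∧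
      (∀ a, O.valuation (algebraMap S M a) < 1 ↔ a ∈ Ideal.span {π}) ∧
      (∀ x ∈ O, ∃ a, O.valuation (x - algebraMap S M a) < 1) ∧
      IsUf O (algebraMap S M π) ∧
      ∀ O' : ValuationSubring M, (∀ a, algebraMap S M a ∈ O') →
        (∀ a ∈ Ideal.span {π}, O'.valuation (algebraMap S M a) < 1) → O' = O := by
  classical
  have hP : Ideal.span {π} ≠ ⊥ := by
    rw [Ne, Ideal.span_singleton_eq_bot]
    exact hπ0
  let v : IsDedekindDomain.HeightOneSpectrum S := ⟨Ideal.span {π}, hPp, hP⟩
  obtain ⟨O1, -, -, -, -, hu⟩ :=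
    Pool.Agent.Lib.MP_2619d0_ag.T.dedekind_place (S := S) (M := M) (Ideal.span {π}) hPp hP
  set V := v.valuation M with hV
  have hE : V.IsEquiv V.valuationSubring.valuation :=
    Valuation.isEquiv_valuation_valuationSubring V
  have hlt : ∀ x, V.valuationSubring.valuation x < 1 ↔ V x < 1 := fun x =>
    (Valuation.isEquiv_iff_val_lt_one.mp hE).symm
  have heq : ∀ x, V.valuationSubring.valuation x = 1 ↔ V x = 1 := fun x =>
    (Valuation.isEquiv_iff_val_eq_one.mp hE).symm
  have hPmem : ∀ a : S, V (algebraMap S M a) < 1 ↔ a ∈ Ideal.span {π} := fun a =>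
    v.valuation_lt_one_iff_mem a
  have hle1 : ∀ a : S, V (algebraMap S M a) ≤ 1 := fun a => v.valuation_le_one a
  have hVπ : V (algebraMap S M π) = WithZero.exp (-1) := by
    rw [hV, v.valuation_of_algebraMap]
    exact v.intValuation_singleton hπ0 rfl
  have hπM : algebraMap S M π ≠ 0 := by
    intro h
    rw [h, map_zero] at hVπ
    exact absurd hVπ.symm WithZero.exp_ne_zero
  have hO1 : V.valuationSubring = O1 := hu _ (fun a => hle1 a) (fun a ha => by
    rw [hlt]
    exact (hPmem a).mpr ha)
  refine ⟨V.valuationSubring, fun a => hle1 a, fun a => ?_, fun x hx => ?_,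
    ⟨hπM, ?_, fun a ha => ?_⟩, fun O' h1 h2 => ?_⟩
  · rw [hlt]
    exact hPmem a
  · obtain ⟨a, ha⟩ := v.exists_valuation_sub_lt_of_integer (K := M) (x := x) hx 1
    refine ⟨a, ?_⟩
    rw [hlt, Valuation.map_sub_swap]
    simpa using ha
  · rw [hlt, hVπ, ← WithZero.exp_zero, WithZero.exp_lt_exp]
    norm_num
  · have h0 : V a ≠ 0 := (Valuation.ne_zero_iff _).mpr ha
    obtain ⟨k, hk⟩ : ∃ k : ℤ, V a = WithZero.exp k := ⟨_, (WithZero.exp_log h0).symm⟩
    refine ⟨-k, a / algebraMap S M π ^ (-k), ?_, ?_⟩
    · rw [heq, map_div₀, map_zpow₀, hVπ, hk, ← WithZero.exp_zsmul, ← WithZero.exp_sub,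
        ← WithZero.exp_zero]
      congr 1
      simp
    · rw [div_mul_cancel₀ _ (zpow_ne_zero _ hπM)]
  · rw [hO1]
    exact hu O' h1 h2

variable {M : Type u} {M' : Type u} [Field M] [Field M'] [Algebra M M']

/-- `t` transcendental over `M`, `M' = M(t)`. The localisation of `M[t]` at the prime ideal `(t - c)`,
`c ∈ M`, as a valuation ring `O` of `M'`: a discrete valuation ring with uniformizer `t - c` and
residue field `M`; it is the only valuation ring `O'` of `M'` that contains `M` and for which
`val (t - c) < 1` (elements of `M[t]` outside of `(t - c)` have nonzero residue in `M`, so `O ≤ O'`, and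
then `O' = O`, compare `dedekind_place` in `T/LT1.lean`). -/
theorem place_at (t : M') (ht : Transcendental M t) (hgen : adjoin M ({t} : Set M') = ⊤) (c : M) :
    ∃ O : ValuationSubring M', Cst M O ∧ DV O ∧ O.valuation (t - algebraMap M M' c) < 1 ∧
      ord O (t - algebraMap M M' c) = 1 ∧
      (∀ a : O, ∃ b : M, O.valuation ((a : M') - algebraMap M M' b) < 1) ∧
      ∀ O' : ValuationSubring M', Cst M O' → O'.valuation (t - algebraMap M M' c) < 1 → O' = O := by
  classical
  letI : Algebra (Polynomial M) M' := (Polynomial.aeval t).toRingHom.toAlgebra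
  have hmap : ∀ p : Polynomial M, algebraMap (Polynomial M) M' p = Polynomial.aeval t p :=
    fun p => rfl
  have hinj : Function.Injective (algebraMap (Polynomial M) M') := by
    rw [injective_iff_map_eq_zero]
    intro p hp
    by_contra h0
    exact ht ⟨p, h0, hp⟩
  haveI : FaithfulSMul (Polynomial M) M' := (faithfulSMul_iff_algebraMap_injective _ _).mpr hinj
  haveI : IsFractionRing (Polynomial M) M' := by
    refine IsFractionRing.of_field (Polynomial M) M' (fun z => ?_)
    have hz : z ∈ adjoin M ({t} : Set M') := by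
      rw [hgen]
      exact IntermediateField.mem_top
    obtain ⟨r, s, hrs⟩ := (IntermediateField.mem_adjoin_simple_iff M z).mp hz
    exact ⟨r, s, hrs⟩
  have hX0 : (Polynomial.X - Polynomial.C c : Polynomial M) ≠ 0 := Polynomial.X_sub_C_ne_zero c
  have hP : (Ideal.span {(Polynomial.X - Polynomial.C c : Polynomial M)}).IsPrime :=
    (Ideal.span_singleton_prime hX0).mpr (Polynomial.prime_X_sub_C c)
  obtain ⟨O, h1, h2, h3, h4, h5⟩ := D3_place (S := Polynomial M) (M := M')
    (Polynomial.X - Polynomial.C c) hP hX0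
  have hXc : algebraMap (Polynomial M) M' (Polynomial.X - Polynomial.C c)
      = t - algebraMap M M' c := by
    rw [hmap]
    simp
  have hC : ∀ a : M, algebraMap (Polynomial M) M' (Polynomial.C a) = algebraMap M M' a := by
    intro a
    rw [hmap]
    simp
  rw [hXc] at h4
  refine ⟨O, fun a => ?_, ⟨_, h4⟩, h4.2.1, ?_, fun a => ?_, fun O' h6 h7 => ?_⟩
  · rw [← hC]
    exact h1 _
  · exact ord_eq ⟨_, h4⟩ h4 (η := 1) (map_one _) (by rw [zpow_one, one_mul])
  · obtain ⟨p, hp⟩ := h3 a a.2
    refine ⟨p.eval c, ?_⟩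
    have h8 : O.valuation (algebraMap (Polynomial M) M' (p - Polynomial.C (p.eval c))) < 1 := by
      rw [h2, Ideal.mem_span_singleton]
      exact Polynomial.X_sub_C_dvd_sub_C_eval
    have h9 : (a : M') - algebraMap M M' (p.eval c)
        = ((a : M') - algebraMap (Polynomial M) M' p)
          + algebraMap (Polynomial M) M' (p - Polynomial.C (p.eval c)) := by
      rw [map_sub, hC]
      ring
    rw [h9]
    exact lt_of_le_of_lt (Valuation.map_add _ _ _) (max_lt hp h8)
  · have hc' : algebraMap M M' c ∈ O' := h6 c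
    have ht' : t ∈ O' := by
      have h8 : t - algebraMap M M' c ∈ O' := (O'.valuation_le_one_iff _).mp h7.le
      have h9 := O'.add_mem _ _ h8 hc'
      rwa [sub_add_cancel] at h9
    have hall : ∀ p : Polynomial M, algebraMap (Polynomial M) M' p ∈ O' := by
      intro p
      rw [hmap, Polynomial.aeval_eq_sum_range]
      refine sum_mem (fun i _ => ?_)
      rw [Algebra.smul_def]
      exact O'.mul_mem _ _ (h6 _) (pow_mem ht' i)
    refine h5 O' hall (fun p hp => ?_)
    obtain ⟨q, rfl⟩ := Ideal.mem_span_singleton.mp hp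
    rw [map_mul, hXc, map_mul]
    have h8 : O'.valuation (algebraMap (Polynomial M) M' q) ≤ 1 :=
      (O'.valuation_le_one_iff _).mpr (hall q)
    exact mul_lt_one_of_lt_of_le h7 h8

end MP2619.R
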