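import Pool.Agent.Lib.MP_2619d0_ag.R.TF7

/-!
The third point theorem for points `x` with `3 trdeg ℂ(x) ≤ m + 1`.
-/

set_option autoImplicit false

namespace MP2619.R

universe u

open MvPolynomial Pool.Agent.Lib.MP_2619d0_ag Pool.Agent.Lib.MP_2619d0_ag.T MP2619.K

theorem TF8_nat {m : ℕ} {c : Cardinal.{u}} (h : 3 * c ≤ (m : Cardinal.{u}) + 1) :
    ∃ D : ℕ, c = D ∧ 3 * D ≤ m + 1 := by
  have h1 : c ≤ ((m + 1 : ℕ) : Cardinal.{u}) := by
    have h2 : c ≤ 3 * c := by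
      calc c = 1 * c := (one_mul c).symm
        _ ≤ 3 * c := mul_le_mul_left (by norm_num) c
    refine h2.trans (h.trans ?_)
    push_cast
    exact le_rfl
  obtain ⟨D, hD⟩ := Cardinal.lt_aleph0.1 (h1.trans_lt (Cardinal.natCast_lt_aleph0 (n := m + 1)))
  refine ⟨D, hD, ?_⟩
  rw [hD] at h
  exact_mod_cast h

theorem third_small_main (hmain : ∀ n D : ℕ, 5 ≤ n → 3 * D ≤ n - 1 → S.{0, u} n D) {m : ℕ}
    (hm : 3 ≤ m) {F : MvPolynomial (Fin (m + 1 + 1)) ℂ} (hF : VG F) {L : Type u} [Field L]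
    [Algebra ℂ L] (y : Fin (m + 1 + 1) → L) (hy : IsGP F y)
    (hodd : Odd (Module.finrank (ratioF y) L)) (x : Fin (m + 1 + 1) → L) (hx : aeval x F = 0)
    (hxy : ∀ c : L, x ≠ c • y)
    (hD : 3 * Algebra.trdeg ℂ (ratioF x) ≤ (m : Cardinal.{u}) + 1) :
    IsGP F (fun i => (∑ j, y j * aeval x (pderiv j F)) * y i -
        (∑ j, x j * aeval y (pderiv j F)) * x i) ∧
      Odd (Module.finrank (ratioF (fun i => (∑ j, y j * aeval x (pderiv j F)) * y i -
        (∑ j, x j * aeval y (pderiv j F)) * x i)) L) := by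
  obtain ⟨D, hD1, hD2⟩ := TF8_nat hD
  exact third_small (N := m + 1) (D := D) (by omega) hF (hmain _ _ (by omega) (by omega))
    (by omega) y hy hodd x hx hxy hD1.le

end MP2619.R
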