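import Pool.Agent.Lib.MP_2619d0_ag.R.Defs

/-!
Row A1: the order function of a discrete valuation ring of a field.
-/

set_option autoImplicit false

namespace MP2619.R

universe v u

variable {M : Type u} [Field M]

/-- `ϖ` is a uniformizer of the discrete valuation ring `O` of the field `M` -/
def IsUf (O : ValuationSubring M) (ϖ : M) : Prop :=
  ϖ ≠ 0 ∧ O.valuation ϖ < 1 ∧ ∀ a : M, a ≠ 0 → ∃ (e : ℤ) (η : M), O.valuation η = 1 ∧ a = η * ϖ ^ e

/-- `O` is a discrete valuation ring of `M` -/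
def DV (O : ValuationSubring M) : Prop := ∃ ϖ : M, IsUf O ϖ

open Classical in
/-- the order of an element (`0` for the element `0`) -/
noncomputable def ord (O : ValuationSubring M) (a : M) : ℤ :=
  if h : a ≠ 0 ∧ DV O then ((h.2.choose_spec.2.2 a h.1).choose) else 0

/-- the pole order -/
noncomputable def pn (O : ValuationSubring M) (a : M) : ℕ := (- ord O a).toNat

variable {O : ValuationSubring M}

theorem ord_zero : ord O (0 : M) = 0 := by
  unfold ord
  rw [dif_neg]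
  exact fun h => h.1 rfl

theorem ord_spec (h : DV O) : ∃ ϖ : M, IsUf O ϖ ∧ ∀ a : M, a ≠ 0 →
    ∃ η : M, O.valuation η = 1 ∧ a = η * ϖ ^ (ord O a) := by
  refine ⟨h.choose, h.choose_spec, fun a ha => ?_⟩
  have h1 : a ≠ 0 ∧ DV O := ⟨ha, h⟩
  have h2 : ord O a = (h.choose_spec.2.2 a ha).choose := by
    unfold ord
    rw [dif_pos h1]
  rw [h2]
  exact (h.choose_spec.2.2 a ha).choose_spec

private theorem A1_val {ϖ η : M} {e : ℤ} (hη : O.valuation η = 1) :
    O.valuation (η * ϖ ^ e) = O.valuation ϖ ^ e := by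
  rw [map_mul, map_zpow₀, hη, one_mul]

private theorem A1_pos {ϖ : M} (hϖ : IsUf O ϖ) : 0 < O.valuation ϖ :=
  zero_lt_iff.mpr ((Valuation.ne_zero_iff _).mpr hϖ.1)

private theorem A1_inj {ϖ : M} (hϖ : IsUf O ϖ) {e e' : ℤ}
    (h : O.valuation ϖ ^ e = O.valuation ϖ ^ e') : e = e' :=
  zpow_right_injective₀ (A1_pos hϖ) hϖ.2.1.ne h

private theorem A1_uf {ϖ ϖ' : M} (hϖ : IsUf O ϖ) (hϖ' : IsUf O ϖ') :
    O.valuation ϖ = O.valuation ϖ' := by
  obtain ⟨e, η, hη, he⟩ := hϖ.2.2 ϖ' hϖ'.1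
  obtain ⟨e', η', hη', he'⟩ := hϖ'.2.2 ϖ hϖ.1
  have h1 : O.valuation ϖ' = O.valuation ϖ ^ e := by
    conv_lhs => rw [he]
    exact A1_val hη
  have h2 : O.valuation ϖ = O.valuation ϖ' ^ e' := by
    conv_lhs => rw [he']
    exact A1_val hη'
  have h3 : 0 < e := by
    by_contra hc
    have h4 : (1 : O.ValueGroup) ≤ O.valuation ϖ ^ e := by
      have := (zpow_le_zpow_iff_right_of_lt_one₀ (A1_pos hϖ) hϖ.2.1 (m := 0) (n := e)).mpr (by omega)
      rwa [zpow_zero] at this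
    rw [← h1] at h4
    exact absurd hϖ'.2.1 (not_lt.mpr h4)
  have h5 : O.valuation ϖ ^ (e * e') = O.valuation ϖ ^ (1 : ℤ) := by
    rw [zpow_mul, ← h1, ← h2, zpow_one]
  have h6 : e * e' = 1 := A1_inj hϖ h5
  have h7 : e = 1 := by
    rcases Int.eq_one_or_neg_one_of_mul_eq_one h6 with h | h <;> omega
  rw [h1, h7, zpow_one]

/-- the order is determined by any uniformizer -/
theorem ord_eq (h : DV O) {ϖ : M} (hϖ : IsUf O ϖ) {a η : M} {e : ℤ} (hη : O.valuation η = 1)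
    (ha : a = η * ϖ ^ e) : ord O a = e := by
  have hη0 : η ≠ 0 := by
    rintro rfl
    rw [map_zero] at hη
    exact zero_ne_one hη
  have ha0 : a ≠ 0 := by
    rw [ha]
    exact mul_ne_zero hη0 (zpow_ne_zero _ hϖ.1)
  obtain ⟨ϖ', hϖ', hs⟩ := ord_spec h
  obtain ⟨η', hη', ha'⟩ := hs a ha0
  have h1 : O.valuation a = O.valuation ϖ ^ e := by
    conv_lhs => rw [ha]
    exact A1_val hη
  have h2 : O.valuation a = O.valuation ϖ' ^ ord O a := by
    conv_lhs => rw [ha']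
    exact A1_val hη'
  rw [h1, ← A1_uf hϖ hϖ'] at h2
  exact (A1_inj hϖ h2).symm

/-- valuations and orders -/
private theorem A1_g (h : DV O) : ∃ ϖ : M, IsUf O ϖ ∧ ∀ a : M, a ≠ 0 →
    O.valuation a = O.valuation ϖ ^ ord O a := by
  obtain ⟨ϖ, hϖ, hs⟩ := ord_spec h
  refine ⟨ϖ, hϖ, fun a ha => ?_⟩
  obtain ⟨η, hη, ha'⟩ := hs a ha
  conv_lhs => rw [ha']
  exact A1_val hη

private theorem A1_of (h : DV O) {a b : M} (ha : a ≠ 0) (hb : b ≠ 0)
    (hab : O.valuation a = O.valuation b) : ord O a = ord O b := by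
  obtain ⟨ϖ, hϖ, hs⟩ := A1_g h
  rw [hs a ha, hs b hb] at hab
  exact A1_inj hϖ hab

theorem ord_mul (h : DV O) {a b : M} (ha : a ≠ 0) (hb : b ≠ 0) :
    ord O (a * b) = ord O a + ord O b := by
  obtain ⟨ϖ, hϖ, hs⟩ := A1_g h
  have h1 := hs (a * b) (mul_ne_zero ha hb)
  have h0 : O.valuation ϖ ≠ 0 := (A1_pos hϖ).ne'
  rw [map_mul, hs a ha, hs b hb, ← zpow_add₀ h0] at h1
  exact (A1_inj hϖ h1).symm

theorem ord_inv (h : DV O) {a : M} (ha : a ≠ 0) : ord O a⁻¹ = - ord O a := by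
  obtain ⟨ϖ, hϖ, hs⟩ := A1_g h
  have h1 := hs a⁻¹ (inv_ne_zero ha)
  rw [map_inv₀, hs a ha, ← zpow_neg] at h1
  exact (A1_inj hϖ h1).symm

theorem ord_one (h : DV O) : ord O (1 : M) = 0 := by
  obtain ⟨ϖ, hϖ, hs⟩ := A1_g h
  have h1 := hs 1 one_ne_zero
  rw [map_one, ← zpow_zero (O.valuation ϖ)] at h1
  exact (A1_inj hϖ h1).symm

theorem ord_pow (h : DV O) {a : M} (ha : a ≠ 0) (n : ℕ) : ord O (a ^ n) = n * ord O a := by
  induction n with
  | zero => rw [pow_zero, ord_one h]; simp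
  | succ n ih =>
    rw [pow_succ, ord_mul h (pow_ne_zero _ ha) ha, ih]
    push_cast
    ring

private theorem A1_le (h : DV O) {a b : M} (ha : a ≠ 0) (hb : b ≠ 0) :
    O.valuation a ≤ O.valuation b ↔ ord O b ≤ ord O a := by
  obtain ⟨ϖ, hϖ, hs⟩ := A1_g h
  rw [hs a ha, hs b hb]
  exact zpow_le_zpow_iff_right_of_lt_one₀ (A1_pos hϖ) hϖ.2.1

theorem mem_iff (h : DV O) {a : M} (ha : a ≠ 0) : a ∈ O ↔ 0 ≤ ord O a := by
  rw [← O.valuation_le_one_iff, ← map_one O.valuation, A1_le h ha one_ne_zero, ord_one h]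

theorem lt_iff (h : DV O) {a : M} (ha : a ≠ 0) : O.valuation a < 1 ↔ 0 < ord O a := by
  rw [← map_one O.valuation, ← not_le, A1_le h one_ne_zero ha, ord_one h, not_le]

theorem unit_iff (h : DV O) {a : M} (ha : a ≠ 0) : O.valuation a = 1 ↔ ord O a = 0 := by
  rw [← map_one O.valuation, le_antisymm_iff, A1_le h one_ne_zero ha, A1_le h ha one_ne_zero,
    ord_one h]
  omega

theorem ord_add (h : DV O) {a b : M} (ha : a ≠ 0) (hb : b ≠ 0) (hab : a + b ≠ 0) :
    min (ord O a) (ord O b) ≤ ord O (a + b) := by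
  have h1 := O.valuation.map_add a b
  rcases le_max_iff.mp h1 with h2 | h2
  · exact (min_le_left _ _).trans ((A1_le h hab ha).mp h2)
  · exact (min_le_right _ _).trans ((A1_le h hab hb).mp h2)

/-- all summands have order at least `e` -/
theorem ord_sum (h : DV O) {ι : Type*} (s : Finset ι) (f : ι → M) (e : ℤ)
    (hf : ∀ i ∈ s, f i = 0 ∨ e ≤ ord O (f i)) : ∑ i ∈ s, f i = 0 ∨ e ≤ ord O (∑ i ∈ s, f i) := by
  classical
  induction s using Finset.induction_on with
  | empty => exact Or.inl Finset.sum_empty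
  | insert a s ha ih =>
    rw [Finset.sum_insert ha]
    have h1 := ih fun i hi => hf i (Finset.mem_insert_of_mem hi)
    have h2 := hf a (Finset.mem_insert_self a s)
    by_cases hb : ∑ i ∈ s, f i = 0
    · rw [hb, add_zero]
      exact h2
    by_cases hc : f a = 0
    · rw [hc, zero_add]
      exact h1
    by_cases hd : f a + ∑ i ∈ s, f i = 0
    · exact Or.inl hd
    · right
      have h3 := ord_add h hc hb hd
      have h4 := h1.resolve_left hb
      have h5 := h2.resolve_left hc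
      exact (le_min h5 h4).trans h3

/-- the strict case -/
theorem ord_add_lt (h : DV O) {a b : M} (ha : a ≠ 0) (hb : b = 0 ∨ ord O a < ord O b) :
    a + b ≠ 0 ∧ ord O (a + b) = ord O a := by
  rcases hb with hb | hb
  · rw [hb, add_zero]
    exact ⟨ha, rfl⟩
  · by_cases hb0 : b = 0
    · rw [hb0, add_zero]
      exact ⟨ha, rfl⟩
    have h1 : O.valuation b < O.valuation a := by
      rw [← not_le, A1_le h ha hb0, not_le]
      exact hb
    have h2 : O.valuation (a + b) = O.valuation a := Valuation.map_add_eq_of_lt_left _ h1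
    have h3 : a + b ≠ 0 := by
      intro h4
      rw [h4, map_zero] at h2
      exact (Valuation.ne_zero_iff _).mpr ha h2.symm
    exact ⟨h3, A1_of h h3 ha h2⟩

theorem ord_neg (a : M) : ord O (-a) = ord O a := by
  by_cases ha : a = 0
  · rw [ha, neg_zero]
  by_cases h : DV O
  · exact A1_of h (neg_ne_zero.mpr ha) ha (Valuation.map_neg _ a)
  · unfold ord
    rw [dif_neg fun h' => h h'.2, dif_neg fun h' => h h'.2]

theorem exists_uf (h : DV O) : ∃ ϖ : M, ϖ ≠ 0 ∧ ord O ϖ = 1 := by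
  obtain ⟨ϖ, hϖ⟩ := h
  exact ⟨ϖ, hϖ.1, ord_eq ⟨ϖ, hϖ⟩ hϖ (η := 1) (e := 1) (map_one _) (by rw [zpow_one, one_mul])⟩

end MP2619.R
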