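import Pool.Agent.Lib.MP_2619d0_ag.R.TF3
import Pool.Agent.Lib.MP_2619d0_ag.T.Defs

/-!
From affine coordinates to the affine cone.
-/

set_option autoImplicit false

namespace MP2619.R

universe u

open MvPolynomial Pool.Agent.Lib.MP_2619d0_ag Pool.Agent.Lib.MP_2619d0_ag.T MP2619.K

section phi

variable {k : Type*} [Field k] {N : ℕ}

/-- `T_0 ↦ T_0`, `T_i ↦ T_0 T_i` -/
noncomputable def TF4_phi (k : Type*) [Field k] (N : ℕ) :
    MvPolynomial (Fin (N + 1)) k →+* MvPolynomial (Fin (N + 1)) k :=
  eval₂Hom C (Fin.cons (X 0) fun i => X 0 * X i.succ)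

theorem TF4_phi_C (a : k) : TF4_phi k N (C a) = C a := by
  rw [TF4_phi, coe_eval₂Hom, eval₂_C]

theorem TF4_phi_0 : TF4_phi k N (X 0) = X 0 := by
  rw [TF4_phi, coe_eval₂Hom, eval₂_X, Fin.cons_zero]

theorem TF4_phi_succ (i : Fin N) : TF4_phi k N (X i.succ) = X 0 * X i.succ := by
  rw [TF4_phi, coe_eval₂Hom, eval₂_X, Fin.cons_succ]

theorem TF4_phi_inj : Function.Injective (TF4_phi k N) := by
  let K := FractionRing (MvPolynomial (Fin (N + 1)) k)
  let ι : MvPolynomial (Fin (N + 1)) k →+* K := algebraMap _ K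
  have hι : Function.Injective ι := IsFractionRing.injective _ K
  have h0 : ι (X 0) ≠ 0 := by
    rw [Ne, map_eq_zero_iff _ hι]
    exact X_ne_zero 0
  let e : MvPolynomial (Fin (N + 1)) k →+* K :=
    eval₂Hom (ι.comp C) (Fin.cons (ι (X 0)) fun i => ι (X i.succ) / ι (X 0))
  have heC : ∀ a, e (C a) = ι (C a) := fun a => eval₂_C _ _ a
  have he0 : e (X 0) = ι (X 0) := eval₂_X _ _ 0
  have heS : ∀ i : Fin N, e (X i.succ) = ι (X i.succ) / ι (X 0) := fun i => eval₂_X _ _ i.succ
  have he : e.comp (TF4_phi k N) = ι := by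
    apply MvPolynomial.ringHom_ext
    · intro a
      rw [RingHom.comp_apply, TF4_phi_C, heC]
    · intro i
      rw [RingHom.comp_apply]
      refine Fin.cases ?_ (fun j => ?_) i
      · rw [TF4_phi_0, he0]
      · rw [TF4_phi_succ, map_mul, he0, heS, mul_div_cancel₀ _ h0]
  intro a b hab
  apply hι
  rw [← he, RingHom.comp_apply, RingHom.comp_apply, hab]

end phi

section cone

variable {k : Type*} {κ : Type u} [Field k] [Field κ] {N : ℕ}

/-- `T_0 ↦ λ`, `T_i ↦ ρ(T_i)` -/
noncomputable def TF4_g (ρ : MvPolynomial (Fin N) k →+* κ) :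
    MvPolynomial (Fin (N + 1)) k →+* MM κ :=
  ((algebraMap (Polynomial κ) (MM κ)).comp (Polynomial.mapRingHom ρ)).comp
    ((finSuccEquiv k N : MvPolynomial (Fin (N + 1)) k ≃ₐ[k] _) :
      MvPolynomial (Fin (N + 1)) k →+* Polynomial (MvPolynomial (Fin N) k))

theorem TF4_g_apply (ρ : MvPolynomial (Fin N) k →+* κ) (P : MvPolynomial (Fin (N + 1)) k) :
    TF4_g ρ P = algebraMap (Polynomial κ) (MM κ) ((finSuccEquiv k N P).map ρ) := rfl

theorem TF4_g_C (ρ : MvPolynomial (Fin N) k →+* κ) (a : k) :
    TF4_g ρ (C a) = cM κ (ρ (C a)) := by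
  have h1 : finSuccEquiv k N (C a) = Polynomial.C (C a) := by
    simp [finSuccEquiv_apply]
  rw [TF4_g_apply, h1, Polynomial.map_C]
  rfl

theorem TF4_g_0 (ρ : MvPolynomial (Fin N) k →+* κ) : TF4_g ρ (X 0) = sv κ := by
  rw [TF4_g_apply, finSuccEquiv_X_zero, Polynomial.map_X]
  rfl

theorem TF4_g_succ (ρ : MvPolynomial (Fin N) k →+* κ) (i : Fin N) :
    TF4_g ρ (X i.succ) = cM κ (ρ (X i)) := by
  rw [TF4_g_apply, finSuccEquiv_X_succ, Polynomial.map_C]
  rfl

theorem TF4_g_inj (ρ : MvPolynomial (Fin N) k →+* κ) (hρ : Function.Injective ρ) :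
    Function.Injective (TF4_g ρ) := by
  intro a b hab
  rw [TF4_g_apply, TF4_g_apply] at hab
  have h1 := IsFractionRing.injective (Polynomial κ) (MM κ) hab
  exact (finSuccEquiv k N).injective (Polynomial.map_injective ρ hρ h1)

theorem TF4_ind (ρ : MvPolynomial (Fin N) k →+* κ) (hρ : Function.Injective ρ)
    (u : Fin (N + 1) → κ) (h0 : u 0 = 1) (hu : ∀ i : Fin N, u i.succ = ρ (X i))
    [Algebra k (MM κ)] (halg : ∀ a, algebraMap k (MM κ) a = cM κ (ρ (C a))) :
    AlgebraicIndependent k (fun i => sv κ * cM κ (u i)) := by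
  have h1 : (aeval (fun i => sv κ * cM κ (u i)) : MvPolynomial (Fin (N + 1)) k →ₐ[k] MM κ).toRingHom
      = (TF4_g ρ).comp (TF4_phi k N) := by
    apply MvPolynomial.ringHom_ext
    · intro a
      rw [RingHom.comp_apply, TF4_phi_C, TF4_g_C, ← halg]
      exact aeval_C _ _
    · intro i
      rw [RingHom.comp_apply]
      have h2 : (aeval (fun i => sv κ * cM κ (u i)) :
        MvPolynomial (Fin (N + 1)) k →ₐ[k] MM κ).toRingHom (X i) = sv κ * cM κ (u i) := aeval_X _ _
      rw [h2]
      refine Fin.cases ?_ (fun j => ?_) i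
      · rw [TF4_phi_0, TF4_g_0, h0, map_one, mul_one]
      · rw [TF4_phi_succ, map_mul, TF4_g_0, TF4_g_succ, hu]
  intro a b hab
  apply TF4_phi_inj (k := k) (N := N)
  apply TF4_g_inj ρ hρ
  have h2 := RingHom.congr_fun h1 a
  have h3 := RingHom.congr_fun h1 b
  rw [RingHom.comp_apply] at h2 h3
  rw [← h2, ← h3]
  exact hab

theorem TF4_sv_ne (κ : Type*) [Field κ] : sv κ ≠ 0 := by
  intro h
  have h1 := IsFractionRing.injective (Polynomial κ) (MM κ) (h.trans (map_zero _).symm)
  exact Polynomial.X_ne_zero h1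

section degree

attribute [local instance] Polynomial.algebra FractionRing.liftAlgebra

/-- The degree of `κ(λ)` over `K(λ)`. -/
theorem TF4_rank {K κ : Type*} [Field K] [Field κ] [Algebra K κ] [Algebra.IsAlgebraic K κ] :
    Module.finrank (FractionRing (Polynomial K)) (FractionRing (Polynomial κ)) =
      Module.finrank K κ := by
  unfold Module.finrank
  rw [Algebra.IsAlgebraic.rank_fractionRing_polynomial]

theorem TF4_tower {K κ : Type*} [Field K] [Field κ] [Algebra K κ] (p : Polynomial K) :
    algebraMap (FractionRing (Polynomial K)) (FractionRing (Polynomial κ))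
      (algebraMap (Polynomial K) (FractionRing (Polynomial K)) p) =
      algebraMap (Polynomial κ) (FractionRing (Polynomial κ)) (p.map (algebraMap K κ)) := by
  rw [← IsScalarTower.algebraMap_apply (Polynomial K) (FractionRing (Polynomial K))
    (FractionRing (Polynomial κ)), IsScalarTower.algebraMap_apply (Polynomial K) (Polynomial κ)
    (FractionRing (Polynomial κ))]
  rfl

theorem TF4_odd (ρ : MvPolynomial (Fin N) k →+* κ)
    (hodd : Odd (Module.finrank (Subfield.closure (Set.range ρ)) κ))
    (u : Fin (N + 1) → κ) (h0 : u 0 = 1) (hu : ∀ i : Fin N, u i.succ = ρ (X i))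
    [Algebra k (MM κ)] (halg : ∀ a, algebraMap k (MM κ) a = cM κ (ρ (C a))) :
    Odd (Module.finrank (IntermediateField.adjoin k (Set.range fun i => sv κ * cM κ (u i)))
      (MM κ)) := by
  have hs := TF4_sv_ne κ
  obtain ⟨E, hE⟩ : ∃ E, E = IntermediateField.adjoin k (Set.range fun i => sv κ * cM κ (u i)) :=
    ⟨_, rfl⟩
  rw [← hE]
  have hgen : ∀ i, sv κ * cM κ (u i) ∈ E := by
    intro i
    rw [hE]
    exact IntermediateField.subset_adjoin _ _ ⟨i, rfl⟩
  have hsE : sv κ ∈ E := by
    have h1 := hgen 0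
    rwa [h0, map_one, mul_one] at h1
  have huE : ∀ i, cM κ (u i) ∈ E := by
    intro i
    have h1 := div_mem (hgen i) hsE
    rwa [mul_div_cancel_left₀ _ hs] at h1
  have hρE : ∀ G, cM κ (ρ G) ∈ E := by
    intro G
    induction G using MvPolynomial.induction_on with
    | C a =>
      rw [← halg]
      exact E.algebraMap_mem a
    | add p q hp hq =>
      rw [map_add, map_add]
      exact add_mem hp hq
    | mul_X p i hp =>
      rw [map_mul, map_mul, ← hu]
      exact mul_mem hp (huE _)
  let K : Subfield κ := Subfield.closure (Set.range ρ)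
  have hKE : ∀ c : K, cM κ (c : κ) ∈ E := by
    have h1 : K ≤ (E.toSubfield).comap (cM κ) := by
      rw [Subfield.closure_le]
      rintro _ ⟨G, rfl⟩
      exact hρE G
    intro c
    exact h1 c.2
  have hfin : FiniteDimensional K κ := Module.finite_of_finrank_pos hodd.pos
  have halgK : Algebra.IsAlgebraic K κ := Algebra.IsAlgebraic.of_finite K κ
  let a : FractionRing (Polynomial K) →+* MM κ :=
    algebraMap (FractionRing (Polynomial K)) (FractionRing (Polynomial κ))
  have ha : ∀ p : Polynomial K, a (algebraMap (Polynomial K) (FractionRing (Polynomial K)) p) =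
      algebraMap (Polynomial κ) (MM κ) (p.map (algebraMap K κ)) := fun p => TF4_tower p
  have hpE : ∀ p : Polynomial K, algebraMap (Polynomial κ) (MM κ) (p.map (algebraMap K κ)) ∈ E := by
    intro p
    induction p using Polynomial.induction_on' with
    | add p q hp hq =>
      rw [Polynomial.map_add, map_add]
      exact add_mem hp hq
    | monomial n c =>
      rw [← Polynomial.C_mul_X_pow_eq_monomial, Polynomial.map_mul, Polynomial.map_C,
        Polynomial.map_pow, Polynomial.map_X, map_mul, map_pow]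
      exact mul_mem (hKE c) (pow_mem hsE n)
  have haE : ∀ z, a z ∈ E := by
    intro z
    obtain ⟨p, q, _, rfl⟩ := IsFractionRing.div_surjective (Polynomial K) z
    rw [map_div₀, ha, ha]
    exact div_mem (hpE p) (hpE q)
  have hsurj : ∀ w ∈ E, ∃ z, a z = w := by
    have h1 : E ≤ (a.fieldRange).toIntermediateField (K := k) (fun c => by
        rw [halg]
        refine ⟨algebraMap (Polynomial K) (FractionRing (Polynomial K))
          (Polynomial.C ⟨ρ (C c), Subfield.subset_closure ⟨_, rfl⟩⟩), ?_⟩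
        rw [ha, Polynomial.map_C]
        rfl) := by
      rw [hE, IntermediateField.adjoin_le_iff]
      rintro _ ⟨i, rfl⟩
      change sv κ * cM κ (u i) ∈ a.fieldRange
      refine mul_mem ?_ ?_
      · refine ⟨algebraMap (Polynomial K) (FractionRing (Polynomial K)) Polynomial.X, ?_⟩
        rw [ha, Polynomial.map_X]
        rfl
      · have huK : u i ∈ K := by
          refine Fin.cases ?_ (fun j => ?_) i
          · rw [h0]
            exact one_mem _
          · rw [hu]
            exact Subfield.subset_closure ⟨_, rfl⟩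
        refine ⟨algebraMap (Polynomial K) (FractionRing (Polynomial K))
          (Polynomial.C ⟨u i, huK⟩), ?_⟩
        rw [ha, Polynomial.map_C]
        rfl
    intro w hw
    exact h1 hw
  let i0 : FractionRing (Polynomial K) →+* E := a.codRestrict E haE
  have hi : Function.Bijective i0 := by
    refine ⟨RingHom.injective i0, ?_⟩
    rintro ⟨w, hw⟩
    obtain ⟨z, hz⟩ := hsurj w hw
    exact ⟨z, Subtype.ext hz⟩
  have h1 : Module.finrank (FractionRing (Polynomial K)) (MM κ) = Module.finrank E (MM κ) :=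
    Algebra.finrank_eq_of_equiv_equiv (RingEquiv.ofBijective i0 hi) (RingEquiv.refl (MM κ)) (by
      ext z
      rfl)
  rw [← h1]
  have h2 : Module.finrank (FractionRing (Polynomial K)) (MM κ) = Module.finrank K κ := TF4_rank
  rw [h2]
  exact hodd

end degree

end cone

end MP2619.R
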