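import Pool.Agent.Lib.MP_2619d0_ag.R.A2

/-!
Row A3: the fundamental identity for a function field of one variable.
-/

set_option autoImplicit false

namespace MP2619.R

universe v u

open IntermediateField

variable {K : Type v} {M : Type u} [Field K] [Field M] [Algebra K M]

/-- the valuation ring contains the constants -/
def Cst (K : Type v) {M : Type u} [Field K] [Field M] [Algebra K M] (O : ValuationSubring M) :
    Prop := ∀ c : K, algebraMap K M c ∈ O

/-- the constants in the residue field -/
noncomputable def rc {O : ValuationSubring M} (h : Cst K O) :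
    K →+* IsLocalRing.ResidueField O :=
  (IsLocalRing.residue O).comp ((algebraMap K M).codRestrict O h)

open Classical in
/-- the residue degree over the constant field `K` -/
noncomputable def rdeg (K : Type v) {M : Type u} [Field K] [Field M] [Algebra K M]
    (O : ValuationSubring M) : ℕ :=
  if h : Cst K O then Module.finrank (rc h).fieldRange (IsLocalRing.ResidueField O) else 0

/-- an element of the closure: quotient -/
private theorem A3_div_mem {K R : Type*} [Field K] [CommRing R] (χ : R →+* K) (L : Subfield K)
    (hL : ∀ r, χ r ∈ L) (a b : R) (x : K) (hb : χ b ≠ 0) (h : x * χ b = χ a) : x ∈ L := by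
  have h1 : x = χ a / χ b := by rw [eq_div_iff hb]; exact h
  rw [h1]
  exact Subfield.div_mem _ (hL a) (hL b)

private theorem A3_mem {O : ValuationSubring M} (h : Cst K O) {t : M} (ht : O.valuation t < 1)
    (G : Polynomial K) : Polynomial.aeval t G ∈ O := by
  have ht' : t ∈ O := (O.valuation_le_one_iff _).1 ht.le
  induction G using Polynomial.induction_on' with
  | add p q hp hq =>
    rw [map_add]
    exact O.add_mem _ _ hp hq
  | monomial n a =>
    rw [Polynomial.aeval_monomial]
    exact O.mul_mem _ _ (h a) (pow_mem ht' n)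

private theorem A3_unit {O : ValuationSubring M} (h : Cst K O) {c : K} (hc : c ≠ 0) :
    O.valuation (algebraMap K M c) = 1 := by
  apply le_antisymm ((O.valuation_le_one_iff _).2 (h c))
  have h1 : O.valuation (algebraMap K M c⁻¹) ≤ 1 := (O.valuation_le_one_iff _).2 (h c⁻¹)
  rw [map_inv₀, map_inv₀] at h1
  have h0 : O.valuation (algebraMap K M c) ≠ 0 := by
    rw [Valuation.ne_zero_iff]
    exact (map_ne_zero _).2 hc
  have h2 := inv_le_one₀ (zero_lt_iff.2 h0)
  exact h2.1 h1

private theorem A3_split (t : M) (G : Polynomial K) :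
    Polynomial.aeval t G = algebraMap K M (G.coeff 0) + t * Polynomial.aeval t G.divX := by
  conv_lhs => rw [← Polynomial.X_mul_divX_add G]
  rw [map_add, map_mul, Polynomial.aeval_X, Polynomial.aeval_C, add_comm]

private theorem A3_small {O : ValuationSubring M} (h : Cst K O) {t : M} (ht : O.valuation t < 1)
    (G : Polynomial K) : O.valuation (t * Polynomial.aeval t G) < 1 := by
  rw [map_mul]
  have h1 : O.valuation (Polynomial.aeval t G) ≤ 1 := (O.valuation_le_one_iff _).2 (A3_mem h ht G)
  calc O.valuation t * O.valuation (Polynomial.aeval t G)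
      ≤ O.valuation t * 1 := by gcongr
    _ < 1 := by rw [mul_one]; exact ht

private theorem A3_lt {O : ValuationSubring M} (h : Cst K O) {t : M} (ht : O.valuation t < 1)
    (G : Polynomial K) : O.valuation (Polynomial.aeval t G) < 1 ↔ Polynomial.X ∣ G := by
  rw [Polynomial.X_dvd_iff, A3_split t G]
  have hs := A3_small h ht G.divX
  constructor
  · intro hlt
    by_contra hc
    have h1 := A3_unit (O := O) h hc
    have h2 : O.valuation (algebraMap K M (G.coeff 0) + t * Polynomial.aeval t G.divX) =
        O.valuation (algebraMap K M (G.coeff 0)) := by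
      apply Valuation.map_add_eq_of_lt_left
      rw [h1]
      exact hs
    rw [h2, h1] at hlt
    exact lt_irrefl _ hlt
  · intro hc
    rw [hc, map_zero, zero_add]
    exact hs

/-- Apply `fi_sep` to `A = Localization.AtPrime (Ideal.span {X})`, `X : Polynomial K` (a discrete
valuation ring; for instance `IsLocalization.AtPrime.isDiscreteValuationRing_of_dedekind_domain`),
and `j : A → M` the extension of `aeval t` (`IsLocalization.lift`: polynomials not divisible by `X` are
not zero, `aeval t` is injective because `t` is transcendental). The closure of `range j` is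
`adjoin K {t}` (as sets; the degrees agree, see the proof of `places` in `T/LT3.lean` for a similar
argument). Irreducible element: the image of `X`, `j X = t`. `O ∈ s`: all `j a ∈ O` and
`val (j a) < 1 ↔ a ∈ maximalIdeal` is equivalent to `Cst K O ∧ val t < 1`: if `K ⊂ O` and `val t < 1`, a
polynomial `P` has `P(t) ≡ P(0)` modulo the maximal ideal of `O`, so `val (P(t)) < 1` iff
`P(0) = 0` iff `X ∣ P`. The residue degree: the closure of the range of `A → ResidueField O` is the
range of `K → ResidueField O` (`t ↦ 0`, and `P(t) ↦ P(0)`). -/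
theorem fi_field (t : M) (ht : Transcendental K t)
    (hfin : Module.finrank (adjoin K ({t} : Set M)) M ≠ 0)
    (hsep : Algebra.IsSeparable (adjoin K ({t} : Set M)) M) :
    ∃ s : Finset (ValuationSubring M),
      (∀ O, O ∈ s ↔ Cst K O ∧ O.valuation t < 1) ∧ (∀ O ∈ s, DV O) ∧
      ∑ O ∈ s, (ord O t).toNat * rdeg K O = Module.finrank (adjoin K ({t} : Set M)) M := by
  classical
  let ψ : Polynomial K →+* M := (Polynomial.aeval t : Polynomial K →ₐ[K] M)
  have hψ : Function.Injective ψ := transcendental_iff_injective.1 ht
  have hψX : ψ Polynomial.X = t := Polynomial.aeval_X t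
  have hψC : ∀ c, ψ (Polynomial.C c) = algebraMap K M c := fun c => Polynomial.aeval_C t c
  let f : Polynomial K := Polynomial.X
  have hf : Prime f := Polynomial.prime_X
  have hp : (Ideal.span {f}).IsPrime := (Ideal.span_singleton_prime hf.ne_zero).mpr hf
  let A := Localization.AtPrime (Ideal.span {f})
  have hle : (Ideal.span {f}).primeCompl ≤ nonZeroDivisors (Polynomial K) :=
    Ideal.primeCompl_le_nonZeroDivisors (Ideal.span {f})
  have hdom : IsDomain A := IsLocalization.isDomain_localization hle
  have hnoeth : IsNoetherianRing A :=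
    IsLocalization.isNoetherianRing (Ideal.span {f}).primeCompl A inferInstance
  have hinjA : Function.Injective (algebraMap (Polynomial K) A) :=
    IsLocalization.injective A hle
  have hmax : IsLocalRing.maximalIdeal A = Ideal.span {algebraMap (Polynomial K) A f} := by
    rw [← IsLocalization.AtPrime.map_eq_maximalIdeal (Ideal.span {f}) A, Ideal.map_span,
      Set.image_singleton]
  have hfA : algebraMap (Polynomial K) A f ≠ 0 := by
    intro h
    exact hf.ne_zero (hinjA (by rw [h, map_zero]))
  have hnf : ¬ IsField A := by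
    intro h
    rw [IsLocalRing.isField_iff_maximalIdeal_eq, hmax, Ideal.span_singleton_eq_bot] at h
    exact hfA h
  have hdvr : IsDiscreteValuationRing A := by
    refine ((IsDiscreteValuationRing.TFAE A hnf).out 0 4).mpr ?_
    rw [hmax]
    exact ⟨⟨_, rfl⟩⟩
  have hirr : Irreducible (algebraMap (Polynomial K) A f) :=
    (IsDiscreteValuationRing.irreducible_iff_uniformizer _).mpr hmax
  have hunit : ∀ y : (Ideal.span {f}).primeCompl, IsUnit (ψ y) := by
    intro y
    rw [isUnit_iff_ne_zero]
    intro h
    have h0 : (y : Polynomial K) = 0 := hψ (by rw [h, map_zero])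
    apply y.2
    rw [h0]
    exact Ideal.zero_mem _
  let j : A →+* M := IsLocalization.lift hunit
  have hj1 : ∀ G, j (algebraMap (Polynomial K) A G) = ψ G := fun G =>
    IsLocalization.lift_eq hunit G
  have hjmul : ∀ (G : Polynomial K) (H : (Ideal.span {f}).primeCompl),
      j (IsLocalization.mk' A G H) * ψ H = ψ G := by
    intro G H
    rw [← hj1, ← hj1, ← map_mul, IsLocalization.mk'_spec]
  have hψne : ∀ H : (Ideal.span {f}).primeCompl, ψ H ≠ 0 := fun H => (hunit H).ne_zero
  have hj : Function.Injective j := by
    rw [injective_iff_map_eq_zero]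
    intro a ha
    obtain ⟨G, H, rfl⟩ := IsLocalization.exists_mk'_eq (Ideal.span {f}).primeCompl a
    have h1 := hjmul G H
    rw [ha, zero_mul] at h1
    have h2 : G = 0 := hψ (by rw [← h1, map_zero])
    rw [h2, IsLocalization.mk'_zero]
  have hψL : ∀ G, ψ G ∈ (adjoin K ({t} : Set M)).toSubfield := by
    intro G
    exact algebra_adjoin_le_adjoin K _ (Polynomial.aeval_mem_adjoin_singleton K t)
  have hcl : Subfield.closure (Set.range j) = (adjoin K ({t} : Set M)).toSubfield := by
    apply le_antisymm
    · rw [Subfield.closure_le]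
      rintro _ ⟨a, rfl⟩
      obtain ⟨G, H, rfl⟩ := IsLocalization.exists_mk'_eq (Ideal.span {f}).primeCompl a
      exact A3_div_mem ψ _ hψL G H _ (hψne H) (hjmul G H)
    · have h1 : (adjoin K ({t} : Set M)).toSubfield =
          Subfield.closure (Set.range (algebraMap K M) ∪ {t}) := rfl
      rw [h1, Subfield.closure_le]
      rintro x (⟨c, rfl⟩ | hx)
      · refine Subfield.subset_closure ⟨algebraMap (Polynomial K) A (Polynomial.C c), ?_⟩
        rw [hj1, hψC]
      · refine Subfield.subset_closure ⟨algebraMap (Polynomial K) A f, ?_⟩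
        rw [hj1]
        exact hψX.trans (Set.mem_singleton_iff.1 hx).symm
  have hfin2 : Module.finrank (Subfield.closure (Set.range j)) M =
      Module.finrank (adjoin K ({t} : Set M)) M := by
    rw [hcl]; rfl
  have hsep2 : Algebra.IsSeparable (Subfield.closure (Set.range j)) M := by
    rw [hcl]; exact hsep
  obtain ⟨s, d, h1, h2, h3, h4⟩ := fi_sep j hj (by rw [hfin2]; exact hfin) hsep2
  have hmem : ∀ G, algebraMap (Polynomial K) A G ∈ IsLocalRing.maximalIdeal A ↔ f ∣ G := by
    intro G
    rw [IsLocalization.AtPrime.to_map_mem_maximal_iff A (Ideal.span {f}), Ideal.mem_span_singleton]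
  have hiff : ∀ O, O ∈ s ↔ Cst K O ∧ O.valuation t < 1 := by
    intro O
    rw [h1]
    constructor
    · rintro ⟨ha, hb⟩
      refine ⟨fun c => ?_, ?_⟩
      · rw [← hψC, ← hj1]; exact ha _
      · rw [← hψX, ← hj1, hb, hmem]
    · rintro ⟨ha, hb⟩
      have hH : ∀ H : (Ideal.span {f}).primeCompl, O.valuation (ψ H) = 1 := by
        intro H
        apply le_antisymm ((O.valuation_le_one_iff _).mpr (A3_mem ha hb _))
        rw [← not_lt]
        intro hlt
        have h5 := (A3_lt ha hb _).1 hlt
        exact H.2 (Ideal.mem_span_singleton.2 h5)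
      have hval : ∀ (G : Polynomial K) (H : (Ideal.span {f}).primeCompl),
          O.valuation (j (IsLocalization.mk' A G H)) = O.valuation (ψ G) := by
        intro G H
        rw [← hjmul G H, map_mul, hH, mul_one]
      refine ⟨fun a => ?_, fun a => ?_⟩
      · obtain ⟨G, H, rfl⟩ := IsLocalization.exists_mk'_eq (Ideal.span {f}).primeCompl a
        rw [← O.valuation_le_one_iff, hval, O.valuation_le_one_iff]
        exact A3_mem ha hb G
      · obtain ⟨G, H, rfl⟩ := IsLocalization.exists_mk'_eq (Ideal.span {f}).primeCompl a
        rw [hval, IsLocalization.AtPrime.mk'_mem_maximal_iff A (Ideal.span {f}),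
          Ideal.mem_span_singleton]
        exact A3_lt ha hb G
  refine ⟨s, hiff, h2, ?_⟩
  have hjX : j (algebraMap (Polynomial K) A f) = t := by
    rw [hj1]
    exact hψX
  have h5 := h4 _ hirr
  rw [hjX, hfin2] at h5
  rw [← h5]
  refine Finset.sum_congr rfl fun O hO => ?_
  congr 1
  obtain ⟨hC, hv⟩ := (hiff O).1 hO
  have hO1 := (h1 O).mp hO
  rw [← h3 O hO hO1.1]
  unfold rdeg
  rw [dif_pos hC]
  have hres : ∀ G : Polynomial K, IsLocalRing.residue O ⟨ψ G, A3_mem hC hv G⟩ =
      rc hC (G.coeff 0) := by
    intro G
    have h6 : (⟨ψ G, A3_mem hC hv G⟩ : O) = ⟨algebraMap K M (G.coeff 0), hC _⟩ +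
        ⟨t * Polynomial.aeval t G.divX, (O.valuation_le_one_iff _).1 (A3_small hC hv _).le⟩ :=
      Subtype.ext (A3_split t G)
    rw [h6, map_add]
    have h7 : IsLocalRing.residue O ⟨t * Polynomial.aeval t G.divX,
        (O.valuation_le_one_iff _).1 (A3_small hC hv _).le⟩ = 0 := by
      rw [IsLocalRing.residue_eq_zero_iff, ValuationSubring.valuation_lt_one_iff]
      exact A3_small hC hv _
    rw [h7, add_zero]
    rfl
  have hcl2 : Subfield.closure (Set.range ((IsLocalRing.residue O).comp
      (j.codRestrict O hO1.1))) = (rc hC).fieldRange := by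
    apply le_antisymm
    · rw [Subfield.closure_le]
      rintro _ ⟨a, rfl⟩
      obtain ⟨G, H, rfl⟩ := IsLocalization.exists_mk'_eq (Ideal.span {f}).primeCompl a
      have h8 : (j.codRestrict O hO1.1) (IsLocalization.mk' A G H) *
          ⟨ψ H, A3_mem hC hv H⟩ = ⟨ψ G, A3_mem hC hv G⟩ := Subtype.ext (hjmul G H)
      have h9 := congrArg (IsLocalRing.residue O) h8
      rw [map_mul, hres, hres] at h9
      refine A3_div_mem (rc hC) (rc hC).fieldRange (fun r => RingHom.mem_fieldRange_self _ r)
        (G.coeff 0) ((H : Polynomial K).coeff 0) _ ?_ h9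
      intro h0
      have h10 : (H : Polynomial K).coeff 0 = 0 := (map_eq_zero _).1 h0
      exact H.2 (Ideal.mem_span_singleton.2 (Polynomial.X_dvd_iff.2 h10))
    · rintro _ ⟨c, rfl⟩
      refine Subfield.subset_closure ⟨algebraMap (Polynomial K) A (Polynomial.C c), ?_⟩
      have h7 : (j.codRestrict O hO1.1) (algebraMap (Polynomial K) A (Polynomial.C c)) =
            (⟨algebraMap K M c, hC c⟩ : O) := Subtype.ext ((hj1 _).trans (hψC c))
      exact congrArg (IsLocalRing.residue O) h7
  rw [hcl2]

end MP2619.R
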