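import Pool.Agent.Lib.MP_2619d0_ag.R.A9

/-!
Row C4: transcendence degree and residue fields.
-/

set_option autoImplicit false

namespace MP2619.R

universe v u

open IntermediateField

variable {k : Type v} {M : Type u} [Field k] [Field M] [Algebra k M]

theorem eval_coe {O : ValuationSubring M} (h : Cst k O) {ι : Type*} (a : ι → O)
    (P : MvPolynomial ι k) :
    ((MvPolynomial.eval₂ ((algebraMap k M).codRestrict O h) a P : O) : M) =
      MvPolynomial.aeval (fun i => (a i : M)) P := by
  rw [MvPolynomial.aeval_def]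
  have := MvPolynomial.eval₂_comp_left (O.subtype) ((algebraMap k M).codRestrict O h) a P
  exact this

theorem eval_res {O : ValuationSubring M} (h : Cst k O) {ι : Type*} (a : ι → O)
    (P : MvPolynomial ι k) :
    letI : Algebra k (IsLocalRing.ResidueField O) := (rc h).toAlgebra
    IsLocalRing.residue O (MvPolynomial.eval₂ ((algebraMap k M).codRestrict O h) a P) =
      MvPolynomial.aeval (fun i => IsLocalRing.residue O (a i)) P := by
  letI : Algebra k (IsLocalRing.ResidueField O) := (rc h).toAlgebra
  rw [MvPolynomial.aeval_def]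
  have := MvPolynomial.eval₂_comp_left (IsLocalRing.residue O)
    ((algebraMap k M).codRestrict O h) a P
  exact this

theorem adj_small {O : ValuationSubring M} (h : Cst k O) {ι : Type*} (a : ι → O)
    (hb : letI : Algebra k (IsLocalRing.ResidueField O) := (rc h).toAlgebra
      AlgebraicIndependent k (fun i => IsLocalRing.residue O (a i))) :
    ∀ z ∈ Algebra.adjoin k (Set.range (fun i => (a i : M))), z ∈ O ∧
      (O.valuation z < 1 → z = 0) := by
  letI : Algebra k (IsLocalRing.ResidueField O) := (rc h).toAlgebra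
  intro z hz
  rw [Algebra.adjoin_range_eq_range_aeval] at hz
  obtain ⟨P, rfl⟩ := hz
  have h1 := eval_coe h a P
  refine ⟨?_, ?_⟩
  · change MvPolynomial.aeval (fun i => (a i : M)) P ∈ O
    rw [← h1]; exact Subtype.coe_prop _
  · intro hv
    change O.valuation (MvPolynomial.aeval (fun i => (a i : M)) P) < 1 at hv
    rw [← h1, ← ValuationSubring.valuation_lt_one_iff] at hv
    rw [← IsLocalRing.residue_eq_zero_iff, eval_res h a P] at hv
    have h0 : P = 0 := by
      by_contra hne
      exact hne ((AlgebraicIndependent.eq_zero_of_aeval_eq_zero hb) P hv)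
    rw [h0]; simp

theorem indep_lift {O : ValuationSubring M} (h : Cst k O) {ι : Type*} (a : ι → O)
    (hb : letI : Algebra k (IsLocalRing.ResidueField O) := (rc h).toAlgebra
      AlgebraicIndependent k (fun i => IsLocalRing.residue O (a i))) :
    AlgebraicIndependent k (fun i => (a i : M)) := by
  letI : Algebra k (IsLocalRing.ResidueField O) := (rc h).toAlgebra
  rw [algebraicIndependent_iff]
  intro P hP
  have h1 := eval_coe h a P
  rw [hP] at h1
  have h2 : MvPolynomial.eval₂ ((algebraMap k M).codRestrict O h) a P = 0 :=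
    Subtype.ext h1
  have h3 := eval_res h a P
  rw [h2, map_zero] at h3
  exact (AlgebraicIndependent.eq_zero_of_aeval_eq_zero hb) P h3.symm

theorem transc_adj {O : ValuationSubring M} (A : Subalgebra k M)
    (hA : ∀ z ∈ A, z ∈ O ∧ (O.valuation z < 1 → z = 0)) (p : M) (hp0 : p ≠ 0)
    (hp1 : O.valuation p < 1) : Transcendental A p := by
  rw [transcendental_iff]
  have hpO : p ∈ O := (ValuationSubring.valuation_le_one_iff _ _).mp hp1.le
  have hmem : ∀ Q : Polynomial A, Polynomial.aeval p Q ∈ O := by
    intro Q
    rw [Polynomial.aeval_eq_sum_range]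
    refine sum_mem fun i _ => ?_
    rw [Algebra.smul_def]
    exact mul_mem (hA _ (Q.coeff i).2).1 (pow_mem hpO i)
  suffices H : ∀ n : ℕ, ∀ Q : Polynomial A, Q.natDegree ≤ n → Polynomial.aeval p Q = 0 → Q = 0 from
    fun Q hQ => H Q.natDegree Q le_rfl hQ
  have step : ∀ Q : Polynomial A, Polynomial.aeval p Q = 0 →
      Q.coeff 0 = 0 ∧ Polynomial.aeval p Q.divX = 0 := by
    intro Q hQ
    have h1 : Polynomial.aeval p Q = Polynomial.aeval p Q.divX * p + ((Q.coeff 0 : A) : M) := by
      conv_lhs => rw [← Polynomial.divX_mul_X_add Q]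
      rw [map_add, map_mul, Polynomial.aeval_X, Polynomial.aeval_C]
      rfl
    rw [hQ] at h1
    have h2 : ((Q.coeff 0 : A) : M) = - (Polynomial.aeval p Q.divX * p) := by
      linear_combination -h1
    have h3 : ((Q.coeff 0 : A) : M) = 0 := by
      refine (hA _ (Q.coeff 0).2).2 ?_
      rw [h2, Valuation.map_neg, map_mul]
      exact mul_lt_one_of_nonneg_of_lt_one_right
        ((ValuationSubring.valuation_le_one_iff _ _).mpr (hmem _)) zero_le hp1
    refine ⟨Subtype.ext h3, ?_⟩
    rw [h3, add_zero] at h1
    rcases mul_eq_zero.mp h1.symm with h4 | h4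
    · exact h4
    · exact absurd h4 hp0
  intro n
  induction n with
  | zero =>
    intro Q hd hQ
    rw [Polynomial.eq_C_of_natDegree_le_zero hd, (step Q hQ).1, map_zero]
  | succ n ih =>
    intro Q hd hQ
    have h5 := ih Q.divX (by rw [Polynomial.natDegree_divX_eq_natDegree_tsub_one]; omega)
      (step Q hQ).2
    rw [← Polynomial.divX_mul_X_add Q, h5, (step Q hQ).1]
    simp

theorem card_of_not_le {R A : Type*} [Field R] [Field A] [Algebra R A] {D : ℕ}
    (hD : ¬ Algebra.trdeg R A ≤ D) : ∃ b : Fin (D + 1) → A, AlgebraicIndependent R b := by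
  obtain ⟨ι, x, hx⟩ := exists_isTranscendenceBasis' R A
  have h1 := hx.cardinalMk_eq_trdeg
  have h2 : ((D + 1 : ℕ) : Cardinal) ≤ Cardinal.mk ι := by
    rw [h1]
    rw [not_le] at hD
    have := Order.succ_le_of_lt hD
    rw [Cardinal.succ_natCast] at this
    exact_mod_cast this
  have h3 : Cardinal.lift.{_, 0} (Cardinal.mk (Fin (D + 1))) ≤ Cardinal.lift.{0, _} (Cardinal.mk ι) := by
    simpa using h2
  rw [Cardinal.lift_mk_le'] at h3
  obtain ⟨e⟩ := h3
  exact ⟨x ∘ e, hx.1.comp e e.injective⟩

/-- Elements of `E ∩ O` with algebraically independent residues are algebraically independent: a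
relation `P(a) = 0`, `P ≠ 0` with coefficients in `k ⊂ O`, reduces to `P(ā) = 0`. A finite
algebraically independent family in `E'` (choose preimages in `E`) has at most `trdeg k E` members; if
`trdeg k E' > D` there would be an independent family with `D + 1` members
(`Algebra.trdeg`, `Cardinal`, `exists_isTranscendenceBasis'`). -/
theorem trdeg_res {O : ValuationSubring M} (h : Cst k O) (E : IntermediateField k M) (D : ℕ)
    (hE : Algebra.trdeg k E ≤ D) :
    letI : Algebra k (IsLocalRing.ResidueField O) := (rc h).toAlgebra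
    ∀ E' : IntermediateField k (IsLocalRing.ResidueField O),
      (∀ z ∈ E', ∃ a : O, (a : M) ∈ E ∧ IsLocalRing.residue O a = z) → Algebra.trdeg k E' ≤ D := by
  letI : Algebra k (IsLocalRing.ResidueField O) := (rc h).toAlgebra
  intro E' hE'
  by_contra hD
  obtain ⟨b, hb⟩ := card_of_not_le hD
  choose a haE ha using fun i => hE' (b i) (b i).2
  have hb' : AlgebraicIndependent k (fun i => IsLocalRing.residue O (a i)) := by
    have := hb.map' (f := E'.val) E'.val.injective
    convert this using 1
    funext i
    exact ha i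
  have h1 := indep_lift h a hb'
  have h2 : AlgebraicIndependent k (fun i => (⟨(a i : M), haE i⟩ : E)) := by
    refine AlgebraicIndependent.of_comp E.val ?_
    exact h1
  have h3 := h2.lift_cardinalMk_le_trdeg
  have h4 : ((D + 1 : ℕ) : Cardinal) ≤ Algebra.trdeg k E := by
    simpa using h3
  have h5 := h4.trans hE
  have h6 : D + 1 ≤ D := by exact_mod_cast h5
  omega

/-- Now `E` contains an element `π ≠ 0` of the maximal ideal of `O`. If `a_1, …, a_r ∈ E ∩ O` have
algebraically independent residues then `a_1, …, a_r, π` are algebraically independent over `k`: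
let `P(a, π) = 0` be a nontrivial relation, `P = ∑_j P_j(a) T^j`, and `j0` the smallest index with
`P_{j0} ≠ 0`; divide by `π^{j0}` and reduce: `P_{j0}(ā) = 0`. -/
theorem trdeg_res_lt {O : ValuationSubring M} (h : Cst k O) (E : IntermediateField k M) (D : ℕ)
    (hE : Algebra.trdeg k E ≤ (D + 1 : ℕ)) (p : M) (hp : p ∈ E) (hp0 : p ≠ 0)
    (hp1 : O.valuation p < 1) :
    letI : Algebra k (IsLocalRing.ResidueField O) := (rc h).toAlgebra
    ∀ E' : IntermediateField k (IsLocalRing.ResidueField O),
      (∀ z ∈ E', ∃ a : O, (a : M) ∈ E ∧ IsLocalRing.residue O a = z) → Algebra.trdeg k E' ≤ D := by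
  letI : Algebra k (IsLocalRing.ResidueField O) := (rc h).toAlgebra
  intro E' hE'
  by_contra hD
  obtain ⟨b, hb⟩ := card_of_not_le hD
  choose a haE ha using fun i => hE' (b i) (b i).2
  have hb' : AlgebraicIndependent k (fun i => IsLocalRing.residue O (a i)) := by
    have := hb.map' (f := E'.val) E'.val.injective
    convert this using 1
    funext i
    exact ha i
  have h1 := indep_lift h a hb'
  have h7 : Transcendental (Algebra.adjoin k (Set.range (fun i => (a i : M)))) p :=
    transc_adj _ (adj_small h a hb') p hp0 hp1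
  have h8 := (h1.option_iff_transcendental p).mpr h7
  have h2 : AlgebraicIndependent k
      (fun o : Option (Fin (D + 1)) => o.elim (⟨p, hp⟩ : E) (fun i => ⟨(a i : M), haE i⟩)) := by
    refine AlgebraicIndependent.of_comp E.val ?_
    convert h8 using 1
    funext o
    cases o <;> rfl
  have h3 := h2.lift_cardinalMk_le_trdeg
  have h4 : ((D + 2 : ℕ) : Cardinal) ≤ Algebra.trdeg k E := by
    have h9 : ((Fintype.card (Option (Fin (D + 1))) : ℕ) : Cardinal) ≤ Algebra.trdeg k E := by
      simpa using h3
    rw [Fintype.card_option, Fintype.card_fin] at h9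
    exact h9
  have h5 := h4.trans hE
  have h6 : D + 2 ≤ D + 1 := by exact_mod_cast h5
  omega

/-- The set of the residues of elements of `O ∩ E` is a subfield of the residue field (inverses: an
element with nonzero residue is a unit of `O`); it contains `k` and the ratios `ȳ_i / ȳ_j` (the
residue of `y_i / y_j` if `ȳ_j ≠ 0`; `z / 0 = 0`). -/
theorem rat_res {O : ValuationSubring M} (h : Cst k O) {n : ℕ} (y : Fin n → O)
    (E : IntermediateField k M) (hE : rat k (fun i => (y i : M)) ≤ E) :
    letI : Algebra k (IsLocalRing.ResidueField O) := (rc h).toAlgebra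
    ∀ z ∈ rat k (fun i => IsLocalRing.residue O (y i)),
      ∃ a : O, (a : M) ∈ E ∧ IsLocalRing.residue O a = z := by
  letI : Algebra k (IsLocalRing.ResidueField O) := (rc h).toAlgebra
  -- the subfield of residues
  let F : Subfield (IsLocalRing.ResidueField O) :=
    { carrier := {z | ∃ a : O, (a : M) ∈ E ∧ IsLocalRing.residue O a = z}
      mul_mem' := by
        rintro _ _ ⟨a, ha, rfl⟩ ⟨b, hb, rfl⟩
        exact ⟨a * b, by simpa using E.mul_mem ha hb, by rw [map_mul]⟩
      one_mem' := ⟨1, by simp, by rw [map_one]⟩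
      add_mem' := by
        rintro _ _ ⟨a, ha, rfl⟩ ⟨b, hb, rfl⟩
        exact ⟨a + b, by simpa using E.add_mem ha hb, by rw [map_add]⟩
      zero_mem' := ⟨0, by simp, by rw [map_zero]⟩
      neg_mem' := by
        rintro _ ⟨a, ha, rfl⟩
        exact ⟨-a, by simpa using E.neg_mem ha, by rw [map_neg]⟩
      inv_mem' := by
        rintro _ ⟨a, ha, rfl⟩
        by_cases h0 : IsLocalRing.residue O a = 0
        · exact ⟨0, by simp, by rw [h0]; simp⟩
        · have hu : IsUnit a := by
            by_contra hu
            exact h0 ((IsLocalRing.residue_eq_zero_iff a).mpr ((IsLocalRing.mem_maximalIdeal a).mpr hu))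
          obtain ⟨u, rfl⟩ := hu
          refine ⟨((u⁻¹ : Oˣ) : O), ?_, ?_⟩
          · have h9 : (((u⁻¹ : Oˣ) : O) : M) = ((u : O) : M)⁻¹ := by
              have h10 : (((u⁻¹ : Oˣ) : O) : M) * ((u : O) : M) = 1 :=
                congrArg (fun t : O => (t : M)) (u.inv_mul)
              have h11 : ((u : O) : M) ≠ 0 := right_ne_zero_of_mul_eq_one h10
              field_simp
              exact h10
            rw [h9]
            exact E.inv_mem ha
          · have h12 : IsLocalRing.residue O ((u⁻¹ : Oˣ) : O) * IsLocalRing.residue O (u : O) = 1 := by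
              rw [← map_mul, u.inv_mul, map_one]
            exact eq_inv_of_mul_eq_one_left h12 }
  let F' : IntermediateField k (IsLocalRing.ResidueField O) :=
    F.toIntermediateField (fun c => ⟨((algebraMap k M).codRestrict O h) c, E.algebraMap_mem c, rfl⟩)
  suffices H : rat k (fun i => IsLocalRing.residue O (y i)) ≤ F' from fun z hz => H hz
  rw [rat, adjoin_le_iff]
  rintro _ ⟨i, j, rfl⟩
  change ∃ a : O, (a : M) ∈ E ∧ IsLocalRing.residue O a =
    IsLocalRing.residue O (y i) / IsLocalRing.residue O (y j)
  by_cases h0 : IsLocalRing.residue O (y j) = 0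
  · exact ⟨0, by simp, by rw [h0]; simp⟩
  · have hu : IsUnit (y j) := by
      by_contra hu
      exact h0 ((IsLocalRing.residue_eq_zero_iff _).mpr ((IsLocalRing.mem_maximalIdeal _).mpr hu))
    obtain ⟨u, hu'⟩ := hu
    have h10 : (((u⁻¹ : Oˣ) : O) : M) * (y j : M) = 1 := by
      rw [← hu']
      exact congrArg (fun t : O => (t : M)) (u.inv_mul)
    have h11 : (y j : M) ≠ 0 := right_ne_zero_of_mul_eq_one h10
    refine ⟨y i * ((u⁻¹ : Oˣ) : O), ?_, ?_⟩
    · have h9 : ((y i * ((u⁻¹ : Oˣ) : O) : O) : M) = (y i : M) / (y j : M) := by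
        rw [MulMemClass.coe_mul, eq_div_iff h11]
        linear_combination (y i : M) * h10
      rw [h9]
      refine hE ?_
      exact subset_adjoin _ _ ⟨i, j, rfl⟩
    · rw [map_mul, eq_div_iff h0]
      have h12 : IsLocalRing.residue O ((u⁻¹ : Oˣ) : O) * IsLocalRing.residue O (y j) = 1 := by
        rw [← map_mul, ← hu', u.inv_mul, map_one]
      linear_combination (IsLocalRing.residue O (y i)) * h12

end MP2619.R
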