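import Pool.Agent.Lib.MP_2619d0_ag.R.A8

/-!
Row D1: rational function fields.
-/

set_option autoImplicit false

namespace MP2619.R

universe v u

open IntermediateField

/-- `k' = k(t)` and `M' = M(t)`, `t` transcendental over `M`. -/
structure RF (k : Type v) (M : Type u) (k' : Type v) (M' : Type u) [Field k] [Field M] [Field k']
    [Field M'] [Algebra k M] [Algebra k k'] [Algebra k M'] [Algebra M M'] [Algebra k' M']
    [IsScalarTower k M M'] [IsScalarTower k k' M'] (t : k') : Prop where
  trans : Transcendental M (algebraMap k' M' t)
  genk : adjoin k ({t} : Set k') = ⊤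
  genM : adjoin M ({algebraMap k' M' t} : Set M') = ⊤

theorem exists_RF_gen (R : Type*) [Field R] :
    adjoin R ({algebraMap (Polynomial R) (FractionRing (Polynomial R)) Polynomial.X} :
      Set (FractionRing (Polynomial R))) = ⊤ := by
  rw [eq_top_iff]
  intro z _
  obtain ⟨E, hE⟩ : ∃ E, E = adjoin R ({algebraMap (Polynomial R) (FractionRing (Polynomial R))
    Polynomial.X} : Set (FractionRing (Polynomial R))) := ⟨_, rfl⟩
  rw [← hE]
  have hX : algebraMap (Polynomial R) (FractionRing (Polynomial R)) Polynomial.X ∈ E := by
    rw [hE]
    exact mem_adjoin_simple_self _ _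
  have hp : ∀ p : Polynomial R, algebraMap (Polynomial R) (FractionRing (Polynomial R)) p ∈ E := by
    intro p
    induction p using Polynomial.induction_on' with
    | add p q hp hq =>
      rw [map_add]
      exact add_mem hp hq
    | monomial n c =>
      rw [← Polynomial.C_mul_X_pow_eq_monomial, map_mul, map_pow]
      refine mul_mem ?_ (pow_mem hX n)
      have h1 : algebraMap (Polynomial R) (FractionRing (Polynomial R)) (Polynomial.C c) =
          algebraMap R (FractionRing (Polynomial R)) c :=
        (IsScalarTower.algebraMap_apply R (Polynomial R) (FractionRing (Polynomial R)) c).symm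
      rw [h1]
      exact IntermediateField.algebraMap_mem E c
  obtain ⟨p, q, _, rfl⟩ := IsFractionRing.div_surjective (Polynomial R) z
  exact div_mem (hp p) (hp q)

/-- `k' = FractionRing (Polynomial k)`, `M' = FractionRing (Polynomial M)`, `t = X`; the algebra structure
`k' → M'` is induced by `Polynomial.mapRingHom (algebraMap k M)` (`IsFractionRing.map` or `lift`). -/
theorem exists_RF (k : Type v) (M : Type u) [Field k] [Field M] [Algebra k M] :
    ∃ (k' : Type v) (M' : Type u) (_ : Field k') (_ : Field M') (_ : Algebra k k')
      (_ : Algebra k M') (_ : Algebra M M') (_ : Algebra k' M') (_ : IsScalarTower k M M')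
      (_ : IsScalarTower k k' M') (t : k'), RF k M k' M' t := by
  let φ : Polynomial k →+* Polynomial M := Polynomial.mapRingHom (algebraMap k M)
  have hφ : Function.Injective φ := Polynomial.map_injective _ (algebraMap k M).injective
  let Φ : FractionRing (Polynomial k) →+* FractionRing (Polynomial M) :=
    IsFractionRing.map (K := FractionRing (Polynomial k)) (L := FractionRing (Polynomial M)) hφ
  have hΦ : ∀ p : Polynomial k, Φ (algebraMap (Polynomial k) (FractionRing (Polynomial k)) p) =
      algebraMap (Polynomial M) (FractionRing (Polynomial M)) (p.map (algebraMap k M)) := by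
    intro p
    exact IsLocalization.map_eq _ p
  let a4 : Algebra (FractionRing (Polynomial k)) (FractionRing (Polynomial M)) := Φ.toAlgebra
  have hk : ∀ c : k, algebraMap k (FractionRing (Polynomial k)) c =
      algebraMap (Polynomial k) (FractionRing (Polynomial k)) (Polynomial.C c) := fun c =>
    IsScalarTower.algebraMap_apply k (Polynomial k) (FractionRing (Polynomial k)) c
  have hM : ∀ c : M, algebraMap M (FractionRing (Polynomial M)) c =
      algebraMap (Polynomial M) (FractionRing (Polynomial M)) (Polynomial.C c) := fun c =>
    IsScalarTower.algebraMap_apply M (Polynomial M) (FractionRing (Polynomial M)) c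
  have hkM : ∀ c : k, algebraMap k (FractionRing (Polynomial M)) c =
      algebraMap M (FractionRing (Polynomial M)) (algebraMap k M c) := fun c =>
    IsScalarTower.algebraMap_apply k M (FractionRing (Polynomial M)) c
  have t2 : IsScalarTower k (FractionRing (Polynomial k)) (FractionRing (Polynomial M)) :=
    IsScalarTower.of_algebraMap_eq fun c => by
      change _ = Φ (algebraMap k (FractionRing (Polynomial k)) c)
      rw [hk, hΦ, Polynomial.map_C, hkM, hM]
  have h1 : algebraMap (FractionRing (Polynomial k)) (FractionRing (Polynomial M))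
      (algebraMap (Polynomial k) (FractionRing (Polynomial k)) Polynomial.X) =
        algebraMap (Polynomial M) (FractionRing (Polynomial M)) Polynomial.X := by
    change Φ _ = _
    rw [hΦ, Polynomial.map_X]
  refine ⟨FractionRing (Polynomial k), FractionRing (Polynomial M), inferInstance, inferInstance,
    inferInstance, inferInstance, inferInstance, a4, inferInstance, t2,
    algebraMap (Polynomial k) (FractionRing (Polynomial k)) Polynomial.X, ?_, ?_, ?_⟩
  · rw [h1]
    intro halg
    have h2 : IsAlgebraic M (Polynomial.X : Polynomial M) := by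
      refine (isAlgebraic_algebraMap_iff (R := M) (A := FractionRing (Polynomial M))
        (S := Polynomial M) (IsFractionRing.injective (Polynomial M)
          (FractionRing (Polynomial M)))).1 halg
    exact Polynomial.transcendental_X M h2
  · exact exists_RF_gen k
  · rw [h1]
    exact exists_RF_gen M

section D1c
open Polynomial

attribute [local instance] Polynomial.algebra in
/-- `[M(T) : K(T)] = [M : K]` -/
theorem D1c_finrank {K : Type*} {M : Type u} {L : Type*} {M' : Type u} [Field K] [Field M] [Field L]
    [Field M'] [Algebra K M] [Algebra M M'] [Algebra L M'] [Algebra.IsAlgebraic K M] (T : L)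
    (ι : K →+* L) (hι : ∀ x : K, algebraMap L M' (ι x) = algebraMap M M' (algebraMap K M x))
    (hT : Transcendental M (algebraMap L M' T))
    (hM' : adjoin M ({algebraMap L M' T} : Set M') = ⊤)
    (hL : ∀ x : L, ∃ p q : K[X], x = p.eval₂ ι T / q.eval₂ ι T) :
    Module.finrank L M' = Module.finrank K M := by
  let a1 : Algebra K[X] L := (eval₂RingHom ι T).toAlgebra
  let a2 : Algebra M[X] M' := (aeval (algebraMap L M' T)).toRingHom.toAlgebra
  let a3 : Algebra K[X] M' := ((algebraMap L M').comp (eval₂RingHom ι T)).toAlgebra
  have t1 : IsScalarTower K[X] L M' := IsScalarTower.of_algebraMap_eq fun x => rfl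
  have hcomp : ∀ p : K[X], algebraMap L M' (p.eval₂ ι T) =
      aeval (algebraMap L M' T) (p.map (algebraMap K M)) := by
    intro p
    rw [hom_eval₂, aeval_def, eval₂_map]
    congr 1
    ext x
    exact hι x
  have t2 : IsScalarTower K[X] M[X] M' := IsScalarTower.of_algebraMap_eq fun x => hcomp x
  have inj2 : Function.Injective (algebraMap M[X] M') := by
    have := transcendental_iff_injective.1 hT
    exact this
  have inj1 : Function.Injective (algebraMap K[X] L) := by
    have h3 : Function.Injective (algebraMap K[X] M') := by
      rw [IsScalarTower.algebraMap_eq K[X] M[X] M']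
      exact inj2.comp (Polynomial.map_injective _ (algebraMap K M).injective)
    rw [IsScalarTower.algebraMap_eq K[X] L M'] at h3
    exact Function.Injective.of_comp h3
  have f1 : FaithfulSMul K[X] L := (faithfulSMul_iff_algebraMap_injective _ _).2 inj1
  have f2 : FaithfulSMul M[X] M' := (faithfulSMul_iff_algebraMap_injective _ _).2 inj2
  have i1 : IsFractionRing K[X] L := IsFractionRing.of_field _ _ fun x => by
    obtain ⟨p, q, h⟩ := hL x
    exact ⟨p, q, h⟩
  have i2 : IsFractionRing M[X] M' := IsFractionRing.of_field _ _ fun x => by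
    have hx : x ∈ adjoin M ({algebraMap L M' T} : Set M') := hM' ▸ mem_top
    obtain ⟨p, q, h⟩ := mem_adjoin_simple_iff _ _ |>.1 hx
    exact ⟨p, q, h⟩
  have h1 : Module.rank L M' = Module.rank K M := by
    rw [Algebra.IsAlgebraic.rank_of_isFractionRing K[X] L M[X] M', rank_polynomial_polynomial]
  exact congrArg Cardinal.toNat h1

end D1c

variable {k : Type v} {M : Type u} {k' : Type v} {M' : Type u} [Field k] [Field M] [Field k']
  [Field M'] [Algebra k M] [Algebra k k'] [Algebra k M'] [Algebra M M'] [Algebra k' M']
  [IsScalarTower k M M'] [IsScalarTower k k' M'] {t : k'}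

/-- `k'(z) = k(t, z)`, and `z` is algebraically independent over `k(t)` if `(t, z)` is algebraically
independent over `k`. (`t` is transcendental over `k` because it is over `M`.) -/
theorem RF.pr_iff (h : RF k M k' M' t) {n : ℕ} (z : Fin n → M') :
    Pr k' z ↔ Pr k (Fin.cons (algebraMap k' M' t) z : Fin (n + 1) → M') := by
  have hinj : Function.Injective (algebraMap k' M') := (algebraMap k' M').injective
  have ht : Transcendental k t := by
    have h1 : Transcendental k (algebraMap k' M' t) := h.trans.restrictScalars
      (algebraMap k M).injective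
    intro h2
    exact h1 (h2.algHom (IsScalarTower.toAlgHom k k' M'))
  have hfield : (adjoin k' (Set.range z)).restrictScalars k =
      adjoin k (Set.range (Fin.cons (algebraMap k' M' t) z : Fin (n + 1) → M')) := by
    apply le_antisymm
    · intro x hx
      have hx' : x ∈ adjoin k' (Set.range z) := hx
      have hc : ∀ c : k', algebraMap k' M' c ∈
          adjoin k (Set.range (Fin.cons (algebraMap k' M' t) z : Fin (n + 1) → M')) := by
        intro c
        have hc : c ∈ adjoin k ({t} : Set k') := by rw [h.genk]; trivial
        induction hc using IntermediateField.adjoin_induction with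
        | mem u hu =>
          rw [Set.mem_singleton_iff] at hu
          subst hu
          exact subset_adjoin _ _ ⟨0, by simp⟩
        | algebraMap a =>
          rw [← IsScalarTower.algebraMap_apply k k' M']
          exact IntermediateField.algebraMap_mem _ _
        | add a b _ _ ha hb => rw [map_add]; exact add_mem ha hb
        | inv a _ ha => rw [map_inv₀]; exact inv_mem ha
        | mul a b _ _ ha hb => rw [map_mul]; exact mul_mem ha hb
      induction hx' using IntermediateField.adjoin_induction with
      | mem u hu =>
        obtain ⟨i, rfl⟩ := hu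
        exact subset_adjoin _ _ ⟨i.succ, by simp⟩
      | algebraMap a => exact hc a
      | add a b ha' hb' ha hb => exact add_mem (ha ha') (hb hb')
      | inv a ha' ha => exact inv_mem (ha ha')
      | mul a b ha' hb' ha hb => exact mul_mem (ha ha') (hb hb')
    · rw [adjoin_le_iff]
      rintro _ ⟨i, rfl⟩
      refine Fin.cases ?_ (fun i => ?_) i
      · show _ ∈ adjoin k' (Set.range z)
        rw [Fin.cons_zero]
        exact IntermediateField.algebraMap_mem _ _
      · show _ ∈ adjoin k' (Set.range z)
        rw [Fin.cons_succ]
        exact subset_adjoin _ _ ⟨i, rfl⟩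
  have hdeg : Module.finrank (adjoin k' (Set.range z)) M' = Module.finrank
      (adjoin k (Set.range (Fin.cons (algebraMap k' M' t) z : Fin (n + 1) → M'))) M' := by
    rw [← hfield]
    rfl
  have hind : AlgebraicIndependent k' z ↔
      AlgebraicIndependent k (Fin.cons (algebraMap k' M' t) z : Fin (n + 1) → M') := by
    have h1 : AlgebraicIndependent k (Fin.cons (algebraMap k' M' t) z : Fin (n + 1) → M') ↔
        AlgebraicIndependent k (Sum.elim z (fun _ : Fin 1 => algebraMap k' M' t)) := by
      symm
      refine algebraicIndependent_equiv' (Equiv.ofBijective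
        (Sum.elim Fin.succ (fun _ : Fin 1 => (0 : Fin (n + 1)))) ⟨?_, ?_⟩) ?_
      · rintro (a | a) (b | b) hab
        · simpa using hab
        · exact absurd hab (Fin.succ_ne_zero a)
        · exact absurd hab.symm (Fin.succ_ne_zero b)
        · rw [Subsingleton.elim a b]
      · intro i
        refine Fin.cases ⟨Sum.inr 0, rfl⟩ (fun i => ⟨Sum.inl i, rfl⟩) i
      · funext s
        rcases s with a | a
        · exact Fin.cons_succ _ _ _
        · exact Fin.cons_zero _ _
    rw [h1]
    constructor
    · intro h2
      exact AlgebraicIndependent.sumElim_comp (x := fun _ : Fin 1 => t)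
        ((algebraicIndependent_unique_type_iff).2 ht) h2
    · intro h2
      have h3 := (AlgebraicIndependent.sumElim_iff.1 h2).2
      have halg : Algebra.IsAlgebraic (Algebra.adjoin k ({t} : Set k')) k' := by
        rw [← IntermediateField.isAlgebraic_adjoin_iff_top, h.genk]
        infer_instance
      rw [← Algebra.IsAlgebraic.algebraicIndependent_iff (Algebra.adjoin k ({t} : Set k')) k']
      have hmap : (Algebra.adjoin k ({t} : Set k')).map (IsScalarTower.toAlgHom k k' M') =
          Algebra.adjoin k (Set.range (fun _ : Fin 1 => algebraMap k' M' t)) := by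
        rw [AlgHom.map_adjoin, Set.image_singleton, Set.range_const]
        rfl
      let e : Algebra.adjoin k ({t} : Set k') ≃ₐ[k]
          Algebra.adjoin k (Set.range (fun _ : Fin 1 => algebraMap k' M' t)) :=
        ((Algebra.adjoin k ({t} : Set k')).equivMapOfInjective
          (IsScalarTower.toAlgHom k k' M') hinj).trans (Subalgebra.equivOfEq _ _ hmap)
      exact (algebraicIndependent_ringHom_iff_of_comp_eq e (RingHom.id M')
        Function.injective_id (RingHom.ext fun _ => rfl)).1 h3
  rw [Pr, Pr, hind, hdeg]

/-- Base change: `[M(t) : k(t)(z)] = [M : k(z)]` for `z` in `M`. A basis `b` of `M` over `K = k(z)` (finite)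
is a basis of `M(t)` over `K(t)`: `M[T]` is free over `K[T]` with basis `b`, and `M(t)` is the
localisation of `M[T]` at the nonzero polynomials of `K[T]`, because `M` is algebraic over `K`
(`Module.Basis.localizationLocalization`; or: `b` stays linearly independent over `K(t)` - clear
denominators and compare coefficients -, and its span over `K(t)` is a finite dimensional
`K(t)`-algebra without zero divisors, so a field, which contains `M` and `t`). -/
theorem RF.pr (h : RF k M k' M' t) {n : ℕ} (z : Fin n → M) (hz : Pr k z) :
    Pr k' (fun i => algebraMap M M' (z i)) := by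
  rw [RF.pr_iff h, pr_cons]
  have hmap : adjoin k (Set.range fun i => algebraMap M M' (z i)) =
      (adjoin k (Set.range z)).map (IsScalarTower.toAlgHom k M M') := by
    rw [adjoin_map, ← Set.range_comp]
    rfl
  refine ⟨hz.1.map' (f := IsScalarTower.toAlgHom k M M') (algebraMap M M').injective, ?_, ?_⟩
  · rw [hmap]
    set K := adjoin k (Set.range z) with hK
    let f : (K.map (IsScalarTower.toAlgHom k M M')) →+* M :=
      K.val.toRingHom.comp (K.equivMap (IsScalarTower.toAlgHom k M M')).symm.toRingHom
    refine Transcendental.of_ringHom_of_comp_eq f (RingHom.id M') h.trans f.injective ?_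
    ext x
    obtain ⟨y, rfl⟩ := (K.equivMap (IsScalarTower.toAlgHom k M M')).surjective x
    simp [f]
  · rw [hmap]
    set K := adjoin k (Set.range z) with hK
    have hodd : Odd (Module.finrank K M) := hz.2
    have : FiniteDimensional K M := Module.finite_of_finrank_pos hodd.pos
    set K' := K.map (IsScalarTower.toAlgHom k M M') with hK'
    set E := adjoin K' ({algebraMap k' M' t} : Set M') with hE
    have hfin : Module.finrank E M' = Module.finrank K M := by
      refine D1c_finrank (K := K) (M := M) (L := E)
        ⟨algebraMap k' M' t, subset_adjoin _ _ rfl⟩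
        ((algebraMap K' E).comp (K.equivMap (IsScalarTower.toAlgHom k M M')).toRingHom) ?_ ?_ ?_ ?_
      · intro x
        rfl
      · exact h.trans
      · exact h.genM
      · intro x
        obtain ⟨r, s, hx⟩ := mem_adjoin_simple_iff _ _ |>.1 x.2
        let e := K.equivMap (IsScalarTower.toAlgHom k M M')
        obtain ⟨p, rfl⟩ := Polynomial.map_surjective e.toRingHom e.surjective r
        obtain ⟨q, rfl⟩ := Polynomial.map_surjective e.toRingHom e.surjective s
        refine ⟨p, q, ?_⟩
        have key : ∀ p : Polynomial K, algebraMap E M' (p.eval₂ ((algebraMap K' E).comp e.toRingHom)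
            ⟨algebraMap k' M' t, subset_adjoin _ _ rfl⟩) =
            Polynomial.aeval (algebraMap k' M' t) (p.map e.toRingHom) := by
          intro p
          rw [Polynomial.hom_eval₂, Polynomial.aeval_def, Polynomial.eval₂_map]
          rfl
        apply (algebraMap E M').injective
        rw [map_div₀, key, key]
        exact hx
    rw [hfin]
    exact hodd

/-- an automorphism of a purely transcendental extension of degree one -/
private theorem D1d_aut {K L : Type*} [Field K] [Field L] [Algebra K L] (f f' : L)
    (h : Transcendental K f) (h' : Transcendental K f') (hg : adjoin K ({f} : Set L) = ⊤)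
    (hg' : adjoin K ({f'} : Set L) = ⊤) : ∃ σ : L ≃ₐ[K] L, σ f = f' := by
  have key : ∀ (f : L) (h : Transcendental K f) (hg : adjoin K ({f} : Set L) = ⊤),
      ∃ e : RatFunc K ≃ₐ[K] L, e RatFunc.X = f := by
    intro f h hg
    refine ⟨(RatFunc.algEquivOfTranscendental f h).trans
      ((IntermediateField.equivOfEq hg).trans IntermediateField.topEquiv), ?_⟩
    have h1 := RatFunc.algEquivOfTranscendental_X f h
    exact h1
  obtain ⟨e, he⟩ := key f h hg
  obtain ⟨e', he'⟩ := key f' h' hg'
  refine ⟨e.symm.trans e', ?_⟩
  rw [AlgEquiv.trans_apply, ← he, AlgEquiv.symm_apply_apply, he']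

private theorem D1d_scale {K L : Type*} [Field K] [Field L] [Algebra K L] (f : L)
    (h : Transcendental K f) (hg : adjoin K ({f} : Set L) = ⊤) (c : K) (hc : c ≠ 0) :
    ∃ σ : L ≃ₐ[K] L, σ f = algebraMap K L c * f := by
  have hc' : algebraMap K L c ≠ 0 := by
    rwa [Ne, map_eq_zero]
  have hf : f = algebraMap K L c⁻¹ * (algebraMap K L c * f) := by
    rw [map_inv₀, ← mul_assoc, inv_mul_cancel₀ hc', one_mul]
  refine D1d_aut f _ h ?_ hg ?_
  · intro halg
    apply h
    rw [hf]
    exact (isAlgebraic_algebraMap _).mul halg
  · rw [eq_top_iff, ← hg, adjoin_le_iff, Set.singleton_subset_iff]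
    have h1 : algebraMap K L c * f ∈ adjoin K ({algebraMap K L c * f} : Set L) :=
      mem_adjoin_simple_self K _
    have h2 := mul_mem (IntermediateField.algebraMap_mem
      (adjoin K ({algebraMap K L c * f} : Set L)) c⁻¹) h1
    rwa [← hf] at h2

private theorem D1d_semilin {K L : Type*} [Field K] [Field L] [Algebra K L] (τ : K ≃+* K)
    (σ : L ≃+* L) (h : ∀ c, σ (algebraMap K L c) = algebraMap K L (τ c)) (s : Set L) {x : L}
    (hx : x ∈ adjoin K s) : σ x ∈ adjoin K (σ '' s) := by
  induction hx using adjoin_induction with
  | mem x hx => exact subset_adjoin _ _ ⟨x, hx, rfl⟩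
  | algebraMap x =>
    rw [h]
    exact IntermediateField.algebraMap_mem _ _
  | add x y _ _ hx hy =>
    rw [map_add]
    exact add_mem hx hy
  | inv x _ hx =>
    rw [map_inv₀]
    exact inv_mem hx
  | mul x y _ _ hx hy =>
    rw [map_mul]
    exact mul_mem hx hy

private theorem D1d_pr {K L : Type*} [Field K] [Field L] [Algebra K L] (τ : K ≃+* K)
    (σ : L ≃+* L) (h : ∀ c, σ (algebraMap K L c) = algebraMap K L (τ c)) {n : ℕ} (u : Fin n → L)
    (hP : Pr K u) : Pr K (fun i => σ (u i)) := by
  obtain ⟨h1, h2⟩ := hP
  refine ⟨?_, ?_⟩
  · have h3 := h1.ringHom_of_comp_eq (S := K) (B := L) τ σ τ.surjective σ.injective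
      (RingHom.ext fun c => (h c).symm)
    exact h3
  · have hr : Set.range (fun i => σ (u i)) = σ '' Set.range u := by
      rw [← Set.range_comp]
      rfl
    have hsymm : ∀ c, σ.symm (algebraMap K L c) = algebraMap K L (τ.symm c) := by
      intro c
      rw [RingEquiv.symm_apply_eq, h, RingEquiv.apply_symm_apply]
    have hmem : ∀ x, x ∈ adjoin K (Set.range u) ↔ σ x ∈ adjoin K (σ '' Set.range u) := by
      intro x
      constructor
      · exact D1d_semilin τ σ h _
      · intro hx
        have h4 := D1d_semilin τ.symm σ.symm hsymm _ hx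
        rw [RingEquiv.symm_apply_apply, ← Set.image_comp] at h4
        have h5 : (σ.symm ∘ σ) '' Set.range u = Set.range u := by
          have h6 : (σ.symm ∘ σ : L → L) = id := by
            funext y
            simp
          rw [h6, Set.image_id]
        rwa [h5] at h4
    rw [hr]
    let i0 : adjoin K (Set.range u) →+* adjoin K (σ '' Set.range u) :=
      ((σ : L →+* L).comp (algebraMap (adjoin K (Set.range u)) L)).codRestrict
        (adjoin K (σ '' Set.range u)) (fun x => (hmem _).mp x.2)
    have hi0 : ∀ x, (i0 x : L) = σ (x : L) := fun x => rfl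
    have hb : Function.Bijective i0 := by
      refine ⟨i0.injective, fun y => ?_⟩
      refine ⟨⟨σ.symm y, ?_⟩, ?_⟩
      · rw [hmem, RingEquiv.apply_symm_apply]
        exact y.2
      · apply Subtype.ext
        rw [hi0]
        exact σ.apply_symm_apply _
    rw [← Algebra.finrank_eq_of_equiv_equiv (RingEquiv.ofBijective i0 hb) σ
      (RingHom.ext fun x => rfl)]
    exact h2

/-- The automorphism `t ↦ w t` of `M' = M(t)` over `M` maps `k' = k(t)` onto itself and
`t x_i + y_i` to `w t x_i + y_i`; so it maps `k'(t x + y)` onto `k'(w t x + y)`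
(`Algebra.finrank_eq_of_equiv_equiv`; algebraic independence is preserved by a semilinear
isomorphism). -/
theorem RF.scale (h : RF k M k' M' t) (w : k) (hw : w ≠ 0) {n : ℕ} (x y : Fin n → M)
    (hP : Pr k' (fun i => algebraMap k' M' t * algebraMap M M' (x i) + algebraMap M M' (y i))) :
    Pr k' (fun i => algebraMap k' M' t * algebraMap M M' (algebraMap k M w * x i) +
      algebraMap M M' (y i)) := by
  have htk : Transcendental k t := by
    intro halg
    apply h.trans
    have h1 : IsAlgebraic k (algebraMap k' M' t) := halg.algebraMap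
    exact h1.tower_top M
  obtain ⟨σ, hσ⟩ := D1d_scale (K := M) (L := M') (algebraMap k' M' t) h.trans h.genM
    (algebraMap k M w) (by rwa [Ne, map_eq_zero])
  obtain ⟨τ, hτ⟩ := D1d_scale (K := k) (L := k') t htk h.genk w hw
  have hcomm : ∀ c : k', σ (algebraMap k' M' c) = algebraMap k' M' (τ c) := by
    intro c
    have hc : c ∈ adjoin k ({t} : Set k') := by
      rw [h.genk]
      exact mem_top
    induction hc using adjoin_induction with
    | mem x hx =>
      rw [Set.mem_singleton_iff] at hx
      subst hx
      rw [hσ, hτ, map_mul, ← IsScalarTower.algebraMap_apply k M M',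
        ← IsScalarTower.algebraMap_apply k k' M']
    | algebraMap x =>
      rw [AlgEquiv.commutes, ← IsScalarTower.algebraMap_apply k k' M',
        IsScalarTower.algebraMap_apply k M M', AlgEquiv.commutes]
    | add x y _ _ hx hy => rw [map_add, map_add, hx, hy, map_add, map_add]
    | inv x _ hx => rw [map_inv₀, map_inv₀, hx, map_inv₀, map_inv₀]
    | mul x y _ _ hx hy => rw [map_mul, map_mul, hx, hy, map_mul, map_mul]
  have h2 := D1d_pr (K := k') (L := M') τ.toRingEquiv σ.toRingEquiv hcomm _ hP
  have h3 : (fun i => σ.toRingEquiv (algebraMap k' M' t * algebraMap M M' (x i) +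
      algebraMap M M' (y i))) = (fun i => algebraMap k' M' t *
        algebraMap M M' (algebraMap k M w * x i) + algebraMap M M' (y i)) := by
    funext i
    change σ _ = _
    rw [map_add, map_mul, hσ, AlgEquiv.commutes, AlgEquiv.commutes, map_mul]
    ring
  rw [← h3]
  exact h2

/-- `rat k' y = k'(y_i / y_j)` is algebraic over `k'(B)`, `B` a transcendence basis of `rat k y`
over `k`. -/
theorem RF.trdeg_rat (h : RF k M k' M' t) {n : ℕ} (y : Fin n → M) (D : ℕ)
    (hD : Algebra.trdeg k (rat k y) ≤ D) :
    Algebra.trdeg k' (rat k' (fun i => algebraMap M M' (y i))) ≤ D := by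
  have hmem : ∀ z ∈ rat k y, algebraMap M M' z ∈ rat k' (fun i => algebraMap M M' (y i)) := by
    intro z hz
    rw [rat] at hz
    induction hz using adjoin_induction with
    | mem x hx =>
      obtain ⟨i, j, rfl⟩ := hx
      rw [map_div₀]
      exact subset_adjoin _ _ ⟨i, j, rfl⟩
    | algebraMap c =>
      rw [← IsScalarTower.algebraMap_apply k M M', IsScalarTower.algebraMap_apply k k' M']
      exact IntermediateField.algebraMap_mem _ _
    | add a b _ _ ha hb => rw [map_add]; exact add_mem ha hb
    | inv a _ ha => rw [map_inv₀]; exact inv_mem ha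
    | mul a b _ _ ha hb => rw [map_mul]; exact mul_mem ha hb
  let φ : rat k y →+* rat k' (fun i => algebraMap M M' (y i)) :=
    RingHom.codRestrict ((algebraMap M M').comp (algebraMap (rat k y) M)) _
      (fun z => hmem z.1 z.2)
  have hφ : Function.Injective φ := φ.injective
  have hφk : ∀ c : k, φ (algebraMap k _ c) = algebraMap k' _ (algebraMap k k' c) := by
    intro c
    apply Subtype.ext
    change algebraMap M M' (algebraMap k M c) = algebraMap k' M' (algebraMap k k' c)
    rw [← IsScalarTower.algebraMap_apply k M M', IsScalarTower.algebraMap_apply k k' M']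
  obtain ⟨s, hs⟩ := exists_isTranscendenceBasis k (rat k y)
  have hcard := hs.cardinalMk_eq_trdeg
  have halg := hs.isAlgebraic
  rw [Subtype.range_coe] at halg
  have hψ : ∀ z : Algebra.adjoin k s, φ z.1 ∈ Algebra.adjoin k' (φ '' s) := by
    rintro ⟨z, hz⟩
    change φ z ∈ _
    induction hz using Algebra.adjoin_induction with
    | mem x hx => exact Algebra.subset_adjoin ⟨x, hx, rfl⟩
    | algebraMap c => rw [hφk]; exact Subalgebra.algebraMap_mem _ _
    | add a b _ _ ha hb => rw [map_add]; exact add_mem ha hb
    | mul a b _ _ ha hb => rw [map_mul]; exact mul_mem ha hb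
  let ψ : Algebra.adjoin k s →+* Algebra.adjoin k' (φ '' s) :=
    RingHom.codRestrict (φ.comp (algebraMap (Algebra.adjoin k s) (rat k y))) _ hψ
  have hψi : Function.Injective ψ := by
    intro a b hab
    have h1 : φ a.1 = φ b.1 := congrArg Subtype.val hab
    exact Subtype.ext (hφ h1)
  have hE : ∀ e : rat k y, IsAlgebraic (Algebra.adjoin k' (φ '' s)) (φ e) := fun e =>
    (Algebra.IsAlgebraic.isAlgebraic (R := Algebra.adjoin k s) e).ringHom_of_comp_eq ψ φ hψi
      (RingHom.ext fun _ => rfl)
  have hall : ∀ (z : M') (hz : z ∈ adjoin k' {z : M' | ∃ i j, z = (fun i => algebraMap M M' (y i)) i /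
      (fun i => algebraMap M M' (y i)) j}),
      IsAlgebraic (Algebra.adjoin k' (φ '' s)) (⟨z, hz⟩ : rat k' (fun i => algebraMap M M' (y i))) := by
    intro z hz
    induction hz using adjoin_induction with
    | mem x hx =>
      obtain ⟨i, j, rfl⟩ := hx
      have h1 := hE ⟨y i / y j, subset_adjoin _ _ ⟨i, j, rfl⟩⟩
      convert h1 using 1
      apply Subtype.ext
      change algebraMap M M' (y i) / algebraMap M M' (y j) = algebraMap M M' (y i / y j)
      rw [map_div₀]
    | algebraMap c =>
      have h1 : (⟨algebraMap k' M' c, IntermediateField.algebraMap_mem _ _⟩ :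
          rat k' (fun i => algebraMap M M' (y i))) =
          algebraMap (Algebra.adjoin k' (φ '' s)) _ (algebraMap k' _ c) := rfl
      exact h1 ▸ isAlgebraic_algebraMap _
    | add a b _ _ ha hb => exact ha.add hb
    | inv a _ ha => exact ha.inv
    | mul a b _ _ ha hb => exact ha.mul hb
  have hfin : Algebra.IsAlgebraic (Algebra.adjoin k' (φ '' s))
      (rat k' (fun i => algebraMap M M' (y i))) := ⟨fun z => hall z.1 z.2⟩
  have h1 := Algebra.IsAlgebraic.trdeg_le_cardinalMk k' (φ '' s)
  refine h1.trans (Cardinal.mk_image_le.trans ?_)
  rw [hcard]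
  exact hD

end MP2619.R
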