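import Mathlib

/-!
# Reflection in points of small transcendence degree: definitions (characteristic two)
-/

set_option autoImplicit false

namespace MP2619.R

universe v u

open IntermediateField

/-- the field `k(y_i / y_j)` -/
def rat (k : Type v) {M : Type u} [Field k] [Field M] [Algebra k M] {ι : Type*} (y : ι → M) :
    IntermediateField k M :=
  adjoin k {z : M | ∃ i j, z = y i / y j}

/-- Odd data of level `(n, D)`: two points `x`, `y` of the cone over the Fermat cubic in `n` variables
in characteristic two, whose sum `u = x + y` is a generic point of affine space with `[M : k(u)]` odd,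
and `tr.deg k(y_i / y_j) ≤ D`. -/
structure Odd2 (n D : ℕ) (k : Type v) (M : Type u) [Field k] [Field M] [Algebra k M]
    (x y : Fin n → M) : Prop where
  two : (2 : k) = 0
  om : ∃ w : k, w ^ 2 + w + 1 = 0
  ind : AlgebraicIndependent k (fun i => x i + y i)
  odd : Odd (Module.finrank (adjoin k (Set.range fun i => x i + y i)) M)
  Fx : ∑ i, x i ^ 3 = 0
  Fy : ∑ i, y i ^ 3 = 0
  small : Algebra.trdeg k (rat k y) ≤ D

/-- There are no odd data of level `(n, D)`. -/
def S (n D : ℕ) : Prop := ∀ (k : Type v) (M : Type u) [Field k] [Field M] [Algebra k M]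
  (x y : Fin n → M), ¬ Odd2 n D k M x y

end MP2619.R
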