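import Pool.Agent.Lib.MP_2619d0_ag.R.A1
import Pool.Agent.Lib.MP_2619d0_ag.T.LT2

/-!
Row A2: the fundamental identity `∑ e f = n` over a discrete valuation ring, separable case.
-/

set_option autoImplicit false

namespace MP2619.R

universe v u

open Pool.Agent.Lib.MP_2619d0_ag.T

theorem A2_place {S M : Type*} [CommRing S] [IsDedekindDomain S] [Field M] [Algebra S M]
    [IsFractionRing S M] (P : Ideal S) (hPp : P.IsPrime) (hP : P ≠ ⊥) :
    ∃ O : ValuationSubring M,
      (∀ a, algebraMap S M a ∈ O) ∧
      (∀ a, O.valuation (algebraMap S M a) < 1 ↔ a ∈ P) ∧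
      (∀ x ∈ O, ∃ a, O.valuation (x - algebraMap S M a) < 1) ∧
      DV O ∧
      (∀ (a : S) (e : ℕ), a ∈ P ^ e → a ∉ P ^ (e + 1) → ord O (algebraMap S M a) = e) ∧
      ∀ O' : ValuationSubring M, (∀ a, algebraMap S M a ∈ O') →
        (∀ a ∈ P, O'.valuation (algebraMap S M a) < 1) → O' = O := by
  classical
  let v : IsDedekindDomain.HeightOneSpectrum S := ⟨P, hPp, hP⟩
  have hmax : P.IsMaximal := v.isMaximal
  set V := v.valuation M with hV
  have hE : V.IsEquiv V.valuationSubring.valuation :=
    Valuation.isEquiv_valuation_valuationSubring V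
  have hlt : ∀ x, V.valuationSubring.valuation x < 1 ↔ V x < 1 := fun x =>
    (Valuation.isEquiv_iff_val_lt_one.mp hE).symm
  have heq : ∀ x, V.valuationSubring.valuation x = 1 ↔ V x = 1 := fun x =>
    (Valuation.isEquiv_iff_val_eq_one.mp hE).symm
  have hPmem : ∀ a : S, V (algebraMap S M a) < 1 ↔ a ∈ P := fun a =>
    v.valuation_lt_one_iff_mem a
  have hle1 : ∀ a : S, V (algebraMap S M a) ≤ 1 := fun a => v.valuation_le_one a
  have hquot : ∀ x : M, V x ≤ 1 → ∃ (n d : S), d ∉ P ∧ x * algebraMap S M d = algebraMap S M n := by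
    intro x hx
    obtain ⟨n, d, h⟩ := v.exists_primeCompl_mul_eq_of_integer (K := M) x hx
    exact ⟨n, d, d.2, h⟩
  have hval1 : ∀ d : S, d ∉ P → V (algebraMap S M d) = 1 := by
    intro d hd
    refine le_antisymm (hle1 d) ?_
    by_contra h
    exact hd ((hPmem d).mp (not_le.mp h))
  obtain ⟨π, hπ⟩ := v.valuation_exists_uniformizer' M
  rw [← hV] at hπ
  change V (algebraMap S M π) = WithZero.exp (-1) at hπ
  have hπ0 : algebraMap S M π ≠ 0 := by
    intro h
    rw [h, map_zero] at hπ
    exact absurd hπ.symm WithZero.exp_ne_zero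
  have hpow : ∀ (a : S) (n : ℕ), V (algebraMap S M a) ≤ WithZero.exp (-(n : ℤ)) ↔ a ∈ P ^ n := by
    intro a n
    rw [hV, v.valuation_of_algebraMap]
    exact v.intValuation_le_pow_iff_mem a n
  have huf : IsUf V.valuationSubring (algebraMap S M π) := by
    refine ⟨hπ0, ?_, fun a ha => ?_⟩
    · rw [hlt, hπ, ← WithZero.exp_zero, WithZero.exp_lt_exp]
      norm_num
    · have h0 : V a ≠ 0 := (Valuation.ne_zero_iff _).mpr ha
      obtain ⟨k, hk⟩ : ∃ k : ℤ, V a = WithZero.exp k := ⟨_, (WithZero.exp_log h0).symm⟩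
      refine ⟨-k, a / algebraMap S M π ^ (-k), ?_, ?_⟩
      · rw [heq, map_div₀, map_zpow₀, hπ, hk, ← WithZero.exp_zsmul, ← WithZero.exp_sub,
          ← WithZero.exp_zero]
        congr 1
        simp
      · rw [div_mul_cancel₀ _ (zpow_ne_zero _ hπ0)]
  have hdv : DV V.valuationSubring := ⟨_, huf⟩
  refine ⟨V.valuationSubring, fun a => hle1 a, fun a => ?_, fun x hx => ?_, hdv,
    fun a e h1 h2 => ?_, fun O' h1 h2 => ?_⟩
  · rw [hlt]
    exact hPmem a
  · obtain ⟨a, ha⟩ := v.exists_valuation_sub_lt_of_integer (K := M) (x := x) hx 1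
    refine ⟨a, ?_⟩
    rw [hlt, Valuation.map_sub_swap]
    simpa using ha
  · refine ord_eq (η := algebraMap S M a / algebraMap S M π ^ e) hdv huf ?_ ?_
    · rw [heq, map_div₀, map_pow, hπ]
      have h3 := (hpow a e).mpr h1
      have h4 := (hpow a (e + 1)).not.mpr h2
      have h0 : V (algebraMap S M a) ≠ 0 := by
        intro h
        rw [h] at h4
        exact h4 zero_le
      obtain ⟨k, hk⟩ : ∃ k : ℤ, V (algebraMap S M a) = WithZero.exp k :=
        ⟨_, (WithZero.exp_log h0).symm⟩
      rw [hk, WithZero.exp_le_exp] at h3 h4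
      have : k = -(e : ℤ) := by
        push_cast at h4
        omega
      rw [hk, this, ← WithZero.exp_nsmul, ← WithZero.exp_sub, ← WithZero.exp_zero]
      congr 1
      simp
    · rw [zpow_natCast, div_mul_cancel₀ _ (pow_ne_zero _ hπ0)]
  · have hunit : ∀ d : S, d ∉ P → O'.valuation (algebraMap S M d) = 1 := by
      intro d hd
      obtain ⟨c, i, hi, hc⟩ := hmax.exists_inv hd
      have e1 : algebraMap S M c * algebraMap S M d = 1 - algebraMap S M i := by
        rw [← map_mul, ← map_one (algebraMap S M), ← map_sub]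
        congr 1
        linear_combination hc
      have h3 : O'.valuation (1 - algebraMap S M i) = 1 := by
        rw [Valuation.map_sub_eq_of_lt_left]
        · exact map_one _
        · rw [map_one]
          exact h2 i hi
      have h4 : O'.valuation (algebraMap S M c) * O'.valuation (algebraMap S M d) = 1 := by
        rw [← map_mul, e1, h3]
      have h5 := (O'.valuation_le_one_iff _).mpr (h1 c)
      have h6 := (O'.valuation_le_one_iff _).mpr (h1 d)
      refine le_antisymm h6 ?_
      rw [← h4]
      exact mul_le_of_le_one_left' h5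
    ext x
    change x ∈ O' ↔ V x ≤ 1
    constructor
    · intro hx
      by_contra hcon
      rw [not_le] at hcon
      have hx0 : x ≠ 0 := by
        rintro rfl
        rw [map_zero] at hcon
        exact not_lt_zero hcon
      have h3 : V x⁻¹ < 1 := by
        rw [map_inv₀]
        exact inv_lt_one_of_one_lt₀ hcon
      obtain ⟨n, d, hd, hnd⟩ := hquot x⁻¹ h3.le
      have h4 : n ∈ P := by
        rw [← hPmem, ← hnd, map_mul, hval1 d hd, mul_one]
        exact h3
      have h5 := h2 n h4
      rw [← hnd, map_mul, hunit d hd, mul_one, map_inv₀] at h5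
      have h6 := (O'.valuation_le_one_iff x).mpr hx
      have h8 : O'.valuation x ≠ 0 := (Valuation.ne_zero_iff _).mpr hx0
      have h7 : (O'.valuation x)⁻¹ * O'.valuation x < 1 := mul_lt_one_of_lt_of_le h5 h6
      rw [inv_mul_cancel₀ h8] at h7
      exact lt_irrefl _ h7
    · intro hx
      obtain ⟨n, d, hd, hnd⟩ := hquot x hx
      rw [← O'.valuation_le_one_iff]
      have h3 : O'.valuation (x * algebraMap S M d) ≤ 1 := by
        rw [hnd]
        exact (O'.valuation_le_one_iff _).mpr (h1 n)
      rwa [map_mul, hunit d hd, mul_one] at h3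

theorem A2_core {A K M S : Type*} [CommRing A] [IsDomain A] [IsDiscreteValuationRing A] [Field K]
    [Field M] [Algebra A K] [IsFractionRing A K] [Algebra K M] [Algebra A M] [IsScalarTower A K M]
    [CommRing S] [IsDedekindDomain S] [Algebra A S] [Algebra S M] [IsFractionRing S M]
    [IsScalarTower A S M] [Module.Finite A S] :
    ∃ (s : Finset (ValuationSubring M)) (d : ValuationSubring M → ℕ),
      (∀ O, O ∈ s ↔ ((∀ a, algebraMap A M a ∈ O) ∧
        ∀ a, O.valuation (algebraMap A M a) < 1 ↔ a ∈ IsLocalRing.maximalIdeal A)) ∧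
      (∀ O ∈ s, DV O) ∧
      (∀ O ∈ s, ∀ h : ∀ a, algebraMap A M a ∈ O,
        Module.finrank (Subfield.closure (Set.range ((IsLocalRing.residue O).comp
          ((algebraMap A M).codRestrict O h)))) (IsLocalRing.ResidueField O) = d O) ∧
      ∀ ϖ : A, Irreducible ϖ → ∑ O ∈ s, (ord O (algebraMap A M ϖ)).toNat * d O =
        Module.finrank K M := by
  classical
  set p := IsLocalRing.maximalIdeal A with hp
  have hp0 : p ≠ ⊥ := IsDiscreteValuationRing.not_a_field A
  have hfs : FaithfulSMul A S := FaithfulSMul.of_field_isFractionRing A S K M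
  have hinj : Function.Injective (algebraMap A S) := FaithfulSMul.algebraMap_injective A S
  have hmap0 : p.map (algebraMap A S) ≠ ⊥ := by
    rwa [Ne, Ideal.map_eq_bot_iff_of_injective hinj]
  have hAM : ∀ a, algebraMap A M a = algebraMap S M (algebraMap A S a) :=
    fun a => IsScalarTower.algebraMap_apply A S M a
  have hO : ∀ P : Ideal S, ∃ O : ValuationSubring M, P.IsPrime → P ≠ ⊥ →
      (∀ a, algebraMap S M a ∈ O) ∧
      (∀ a, O.valuation (algebraMap S M a) < 1 ↔ a ∈ P) ∧
      (∀ x ∈ O, ∃ a, O.valuation (x - algebraMap S M a) < 1) ∧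
      DV O ∧
      (∀ (a : S) (e : ℕ), a ∈ P ^ e → a ∉ P ^ (e + 1) → ord O (algebraMap S M a) = e) ∧
      ∀ O' : ValuationSubring M, (∀ a, algebraMap S M a ∈ O') →
        (∀ a ∈ P, O'.valuation (algebraMap S M a) < 1) → O' = O := by
    intro P
    by_cases h : P.IsPrime ∧ P ≠ ⊥
    · obtain ⟨O, hO⟩ := A2_place (M := M) P h.1 h.2
      exact ⟨O, fun _ _ => hO⟩
    · exact ⟨⊤, fun h1 h2 => absurd ⟨h1, h2⟩ h⟩
  choose OP hOP using hO
  set T := IsDedekindDomain.primesOverFinset p S with hT
  have hTm : ∀ P, P ∈ T ↔ P.IsPrime ∧ P.LiesOver p := by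
    intro P
    rw [hT, IsDedekindDomain.mem_primesOverFinset_iff hp0]
    rfl
  have hT0 : ∀ P ∈ T, P ≠ ⊥ := by
    intro P hP
    have := ((hTm P).mp hP).2
    exact Ideal.ne_bot_of_liesOver_of_ne_bot hp0 P
  have hP := fun (P : Ideal S) (h : P ∈ T) => hOP P ((hTm P).mp h).1 (hT0 P h)
  have hOinj : Set.InjOn OP T := by
    intro P hPT Q hQT hPQ
    ext a
    rw [← (hP P hPT).2.1 a, ← (hP Q hQT).2.1 a, hPQ]
  have hinv : ∀ P ∈ T, Function.invFunOn OP T (OP P) = P := fun P h =>
    hOinj.leftInvOn_invFunOn h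
  refine ⟨T.image OP,
    fun O => if h : ∀ a, algebraMap A M a ∈ O then
      Module.finrank (Subfield.closure (Set.range ((IsLocalRing.residue O).comp
          ((algebraMap A M).codRestrict O h)))) (IsLocalRing.ResidueField O) else 0,
    ?_, ?_, ?_, ?_⟩
  · intro O
    constructor
    · intro hO
      obtain ⟨P, hPT, rfl⟩ := Finset.mem_image.mp hO
      obtain ⟨h1, h2, h3, hdv, h4, h5⟩ := hP P hPT
      have hover := ((hTm P).mp hPT).2
      refine ⟨fun a => by rw [hAM]; exact h1 _, fun a => ?_⟩
      rw [hAM, h2, ← Ideal.mem_comap]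
      have h6 : p = P.comap (algebraMap A S) := hover.over
      rw [← h6]
    · rintro ⟨h1, h2⟩
      have hS : ∀ a, algebraMap S M a ∈ O := by
        intro a
        refine LT2_integral O h1 _ ?_
        exact (Algebra.IsIntegral.isIntegral (R := A) a).map (IsScalarTower.toAlgHom A S M)
      set P : Ideal S := (IsLocalRing.maximalIdeal O).comap ((algebraMap S M).codRestrict O hS)
        with hPdef
      have hmem : ∀ a, a ∈ P ↔ O.valuation (algebraMap S M a) < 1 := by
        intro a
        rw [hPdef, Ideal.mem_comap]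
        exact (ValuationSubring.valuation_lt_one_iff O _)
      have hPp : P.IsPrime := Ideal.comap_isPrime _ _
      have hPo : P.LiesOver p := by
        refine ⟨?_⟩
        ext a
        rw [Ideal.mem_comap, hmem, ← hAM, h2]
      have hPT : P ∈ T := (hTm P).mpr ⟨hPp, hPo⟩
      refine Finset.mem_image.mpr ⟨P, hPT, ?_⟩
      exact ((hP P hPT).2.2.2.2.2 O hS (fun a ha => (hmem a).mp ha)).symm
  · intro O hO
    obtain ⟨P, hPT, rfl⟩ := Finset.mem_image.mp hO
    exact (hP P hPT).2.2.2.1
  · intro O hO h
    beta_reduce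
    rw [dif_pos h]
  · have hordP : ∀ ϖ : A, Irreducible ϖ → ∀ P ∈ T,
        ord (OP P) (algebraMap A M ϖ) = (Ideal.ramificationIdx' p P : ℕ) := by
      intro ϖ hϖ P hPT
      obtain ⟨h1, h2, h3, hdv, h4, h5⟩ := hP P hPT
      rw [hAM]
      have hspan : p.map (algebraMap A S) = Ideal.span {algebraMap A S ϖ} := by
        rw [hp, hϖ.maximalIdeal_eq, Ideal.map_span, Set.image_singleton]
      apply h4
      · have h6 : p.map (algebraMap A S) ≤ P ^ (Ideal.ramificationIdx' p P) :=
          Ideal.le_pow_ramificationIdx'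
        rw [hspan, Ideal.span_singleton_le_iff_mem] at h6
        exact h6
      · intro h6
        have hpr := ((hTm P).mp hPT).1
        have h7 : FiniteMultiplicity P (p.map (algebraMap A S)) :=
          FiniteMultiplicity.of_prime_left (Ideal.prime_of_isPrime (hT0 P hPT) hpr) hmap0
        have h8 := Ideal.IsDedekindDomain.ramificationIdx'_eq_multiplicity hmap0 hpr
        have h9 : ¬ P ^ (Ideal.ramificationIdx' p P + 1) ∣ p.map (algebraMap A S) := by
          rw [h8]
          exact h7.not_pow_dvd_of_multiplicity_lt (Nat.lt_succ_self _)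
        apply h9
        rw [Ideal.dvd_iff_le, hspan, Ideal.span_singleton_le_iff_mem]
        exact h6
    intro ϖ hϖ
    rw [Finset.sum_image (fun P hPT Q hQT h => hOinj hPT hQT h),
      ← Ideal.sum_ramification_inertia S K M hp0]
    refine Finset.sum_congr rfl fun P hPT => ?_
    obtain ⟨h1, h2, h3, hdv, h4, h5⟩ := hP P hPT
    have hover := ((hTm P).mp hPT).2
    have h6 : ∀ a, algebraMap A M a ∈ OP P := fun a => by rw [hAM]; exact h1 _
    beta_reduce
    rw [hordP ϖ hϖ P hPT, Int.toNat_natCast, dif_pos h6, Ideal.inertiaDeg'_algebraMap,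
      LT2_deg p P (OP P) h1 h2 h3 h6]

/-- Copy of the proofs of `dedekind_place` (file `T/LT1.lean`), `LT2_core` and `fi_dvr` (file
`T/LT2.lean`) with two changes.
* The characteristic is arbitrary; the extension is assumed to be separable (`hsep`); in `fi_dvr` the
  characteristic was only used for separability.
* `dedekind_place` should give in addition `DV O` and: for `a ∈ P ^ e`, `a ∉ P ^ (e + 1)`:
  `ord O (algebraMap S M a) = e`. There `O = (v.valuation M).valuationSubring`, the value group is
  `WithZero (Multiplicative ℤ)`, `π` with `v.valuation π = exp (-1)` is a uniformizer (`IsUf`): for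
  `a ≠ 0`, `v.valuation a = exp k`, take `e = -k`, `η = a / π ^ e`. Then `ord_eq`. -/
theorem fi_sep {A : Type v} {M : Type u} [CommRing A] [IsDomain A] [IsDiscreteValuationRing A]
    [Field M] (j : A →+* M) (hj : Function.Injective j)
    (hfin : Module.finrank (Subfield.closure (Set.range j)) M ≠ 0)
    (hsep : Algebra.IsSeparable (Subfield.closure (Set.range j)) M) :
    ∃ (s : Finset (ValuationSubring M)) (d : ValuationSubring M → ℕ),
      (∀ O, O ∈ s ↔ ((∀ a, j a ∈ O) ∧
        ∀ a, O.valuation (j a) < 1 ↔ a ∈ IsLocalRing.maximalIdeal A)) ∧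
      (∀ O ∈ s, DV O) ∧
      (∀ O ∈ s, ∀ h : ∀ a, j a ∈ O,
        Module.finrank (Subfield.closure (Set.range ((IsLocalRing.residue O).comp
          (j.codRestrict O h)))) (IsLocalRing.ResidueField O) = d O) ∧
      ∀ ϖ : A, Irreducible ϖ → ∑ O ∈ s, (ord O (j ϖ)).toNat * d O =
        Module.finrank (Subfield.closure (Set.range j)) M := by
  classical
  let iAM : Algebra A M := j.toAlgebra
  have hmem : ∀ a, j a ∈ Subfield.closure (Set.range j) := fun a => Subfield.subset_closure ⟨a, rfl⟩
  let iAK : Algebra A (Subfield.closure (Set.range j)) :=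
    (j.codRestrict (Subfield.closure (Set.range j)) hmem).toAlgebra
  have htow : IsScalarTower A (Subfield.closure (Set.range j)) M :=
    IsScalarTower.of_algebraMap_eq fun a => rfl
  have hfs : FaithfulSMul A (Subfield.closure (Set.range j)) := by
    rw [faithfulSMul_iff_algebraMap_injective]
    intro a b hab
    exact hj (congrArg Subtype.val hab)
  have hfrac : IsFractionRing A (Subfield.closure (Set.range j)) := by
    refine IsFractionRing.of_field A _ fun z => ?_
    obtain ⟨z, hz⟩ := z
    have hz' := hz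
    rw [Subfield.mem_closure_iff] at hz'
    have hr : Subring.closure (Set.range j) = j.range := by
      rw [← RingHom.coe_range, Subring.closure_eq]
    rw [hr] at hz'
    obtain ⟨_, ⟨x, rfl⟩, _, ⟨y, rfl⟩, hxy⟩ := hz'
    exact ⟨x, y, Subtype.ext hxy.symm⟩
  have hfd : FiniteDimensional (Subfield.closure (Set.range j)) M :=
    Module.finite_of_finrank_pos (Nat.pos_of_ne_zero hfin)
  have hded : IsDedekindDomain (integralClosure A M) :=
    integralClosure.isDedekindDomain A (Subfield.closure (Set.range j)) M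
  have hfinS : Module.Finite A (integralClosure A M) :=
    IsIntegralClosure.finite A (Subfield.closure (Set.range j)) M (integralClosure A M)
  have hfracS : IsFractionRing (integralClosure A M) M :=
    integralClosure.isFractionRing_of_finite_extension (Subfield.closure (Set.range j)) M
  exact A2_core (A := A) (K := Subfield.closure (Set.range j)) (M := M)
    (S := integralClosure A M)

end MP2619.R
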