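import Pool.Agent.Lib.MP_2619d0_ag.R.Defs
import Pool.Agent.Lib.MP_2619d0_ag.OddDegree
import Pool.Agent.Lib.MP_2619d0_ag.Parity
import Pool.Agent.Lib.MP_2619d0_ag.K.K2


/-!
Row A4: diagonal quadratic forms in characteristic two and odd degree extensions.
-/

set_option autoImplicit false

namespace MP2619.R

universe v u

open IntermediateField

/-- The diagonal form `∑ v_i c_i²` is anisotropic over `K`. -/
def An {K : Type v} [Field K] {r : ℕ} (v : Fin r → K) : Prop :=
  ∀ c : Fin r → K, ∑ i, v i * c i ^ 2 = 0 → c = 0

/-- Springer's theorem: `springer_poly` (file `OddDegree.lean`) with `t = 0`,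
`q i j = if i = j then v i else 0` and the minimal polynomial of a primitive element; see the proof of
`springer` there. An extension of odd degree in characteristic two is separable (`K2_sep` in
`K/K2.lean`), so `Field.exists_primitive_element` applies. (Odd degree, so finite:
`Module.finite_of_finrank_pos`.) -/
theorem an_ext {K : Type v} {κ : Type u} [Field K] [Field κ] [Algebra K κ] (h2 : (2 : K) = 0)
    (hodd : Odd (Module.finrank K κ)) {r : ℕ} (v : Fin r → K) (hv : An v) (c : Fin r → κ)
    (hc : ∑ i, algebraMap K κ (v i) * c i ^ 2 = 0) : c = 0 := by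
  classical
  have hfd : FiniteDimensional K κ := Module.finite_of_finrank_pos hodd.pos
  have hsep : Algebra.IsSeparable K κ := MP2619.K.K2_sep h2 hodd
  obtain ⟨x, hx⟩ := Field.exists_primitive_element K κ
  have hint : IsIntegral K x := Algebra.IsIntegral.isIntegral x
  have hdeg : (minpoly K x).natDegree = Module.finrank K κ := by
    rw [← IntermediateField.adjoin.finrank hint, hx]
    exact IntermediateField.finrank_top'
  have hsurj : ∀ y : κ, ∃ g : Polynomial K, Polynomial.aeval x g = y := by
    intro y
    have hy : y ∈ (⊤ : IntermediateField K κ) := IntermediateField.mem_top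
    rw [← hx, ← IntermediateField.mem_toSubalgebra,
      IntermediateField.adjoin_simple_toSubalgebra_of_isAlgebraic hint.isAlgebraic,
      Algebra.adjoin_singleton_eq_range_aeval] at hy
    exact hy
  choose f hf using fun i => hsurj (c i)
  have hirr := minpoly.irreducible hint
  have hquad : ∀ w : Fin r → K,
      ∑ i, ∑ j, (if i = j then v i else 0) * (w i * w j) = ∑ i, v i * w i ^ 2 := by
    intro w
    refine Finset.sum_congr rfl fun i _ => ?_
    rw [Finset.sum_eq_single i]
    · rw [if_pos rfl, pow_two]
    · intro j _ hj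
      rw [if_neg (Ne.symm hj), zero_mul]
    · intro h
      exact absurd (Finset.mem_univ i) h
  have hall := Pool.Agent.Lib.MP_2619d0_ag.springer_poly (fun _ : Fin r => (0 : K))
    (fun i j => if i = j then v i else 0)
    (by
      intro w _ hw
      refine hv w ?_
      rw [← hquad w]
      exact hw) _ (minpoly K x) hirr hdeg hodd f
    (by
      simp)
    (by
      rw [minpoly.dvd_iff, map_sum]
      rw [← hc]
      refine Finset.sum_congr rfl fun i _ => ?_
      rw [map_sum, Finset.sum_eq_single i]
      · rw [if_pos rfl, map_mul, map_mul, Polynomial.aeval_C, hf i, pow_two]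
      · intro j _ hj
        rw [if_neg (Ne.symm hj), map_zero, zero_mul, map_zero]
      · intro h
        exact absurd (Finset.mem_univ i) h)
  funext i
  rw [Pi.zero_apply, ← hf i]
  exact (minpoly.dvd_iff).mp (hall i)

/-- Clear denominators: every element of `adjoin k (range v)` is a quotient `aeval v P / aeval v Q` with
polynomials `P, Q` (for instance `IntermediateField.mem_adjoin_range_iff`), so we may assume
`c_i = aeval v P_i` (multiply all `c_i` by a common denominator). By algebraic independence
`∑ X_i P_i ^ 2 = 0`, so `P = 0` by `diag_anisotropic` (file `Parity.lean`, with `S = Finset.univ`). -/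
theorem an_adjoin {k : Type v} {M : Type u} [Field k] [Field M] [Algebra k M] {r : ℕ}
    (v : Fin r → M) (hv : AlgebraicIndependent k v) (w : Fin r → adjoin k (Set.range v))
    (hw : ∀ i, (w i : M) = v i) : An w := by
  classical
  intro c hc
  have key : ∀ i, ∃ P Q : MvPolynomial (Fin r) k, MvPolynomial.aeval v Q ≠ 0 ∧
      ((c i : M)) = MvPolynomial.aeval v P / MvPolynomial.aeval v Q := by
    intro i
    obtain ⟨P, Q, hPQ⟩ := (IntermediateField.mem_adjoin_range_iff k v (c i : M)).1 (c i).2
    by_cases hQ : MvPolynomial.aeval v Q = 0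
    · refine ⟨0, 1, by simp, ?_⟩
      rw [hPQ, hQ]; simp
    · exact ⟨P, Q, hQ, hPQ⟩
  choose P Q hQ hPQ using key
  have hprod : ∀ i, (∏ j, MvPolynomial.aeval v (Q j)) * (c i : M) =
      MvPolynomial.aeval v (P i * ∏ j ∈ Finset.univ.erase i, Q j) := by
    intro i
    rw [← Finset.mul_prod_erase Finset.univ (fun j => MvPolynomial.aeval v (Q j)) (Finset.mem_univ i),
      hPQ i, map_mul, map_prod]
    field_simp [hQ i]
  have hsum : ∑ i, v i * ((c i : M)) ^ 2 = 0 := by
    have := congrArg (fun x : adjoin k (Set.range v) => (x : M)) hc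
    simpa [hw] using this
  have h0 : MvPolynomial.aeval v (∑ i, MvPolynomial.X i *
      (P i * ∏ j ∈ Finset.univ.erase i, Q j) ^ 2) = 0 := by
    rw [map_sum]
    have : ∀ i, MvPolynomial.aeval v (MvPolynomial.X i *
        (P i * ∏ j ∈ Finset.univ.erase i, Q j) ^ 2) =
        (∏ j, MvPolynomial.aeval v (Q j)) ^ 2 * (v i * ((c i : M)) ^ 2) := by
      intro i
      rw [map_mul, map_pow, ← hprod i, MvPolynomial.aeval_X]
      ring
    rw [Finset.sum_congr rfl (fun i _ => this i), ← Finset.mul_sum, hsum, mul_zero]
  have hinj := algebraicIndependent_iff_injective_aeval.1 hv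
  have hp := hinj (h0.trans (map_zero _).symm)
  have hz := Pool.Agent.Lib.MP_2619d0_ag.diag_anisotropic Finset.univ _ hp
  funext i
  have hi := hz i (Finset.mem_univ i)
  have h1 := hprod i
  rw [hi, map_zero] at h1
  have h2 : (c i : M) = 0 := by
    rcases mul_eq_zero.1 h1 with h | h
    · exact absurd h (Finset.prod_ne_zero_iff.2 (fun j _ => hQ j))
    · exact h
  exact Subtype.ext h2

end MP2619.R
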