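import Pool.Agent.Lib.MP_2619d0_ag.R.A3
import Pool.Agent.Lib.MP_2619d0_ag.R.A4

/-!
Row A5: orders of values of anisotropic diagonal forms at places with odd residue degree.
-/

set_option autoImplicit false

namespace MP2619.R

universe v u

variable {K : Type v} {M : Type u} [Field K] [Field M] [Algebra K M]

/-- a place of `M / K` with odd residue degree -/
structure OP (K : Type v) {M : Type u} [Field K] [Field M] [Algebra K M]
    (O : ValuationSubring M) : Prop where
  cst : Cst K O
  dv : DV O
  odd : Odd (rdeg K O)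

/-- `rdeg` as a degree over `K` -/
theorem rdeg_eq {O : ValuationSubring M} (h : Cst K O) :
    @Module.finrank K (IsLocalRing.ResidueField O) _ _ (rc h).toAlgebra.toModule = rdeg K O := by
  classical
  rw [rdeg, dif_pos h]
  let := (rc h).toAlgebra
  have hb : Function.Bijective (rc h).rangeRestrictField := by
    refine ⟨RingHom.injective _, ?_⟩
    rintro ⟨y, x, rfl⟩
    exact ⟨x, rfl⟩
  exact Algebra.finrank_eq_of_equiv_equiv (RingEquiv.ofBijective _ hb)
    (RingEquiv.refl (IsLocalRing.ResidueField O)) (RingHom.ext fun x => rfl)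

/-- Let `g_i` be the entry of smallest order (`g_i ≠ 0`). Then
`∑ v_j g_j² = g_i² ∑ v_j (g_j / g_i)²` and the `g_j / g_i` are in `O`; the second factor is a unit of
`O`: its residue is `∑ v_j c_j²`, `c_j` = residue of `g_j / g_i`, and `c_i = 1`; by `an_ext` (with the
algebra structure `(rc h).toAlgebra` on the residue field, `rdeg_eq`) it is not zero. -/
theorem ord_an {O : ValuationSubring M} (h : OP K O) (h2 : (2 : K) = 0) {r : ℕ} (v : Fin r → K)
    (hv : An v) (g : Fin r → M) (hg : g ≠ 0) :
    ∑ i, algebraMap K M (v i) * g i ^ 2 ≠ 0 ∧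
      ∃ i, g i ≠ 0 ∧ ord O (∑ i, algebraMap K M (v i) * g i ^ 2) = 2 * ord O (g i) ∧
        ∀ j, g j ≠ 0 → ord O (g i) ≤ ord O (g j) := by
  classical
  obtain ⟨i0, hi0⟩ : ∃ i, g i ≠ 0 := by
    by_contra hcon
    push Not at hcon
    exact hg (funext hcon)
  obtain ⟨i, hi, hmin⟩ := Finset.exists_min_image (Finset.univ.filter fun i => g i ≠ 0)
    (fun i => ord O (g i)) ⟨i0, by simpa using hi0⟩
  rw [Finset.mem_filter] at hi
  have hgi : g i ≠ 0 := hi.2
  have hmin' : ∀ j, g j ≠ 0 → ord O (g i) ≤ ord O (g j) := fun j hj =>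
    hmin j (Finset.mem_filter.mpr ⟨Finset.mem_univ _, hj⟩)
  have hq : ∀ j, g j / g i ∈ O := by
    intro j
    rcases eq_or_ne (g j) 0 with h0 | h0
    · rw [h0, zero_div]
      exact O.zero_mem
    · rw [mem_iff h.dv (div_ne_zero h0 hgi), div_eq_mul_inv, ord_mul h.dv h0 (inv_ne_zero hgi),
        ord_inv h.dv hgi]
      have := hmin' j h0
      omega
  set q : Fin r → O := fun j => ⟨g j / g i, hq j⟩ with hqdef
  set vO : Fin r → O := fun j => ⟨algebraMap K M (v j), h.cst (v j)⟩ with hvO
  set E : O := ∑ j, vO j * q j ^ 2 with hE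
  have hEM : (E : M) = ∑ j, algebraMap K M (v j) * (g j / g i) ^ 2 := by
    have h3 : ((∑ j, vO j * q j ^ 2 : O) : M) = ∑ j, ((vO j * q j ^ 2 : O) : M) := by
      exact map_sum O.subtype _ _
    rw [hE, h3]
    rfl
  have hS : ∑ j, algebraMap K M (v j) * g j ^ 2 = g i ^ 2 * (E : M) := by
    rw [hEM, Finset.mul_sum]
    refine Finset.sum_congr rfl fun j _ => ?_
    field_simp
  have hres : IsLocalRing.residue O E ≠ 0 := by
    intro h0
    let := (rc h.cst).toAlgebra
    have hodd : Odd (Module.finrank K (IsLocalRing.ResidueField O)) := by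
      have h5 := h.odd
      rw [← rdeg_eq h.cst] at h5
      exact h5
    have hc : ∑ j, algebraMap K (IsLocalRing.ResidueField O) (v j) *
        (IsLocalRing.residue O (q j)) ^ 2 = 0 := by
      rw [← h0, hE, map_sum]
      refine Finset.sum_congr rfl fun j _ => ?_
      rw [map_mul, map_pow]
      rfl
    have h6 := an_ext h2 hodd v hv (fun j => IsLocalRing.residue O (q j)) hc
    have h7 := congrFun h6 i
    have h8 : q i = 1 := Subtype.ext (div_self hgi)
    rw [Pi.zero_apply, h8, map_one] at h7
    exact one_ne_zero h7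
  have hval : O.valuation (E : M) = 1 := by
    refine le_antisymm ((O.valuation_le_one_iff _).mpr E.2) ?_
    by_contra hcon
    rw [not_le] at hcon
    apply hres
    rw [IsLocalRing.residue_eq_zero_iff]
    exact (ValuationSubring.valuation_lt_one_iff O E).mpr hcon
  have hE0 : (E : M) ≠ 0 := by
    intro h0
    rw [h0, map_zero] at hval
    exact zero_ne_one hval
  rw [hS]
  refine ⟨mul_ne_zero (pow_ne_zero _ hgi) hE0, i, hgi, ?_, hmin'⟩
  rw [ord_mul h.dv (pow_ne_zero _ hgi) hE0, ord_pow h.dv hgi, (unit_iff h.dv hE0).mp hval]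
  push_cast
  ring

end MP2619.R
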