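import Pool.Agent.Lib.MP_2619d0_ag.R.A5

/-!
Row A6: the inseparable case.
-/

set_option autoImplicit false

namespace MP2619.R

universe v u

open IntermediateField

variable {K : Type v} {M : Type u} [Field K] [Field M] [Algebra K M]

/-- The sums `∑ c_j g_j²` with `c_j ∈ K`, `g_j ∈ M`. -/
def Sq (K : Type v) {M : Type u} [Field K] [Field M] [Algebra K M] (U : M) : Prop :=
  ∃ (r : ℕ) (c : Fin r → K) (g : Fin r → M), An c ∧ U = ∑ i, algebraMap K M (c i) * g i ^ 2

/-- the set of squares -/
private def A6_sq (M : Type u) [Field M] : Set M := Set.range fun g : M => g ^ 2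

/-- a sum of squares with coefficients in `K` is such a sum with an anisotropic family -/
private theorem A6_An (h2 : (2 : K) = 0) (U : M)
    (h : ∃ (r : ℕ) (c : Fin r → K) (g : Fin r → M), U = ∑ i, algebraMap K M (c i) * g i ^ 2) :
    Sq K U := by
  classical
  have h2M : (2 : M) = 0 := by
    rw [← map_ofNat (algebraMap K M) 2, h2, map_zero]
  obtain ⟨c, g, hU⟩ := Nat.find_spec h
  refine ⟨Nat.find h, c, g, ?_, hU⟩
  intro a ha
  by_contra hne
  obtain ⟨i0, hi0⟩ : ∃ i, a i ≠ 0 := by
    by_contra hcon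
    push Not at hcon
    exact hne (funext hcon)
  obtain ⟨r, hr⟩ : ∃ r, Nat.find h = r + 1 := by
    obtain ⟨i, hi⟩ := i0
    exact ⟨Nat.find h - 1, by omega⟩
  have key : ∀ (n : ℕ) (hn : Nat.find h = n + 1), ∃ (c' : Fin n → K) (g' : Fin n → M),
      U = ∑ i, algebraMap K M (c' i) * g' i ^ 2 := by
    intro n hn
    generalize hN : Nat.find h = N at c g hU a ha i0 hi0 hn
    subst hn
    refine ⟨fun i => c (i0.succAbove i),
      fun i => g (i0.succAbove i) + algebraMap K M (a (i0.succAbove i) / a i0) * g i0, ?_⟩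
    rw [Fin.sum_univ_succAbove _ i0] at ha hU
    have hc : c i0 = ∑ i, c (i0.succAbove i) * (a (i0.succAbove i) / a i0) ^ 2 := by
      have h3 : c i0 * a i0 ^ 2 = ∑ i, c (i0.succAbove i) * a (i0.succAbove i) ^ 2 := by
        have h4 : ∀ x y : K, x + y = 0 → x = y := by
          intro x y hxy
          have h5 : x - y = (x + y) - 2 * y := by ring
          rw [hxy, h2, zero_mul, sub_zero] at h5
          exact sub_eq_zero.mp h5
        exact h4 _ _ ha
      have h6 : c i0 = (c i0 * a i0 ^ 2) / a i0 ^ 2 := by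
        field_simp
      rw [h6, h3, Finset.sum_div]
      refine Finset.sum_congr rfl fun i _ => ?_
      rw [div_pow, mul_div_assoc]
    rw [hU, hc, map_sum, Finset.sum_mul, ← Finset.sum_add_distrib]
    refine Finset.sum_congr rfl fun i _ => ?_
    rw [map_mul, map_pow]
    have h7 : ∀ x y z : M, x * y ^ 2 * z ^ 2 + x * (g (i0.succAbove i)) ^ 2 =
        x * ((g (i0.succAbove i)) + y * z) ^ 2 - 2 * (x * g (i0.succAbove i) * y * z) := by
      intro x y z
      ring
    rw [h7, h2M, zero_mul, sub_zero]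
  obtain ⟨c', g', h'⟩ := key r hr
  exact Nat.find_min h (m := r) (by omega) ⟨c', g', h'⟩

/-- elements of `K(M²)` are sums of squares with coefficients in `K` -/
private theorem A6_mem (U : M) (hU : U ∈ adjoin K (A6_sq M)) :
    ∃ (r : ℕ) (c : Fin r → K) (g : Fin r → M), U = ∑ i, algebraMap K M (c i) * g i ^ 2 := by
  have hmul : ∀ a b : M, a ∈ Submodule.span K (A6_sq M) → b ∈ Submodule.span K (A6_sq M) →
      a * b ∈ Submodule.span K (A6_sq M) := by
    intro a b ha hb
    have h1 := Submodule.mul_mem_mul ha hb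
    rw [Submodule.span_mul_span] at h1
    refine Submodule.span_mono ?_ h1
    rintro x ⟨y, ⟨g, rfl⟩, z, ⟨g', rfl⟩, rfl⟩
    exact ⟨g * g', by simp only [mul_pow]⟩
  have hspan : U ∈ Submodule.span K (A6_sq M) := by
    induction hU using adjoin_induction with
    | mem x hx => exact Submodule.subset_span hx
    | algebraMap x =>
      rw [Algebra.algebraMap_eq_smul_one]
      exact Submodule.smul_mem _ _ (Submodule.subset_span ⟨1, one_pow 2⟩)
    | add x y _ _ hx hy => exact Submodule.add_mem _ hx hy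
    | inv x _ hx =>
      by_cases hx0 : x = 0
      · rw [hx0, inv_zero]
        exact Submodule.zero_mem _
      · have h1 : x⁻¹ = x * (x⁻¹) ^ 2 := by
          field_simp
        rw [h1]
        exact hmul _ _ hx (Submodule.subset_span ⟨x⁻¹, rfl⟩)
    | mul x y _ _ hx hy => exact hmul _ _ hx hy
  obtain ⟨n, f, g, hg⟩ := Submodule.mem_span_set'.mp hspan
  choose g' hg' using fun i => (g i).2
  refine ⟨n, f, g', ?_⟩
  rw [← hg]
  refine Finset.sum_congr rfl fun i _ => ?_
  rw [Algebra.smul_def, ← hg' i]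

/-- separability of `M / K(U)` if `M = K(U, M²)` -/
private theorem A6_sep (h2 : (2 : M) = 0) (U : M)
    (hfin : Module.finrank (adjoin K ({U} : Set M)) M ≠ 0)
    (htop : adjoin K (A6_sq M ∪ {U}) = ⊤) :
    Algebra.IsSeparable (adjoin K ({U} : Set M)) M := by
  have : Module.Finite (adjoin K ({U} : Set M)) M :=
    Module.finite_of_finrank_pos (Nat.pos_of_ne_zero hfin)
  have hD : ∀ a : M, KaehlerDifferential.D (adjoin K ({U} : Set M)) M a = 0 := by
    intro a
    have ha : a ∈ adjoin K (A6_sq M ∪ {U}) := by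
      rw [htop]
      exact mem_top
    induction ha using adjoin_induction with
    | mem x hx =>
      rcases hx with hx | hx
      · obtain ⟨g, rfl⟩ := hx
        rw [Derivation.leibniz_pow]
        simp only [Nat.add_one_sub_one, pow_one]
        rw [← Nat.cast_smul_eq_nsmul M, Nat.cast_ofNat, h2, zero_smul]
      · rw [Set.mem_singleton_iff] at hx
        subst hx
        exact Derivation.map_algebraMap (KaehlerDifferential.D (adjoin K ({x} : Set M)) M)
          ⟨x, subset_adjoin K _ (Set.mem_singleton x)⟩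
    | algebraMap x =>
      have h1 : algebraMap K M x =
          algebraMap (adjoin K ({U} : Set M)) M (algebraMap K (adjoin K ({U} : Set M)) x) := rfl
      rw [h1]
      exact Derivation.map_algebraMap _ _
    | add x y _ _ hx hy => rw [map_add, hx, hy, add_zero]
    | inv x _ hx => rw [Derivation.leibniz_inv, hx, smul_zero]
    | mul x y _ _ hx hy => rw [Derivation.leibniz, hx, hy, smul_zero, smul_zero, add_zero]
  have : Algebra.FormallyUnramified (adjoin K ({U} : Set M)) M := by
    rw [Algebra.formallyUnramified_iff]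
    have h1 : (⊤ : Submodule M (Ω[M⁄(adjoin K ({U} : Set M))])) = ⊥ := by
      rw [← KaehlerDifferential.span_range_derivation, Submodule.span_eq_bot]
      rintro x ⟨a, rfl⟩
      exact hD a
    exact (Submodule.subsingleton_iff M).mp (subsingleton_of_bot_eq_top h1.symm)
  exact (Algebra.FormallyUnramified.iff_isSeparable _ _).mp inferInstance

/-- Let `N ⊂ M` be the set of all finite sums `∑ c_j g_j²` with `c_j ∈ K`, `g_j ∈ M` (no condition on
the `c_j`): a subfield (`g⁻¹ = g · (g⁻¹)²`) containing `K` and all squares.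
* Every element `U` of `N` satisfies `Sq K U`: choose a basis `(e_l)` of `K` over the subfield `K²` of
  squares (or a maximal subfamily of the `c_j` that is linearly independent over `K²`), write
  `c_j = ∑_l a_{jl}² e_l`, then `∑_j c_j g_j² = ∑_l e_l (∑_j a_{jl} g_j)²` (characteristic two), and
  `An e` for finitely many linearly independent `e_l`.
* `N(U0) = M`: `M = K(U0) M²` because `M / K(U0)` is separable
  (`Field.span_map_pow_expChar_eq_top_of_isSeparable` or the like: a basis `b_i` of `M` over `K(U0)`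
  gives a spanning set `b_i²`), and `K(U0) M² ⊂ N(U0)`. So every `a ∈ M` is `A + B U0` with
  `A, B ∈ N` (`U0² ∈ N`).
* Suppose `U ∉ N`. `U = A + B U0` with `B ≠ 0`, so `U0 ∈ N(U)`, `M = N(U) = K(U) M²` (every element of
  `N(U)` is a sum of elements of `K(U)` times squares). Then `M / K(U)` is separable: let `E` be the
  separable closure of `K(U)` in `M`, `M / E` is purely inseparable and finite, so `a ^ (2 ^ s) ∈ E` for
  some `s` and all `a`; from `M = K(U) M²` one gets `M² = K(U)² M⁴`, `M = K(U) M⁴`, …,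
  `M = K(U) M^(2^s) ⊂ E`. Contradiction to `hins`. -/
theorem insep_sq (h2 : (2 : K) = 0) (U0 : M)
    (hfin0 : Module.finrank (adjoin K ({U0} : Set M)) M ≠ 0)
    (hsep0 : Algebra.IsSeparable (adjoin K ({U0} : Set M)) M) (U : M)
    (hfin : Module.finrank (adjoin K ({U} : Set M)) M ≠ 0)
    (hins : ¬ Algebra.IsSeparable (adjoin K ({U} : Set M)) M) : Sq K U := by
  have h2M : (2 : M) = 0 := by
    rw [← map_ofNat (algebraMap K M) 2, h2, map_zero]
  refine A6_An h2 U (A6_mem U ?_)
  by_contra hUN
  apply hins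
  refine A6_sep h2M U hfin ?_
  -- `M` is generated by the squares and `U0`
  have htop0 : adjoin K (A6_sq M ∪ {U0}) = ⊤ := by
    have : CharP K 2 := CharTwo.of_one_ne_zero_of_two_eq_zero one_ne_zero h2
    have : CharP (adjoin K ({U0} : Set M)) 2 :=
      charP_of_injective_algebraMap (algebraMap K (adjoin K ({U0} : Set M))).injective 2
    have : ExpChar (adjoin K ({U0} : Set M)) 2 := ExpChar.prime Nat.prime_two
    have h3 := adjoin_eq_adjoin_pow_expChar_of_isSeparable' (adjoin K ({U0} : Set M)) M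
      (Set.univ : Set M) 2
    have h4 : adjoin (adjoin K ({U0} : Set M)) (Set.univ : Set M) = ⊤ := adjoin_univ _ _
    rw [eq_top_iff]
    intro a _
    have ha : a ∈ adjoin (adjoin K ({U0} : Set M)) ((fun x : M => x ^ 2) '' Set.univ) := by
      rw [← h3, h4]
      exact mem_top
    have hle : adjoin K ({U0} : Set M) ≤ adjoin K (A6_sq M ∪ {U0}) :=
      adjoin.mono _ _ _ Set.subset_union_right
    induction ha using adjoin_induction with
    | mem x hx =>
      obtain ⟨g, -, rfl⟩ := hx
      exact subset_adjoin K _ (Or.inl ⟨g, rfl⟩)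
    | algebraMap x => exact hle x.2
    | add x y _ _ hx hy => exact add_mem (hx mem_top) (hy mem_top)
    | inv x _ hx => exact inv_mem (hx mem_top)
    | mul x y _ _ hx hy => exact mul_mem (hx mem_top) (hy mem_top)
  have hsqN : ∀ a : M, a ^ 2 ∈ adjoin K (A6_sq M) := fun a => subset_adjoin K _ ⟨a, rfl⟩
  -- every element is `A + B U0`
  have hAB : ∀ a : M, ∃ A ∈ adjoin K (A6_sq M), ∃ B ∈ adjoin K (A6_sq M), a = A + B * U0 := by
    intro a
    have ha : a ∈ adjoin K (A6_sq M ∪ {U0}) := by
      rw [htop0]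
      exact mem_top
    induction ha using adjoin_induction with
    | mem x hx =>
      rcases hx with hx | hx
      · exact ⟨x, subset_adjoin K _ hx, 0, zero_mem _, by rw [zero_mul, add_zero]⟩
      · rw [Set.mem_singleton_iff] at hx
        exact ⟨0, zero_mem _, 1, one_mem _, by rw [hx, one_mul, zero_add]⟩
    | algebraMap x => exact ⟨_, IntermediateField.algebraMap_mem _ x, 0, zero_mem _, by rw [zero_mul, add_zero]⟩
    | add x y _ _ hx hy =>
      obtain ⟨A, hA, B, hB, rfl⟩ := hx
      obtain ⟨C, hC, D, hD, rfl⟩ := hy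
      exact ⟨A + C, add_mem hA hC, B + D, add_mem hB hD, by ring⟩
    | inv x _ hx =>
      obtain ⟨A, hA, B, hB, hx'⟩ := hx
      refine ⟨A * (x ^ 2)⁻¹, mul_mem hA (inv_mem (hsqN x)), B * (x ^ 2)⁻¹,
        mul_mem hB (inv_mem (hsqN x)), ?_⟩
      by_cases hx0 : x = 0
      · rw [hx0]
        simp
      · have h5 : A * (x ^ 2)⁻¹ + B * (x ^ 2)⁻¹ * U0 = (A + B * U0) * (x ^ 2)⁻¹ := by ring
        rw [h5, ← hx']
        field_simp
    | mul x y _ _ hx hy =>
      obtain ⟨A, hA, B, hB, rfl⟩ := hx
      obtain ⟨C, hC, D, hD, rfl⟩ := hy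
      exact ⟨A * C + B * D * U0 ^ 2, add_mem (mul_mem hA hC) (mul_mem (mul_mem hB hD) (hsqN U0)),
        A * D + B * C, add_mem (mul_mem hA hD) (mul_mem hB hC), by ring⟩
  obtain ⟨A, hA, B, hB, hU⟩ := hAB U
  have hB0 : B ≠ 0 := by
    rintro rfl
    rw [zero_mul, add_zero] at hU
    exact hUN (hU ▸ hA)
  have hle : adjoin K (A6_sq M) ≤ adjoin K (A6_sq M ∪ {U}) :=
    adjoin.mono _ _ _ Set.subset_union_left
  have hUL : U ∈ adjoin K (A6_sq M ∪ {U}) := subset_adjoin K _ (Or.inr rfl)
  have hU0 : U0 ∈ adjoin K (A6_sq M ∪ {U}) := by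
    have h6 : U0 = (U - A) * B⁻¹ := by
      rw [hU]
      field_simp
      ring
    rw [h6]
    exact mul_mem (sub_mem hUL (hle hA)) (inv_mem (hle hB))
  rw [eq_top_iff, ← htop0, adjoin_le_iff]
  rintro x (hx | hx)
  · exact subset_adjoin K _ (Or.inl hx)
  · rw [Set.mem_singleton_iff] at hx
    rw [hx]
    exact hU0

/-- `ord_an`. (`U ≠ 0` implies `g ≠ 0`; `ord O 0 = 0`.) -/
theorem sq_even (h2 : (2 : K) = 0) {O : ValuationSubring M} (h : OP K O) (U : M) (hU : Sq K U) :
    Even (ord O U) := by
  obtain ⟨r, c, g, hc, rfl⟩ := hU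
  by_cases hg : g = 0
  · have h0 : ∑ i, algebraMap K M (c i) * g i ^ 2 = 0 := by
      refine Finset.sum_eq_zero fun i _ => ?_
      rw [hg]
      simp
    rw [h0]
    simp [ord_zero]
  · obtain ⟨_, i, _, h3, _⟩ := ord_an h h2 c hc g hg
    rw [h3]
    exact even_two_mul _

end MP2619.R
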