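import Pool.Agent.Lib.MP_2619d0_ag.R.A6
import Pool.Agent.Lib.MP_2619d0_ag.R.A8


/-!
Row A7: the parity formula for a function field of one variable.
-/

set_option autoImplicit false

namespace MP2619.R

universe v u

open IntermediateField

variable {K : Type v} {M : Type u} [Field K] [Field M] [Algebra K M]

theorem A7_adjoin_inv (U : M) : adjoin K ({U⁻¹} : Set M) = adjoin K ({U} : Set M) := by
  apply le_antisymm
  · rw [adjoin_simple_le_iff]
    exact inv_mem (mem_adjoin_simple_self K U)
  · rw [adjoin_simple_le_iff]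
    have h := inv_mem (mem_adjoin_simple_self K U⁻¹)
    rwa [inv_inv] at h

theorem A7_sep (h2 : (2 : K) = 0) (U : M)
    (hodd : Odd (Module.finrank (adjoin K ({U} : Set M)) M)) :
    Algebra.IsSeparable (adjoin K ({U} : Set M)) M := by
  refine MP2619.K.K2_sep ?_ hodd
  have h : algebraMap K (adjoin K ({U} : Set M)) 2 = 0 := by rw [h2, map_zero]
  rwa [map_ofNat] at h

/-- Parity formula: for every sufficiently large finite set `s'` of odd places the degree `[M : K(U)]`
has the parity of `∑_{O ∈ s'} n_O(U)`. Three cases.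
* `U` is algebraic over `K`: the degree is `0` (`fin_of_trans`) and `U ∈ O` for all `O` that contain `K`
  (integrally closed, `LT2_integral` in `T/LT2.lean`), so `pn O U = 0`.
* `U` transcendental, `M / K(U)` separable: apply `fi_field` to `t = U⁻¹`
  (`adjoin K {U⁻¹} = adjoin K {U}`): `[M : K(U)] = ∑_{O ∈ s0} (ord O U⁻¹) rdeg O`, `s0` the set of
  all places with `val U⁻¹ < 1`, i.e. of all poles of `U`; take `s = ` the odd ones among `s0`; modulo two
  only the odd places count, and `pn O U = 0` for `O ∉ s0`.
* `U` transcendental, `M / K(U)` not separable: the degree is even (odd degree implies separable,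
  `K2_sep`), and `pn O U` is even at all odd places by `insep_sq`, `sq_even`; take `s = ∅`. -/
theorem fi_odd (h2 : (2 : K) = 0) (U0 : M) (h0 : Transcendental K U0)
    (hodd0 : Odd (Module.finrank (adjoin K ({U0} : Set M)) M)) (U : M) :
    ∃ s : Finset (ValuationSubring M), (∀ O ∈ s, OP K O) ∧
      ∀ s' : Finset (ValuationSubring M), s ⊆ s' → (∀ O ∈ s', OP K O) →
        (Even (Module.finrank (adjoin K ({U} : Set M)) M) ↔ Even (∑ O ∈ s', pn O U)) := by
  classical
  have hfin0 : Module.finrank (adjoin K ({U0} : Set M)) M ≠ 0 := hodd0.pos.ne'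
  have hiff := fin_of_trans U0 hfin0 h0 U
  by_cases hU : Transcendental K U
  · have hfin : Module.finrank (adjoin K ({U} : Set M)) M ≠ 0 := hiff.1 hU
    have hU0 : U ≠ 0 := by
      rintro rfl
      exact hU (isAlgebraic_zero)
    by_cases hsep : Algebra.IsSeparable (adjoin K ({U} : Set M)) M
    · -- the separable case
      have hUi : Transcendental K U⁻¹ := fun h => hU (by
        have := h.inv
        rwa [inv_inv] at this)
      have hfinsep : Module.finrank (adjoin K ({U⁻¹} : Set M)) M =
          Module.finrank (adjoin K ({U} : Set M)) M ∧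
          Algebra.IsSeparable (adjoin K ({U⁻¹} : Set M)) M := by
        rw [A7_adjoin_inv]
        exact ⟨rfl, hsep⟩
      obtain ⟨s0, hs0, hdv, hsum⟩ := fi_field (K := K) U⁻¹ hUi (by rw [hfinsep.1]; exact hfin)
        hfinsep.2
      rw [hfinsep.1] at hsum
      have hpn : ∀ O : ValuationSubring M, DV O → (ord O U⁻¹).toNat = pn O U := by
        intro O hO
        rw [ord_inv hO hU0, pn]
      refine ⟨s0.filter fun O => OP K O, fun O hO => (Finset.mem_filter.1 hO).2, ?_⟩
      intro s' hss' hs'
      have h1 : ∑ O ∈ s', pn O U = ∑ O ∈ s0.filter (fun O => OP K O), pn O U := by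
        symm
        refine Finset.sum_subset hss' ?_
        intro O hO hO'
        have hop := hs' O hO
        have hnot : O ∉ s0 := fun h => hO' (Finset.mem_filter.2 ⟨h, hop⟩)
        have h2 : ¬ O.valuation U⁻¹ < 1 := fun h => hnot ((hs0 O).2 ⟨hop.cst, h⟩)
        rw [lt_iff hop.dv (inv_ne_zero hU0), ord_inv hop.dv hU0] at h2
        rw [pn]
        omega
      rw [h1, ← ZMod.natCast_eq_zero_iff_even, ← ZMod.natCast_eq_zero_iff_even, ← hsum]
      have h3 : ((∑ O ∈ s0, (ord O U⁻¹).toNat * rdeg K O : ℕ) : ZMod 2) =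
          ((∑ O ∈ s0.filter (fun O => OP K O), pn O U : ℕ) : ZMod 2) := by
        rw [Finset.sum_filter, Nat.cast_sum, Nat.cast_sum]
        refine Finset.sum_congr rfl ?_
        intro O hO
        rw [hpn O (hdv O hO), Nat.cast_mul]
        by_cases hop : OP K O
        · rw [if_pos hop]
          have h4 : ((rdeg K O : ℕ) : ZMod 2) = 1 := ZMod.natCast_eq_one_iff_odd.2 hop.odd
          rw [h4, mul_one]
        · rw [if_neg hop]
          have h4 : Even (rdeg K O) := by
            rw [← Nat.not_odd_iff_even]
            intro h5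
            exact hop ⟨((hs0 O).1 hO).1, hdv O hO, h5⟩
          rw [(ZMod.natCast_eq_zero_iff_even).2 h4, mul_zero, Nat.cast_zero]
      rw [h3]
    · -- the inseparable case
      refine ⟨∅, by simp, ?_⟩
      intro s' _ hs'
      have h1 : Even (Module.finrank (adjoin K ({U} : Set M)) M) := by
        rw [← Nat.not_odd_iff_even]
        intro h
        exact hsep (A7_sep h2 U h)
      have h3 := insep_sq h2 U0 hfin0 (A7_sep h2 U0 hodd0) U hfin hsep
      have h4 : Even (∑ O ∈ s', pn O U) := by
        refine Finset.even_sum _ ?_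
        intro O hO
        obtain ⟨e, he⟩ := sq_even h2 (hs' O hO) U h3
        rw [pn, he]
        refine ⟨(-e).toNat, ?_⟩
        omega
      exact ⟨fun _ => h4, fun _ => h1⟩
  · -- the algebraic case
    refine ⟨∅, by simp, ?_⟩
    intro s' _ hs'
    have h1 : Module.finrank (adjoin K ({U} : Set M)) M = 0 := by
      by_contra h
      exact hU (hiff.2 h)
    have h3 : ∑ O ∈ s', pn O U = 0 := by
      refine Finset.sum_eq_zero ?_
      intro O hO
      have hop := hs' O hO
      rw [pn]
      by_cases hU0 : U = 0
      · rw [hU0, ord_zero]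
        rfl
      · have h4 : U ∈ O := by
          refine Pool.Agent.Lib.MP_2619d0_ag.T.LT2_integral O hop.cst U ?_
          have h5 : IsAlgebraic K U := by
            by_contra h6
            exact hU h6
          exact h5.isIntegral
        rw [mem_iff hop.dv hU0] at h4
        omega
    rw [h1, h3]

/-- `fi_odd` for all `U j`; let `s` be the union of the finite sets; `∑_j [M : K(U_j)]` has the parity of
`∑_{O ∈ s} ∑_j n_O(U_j)`. -/
theorem par (h2 : (2 : K) = 0) {r : ℕ} (U : Fin r → M) (j0 : Fin r) (h0 : Transcendental K (U j0))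
    (hodd0 : Odd (Module.finrank (adjoin K ({U j0} : Set M)) M))
    (hpar : ∀ O : ValuationSubring M, OP K O → Even (∑ j, pn O (U j))) :
    Even (∑ j, Module.finrank (adjoin K ({U j} : Set M)) M) := by
  classical
  have hsum : ∀ (t : Finset (Fin r)) (a b : Fin r → ℕ), (∀ j, Even (a j) ↔ Even (b j)) →
      (Even (∑ j ∈ t, a j) ↔ Even (∑ j ∈ t, b j)) := by
    intro t a b hab
    induction t using Finset.induction_on with
    | empty => simp
    | insert j t hj ih => rw [Finset.sum_insert hj, Finset.sum_insert hj, Nat.even_add,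
        Nat.even_add, ih, hab j]
  choose s hs hs' using fi_odd h2 (U j0) h0 hodd0
  obtain ⟨T, hT⟩ : ∃ T, T = Finset.univ.biUnion (fun j => s (U j)) := ⟨_, rfl⟩
  have hTOP : ∀ O ∈ T, OP K O := by
    intro O hO
    rw [hT, Finset.mem_biUnion] at hO
    obtain ⟨j, _, hj⟩ := hO
    exact hs _ O hj
  have hTs : ∀ j, s (U j) ⊆ T := by
    intro j O hO
    rw [hT, Finset.mem_biUnion]
    exact ⟨j, Finset.mem_univ _, hO⟩
  rw [hsum Finset.univ _ _ (fun j => hs' (U j) T (hTs j) hTOP), Finset.sum_comm]
  exact Finset.even_sum _ (fun O hO => hpar O (hTOP O hO))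

/-- `fi_field` with `t = q` (an extension of odd degree in characteristic two is separable, `K2_sep`): the
sum is odd, so some term `(ord O q).toNat * rdeg K O` is odd. -/
theorem odd_place (h2 : (2 : K) = 0) (q : M) (hq : Transcendental K q)
    (hodd : Odd (Module.finrank (adjoin K ({q} : Set M)) M)) :
    ∃ O : ValuationSubring M, OP K O ∧ 0 < ord O q ∧ Odd (ord O q) := by
  have h2' : (2 : adjoin K ({q} : Set M)) = 0 := by
    have h := congrArg (algebraMap K (adjoin K ({q} : Set M))) h2
    rwa [map_ofNat, map_zero] at h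
  obtain ⟨s, hs, hdv, hsum⟩ := fi_field q hq (fun h => by rw [h] at hodd; simp at hodd)
    (MP2619.K.K2_sep h2' hodd)
  by_contra hcon
  push Not at hcon
  have hev : Even (∑ O ∈ s, (ord O q).toNat * rdeg K O) := by
    refine Finset.even_sum _ (fun O hO => ?_)
    by_contra hne
    rw [Nat.not_even_iff_odd, Nat.odd_mul] at hne
    obtain ⟨h1, h3⟩ := hne
    have hpos : 0 < ord O q := by
      by_contra hle
      rw [Int.toNat_of_nonpos (not_lt.1 hle)] at h1
      simp at h1
    refine hcon O ⟨((hs O).1 hO).1, hdv O hO, h3⟩ hpos ?_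
    have h4 : ((ord O q).toNat : ℤ) = ord O q := Int.toNat_of_nonneg hpos.le
    rw [← h4]
    exact_mod_cast h1
  rw [hsum] at hev
  exact (Nat.not_even_iff_odd.2 hodd) hev

end MP2619.R
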