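import Pool.Agent.Lib.MP_2619d0_ag.R.A7

/-!
Row B1: the three twists, at an odd place.
-/

set_option autoImplicit false

namespace MP2619.R

universe v u

variable {K : Type v} {M : Type u} [Field K] [Field M] [Algebra K M]

/-- Expansion of the cubic form in characteristic two:
`F(v + y) = F(v) + ∑ v_i² y_i + ∑ y_i² v_i + F(y)`. -/
theorem cube_add (h2 : (2 : M) = 0) {n : ℕ} (x y v : Fin n → M) (h : ∀ i, x i + y i = v i) :
    ∑ i, x i ^ 3 = ∑ i, v i ^ 3 + ∑ i, v i ^ 2 * y i + ∑ i, v i * y i ^ 2 + ∑ i, y i ^ 3 := by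
  rw [← Finset.sum_add_distrib, ← Finset.sum_add_distrib, ← Finset.sum_add_distrib]
  refine Finset.sum_congr rfl ?_
  intro i _
  have hi : x i = v i - y i := eq_sub_of_add_eq (h i)
  rw [hi]
  linear_combination (-2 * v i ^ 2 * y i + v i * y i ^ 2 - y i ^ 3) * h2

theorem B1_cst {O : ValuationSubring M} (hc : Cst K O) (hd : DV O) {c : K} (h : c ≠ 0) :
    ord O (algebraMap K M c) = 0 := by
  have h0 : algebraMap K M c ≠ 0 := by
    rw [Ne, FaithfulSMul.algebraMap_eq_zero_iff]
    exact h
  have h1 := (mem_iff hd h0).1 (hc c)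
  have h2 : 0 ≤ ord O (algebraMap K M c)⁻¹ := by
    refine (mem_iff hd (inv_ne_zero h0)).1 ?_
    rw [← map_inv₀]
    exact hc c⁻¹
  rw [ord_inv hd h0] at h2
  omega

theorem B1_add {O : ValuationSubring M} (hd : DV O) {a b : M} {e : ℤ} (ha : a = 0 ∨ e ≤ ord O a)
    (hb : b = 0 ∨ e ≤ ord O b) : a + b = 0 ∨ e ≤ ord O (a + b) := by
  by_cases hab : a + b = 0
  · exact Or.inl hab
  right
  by_cases ha0 : a = 0
  · rcases hb with hb | hb
    · exact absurd (by rw [ha0, hb, add_zero]) hab
    · rwa [ha0, zero_add]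
  · by_cases hb0 : b = 0
    · rcases ha with ha | ha
      · exact absurd ha ha0
      · rwa [hb0, add_zero]
    · have h1 := ord_add hd ha0 hb0 hab
      have h2 := ha.resolve_left ha0
      have h3 := hb.resolve_left hb0
      exact le_trans (le_min h2 h3) h1

/-- Let `N` be the largest pole order of the `y_i`. If some `y_i` is not in `O` (`N > 0`), then
`F(v) + ∑ v_i² y_i + ∑ v_i y_i²` (`v_i ∈ K`) is not zero and has order exactly `-2 N`: the last sum has
this order by `ord_an`, the first two summands have order at least `-N`. Otherwise all `y_i` are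
in `O`. -/
theorem ord_psi {O : ValuationSubring M} (h : OP K O) (h2 : (2 : K) = 0) {n : ℕ} (v : Fin n → K)
    (hv : An v) (y : Fin n → M) (hy : ∃ i, y i ∉ O) :
    ∃ N : ℤ, 0 < N ∧ (∀ i, y i = 0 ∨ -N ≤ ord O (y i)) ∧ (∃ i, y i ≠ 0 ∧ ord O (y i) = -N) ∧
      (∑ i, algebraMap K M (v i) ^ 3 + ∑ i, algebraMap K M (v i) ^ 2 * y i +
        ∑ i, algebraMap K M (v i) * y i ^ 2) ≠ 0 ∧
      ord O (∑ i, algebraMap K M (v i) ^ 3 + ∑ i, algebraMap K M (v i) ^ 2 * y i +
        ∑ i, algebraMap K M (v i) * y i ^ 2) = -2 * N := by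
  have hd := h.dv
  obtain ⟨j, hj⟩ := hy
  have hj0 : y j ≠ 0 := by
    intro h0
    exact hj (by rw [h0]; exact O.zero_mem)
  have hjn : ord O (y j) < 0 := by
    rw [mem_iff hd hj0] at hj
    omega
  have hy0 : y ≠ 0 := fun h0 => hj0 (by rw [h0]; rfl)
  obtain ⟨hC0, i, hi0, hiC, himin⟩ := ord_an h h2 v hv y hy0
  have hi : ord O (y i) < 0 := lt_of_le_of_lt (himin j hj0) hjn
  have hmin : ∀ l, y l = 0 ∨ -(-ord O (y i)) ≤ ord O (y l) := by
    intro l
    by_cases hl : y l = 0
    · exact Or.inl hl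
    · right
      rw [neg_neg]
      exact himin l hl
  refine ⟨-ord O (y i), by omega, hmin, ⟨i, hi0, by rw [neg_neg]⟩, ?_⟩
  have hA : ∑ i, algebraMap K M (v i) ^ 3 = 0 ∨
      -(-ord O (y i)) ≤ ord O (∑ i, algebraMap K M (v i) ^ 3) := by
    refine ord_sum hd _ _ _ ?_
    intro l _
    by_cases hl : v l = 0
    · left
      rw [hl, map_zero]
      ring
    · right
      have hl0 : algebraMap K M (v l) ≠ 0 := by
        rw [Ne, FaithfulSMul.algebraMap_eq_zero_iff]
        exact hl
      rw [ord_pow hd hl0, B1_cst h.cst hd hl]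
      omega
  have hB : ∑ i, algebraMap K M (v i) ^ 2 * y i = 0 ∨
      -(-ord O (y i)) ≤ ord O (∑ i, algebraMap K M (v i) ^ 2 * y i) := by
    refine ord_sum hd _ _ _ ?_
    intro l _
    by_cases hl : v l = 0
    · left
      rw [hl, map_zero]
      ring
    · rcases hmin l with hyl | hyl
      · left
        rw [hyl, mul_zero]
      · by_cases hyl0 : y l = 0
        · left
          rw [hyl0, mul_zero]
        · right
          have hl0 : algebraMap K M (v l) ≠ 0 := by
            rw [Ne, FaithfulSMul.algebraMap_eq_zero_iff]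
            exact hl
          rw [ord_mul hd (pow_ne_zero 2 hl0) hyl0, ord_pow hd hl0, B1_cst h.cst hd hl]
          omega
  have hAB := B1_add hd hA hB
  have h3 := ord_add_lt hd hC0 (b := ∑ i, algebraMap K M (v i) ^ 3 +
      ∑ i, algebraMap K M (v i) ^ 2 * y i) (by
    rcases hAB with h4 | h4
    · exact Or.inl h4
    · right
      rw [hiC]
      omega)
  rw [add_comm] at h3
  refine ⟨h3.1, ?_⟩
  rw [h3.2, hiC]
  ring

/-- The local computation. `a³ + F(x) = 0`, `b³ + F(y) = 0`, `x + y = v ∈ K^n`; `w` a primitive cube root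
of unity. The product of `U_j = w^j a + b`, `j = 0, 1, 2`, is
`a³ + b³ = F(x) + F(y) = F(v) + ∑ v_i² y_i + ∑ v_i y_i²` (`cube_add`, characteristic two), and
`U_0 + w U_1 + w² U_2 = 0`.
* If all `y_i ∈ O`, then `x_i ∈ O`, `a³, b³ ∈ O`, so `a, b ∈ O` (integrally closed; or `ord_pow`) and
  all `U_j ∈ O`: `pn = 0`.
* Otherwise the product has order `-2 N`, `N > 0` (`ord_psi`); in particular all `U_j ≠ 0`. The
  smallest of the three orders `o_j` is attained at least twice (`ord_add_lt` applied to the linear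
  relation, `w` has order 0 as a unit of `O`): say `o, o, o'` with `o ≤ o'`, `2 o + o' = -2 N`, so `o'` is even,
  `o < 0`, and the sum of the pole orders is `-2 o + max (-o') 0`, even. -/
theorem three_even {O : ValuationSubring M} (h : OP K O) (h2 : (2 : K) = 0) (w : K)
    (hw : w ^ 2 + w + 1 = 0) {n : ℕ} (v : Fin n → K) (hv : An v) (a b : M) (x y : Fin n → M)
    (hx : a ^ 3 + ∑ i, x i ^ 3 = 0) (hy : b ^ 3 + ∑ i, y i ^ 3 = 0)
    (hxy : ∀ i, x i + y i = algebraMap K M (v i)) :
    Even (pn O (a + b) + pn O (algebraMap K M w * a + b) + pn O (algebraMap K M w ^ 2 * a + b)) := by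
  have hdv := h.dv
  have h2M : (2 : M) = 0 := by
    rw [← map_ofNat (algebraMap K M) 2, h2, map_zero]
  set W : M := algebraMap K M w with hWdef
  have hW : W ^ 2 + W + 1 = 0 := by
    have := congrArg (algebraMap K M) hw
    simpa [hWdef] using this
  have hW3 : W ^ 3 = 1 := by
    linear_combination (W - 1) * hW
  have hW0 : W ≠ 0 := by
    intro h0
    rw [h0] at hW3
    norm_num at hW3
  have hWO : W ∈ O := h.cst w
  have hordW : ord O W = 0 := by
    have h1 : ord O (W ^ 3) = 3 * ord O W := by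
      have := ord_pow hdv hW0 3
      exact_mod_cast this
    rw [hW3, ord_one hdv] at h1
    omega
  have hvO : ∀ i, algebraMap K M (v i) ∈ O := fun i => h.cst (v i)
  have hprod : (a + b) * (W * a + b) * (W ^ 2 * a + b) = a ^ 3 + b ^ 3 := by
    linear_combination (W * a ^ 3 - a ^ 3 + a ^ 2 * b * W + a * b ^ 2) * hW
  by_cases hy0 : ∃ i, y i ∉ O
  · -- there is a pole
    obtain ⟨N, hN, -, -, hS0, hSord⟩ := ord_psi h h2 v hv y hy0
    set S : M := ∑ i, algebraMap K M (v i) ^ 3 + ∑ i, algebraMap K M (v i) ^ 2 * y i +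
        ∑ i, algebraMap K M (v i) * y i ^ 2 with hSdef
    have hc := cube_add h2M x y (fun i => algebraMap K M (v i)) hxy
    have hab : a ^ 3 + b ^ 3 = S := by
      have e1 : ∑ i, x i ^ 3 = S + ∑ i, y i ^ 3 := hc
      linear_combination hx + hy - e1 - (S + ∑ i, y i ^ 3) * h2M
    rw [hab] at hprod
    have hU0 : a + b ≠ 0 := by
      intro h0; rw [h0] at hprod; simp at hprod; exact hS0 hprod.symm
    have hU1 : W * a + b ≠ 0 := by
      intro h0; rw [h0] at hprod; simp at hprod; exact hS0 hprod.symm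
    have hU2 : W ^ 2 * a + b ≠ 0 := by
      intro h0; rw [h0] at hprod; simp at hprod; exact hS0 hprod.symm
    have hsum : ord O (a + b) + ord O (W * a + b) + ord O (W ^ 2 * a + b) = -2 * N := by
      rw [← hSord, ← hprod, ord_mul hdv (mul_ne_zero hU0 hU1) hU2, ord_mul hdv hU0 hU1]
    have hW20 : W ^ 2 ≠ 0 := pow_ne_zero 2 hW0
    have hordW2 : ord O (W ^ 2) = 0 := by
      rw [ord_pow hdv hW0, hordW]; simp
    have key : ∀ p q r : M, p ≠ 0 → q ≠ 0 → r ≠ 0 → p + q + r = 0 →
        min (ord O p) (ord O q) ≤ ord O r := by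
      intro p q r hp hq hr hpqr
      have e : p + q = -r := by linear_combination hpqr
      have := ord_add hdv hp hq (by rw [e]; exact neg_ne_zero.mpr hr)
      rwa [e, ord_neg] at this
    have hlin : (a + b) + W * (W * a + b) + W ^ 2 * (W ^ 2 * a + b) = 0 := by
      linear_combination (a * (W ^ 2 - W + 1) + b) * hW
    have o1 : ord O (W * (W * a + b)) = ord O (W * a + b) := by
      rw [ord_mul hdv hW0 hU1, hordW, zero_add]
    have o2 : ord O (W ^ 2 * (W ^ 2 * a + b)) = ord O (W ^ 2 * a + b) := by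
      rw [ord_mul hdv hW20 hU2, hordW2, zero_add]
    have k1 := key _ _ _ hU0 (mul_ne_zero hW0 hU1) (mul_ne_zero hW20 hU2) hlin
    have k2 := key _ _ _ (mul_ne_zero hW0 hU1) (mul_ne_zero hW20 hU2) hU0
      (by linear_combination hlin)
    have k3 := key _ _ _ hU0 (mul_ne_zero hW20 hU2) (mul_ne_zero hW0 hU1)
      (by linear_combination hlin)
    rw [o1, o2] at k1 k2 k3
    unfold pn
    generalize ord O (a + b) = o0 at *
    generalize ord O (W * a + b) = o1' at *
    generalize ord O (W ^ 2 * a + b) = o2' at *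
    rw [Nat.even_iff]
    omega
  · push Not at hy0
    have cube_mem : ∀ c : M, c ^ 3 ∈ O → c ∈ O := by
      intro c hc
      rw [← ValuationSubring.valuation_le_one_iff] at hc ⊢
      rw [map_pow] at hc
      exact (pow_le_one_iff (by norm_num)).mp hc
    have hxO : ∀ i, x i ∈ O := by
      intro i
      have : x i = algebraMap K M (v i) - y i := by linear_combination hxy i
      rw [this]
      exact sub_mem (hvO i) (hy0 i)
    have haO : a ∈ O := by
      apply cube_mem
      have : a ^ 3 = - ∑ i, x i ^ 3 := by linear_combination hx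
      rw [this]
      exact neg_mem (sum_mem fun i _ => pow_mem (hxO i) 3)
    have hbO : b ∈ O := by
      apply cube_mem
      have : b ^ 3 = - ∑ i, y i ^ 3 := by linear_combination hy
      rw [this]
      exact neg_mem (sum_mem fun i _ => pow_mem (hy0 i) 3)
    have pn0 : ∀ c : M, c ∈ O → pn O c = 0 := by
      intro c hc
      unfold pn
      by_cases h0 : c = 0
      · rw [h0, ord_zero]; rfl
      · have := (mem_iff hdv h0).mp hc
        omega
    rw [pn0 _ (add_mem haO hbO), pn0 _ (add_mem (mul_mem hWO haO) hbO),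
      pn0 _ (add_mem (mul_mem (pow_mem hWO 2) haO) hbO)]
    exact Even.zero

end MP2619.R
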