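import Pool.Agent.Lib.MP_2619d0_ag.R.B1
import Pool.Agent.Lib.MP_2619d0_ag.R.A8

/-!
Row B2: not all three twists are odd.
-/

set_option autoImplicit false

namespace MP2619.R

universe v u

open IntermediateField

variable {k : Type v} {M : Type u} [Field k] [Field M] [Algebra k M]

/-- Let `K = adjoin k (range v)`, `v_i = x_{i+1} + y_{i+1}`, and `U_j = w^j x_0 + y_0`. By `pr_cons` the
hypotheses say that `[M : K(U_j)]` is odd for `j = 0, 1, 2` (and `U_0` is transcendental over `K`). By
`par` (with `U = ![U_0, U_1, U_2]`, `K` a field of characteristic two) and `three_even`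
(`An v` by `an_adjoin`, the `x_i`, `y_i`, `i ≥ 1`, as vectors of `M^n`) the sum of these three odd numbers is
even. Contradiction. -/
theorem three_twists (h2 : (2 : k) = 0) (w : k) (hw : w ^ 2 + w + 1 = 0) {n : ℕ}
    (x y : Fin (n + 1) → M) (hx : ∑ i, x i ^ 3 = 0) (hy : ∑ i, y i ^ 3 = 0)
    (h0 : Pr k (Fin.cons (x 0 + y 0) (fun i => x i.succ + y i.succ) : Fin (n + 1) → M))
    (h1 : Pr k (Fin.cons (algebraMap k M w * x 0 + y 0)
      (fun i => x i.succ + y i.succ) : Fin (n + 1) → M))
    (h3 : Pr k (Fin.cons (algebraMap k M w ^ 2 * x 0 + y 0)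
      (fun i => x i.succ + y i.succ) : Fin (n + 1) → M)) : False := by
  obtain ⟨hv, t0, o0⟩ := (pr_cons _ _).1 h0
  obtain ⟨-, -, o1⟩ := (pr_cons _ _).1 h1
  obtain ⟨-, -, o3⟩ := (pr_cons _ _).1 h3
  have hmem : ∀ i : Fin n, x i.succ + y i.succ ∈
      adjoin k (Set.range fun i : Fin n => x i.succ + y i.succ) :=
    fun i => subset_adjoin k _ ⟨i, rfl⟩
  have hAn := an_adjoin (fun i : Fin n => x i.succ + y i.succ) hv
    (fun i => ⟨x i.succ + y i.succ, hmem i⟩) (fun i => rfl)
  have h2K : (2 : adjoin k (Set.range fun i : Fin n => x i.succ + y i.succ)) = 0 := by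
    have := congrArg (algebraMap k (adjoin k (Set.range fun i : Fin n => x i.succ + y i.succ))) h2
    rwa [map_ofNat, map_zero] at this
  have hwK : (algebraMap k (adjoin k (Set.range fun i : Fin n => x i.succ + y i.succ)) w) ^ 2 +
      algebraMap k (adjoin k (Set.range fun i : Fin n => x i.succ + y i.succ)) w + 1 = 0 := by
    have := congrArg (algebraMap k (adjoin k (Set.range fun i : Fin n => x i.succ + y i.succ))) hw
    rwa [map_add, map_add, map_pow, map_one, map_zero] at this
  have hx' : x 0 ^ 3 + ∑ i : Fin n, x i.succ ^ 3 = 0 := by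
    rw [← Fin.sum_univ_succ (fun i => x i ^ 3)]; exact hx
  have hy' : y 0 ^ 3 + ∑ i : Fin n, y i.succ ^ 3 = 0 := by
    rw [← Fin.sum_univ_succ (fun i => y i ^ 3)]; exact hy
  have hev := par h2K ![x 0 + y 0, algebraMap k M w * x 0 + y 0, algebraMap k M w ^ 2 * x 0 + y 0]
    0 t0 o0 (by
      intro O hO
      rw [Fin.sum_univ_three]
      exact three_even hO h2K _ hwK _ hAn (x 0) (y 0) (fun i => x i.succ) (fun i => y i.succ)
        hx' hy' (fun i => rfl))
  rw [Fin.sum_univ_three] at hev
  have hodd := (o0.add_odd o1).add_odd o3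
  exact (Nat.not_even_iff_odd.2 hodd) hev

end MP2619.R
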