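import Pool.Agent.Lib.MP_2619d0_ag.R.B1

/-!
Row C1: transvections, at an odd place.
-/

set_option autoImplicit false

namespace MP2619.R

universe v u

variable {K : Type v} {M : Type u} [Field K] [Field M] [Algebra K M]

/-- The identity `(b + d) U (U + b) = F(v) + ∑ v_i² y_i + ∑ v_i y_i² + Q c² + Q² c + ...`; here: points
`(a, b, x)` and `(c, d, y)` of `p q (p + q) + F(x) = 0`, `U = a + c`, `Q = b + d`, `v = x + y`:
`b U (U + b) = F(v) + ∑ v_i² y_i + ∑ v_i y_i² + Q c² + Q² c`.
(Characteristic two: `F(x) = F(v) + ∑ v_i² y_i + ∑ v_i y_i² + F(y)` by `cube_add`, and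
`F(x) = a b (a + b)`, `F(y) = c d (c + d)`; then a polynomial identity modulo 2 in `a, b, c, d`.) -/
theorem trans_identity (h2 : (2 : M) = 0) {n : ℕ} (a b c d Q : M) (x y v : Fin n → M)
    (hx : a * b * (a + b) + ∑ i, x i ^ 3 = 0) (hy : c * d * (c + d) + ∑ i, y i ^ 3 = 0)
    (hQ : b + d = Q) (hxy : ∀ i, x i + y i = v i) :
    b * (a + c) * (a + c + b) =
      ∑ i, v i ^ 3 + ∑ i, v i ^ 2 * y i + ∑ i, v i * y i ^ 2 + Q * c ^ 2 + Q ^ 2 * c := by
  have h3 := cube_add h2 x y v hxy
  subst hQ
  linear_combination (-1) * hx + hy + h3 +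
    (a ^ 2 * b + a * b ^ 2 + a * b * c - c ^ 2 * d - c * d ^ 2 - b * c * d) * h2

theorem C1_pn_mem {O : ValuationSubring M} (h : DV O) {a : M} (ha : a ∈ O) : pn O a = 0 := by
  unfold pn
  rcases eq_or_ne a 0 with rfl | h0
  · rw [ord_zero]; rfl
  · have := (mem_iff h h0).1 ha
    omega

theorem C1_pn_add_mem {O : ValuationSubring M} (h : DV O) {a b : M} (hb : b ∈ O) :
    pn O (a + b) = pn O a := by
  rcases eq_or_ne a 0 with rfl | h0
  · rw [C1_pn_mem h (by simpa using hb), C1_pn_mem h O.zero_mem]
  · by_cases ha : a ∈ O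
    · rw [C1_pn_mem h (O.add_mem _ _ ha hb), C1_pn_mem h ha]
    · have h1 : ord O a < 0 := by
        by_contra hc
        exact ha ((mem_iff h h0).2 (by omega))
      have h2 : b = 0 ∨ ord O a < ord O b := by
        rcases eq_or_ne b 0 with hb0 | hb0
        · exact Or.inl hb0
        · have := (mem_iff h hb0).1 hb
          exact Or.inr (by omega)
      unfold pn
      rw [(ord_add_lt h h0 h2).2]

theorem C1_pn_neg {O : ValuationSubring M} (a : M) : pn O (-a) = pn O a := by
  unfold pn
  rw [ord_neg]

theorem C1_ord_const {O : ValuationSubring M} (h : OP K O) (q : K) :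
    ord O (algebraMap K M q) = 0 := by
  rcases eq_or_ne q 0 with rfl | hq
  · rw [map_zero, ord_zero]
  · have h0 : algebraMap K M q ≠ 0 := by
      intro h1
      exact hq ((algebraMap K M).injective (by rw [h1, map_zero]))
    have h1 := (mem_iff h.dv h0).1 (h.cst q)
    have h2 := (mem_iff h.dv (inv_ne_zero h0)).1 (by rw [← map_inv₀]; exact h.cst q⁻¹)
    rw [ord_inv h.dv h0] at h2
    omega

theorem C1_three_min {O : ValuationSubring M} (h : DV O) {x y z : M} (hx : x ≠ 0) (hy : y ≠ 0)
    (hz : z ≠ 0) (he : x + y = z) :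
    (ord O x = ord O y ∧ ord O x ≤ ord O z) ∨ (ord O x = ord O z ∧ ord O x ≤ ord O y) ∨
      (ord O y = ord O z ∧ ord O y ≤ ord O x) := by
  subst he
  rcases lt_trichotomy (ord O x) (ord O y) with h1 | h1 | h1
  · have := (ord_add_lt h hx (Or.inr h1)).2
    right; left
    omega
  · left
    have := ord_add h hx hy hz
    rw [h1, min_self] at this
    omega
  · have := (ord_add_lt h hy (Or.inr h1)).2
    rw [add_comm y x] at this
    right; right
    omega

/-- The local computation for `U_+ = a + c`, `U_- = a + c + b` and `d`: the sum of the pole orders is even.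
Let `Ψ` be the right hand side of `trans_identity`, `Q, v_i ∈ K`, `(Q, v)` anisotropic (`hv`), `N` the
largest pole order of `c` and the `y_i`. Note `b = Q + d`, so `b` and `d` have the same pole order, and
`U_+ + U_- = b`.
* `N > 0`: `Ψ` has order exactly `-2 N` (the part `Q c² + ∑ v_i y_i²` by `ord_an` for the vector
  `(c, y)`, the rest has order `≥ -N`; compare `ord_psi`). So `b, U_+, U_-` are not zero, their orders
  `o_1, o_2, o_3` satisfy `o_1 + o_2 + o_3 = -2 N` and the minimum is attained at least twice. As in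
  `three_even` the sum of the pole orders is even.
* `N ≤ 0`: all `y_i`, `c` are in `O`, so are the `x_i`, and `Ψ`. If `d ∉ O`: let `m > 0` be its pole
  order, also that of `b`. From `c d (c + d) = F(y) ∈ O`: `c = 0` or `ord c ≥ 2 m > 0`. If
  `U_+ = 0` or `U_- = 0` the other one is `b`, pole orders `0 + m + m`. Otherwise
  `ord U_+ + ord U_- = m + ord Ψ > 0` with `U_+ + U_- = b` of order `-m < 0`: the minimum of the two orders
  is `≤ -m`; if it were `< -m` both orders would be equal and their sum negative; so the minimum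
  is `-m`, the other order is `≥ 2 m > 0`; pole orders `m + 0`, plus `m` for `d`. Even.
  If `d ∈ O`: `b ∈ O`. If `U_+` has a pole then `U_- = U_+ + b` has the same order and vice versa, so
  the pole orders of `U_±` are equal. Even. -/
theorem trans_even {O : ValuationSubring M} (h : OP K O) (h2 : (2 : K) = 0) {n : ℕ} (Q : K)
    (v : Fin n → K) (hv : An (Fin.cons Q v : Fin (n + 1) → K)) (a b c d : M) (x y : Fin n → M)
    (hx : a * b * (a + b) + ∑ i, x i ^ 3 = 0) (hy : c * d * (c + d) + ∑ i, y i ^ 3 = 0)
    (hQ : b + d = algebraMap K M Q) (hxy : ∀ i, x i + y i = algebraMap K M (v i)) :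
    Even (pn O (a + c) + pn O (a + c + b) + pn O d) := by
  have h2M : (2 : M) = 0 := by
    rw [← map_ofNat (algebraMap K M) 2, h2, map_zero]
  have hid := trans_identity h2M a b c d (algebraMap K M Q) x y (fun i => algebraMap K M (v i))
    hx hy hQ hxy
  have hbd : pn O b = pn O d := by
    have e : b = -d + algebraMap K M Q := by linear_combination hQ
    rw [e, C1_pn_add_mem h.dv (h.cst Q), C1_pn_neg]
  by_cases hall : ∃ i, (Fin.cons c y : Fin (n + 1) → M) i ∉ O
  · obtain ⟨N, hN, -, -, hne, hord⟩ := ord_psi h h2 (Fin.cons Q v : Fin (n + 1) → K) hv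
      (Fin.cons c y : Fin (n + 1) → M) hall
    simp only [Fin.sum_univ_succ, Fin.cons_zero, Fin.cons_succ] at hne hord
    have hΨ := ord_add_lt h.dv hne (b := -(algebraMap K M Q ^ 3)) (by
      right
      have hq : ord O (-(algebraMap K M Q ^ 3)) = 0 := by
        rw [ord_neg, ← map_pow, C1_ord_const h]
      rw [hq, hord]
      omega)
    have e : (algebraMap K M Q ^ 3 + ∑ i, algebraMap K M (v i) ^ 3 +
        (algebraMap K M Q ^ 2 * c + ∑ i, algebraMap K M (v i) ^ 2 * y i) +
        (algebraMap K M Q * c ^ 2 + ∑ i, algebraMap K M (v i) * y i ^ 2)) +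
        -(algebraMap K M Q ^ 3) = b * (a + c) * (a + c + b) := by
      rw [hid]
      ring
    rw [e, hord] at hΨ
    obtain ⟨h0, h1⟩ := hΨ
    have hb0 : b ≠ 0 := by
      rintro rfl
      exact h0 (by ring)
    have hA0 : a + c ≠ 0 := by
      intro hA
      exact h0 (by rw [hA]; ring)
    have hB0 : a + c + b ≠ 0 := by
      intro hB
      exact h0 (by rw [hB]; ring)
    rw [ord_mul h.dv (mul_ne_zero hb0 hA0) hB0, ord_mul h.dv hb0 hA0] at h1
    have h3 := C1_three_min h.dv hA0 hb0 hB0 rfl
    rw [← hbd, Nat.even_iff]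
    unfold pn
    omega
  · push Not at hall
    have hc : c ∈ O := by simpa using hall 0
    have hyO : ∀ i, y i ∈ O := fun i => by simpa using hall i.succ
    by_cases hd : d ∈ O
    · have hb : b ∈ O := by
        have e : b = algebraMap K M Q - d := by linear_combination hQ
        rw [e]
        exact O.toSubring.sub_mem (h.cst Q) hd
      rw [C1_pn_add_mem h.dv hb, C1_pn_mem h.dv hd, add_zero]
      exact ⟨_, rfl⟩
    · have hd0 : d ≠ 0 := by
        rintro rfl
        exact hd O.zero_mem
      have hdo : ord O d < 0 := by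
        by_contra hcon
        exact hd ((mem_iff h.dv hd0).2 (by omega))
      have hbO : b ∉ O := by
        intro hb
        apply hd
        have e : d = algebraMap K M Q - b := by linear_combination hQ
        rw [e]
        exact O.toSubring.sub_mem (h.cst Q) hb
      have hb0 : b ≠ 0 := by
        rintro rfl
        exact hbO O.zero_mem
      have hbo : ord O b < 0 := by
        by_contra hcon
        exact hbO ((mem_iff h.dv hb0).2 (by omega))
      rw [← hbd]
      rcases eq_or_ne (a + c) 0 with hA | hA0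
      · rw [hA, zero_add, C1_pn_mem h.dv O.zero_mem, zero_add]
        exact ⟨_, rfl⟩
      rcases eq_or_ne (a + c + b) 0 with hB | hB0
      · have e : a + c = -b := by linear_combination hB
        rw [hB, e, C1_pn_neg, C1_pn_mem h.dv O.zero_mem, add_zero]
        exact ⟨_, rfl⟩
      have hmem : b * (a + c) * (a + c + b) ∈ O := by
        rw [hid]
        refine O.add_mem _ _ (O.add_mem _ _ (O.add_mem _ _ (O.add_mem _ _ ?_ ?_) ?_) ?_) ?_
        · exact sum_mem fun i _ => pow_mem (h.cst _) _
        · exact sum_mem fun i _ => O.mul_mem _ _ (pow_mem (h.cst _) _) (hyO i)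
        · exact sum_mem fun i _ => O.mul_mem _ _ (h.cst _) (pow_mem (hyO i) _)
        · exact O.mul_mem _ _ (h.cst _) (pow_mem hc _)
        · exact O.mul_mem _ _ (pow_mem (h.cst _) _) hc
      have h1 := (mem_iff h.dv (mul_ne_zero (mul_ne_zero hb0 hA0) hB0)).1 hmem
      rw [ord_mul h.dv (mul_ne_zero hb0 hA0) hB0, ord_mul h.dv hb0 hA0] at h1
      have h3 := C1_three_min h.dv hA0 hb0 hB0 rfl
      rw [Nat.even_iff]
      unfold pn
      omega

end MP2619.R
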