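import Pool.Agent.Lib.MP_2619d0_ag.R.C1

/-!
Row C2: an odd zero of `d`.
-/

set_option autoImplicit false

namespace MP2619.R

universe v u

variable {K : Type v} {M : Type u} [Field K] [Field M] [Algebra K M]

/-- The order of `p q (p + q)` if `q` has odd positive order: it is zero, or negative and odd, or
positive. (`p = 0`, or `ord p < ord q`: the order is `2 ord p + ord q`, odd; or `ord p ≥ ord q`: zero or
`≥ 3 ord q > 0`.) -/
theorem ord_pq {O : ValuationSubring M} (h : DV O) {p q : M} (hq0 : q ≠ 0) (hq : 0 < ord O q)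
    (hodd : Odd (ord O q)) : p * q * (p + q) = 0 ∨ 0 < ord O (p * q * (p + q)) ∨
      (ord O (p * q * (p + q)) < 0 ∧ Odd (ord O (p * q * (p + q)))) := by
  by_cases hp0 : p = 0
  · left
    rw [hp0]
    ring
  by_cases hpq0 : p + q = 0
  · left
    rw [hpq0]
    ring
  right
  have e1 : ord O (p * q * (p + q)) = ord O p + ord O q + ord O (p + q) := by
    rw [ord_mul h (mul_ne_zero hp0 hq0) hpq0, ord_mul h hp0 hq0]
  by_cases hlt : ord O p < ord O q
  · have e2 := (ord_add_lt h hp0 (Or.inr hlt)).2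
    obtain ⟨m, hm⟩ := hodd
    have e3 : ord O (p * q * (p + q)) = 2 * (ord O p + m) + 1 := by
      rw [e1, e2, hm]
      ring
    have h3 : Odd (ord O (p * q * (p + q))) := ⟨_, e3⟩
    rcases lt_trichotomy (ord O (p * q * (p + q))) 0 with h4 | h4 | h4
    · exact Or.inr ⟨h4, h3⟩
    · exfalso
      omega
    · exact Or.inl h4
  · left
    have h5 := ord_add h hp0 hq0 hpq0
    rw [min_eq_right (not_lt.1 hlt)] at h5
    omega

/-- closure of `order at least e` under addition -/
theorem C2b_add {O : ValuationSubring M} (h : DV O) {u w : M} {e : ℤ} (hu : u = 0 ∨ e ≤ ord O u)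
    (hw : w = 0 ∨ e ≤ ord O w) : u + w = 0 ∨ e ≤ ord O (u + w) := by
  rcases hu with hu | hu
  · rw [hu, zero_add]; exact hw
  · by_cases hu0 : u = 0
    · rw [hu0, zero_add]; exact hw
    rcases hw with hw | hw
    · rw [hw, add_zero]; exact Or.inr hu
    · by_cases hw0 : w = 0
      · rw [hw0, add_zero]; exact Or.inr hu
      by_cases huw : u + w = 0
      · exact Or.inl huw
      · right
        have := ord_add h hu0 hw0 huw
        have h3 : e ≤ min (ord O u) (ord O w) := le_min hu hw
        omega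

theorem C2b_mul {O : ValuationSubring M} (h : DV O) {u w : M} {e f : ℤ} (hu : u = 0 ∨ e ≤ ord O u)
    (hw : w = 0 ∨ f ≤ ord O w) : u * w = 0 ∨ e + f ≤ ord O (u * w) := by
  by_cases hu0 : u = 0
  · left; rw [hu0, zero_mul]
  by_cases hw0 : w = 0
  · left; rw [hw0, mul_zero]
  right
  rw [ord_mul h hu0 hw0]
  rcases hu with hu | hu
  · exact absurd hu hu0
  rcases hw with hw | hw
  · exact absurd hw hw0
  omega

theorem C2b_mem {O : ValuationSubring M} (h : DV O) {u : M} (hu : u ∈ O) : u = 0 ∨ 0 ≤ ord O u := by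
  by_cases hu0 : u = 0
  · exact Or.inl hu0
  · exact Or.inr ((mem_iff h hu0).mp hu)

theorem C2b_weak {O : ValuationSubring M} {u : M} {e f : ℤ} (hef : f ≤ e) (hu : u = 0 ∨ e ≤ ord O u) :
    u = 0 ∨ f ≤ ord O u := hu.imp_right (fun h => hef.trans h)

/-- First place. `Ψ0 := F(v) + ∑ v_i² y_i + ∑ v_i y_i²`. By `cube_add` and the equations
`a b (a + b) + c d (c + d) = Ψ0`, `b = Q + d`, so
`Q a² + ∑ v_i y_i² = F(v) + ∑ v_i² y_i + d a² + a b² + c d (c + d)` (characteristic two).
Let `N` be the largest pole order of `a` and the `y_i`; suppose `N > 0`. The left hand side has order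
exactly `-2 N` (`ord_an`). On the right: `F(v)`: order `≥ 0`; `∑ v_i² y_i`: `≥ -N`; `d a²`: `≥ -2 N + ord d
> -2 N`; `a b²`: `≥ -N` (`b = Q + d` is a unit); and `c d (c + d)` is zero, or of positive order, or of
negative odd order (`ord_pq`): the sum cannot have order `-2 N`: if `c d (c + d)` has order `< -2 N` then the
sum has this order; if its order is `> -2 N` all terms have order `> -2 N`; it is not equal to `-2 N`
(odd). So all `y_i` and `a` are in `O`, hence `x_i = v_i - y_i ∈ O`, and
`c d (c + d) = - F(y) ∈ O`, so by `ord_pq` it has positive order (or is zero): `val (F(y)) < 1`. -/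
theorem zero_place {O : ValuationSubring M} (h : OP K O) (h2 : (2 : K) = 0) {n : ℕ} (Q : K)
    (v : Fin n → K) (hv : An (Fin.cons Q v : Fin (n + 1) → K)) (a b c d : M) (x y : Fin n → M)
    (hx : a * b * (a + b) + ∑ i, x i ^ 3 = 0) (hy : c * d * (c + d) + ∑ i, y i ^ 3 = 0)
    (hQ : b + d = algebraMap K M Q) (hxy : ∀ i, x i + y i = algebraMap K M (v i))
    (hd0 : d ≠ 0) (hd : 0 < ord O d) (hodd : Odd (ord O d)) :
    a ∈ O ∧ (∀ i, x i ∈ O) ∧ (∀ i, y i ∈ O) ∧ O.valuation (∑ i, y i ^ 3) < 1 := by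
  have hD := h.dv
  have h2M : (2 : M) = 0 := by
    have := congrArg (algebraMap K M) h2
    rwa [map_ofNat, map_zero] at this
  have hneg : ∀ z : M, -z = z := fun z => by
    have : z + z = 0 := by rw [← two_mul, h2M, zero_mul]
    exact neg_eq_of_add_eq_zero_left this
  have hsub : ∀ z w : M, z - w = z + w := fun z w => by rw [sub_eq_add_neg, hneg]
  have hb : b = algebraMap K M Q + d := by rw [← hQ, add_assoc, ← two_mul, h2M]; ring
  have hF := cube_add h2M x y (fun i => algebraMap K M (v i)) hxy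
  have hyy : ∑ i, y i ^ 3 = c * d * (c + d) := by
    have := eq_neg_of_add_eq_zero_right hy
    rw [this, hneg]
  have hxx : ∑ i, x i ^ 3 = a * b * (a + b) := by
    have := eq_neg_of_add_eq_zero_right hx
    rw [this, hneg]
  have hdO : d ∈ O := (mem_iff hD hd0).mpr hd.le
  have hbO : b ∈ O := by rw [hb]; exact add_mem (h.cst Q) hdO
  have hpq := ord_pq hD (p := c) hd0 hd hodd
  set g : Fin (n + 1) → M := Fin.cons a y with hg
  by_cases hall : ∀ i, g i ∈ O
  · -- all coordinates are integral
    have haO : a ∈ O := by simpa [hg] using hall 0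
    have hyO : ∀ i, y i ∈ O := fun i => by simpa [hg] using hall i.succ
    refine ⟨haO, fun i => ?_, hyO, ?_⟩
    · have : x i = algebraMap K M (v i) - y i := by rw [← hxy i]; ring
      rw [this]
      exact sub_mem (h.cst _) (hyO i)
    · have hmem : ∑ i, y i ^ 3 ∈ O := sum_mem fun i _ => pow_mem (hyO i) 3
      rw [hyy] at hmem ⊢
      rcases hpq with h3 | h3 | h3
      · rw [h3, map_zero]; exact zero_lt_one
      · have hne : c * d * (c + d) ≠ 0 := by
          intro h0
          rw [h0, ord_zero] at h3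
          exact lt_irrefl _ h3
        exact (lt_iff hD hne).mpr h3
      · exfalso
        have hne : c * d * (c + d) ≠ 0 := by
          intro h0
          rw [h0, ord_zero] at h3
          exact lt_irrefl _ h3.1
        have := (mem_iff hD hne).mp hmem
        omega
  · exfalso
    push Not at hall
    obtain ⟨j, hj⟩ := hall
    have hj0 : g j ≠ 0 := fun h0 => hj (by rw [h0]; exact zero_mem O)
    have hg0 : g ≠ 0 := fun h0 => hj0 (by rw [h0]; rfl)
    obtain ⟨hne, i, hi0, hord, hmin⟩ := ord_an h h2 _ hv g hg0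
    have hjneg : ord O (g j) < 0 := by
      by_contra hcon
      push Not at hcon
      exact hj ((mem_iff hD hj0).mpr hcon)
    set N : ℤ := -ord O (g i) with hN
    have hNpos : 0 < N := by
      have := hmin j hj0
      omega
    have hgN : ∀ l, g l = 0 ∨ -N ≤ ord O (g l) := by
      intro l
      by_cases hl : g l = 0
      · exact Or.inl hl
      · right
        have := hmin l hl
        omega
    have haN : a = 0 ∨ -N ≤ ord O a := by simpa [hg] using hgN 0
    have hyN : ∀ l, y l = 0 ∨ -N ≤ ord O (y l) := fun l => by simpa [hg] using hgN l.succ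
    have hcst : ∀ z : K, algebraMap K M z = 0 ∨ 0 ≤ ord O (algebraMap K M z) := fun z =>
      C2b_mem hD (h.cst z)
    -- the terms on the right
    have hT0 : (∑ l, algebraMap K M (v l) ^ 3) = 0 ∨ -N ≤ ord O (∑ l, algebraMap K M (v l) ^ 3) :=
      C2b_weak (by omega) (C2b_mem hD (sum_mem fun l _ => pow_mem (h.cst (v l)) 3))
    have hT1 : (∑ l, algebraMap K M (v l) ^ 2 * y l) = 0 ∨
        -N ≤ ord O (∑ l, algebraMap K M (v l) ^ 2 * y l) := by
      refine ord_sum hD _ _ _ fun l _ => ?_
      have := C2b_mul hD (C2b_mem hD (pow_mem (h.cst (v l)) 2)) (hyN l)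
      rwa [zero_add] at this
    have hT2 : d * a ^ 2 = 0 ∨ -2 * N + 1 ≤ ord O (d * a ^ 2) := by
      have h3 := C2b_mul hD (Or.inr hd : d = 0 ∨ 0 < ord O d) (C2b_mul hD haN haN)
      rw [← pow_two] at h3
      exact C2b_weak (by omega) h3
    have hT3 : a * b ^ 2 = 0 ∨ -N ≤ ord O (a * b ^ 2) := by
      have h3 := C2b_mul hD haN (C2b_mem hD (pow_mem hbO 2))
      rwa [add_zero] at h3
    set R : M := (∑ l, algebraMap K M (v l) ^ 3 + ∑ l, algebraMap K M (v l) ^ 2 * y l) +
      (d * a ^ 2 + a * b ^ 2) with hR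
    have hRo : R = 0 ∨ -2 * N + 1 ≤ ord O R := by
      refine C2b_add hD ?_ ?_
      · exact C2b_weak (by omega) (C2b_add hD hT0 hT1)
      · exact C2b_add hD hT2 (C2b_weak (by omega) hT3)
    have hL : ∑ l, algebraMap K M ((Fin.cons Q v : Fin (n + 1) → K) l) * g l ^ 2 =
        algebraMap K M Q * a ^ 2 + ∑ l, algebraMap K M (v l) * y l ^ 2 := by
      rw [Fin.sum_univ_succ]
      simp [hg]
    have hmain : c * d * (c + d) =
        (∑ l, algebraMap K M ((Fin.cons Q v : Fin (n + 1) → K) l) * g l ^ 2) + R := by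
      rw [hL, hR]
      have h4 : a * b * (a + b) = ∑ l, algebraMap K M (v l) ^ 3 +
          ∑ l, algebraMap K M (v l) ^ 2 * y l + ∑ l, algebraMap K M (v l) * y l ^ 2 +
          c * d * (c + d) := by
        rw [← hxx, ← hyy]; exact hF
      have h5 : a * b * (a + b) = algebraMap K M Q * a ^ 2 + d * a ^ 2 + a * b ^ 2 := by
        have : a * b * (a + b) = b * a ^ 2 + a * b ^ 2 := by ring
        rw [this, hb]; ring
      have h6 : c * d * (c + d) = a * b * (a + b) - (∑ l, algebraMap K M (v l) ^ 3 +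
          ∑ l, algebraMap K M (v l) ^ 2 * y l + ∑ l, algebraMap K M (v l) * y l ^ 2) := by
        rw [h4]; ring
      rw [h6, hsub, h5]
      ring
    have hkey := ord_add_lt hD hne (b := R) (by
      rcases hRo with h3 | h3
      · exact Or.inl h3
      · right
        rw [hord]
        omega)
    rw [← hmain, hord] at hkey
    rcases hpq with h3 | h3 | h3
    · exact hkey.1 h3
    · omega
    · obtain ⟨t, ht⟩ := h3.2
      omega

/-- Second place. `a q (a + q) + F(x) = 0`, `F(y) = 0`, `x + y = v ∈ K^n`, `q` has odd positive order. By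
`cube_add`: `a q (a + q) = F(v) + ∑ v_i² y_i + ∑ v_i y_i²`. If some `y_i ∉ O` the right hand side has
order `-2 N < 0`, even (`ord_psi`), contradiction to `ord_pq`. So `y_i ∈ O`, `x_i ∈ O`, the right hand
side is in `O`, and by `ord_pq` `a q (a + q)` is zero or has positive order. -/
theorem zero_place2 {O : ValuationSubring M} (h : OP K O) (h2 : (2 : K) = 0) {n : ℕ}
    (v : Fin n → K) (hv : An v) (a q : M) (x y : Fin n → M)
    (hx : a * q * (a + q) + ∑ i, x i ^ 3 = 0) (hy : ∑ i, y i ^ 3 = 0)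
    (hxy : ∀ i, x i + y i = algebraMap K M (v i))
    (hq0 : q ≠ 0) (hq : 0 < ord O q) (hodd : Odd (ord O q)) :
    (∀ i, x i ∈ O) ∧ (∀ i, y i ∈ O) ∧ O.valuation (∑ i, x i ^ 3) < 1 := by
  have h2M : (2 : M) = 0 := by
    have h1 := congrArg (algebraMap K M) h2
    rwa [map_ofNat, map_zero] at h1
  have hc := cube_add h2M x y (fun i => algebraMap K M (v i)) hxy
  rw [hy, add_zero] at hc
  have hprod : a * q * (a + q) = -∑ i, x i ^ 3 := eq_neg_of_add_eq_zero_left hx
  have hpq := ord_pq (p := a) h.dv hq0 hq hodd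
  have hyO : ∀ i, y i ∈ O := by
    by_contra hcon
    push Not at hcon
    obtain ⟨N, hN, _, _, hne, hord⟩ := ord_psi h h2 v hv y hcon
    rw [← hc] at hne hord
    rw [hprod, ord_neg, hord] at hpq
    rcases hpq with h3 | h3 | ⟨_, h3⟩
    · exact hne (neg_eq_zero.1 h3)
    · omega
    · obtain ⟨m, hm⟩ := h3
      omega
  have hxO : ∀ i, x i ∈ O := by
    intro i
    have h3 : x i = algebraMap K M (v i) - y i := eq_sub_of_add_eq (hxy i)
    rw [h3]
    exact sub_mem (h.cst (v i)) (hyO i)
  refine ⟨hxO, hyO, ?_⟩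
  have hsum : ∑ i, x i ^ 3 ∈ O := sum_mem (fun i _ => pow_mem (hxO i) 3)
  by_cases hz : ∑ i, x i ^ 3 = 0
  · rw [hz, map_zero]
    exact zero_lt_one
  · rw [lt_iff h.dv hz]
    rw [hprod, ord_neg] at hpq
    rcases hpq with h3 | h3 | ⟨h3, _⟩
    · exact absurd (neg_eq_zero.1 h3) hz
    · exact h3
    · have h4 := (mem_iff h.dv hz).1 hsum
      omega

end MP2619.R
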