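import Pool.Agent.Lib.MP_2619d0_ag.R.C2
import Pool.Agent.Lib.MP_2619d0_ag.R.C4
import Pool.Agent.Lib.MP_2619d0_ag.R.A7

/-!
Row C5: the degree over the field generated by `d` is even (descent from `n + 2` to `n` variables).
-/

set_option autoImplicit false

namespace MP2619.R

universe v u

open IntermediateField

variable {k : Type v} {M : Type u} [Field k] [Field M] [Algebra k M]

/-- Second step. `K' = adjoin k (range v)`, `v_i = x_i + y_i`. By `pr_cons` and `odd_place` (with `q`) there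
is an odd place `O` of `M / K'` with `ord q > 0` odd. By `zero_place2` (`An v` by `an_adjoin`) all `x_i`, `y_i`
are in `O` and `F(x̄) = 0`, `F(ȳ) = 0` in the residue field `κ`. `pass` (with `v`; `v_i ∈ K' ⊂ O`): `Pr k v̄`,
`v̄ = x̄ + ȳ`. `trdeg_res` and `rat_res` (with `E = rat k y`): `trdeg k (rat k ȳ) ≤ D`. So `x̄`, `ȳ` are
odd data of level `(n, D)` over `k`, contradiction to `hS`. -/
theorem step2 {n D : ℕ} (hS : S.{v, u} n D) (h2 : (2 : k) = 0) (hw : ∃ w : k, w ^ 2 + w + 1 = 0)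
    (a q : M) (x y : Fin n → M) (hx : a * q * (a + q) + ∑ i, x i ^ 3 = 0)
    (hy : ∑ i, y i ^ 3 = 0) (hD : Algebra.trdeg k (rat k y) ≤ D)
    (hP : Pr k (Fin.cons q (fun i => x i + y i) : Fin (n + 1) → M)) : False := by
  obtain ⟨hv, hq, hodd⟩ := (pr_cons q (fun i => x i + y i)).1 hP
  have h2K : (2 : adjoin k (Set.range fun i => x i + y i)) = 0 := by
    have := congrArg (algebraMap k (adjoin k (Set.range fun i => x i + y i))) h2
    rw [map_ofNat, map_zero] at this
    exact this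
  obtain ⟨O, hO, hpos, hoddq⟩ := odd_place h2K q hq hodd
  have hq0 : q ≠ 0 := by
    rintro rfl
    rw [ord_zero] at hpos
    exact lt_irrefl _ hpos
  have hAn := an_adjoin (fun i => x i + y i) hv
    (fun i => (⟨x i + y i, subset_adjoin _ _ ⟨i, rfl⟩⟩ : adjoin k (Set.range fun i => x i + y i)))
    (fun i => rfl)
  obtain ⟨hxO, hyO, hFx⟩ := zero_place2 hO h2K _ hAn a q x y hx hy (fun i => rfl) hq0 hpos hoddq
  have hc : Cst k O := cst_of_tower hO.cst
  have hP' := pass (fun i => x i + y i) hv O hO (fun i => (⟨x i, hxO i⟩ + ⟨y i, hyO i⟩ : O))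
    (fun i => rfl)
  let inst : Algebra k (IsLocalRing.ResidueField O) := (rc hc).toAlgebra
  have e : (fun i => IsLocalRing.residue O (⟨x i, hxO i⟩ + ⟨y i, hyO i⟩ : O)) =
    (fun i => IsLocalRing.residue O ⟨x i, hxO i⟩ + IsLocalRing.residue O ⟨y i, hyO i⟩) :=
    funext fun i => map_add _ _ _
  have hP2 : Pr k (fun i => IsLocalRing.residue O ⟨x i, hxO i⟩ +
      IsLocalRing.residue O ⟨y i, hyO i⟩) := by
    rw [← e]
    exact hP'
  refine hS k (IsLocalRing.ResidueField O) (fun i => IsLocalRing.residue O ⟨x i, hxO i⟩)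
    (fun i => IsLocalRing.residue O ⟨y i, hyO i⟩) ⟨h2, hw, hP2.1, hP2.2, ?_, ?_, ?_⟩
  · have e : ∑ i, IsLocalRing.residue O ⟨x i, hxO i⟩ ^ 3 =
        IsLocalRing.residue O (∑ i, (⟨x i, hxO i⟩ : O) ^ 3) := by
      simp only [map_sum, map_pow]
    rw [e, IsLocalRing.residue_eq_zero_iff, ValuationSubring.valuation_lt_one_iff]
    convert hFx using 2
    push_cast
    rfl
  · have e : ∑ i, IsLocalRing.residue O ⟨y i, hyO i⟩ ^ 3 =
        IsLocalRing.residue O (∑ i, (⟨y i, hyO i⟩ : O) ^ 3) := by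
      simp only [map_sum, map_pow]
    have e0 : (∑ i, (⟨y i, hyO i⟩ : O) ^ 3) = 0 := by
      apply Subtype.ext
      push_cast
      exact hy
    rw [e, e0, map_zero]
  · exact trdeg_res hc (rat k y) D hD (rat k fun i => IsLocalRing.residue O ⟨y i, hyO i⟩)
      (rat_res hc (fun i => (⟨y i, hyO i⟩ : O)) (rat k y) le_rfl)

/-- First step. `K = adjoin k (range (Q, v))`, `Q = b + d`, `v_i = x_i + y_i`. Suppose `Pr k (d, Q, v)`. By
`pr_cons` and `odd_place` (with `q = d`) there is an odd place `O` of `M / K` with `ord d > 0` odd. By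
`zero_place` (`An (Q, v)` by `an_adjoin`): `a`, `x_i`, `y_i` are in `O`, `F(ȳ) = 0`; in the residue field
`b̄ = Q̄` (`d̄ = 0`; `b = Q - d ∈ O`), so `ā Q̄ (ā + Q̄) + F(x̄) = 0`. `pass` with `(Q, v)`: `Pr k (Q̄, v̄)`.
The transcendence degree: some `y_i` is a unit of `O`, because otherwise `ȳ = 0`, `x̄ = v̄` and
`ā Q̄ (ā + Q̄) + F(v̄) = 0`, that is `Q̄ ā² + ∑ v̄_i v̄_i² = Q̄² ā` [characteristic two] - see below. Then
`π = d / y_i ∈ E := rat k (c, d, y)` is a nonzero element of the maximal ideal, and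
`trdeg_res_lt` and `rat_res` (`rat k y ≤ rat k (c, d, y)`) give `trdeg k (rat k ȳ) ≤ D`. Now `step2` for
the residue field with `a := ā`, `q := Q̄`.
If all `ȳ_i = 0`, then `rat k ȳ` is generated by `0 / 0 = 0`, so `rat k ȳ = ⊥` and its transcendence degree
is `0 ≤ D`: the same conclusion holds in this case. -/
theorem step1 {n D : ℕ} (hS : S.{v, u} n D) (h2 : (2 : k) = 0) (hw : ∃ w : k, w ^ 2 + w + 1 = 0)
    (a b c d : M) (x y : Fin n → M) (hx : a * b * (a + b) + ∑ i, x i ^ 3 = 0)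
    (hy : c * d * (c + d) + ∑ i, y i ^ 3 = 0)
    (hD : Algebra.trdeg k (rat k (Fin.cons c (Fin.cons d y) : Fin (n + 1 + 1) → M)) ≤ (D + 1 : ℕ))
    (hP : Pr k (Fin.cons d (Fin.cons (b + d) (fun i => x i + y i)) : Fin (n + 1 + 1) → M)) :
    False := by
  set w : Fin (n + 1) → M := Fin.cons (b + d) (fun i => x i + y i) with hwdef
  obtain ⟨hv, hq, hodd⟩ := (pr_cons d w).1 hP
  have h2K : (2 : adjoin k (Set.range w)) = 0 := by
    have := congrArg (algebraMap k (adjoin k (Set.range w))) h2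
    rw [map_ofNat, map_zero] at this
    exact this
  obtain ⟨O, hO, hpos, hoddd⟩ := odd_place h2K d hq hodd
  have hd0 : d ≠ 0 := by
    rintro rfl
    rw [ord_zero] at hpos
    exact lt_irrefl _ hpos
  let Q : adjoin k (Set.range w) := ⟨b + d, subset_adjoin _ _ ⟨0, rfl⟩⟩
  let V : Fin n → adjoin k (Set.range w) := fun i => ⟨x i + y i, subset_adjoin _ _ ⟨i.succ, rfl⟩⟩
  have hAn : An (Fin.cons Q V : Fin (n + 1) → adjoin k (Set.range w)) := by
    refine an_adjoin w hv _ (fun i => ?_)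
    refine Fin.cases ?_ (fun j => ?_) i
    · rfl
    · rfl
  obtain ⟨haO, hxO, hyO, hFy⟩ := zero_place hO h2K Q V hAn a b c d x y hx hy rfl (fun i => rfl)
    hd0 hpos hoddd
  have hc : Cst k O := cst_of_tower hO.cst
  have hdO : d ∈ O := (mem_iff hO.dv hd0).2 hpos.le
  have hd1 : O.valuation d < 1 := (lt_iff hO.dv hd0).2 hpos
  have hbO : b ∈ O := by
    have hQO : b + d ∈ O := hO.cst Q
    have e : b = (b + d) - d := by ring
    rw [e]
    exact sub_mem hQO hdO
  have hP' := pass w hv O hO (Fin.cons (⟨b, hbO⟩ + ⟨d, hdO⟩ : O) (fun i => (⟨x i, hxO i⟩ + ⟨y i, hyO i⟩ : O)))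
    (fun i => by
      refine Fin.cases ?_ (fun j => ?_) i
      · rfl
      · rfl)
  let inst : Algebra k (IsLocalRing.ResidueField O) := (rc hc).toAlgebra
  have hdr : IsLocalRing.residue O ⟨d, hdO⟩ = 0 := by
    rw [IsLocalRing.residue_eq_zero_iff, ValuationSubring.valuation_lt_one_iff]
    exact hd1
  have e : (fun i => IsLocalRing.residue O ((Fin.cons (⟨b, hbO⟩ + ⟨d, hdO⟩ : O)
      (fun i => (⟨x i, hxO i⟩ + ⟨y i, hyO i⟩ : O)) : Fin (n + 1) → O) i)) =
    (Fin.cons (IsLocalRing.residue O ⟨b, hbO⟩) (fun i => IsLocalRing.residue O ⟨x i, hxO i⟩ +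
      IsLocalRing.residue O ⟨y i, hyO i⟩) : Fin (n + 1) → IsLocalRing.ResidueField O) := by
    funext i
    refine Fin.cases ?_ (fun j => ?_) i
    · simp only [Fin.cons_zero, map_add, hdr, add_zero]
    · simp only [Fin.cons_succ, map_add]
  have hP2 : Pr k (Fin.cons (IsLocalRing.residue O ⟨b, hbO⟩) (fun i => IsLocalRing.residue O ⟨x i, hxO i⟩ +
      IsLocalRing.residue O ⟨y i, hyO i⟩) : Fin (n + 1) → IsLocalRing.ResidueField O) := by
    rw [← e]
    exact hP'
  have hD' : Algebra.trdeg k (rat k fun i => IsLocalRing.residue O ⟨y i, hyO i⟩) ≤ D := by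
    by_cases hall : ∀ i, IsLocalRing.residue O ⟨y i, hyO i⟩ = 0
    · have hbot : (rat k fun i => IsLocalRing.residue O ⟨y i, hyO i⟩) = ⊥ := by
        rw [rat, adjoin_eq_bot_iff]
        rintro z ⟨i, j, rfl⟩
        rw [hall i, zero_div]
        exact zero_mem _
      rw [hbot, trdeg_eq_zero]
      exact zero_le
    · push Not at hall
      obtain ⟨i, hi⟩ := hall
      have hyi1 : O.valuation (y i) = 1 := by
        have h1 : ¬ O.valuation (y i) < 1 := by
          intro hlt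
          apply hi
          rw [IsLocalRing.residue_eq_zero_iff, ValuationSubring.valuation_lt_one_iff]
          exact hlt
        exact le_antisymm ((O.valuation_le_one_iff _).2 (hyO i)) (not_lt.1 h1)
      have hyi0 : y i ≠ 0 := by
        intro h0
        rw [h0, map_zero] at hyi1
        exact zero_ne_one hyi1
      refine trdeg_res_lt hc (rat k (Fin.cons c (Fin.cons d y) : Fin (n + 1 + 1) → M)) D hD
        (d / y i) ?_ (div_ne_zero hd0 hyi0) ?_ (rat k fun i => IsLocalRing.residue O ⟨y i, hyO i⟩)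
        (rat_res hc (fun i => (⟨y i, hyO i⟩ : O)) _ ?_)
      · exact subset_adjoin _ _ ⟨Fin.succ 0, i.succ.succ, rfl⟩
      · rw [map_div₀, hyi1, div_one]
        exact hd1
      · refine adjoin.mono _ _ _ ?_
        rintro z ⟨j, l, rfl⟩
        exact ⟨j.succ.succ, l.succ.succ, rfl⟩
  refine step2 hS h2 hw (IsLocalRing.residue O ⟨a, haO⟩) (IsLocalRing.residue O ⟨b, hbO⟩)
    (fun i => IsLocalRing.residue O ⟨x i, hxO i⟩) (fun i => IsLocalRing.residue O ⟨y i, hyO i⟩)
    ?_ ?_ hD' hP2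
  · have e1 : IsLocalRing.residue O ⟨a, haO⟩ * IsLocalRing.residue O ⟨b, hbO⟩ *
        (IsLocalRing.residue O ⟨a, haO⟩ + IsLocalRing.residue O ⟨b, hbO⟩) +
        ∑ i, IsLocalRing.residue O ⟨x i, hxO i⟩ ^ 3 =
        IsLocalRing.residue O ((⟨a, haO⟩ : O) * ⟨b, hbO⟩ * (⟨a, haO⟩ + ⟨b, hbO⟩) +
          ∑ i, (⟨x i, hxO i⟩ : O) ^ 3) := by
      simp only [map_sum, map_pow, map_add, map_mul]
    have e0 : ((⟨a, haO⟩ : O) * ⟨b, hbO⟩ * (⟨a, haO⟩ + ⟨b, hbO⟩) +
          ∑ i, (⟨x i, hxO i⟩ : O) ^ 3) = 0 := by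
      apply Subtype.ext
      push_cast
      exact hx
    rw [e1, e0, map_zero]
  · have e1 : ∑ i, IsLocalRing.residue O ⟨y i, hyO i⟩ ^ 3 =
        IsLocalRing.residue O (∑ i, (⟨y i, hyO i⟩ : O) ^ 3) := by
      simp only [map_sum, map_pow]
    rw [e1, IsLocalRing.residue_eq_zero_iff, ValuationSubring.valuation_lt_one_iff]
    convert hFy using 2
    push_cast
    rfl

end MP2619.R
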