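import Pool.Agent.Lib.MP_2619d0_ag.R.C5

/-!
Row C6: transvections preserve odd data.
-/

set_option autoImplicit false

namespace MP2619.R

universe v u

open IntermediateField

variable {k : Type v} {M : Type u} [Field k] [Field M] [Algebra k M]

theorem c6b_rat_le {n m : ℕ} (z : Fin m → M) (y : Fin n → M)
    (hz : ∀ i, ∃ c : Fin n → k, z i = ∑ l, algebraMap k M (c l) * y l) : rat k z ≤ rat k y := by
  rw [rat, adjoin_le_iff]
  rintro _ ⟨i, j, rfl⟩
  by_cases hj : z j = 0
  · rw [hj, div_zero]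
    exact (rat k y).zero_mem
  obtain ⟨c, hc⟩ := hz i
  obtain ⟨d, hd⟩ := hz j
  obtain ⟨m, hm⟩ : ∃ m, y m ≠ 0 := by
    by_contra hcon
    push Not at hcon
    apply hj
    rw [hd]
    refine Finset.sum_eq_zero fun l _ => ?_
    rw [hcon l, mul_zero]
  have h1 : ∀ e : Fin n → k, (∑ l, algebraMap k M (e l) * y l) / y m ∈ rat k y := by
    intro e
    rw [Finset.sum_div]
    refine (rat k y).sum_mem fun l _ => ?_
    rw [mul_div_assoc]
    refine (rat k y).mul_mem ((rat k y).algebraMap_mem _) ?_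
    exact subset_adjoin _ _ ⟨l, m, rfl⟩
  have h3 : z i / z j = (z i / y m) / (z j / y m) := by
    field_simp
  change z i / z j ∈ rat k y
  rw [h3]
  refine (rat k y).div_mem ?_ ?_
  · rw [hc]
    exact h1 c
  · rw [hd]
    exact h1 d

theorem c6b_adjoin {n : ℕ} (h2 : (2 : k) = 0) (w : k) (hw : w ^ 2 + w + 1 = 0)
    (u : Fin (n + 1 + 1) → M) :
    adjoin k (Set.range u) = adjoin k (Set.range (Fin.cons (algebraMap k M w * u 0 +
      algebraMap k M w ^ 2 * u 1) (Fin.cons (u 0 + u 1) (fun i : Fin n => u i.succ.succ)) :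
      Fin (n + 1 + 1) → M)) := by
  have h2M : (2 : M) = 0 := by
    rw [← map_ofNat (algebraMap k M) 2, h2, map_zero]
  have hwM : algebraMap k M w ^ 2 + algebraMap k M w + 1 = 0 := by
    rw [← map_pow, ← map_add, ← map_one (algebraMap k M), ← map_add, hw, map_zero]
  apply le_antisymm
  · rw [adjoin_le_iff]
    set E := adjoin k (Set.range (Fin.cons (algebraMap k M w * u 0 +
      algebraMap k M w ^ 2 * u 1) (Fin.cons (u 0 + u 1) (fun i : Fin n => u i.succ.succ)) :
      Fin (n + 1 + 1) → M)) with hE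
    have e0 : algebraMap k M w * u 0 + algebraMap k M w ^ 2 * u 1 ∈ E :=
      subset_adjoin _ _ ⟨0, rfl⟩
    have e1 : u 0 + u 1 ∈ E := subset_adjoin _ _ ⟨1, rfl⟩
    rintro _ ⟨i, rfl⟩
    change u i ∈ E
    refine Fin.cases ?_ (fun i => Fin.cases ?_ (fun i => ?_) i) i
    · have h3 : u 0 = (algebraMap k M w * u 0 + algebraMap k M w ^ 2 * u 1) +
          algebraMap k M (w ^ 2) * (u 0 + u 1) := by
        rw [map_pow]
        linear_combination (-u 0) * hwM + (u 0 - algebraMap k M w ^ 2 * u 1) * h2M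
      rw [h3]
      exact E.add_mem e0 (E.mul_mem (E.algebraMap_mem _) e1)
    · change u 1 ∈ E
      have h3 : u 1 = (algebraMap k M w * u 0 + algebraMap k M w ^ 2 * u 1) +
          algebraMap k M w * (u 0 + u 1) := by
        linear_combination (-u 1) * hwM + (u 1 - algebraMap k M w * u 0) * h2M
      rw [h3]
      exact E.add_mem e0 (E.mul_mem (E.algebraMap_mem _) e1)
    · exact subset_adjoin _ _ ⟨i.succ.succ, rfl⟩
  · rw [adjoin_le_iff]
    have e : ∀ i, u i ∈ adjoin k (Set.range u) := fun i => subset_adjoin _ _ ⟨i, rfl⟩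
    rintro _ ⟨i, rfl⟩
    refine Fin.cases ?_ (fun i => Fin.cases ?_ (fun i => ?_) i) i
    · change algebraMap k M w * u 0 + algebraMap k M w ^ 2 * u 1 ∈ adjoin k (Set.range u)
      exact add_mem (mul_mem (IntermediateField.algebraMap_mem _ _) (e 0))
        (mul_mem (pow_mem (IntermediateField.algebraMap_mem _ _) 2) (e 1))
    · change u 0 + u 1 ∈ adjoin k (Set.range u)
      exact add_mem (e 0) (e 1)
    · exact e i.succ.succ

/-- `K = adjoin k (range (Q, v))`, `Q = b + d`. By `pr_cons` the degree `[M : K(a + c)]` is odd, `a + c`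
transcendental over `K`. `par` with `U = ![a + c, a + c + b, d]` and `trans_even` (`An (Q, v)` by
`an_adjoin`): `[M : K(a + c)] + [M : K(a + c + b)] + [M : K(d)]` is even. `[M : K(d)]` is not odd: otherwise
`d` is transcendental over `K` (`fin_of_trans`) and `pr_cons` and `step1` give a contradiction. So
`[M : K(a + c + b)]` is odd, `a + c + b` is transcendental over `K` by `fin_of_trans`; `pr_cons`. -/
theorem transvection {n D : ℕ} (hS : S.{v, u} n D) (h2 : (2 : k) = 0)
    (hw : ∃ w : k, w ^ 2 + w + 1 = 0)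
    (a b c d : M) (x y : Fin n → M) (hx : a * b * (a + b) + ∑ i, x i ^ 3 = 0)
    (hy : c * d * (c + d) + ∑ i, y i ^ 3 = 0)
    (hD : Algebra.trdeg k (rat k (Fin.cons c (Fin.cons d y) : Fin (n + 1 + 1) → M)) ≤ (D + 1 : ℕ))
    (hP : Pr k (Fin.cons (a + c) (Fin.cons (b + d) (fun i => x i + y i)) : Fin (n + 1 + 1) → M)) :
    Pr k (Fin.cons (a + c + b) (Fin.cons (b + d) (fun i => x i + y i)) : Fin (n + 1 + 1) → M) := by
  classical
  set w : Fin (n + 1) → M := Fin.cons (b + d) (fun i => x i + y i) with hwdef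
  obtain ⟨hv, hq, hodd⟩ := (pr_cons (a + c) w).1 hP
  have h2K : (2 : adjoin k (Set.range w)) = 0 := by
    have := congrArg (algebraMap k (adjoin k (Set.range w))) h2
    rw [map_ofNat, map_zero] at this
    exact this
  let Q : adjoin k (Set.range w) := ⟨b + d, subset_adjoin _ _ ⟨0, rfl⟩⟩
  let V : Fin n → adjoin k (Set.range w) := fun i => ⟨x i + y i, subset_adjoin _ _ ⟨i.succ, rfl⟩⟩
  have hAn : An (Fin.cons Q V : Fin (n + 1) → adjoin k (Set.range w)) := by
    refine an_adjoin w hv _ (fun i => ?_)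
    refine Fin.cases ?_ (fun j => ?_) i
    · rfl
    · rfl
  have hne : ∀ z : M, Odd (Module.finrank (adjoin (adjoin k (Set.range w)) ({z} : Set M)) M) →
      Module.finrank (adjoin (adjoin k (Set.range w)) ({z} : Set M)) M ≠ 0 := by
    intro z hz h0
    rw [h0] at hz
    exact absurd hz (by decide)
  have hpar := par h2K ![a + c, a + c + b, d] 0 hq hodd (fun O hO => by
    have h := trans_even hO h2K Q V hAn a b c d x y hx hy rfl (fun i => rfl)
    simpa [Fin.sum_univ_three] using h)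
  rw [Fin.sum_univ_three] at hpar
  simp only [Matrix.cons_val_zero, Matrix.cons_val_one, Matrix.cons_val] at hpar
  have hd : ¬ Odd (Module.finrank (adjoin (adjoin k (Set.range w)) ({d} : Set M)) M) := by
    intro hodd'
    have ht : Transcendental (adjoin k (Set.range w)) d :=
      (fin_of_trans (a + c) (hne _ hodd) hq d).2 (hne _ hodd')
    exact step1 hS h2 hw a b c d x y hx hy hD ((pr_cons d w).2 ⟨hv, ht, hodd'⟩)
  have hodd2 : Odd (Module.finrank (adjoin (adjoin k (Set.range w)) ({a + c + b} : Set M)) M) := by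
    by_contra hcon
    rw [Nat.not_odd_iff_even] at hcon hd
    rw [Nat.even_add, Nat.even_add] at hpar
    rw [← Nat.not_even_iff_odd] at hodd
    tauto
  exact (pr_cons (a + c + b) w).2 ⟨hv, (fin_of_trans (a + c) (hne _ hodd) hq _).2 (hne _ hodd2), hodd2⟩

/-- Apply `transvection` in the coordinates `p = w x_0 + w² x_1`, `q = x_0 + x_1`:
`x_0³ + x_1³ = p q (p + q)`, `x_1 = p + w q`, `x_0 = p + w² q` (characteristic two, `w² = w + 1`); exchanging
`x_0` and `x_1` means `p ↦ p + q`, `q ↦ q`. The fields `k(u_0, u_1, …)` and `k(u_p, u_q, …)` are equal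
(`pr_of_adjoin`), and so are `rat k y` and `rat k (p_y, q_y, …)`. -/
theorem swap01 {n D : ℕ} (hS : S.{v, u} n D) (h2 : (2 : k) = 0)
    (hw : ∃ w : k, w ^ 2 + w + 1 = 0) (x y : Fin (n + 1 + 1) → M)
    (hx : ∑ i, x i ^ 3 = 0) (hy : ∑ i, y i ^ 3 = 0) (hD : Algebra.trdeg k (rat k y) ≤ (D + 1 : ℕ))
    (hP : Pr k (fun i => x i + y i)) :
    Pr k (fun i => x (Equiv.swap 0 1 i) + y i) := by
  obtain ⟨w, hw⟩ := hw
  have h2M : (2 : M) = 0 := by
    rw [← map_ofNat (algebraMap k M) 2, h2, map_zero]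
  have hwM : algebraMap k M w ^ 2 + algebraMap k M w + 1 = 0 := by
    rw [← map_pow, ← map_add, ← map_one (algebraMap k M), ← map_add, hw, map_zero]
  have hcube : ∀ a b : M, (algebraMap k M w * a + algebraMap k M w ^ 2 * b) * (a + b) *
      ((algebraMap k M w * a + algebraMap k M w ^ 2 * b) + (a + b)) = a ^ 3 + b ^ 3 := by
    intro a b
    obtain ⟨W, hW⟩ : ∃ W, W = algebraMap k M w := ⟨_, rfl⟩
    rw [← hW] at hwM ⊢
    have h3 : W ^ 2 = W + 1 := by linear_combination hwM - (W + 1) * h2M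
    have h4 : (W * a + W ^ 2 * b) + (a + b) = W ^ 2 * a + W * b := by
      linear_combination (a + b) * hwM - (W ^ 2 * a + W * b) * h2M
    have h5 : W ^ 3 = 1 := by linear_combination (W - 1) * hwM
    rw [h4]
    linear_combination (a + b) * (a ^ 2 + b ^ 2 + W * a * b) * h5 + (a + b) * a * b * hwM
  have hsum : ∀ z : Fin (n + 1 + 1) → M, ∑ i, z i ^ 3 =
      z 0 ^ 3 + z 1 ^ 3 + ∑ i : Fin n, z i.succ.succ ^ 3 := by
    intro z
    rw [Fin.sum_univ_succ, Fin.sum_univ_succ, ← add_assoc]
    rfl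
  have hx' : (algebraMap k M w * x 0 + algebraMap k M w ^ 2 * x 1) * (x 0 + x 1) *
      ((algebraMap k M w * x 0 + algebraMap k M w ^ 2 * x 1) + (x 0 + x 1)) +
      ∑ i : Fin n, x i.succ.succ ^ 3 = 0 := by
    rw [hcube, ← hsum, hx]
  have hy' : (algebraMap k M w * y 0 + algebraMap k M w ^ 2 * y 1) * (y 0 + y 1) *
      ((algebraMap k M w * y 0 + algebraMap k M w ^ 2 * y 1) + (y 0 + y 1)) +
      ∑ i : Fin n, y i.succ.succ ^ 3 = 0 := by
    rw [hcube, ← hsum, hy]
  have hrat : rat k (Fin.cons (algebraMap k M w * y 0 + algebraMap k M w ^ 2 * y 1)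
      (Fin.cons (y 0 + y 1) (fun i : Fin n => y i.succ.succ)) : Fin (n + 1 + 1) → M) = rat k y := by
    apply le_antisymm
    · apply c6b_rat_le
      intro i
      refine Fin.cases ?_ (fun i => Fin.cases ?_ (fun i => ?_) i) i
      · refine ⟨fun l => if l = 0 then w else if l = 1 then w ^ 2 else 0, ?_⟩
        change algebraMap k M w * y 0 + algebraMap k M w ^ 2 * y 1 = _
        rw [Fin.sum_univ_succ, Fin.sum_univ_succ]
        simp [Fin.succ_succ_ne_one]
      · refine ⟨fun l => if l = 0 then 1 else if l = 1 then 1 else 0, ?_⟩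
        change y 0 + y 1 = _
        rw [Fin.sum_univ_succ, Fin.sum_univ_succ]
        simp [Fin.succ_succ_ne_one]
      · refine ⟨fun l => if l = i.succ.succ then 1 else 0, ?_⟩
        change y i.succ.succ = _
        simp
    · apply c6b_rat_le
      intro i
      refine Fin.cases ?_ (fun i => Fin.cases ?_ (fun i => ?_) i) i
      · refine ⟨fun l => if l = 0 then 1 else if l = 1 then w ^ 2 else 0, ?_⟩
        rw [Fin.sum_univ_succ, Fin.sum_univ_succ]
        simp [Fin.succ_succ_ne_one]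
        linear_combination (-y 0) * hwM + (y 0 - algebraMap k M w ^ 2 * y 1) * h2M
      · refine ⟨fun l => if l = 0 then 1 else if l = 1 then w else 0, ?_⟩
        change y 1 = _
        rw [Fin.sum_univ_succ, Fin.sum_univ_succ]
        simp [Fin.succ_succ_ne_one]
        linear_combination (-y 1) * hwM + (y 1 - algebraMap k M w * y 0) * h2M
      · refine ⟨fun l => if l = i.succ.succ then 1 else 0, ?_⟩
        simp
  have hP' : Pr k (Fin.cons ((algebraMap k M w * x 0 + algebraMap k M w ^ 2 * x 1) +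
      (algebraMap k M w * y 0 + algebraMap k M w ^ 2 * y 1))
      (Fin.cons ((x 0 + x 1) + (y 0 + y 1)) (fun i : Fin n => x i.succ.succ + y i.succ.succ)) :
      Fin (n + 1 + 1) → M) := by
    refine pr_of_adjoin _ _ ?_ hP
    rw [c6b_adjoin h2 w hw (fun i => x i + y i)]
    congr 3
    · ring
    · congr 1
      ring
  have hT := transvection hS h2 ⟨w, hw⟩ _ _ _ _ (fun i : Fin n => x i.succ.succ)
    (fun i : Fin n => y i.succ.succ) hx' hy' (by rw [hrat]; exact hD) hP'
  refine pr_of_adjoin _ _ ?_ hT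
  rw [c6b_adjoin h2 w hw (fun i => x (Equiv.swap 0 1 i) + y i)]
  have s0 : x (Equiv.swap 0 1 0) = x 1 := by rw [Equiv.swap_apply_left]
  have s1 : x (Equiv.swap 0 1 1) = x 0 := by rw [Equiv.swap_apply_right]
  have s2 : ∀ i : Fin n, x (Equiv.swap 0 1 i.succ.succ) = x i.succ.succ := by
    intro i
    rw [Equiv.swap_apply_of_ne_of_ne (Fin.succ_ne_zero _)]
    intro h
    have h5 := congrArg Fin.val h
    simp at h5
  simp only [s0, s1, s2]
  congr 3
  · linear_combination (-(x 1 + x 0)) * hwM +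
      (algebraMap k M w * x 1 + algebraMap k M w ^ 2 * x 0) * h2M
  · congr 1
    ring

end MP2619.R
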