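import Pool.Agent.Lib.MP_2619d0_ag.R.D1
import Pool.Agent.Lib.MP_2619d0_ag.K.K2

/-!
Row D2: separability at the generic parameter value.
-/

set_option autoImplicit false

namespace MP2619.R

universe v u

open IntermediateField

variable {k : Type v} {M : Type u} {k' : Type v} {M' : Type u} [Field k] [Field M] [Field k']
  [Field M'] [Algebra k M] [Algebra k k'] [Algebra k M'] [Algebra M M'] [Algebra k' M']
  [IsScalarTower k M M'] [IsScalarTower k k' M'] {t : k'}

/-- the zeros of a derivation on a field -/
def D2ker {F : Type*} {V : Type*} [Field F] [AddCommGroup V] [Module F V] (δ : F →+ V)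
    (leib : ∀ a b, δ (a * b) = a • δ b + b • δ a) : Subfield F :=
  have h1 : δ 1 = 0 := by
    have := leib 1 1
    rw [one_mul, one_smul] at this
    exact left_eq_add.1 this
  { carrier := {z | δ z = 0}
    mul_mem' := fun {a b} ha hb => by
      change δ (a * b) = 0
      rw [leib, show δ a = 0 from ha, show δ b = 0 from hb, smul_zero, smul_zero, add_zero]
    one_mem' := h1
    add_mem' := fun {a b} ha hb => by
      change δ (a + b) = 0
      rw [map_add, show δ a = 0 from ha, show δ b = 0 from hb, add_zero]
    zero_mem' := map_zero δ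
    neg_mem' := fun {a} ha => by
      change δ (-a) = 0
      rw [map_neg, show δ a = 0 from ha, neg_zero]
    inv_mem' := fun a ha => by
      change δ a⁻¹ = 0
      by_cases h0 : a = 0
      · rw [h0, inv_zero, map_zero]
      · have h2 := leib a a⁻¹
        rw [mul_inv_cancel₀ h0, h1, show δ a = 0 from ha, smul_zero, add_zero] at h2
        exact (smul_eq_zero.1 h2.symm).resolve_left h0 }

theorem mem_D2ker {F : Type*} {V : Type*} [Field F] [AddCommGroup V] [Module F V] (δ : F →+ V)
    (leib : ∀ a b, δ (a * b) = a • δ b + b • δ a) (z : F) : z ∈ D2ker δ leib ↔ δ z = 0 :=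
  Iff.rfl

/-- a derivation which vanishes on the bottom field of a separable extension is zero -/
theorem D2_sepzero {K : Type*} {F : Type*} {V : Type*} [Field K] [Field F] [Algebra K F]
    [AddCommGroup V] [Module F V] (hs : Algebra.IsSeparable K F) (δ : F →+ V)
    (leib : ∀ a b, δ (a * b) = a • δ b + b • δ a) (h : ∀ z : K, δ (algebraMap K F z) = 0) (z : F) :
    δ z = 0 := by
  let _ : Module K V := Module.compHom V (algebraMap K F)
  have _ : IsScalarTower K F V := ⟨fun a b v => by
    rw [Algebra.smul_def, mul_smul]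
    rfl⟩
  let f : F →ₗ[K] V :=
    { toFun := δ
      map_add' := fun a b => map_add δ a b
      map_smul' := fun a b => by
        rw [Algebra.smul_def, leib, h, smul_zero, add_zero]
        rfl }
  let d : Derivation K F V := Derivation.mk' f leib
  have _ := Algebra.FormallyUnramified.of_isSeparable K F
  have h1 := d.liftKaehlerDifferential_comp_D z
  rw [Subsingleton.elim (KaehlerDifferential.D K F z) 0, map_zero] at h1
  exact h1.symm

/-- a square system `v_i = c ∑ J_ij v_j` with `det (1 - c J) ≠ 0` has only the zero solution -/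
theorem D2_det {F : Type*} {V : Type*} [Field F] [AddCommGroup V] [Module F V] {n : ℕ}
    (A : Matrix (Fin n) (Fin n) F) (hA : A.det ≠ 0) (v : Fin n → V)
    (h : ∀ i, ∑ j, A i j • v j = 0) (i : Fin n) : v i = 0 := by
  have h1 : A⁻¹ * A = 1 := Matrix.nonsing_inv_mul A (isUnit_iff_ne_zero.2 hA)
  have h2 : ∑ l, A⁻¹ i l • ∑ j, A l j • v j = v i := by
    simp_rw [Finset.smul_sum, smul_smul]
    rw [Finset.sum_comm]
    simp_rw [← Finset.sum_smul, ← Matrix.mul_apply, h1]
    simp [Matrix.one_apply]
  rw [← h2]
  exact Finset.sum_eq_zero fun l _ => by rw [h l, smul_zero]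

theorem D2_key {V : Type*} [AddCommGroup V] [Module M' V] (h : RF k M k' M' t) (h2 : (2 : k) = 0)
    {n : ℕ} (x y : Fin n → M) (hP : Pr k (fun i => x i + y i)) (δ : M' →+ V)
    (leib : ∀ a b, δ (a * b) = a • δ b + b • δ a) (hk : ∀ c : k, δ (algebraMap k M' c) = 0)
    (hT : δ (algebraMap k' M' t) = 0)
    (hxy : ∀ i, δ (algebraMap k' M' t * algebraMap M M' (x i) + algebraMap M M' (y i)) = 0)
    (z : M') : δ z = 0 := by
  set T : M' := algebraMap k' M' t with hTdef
  let _ : Module M V := Module.compHom V (algebraMap M M')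
  have _ : IsScalarTower M M' V := ⟨fun a b v => by
    rw [Algebra.smul_def, mul_smul]
    rfl⟩
  have hsm : ∀ (a : M) (v : V), a • v = algebraMap M M' a • v := fun a v => rfl
  let U : Fin n → V := fun i => δ (algebraMap M M' (x i + y i))
  let N : Submodule M V := Submodule.span M (Set.range U)
  have hu : ∀ i, U i = (1 - T) • δ (algebraMap M M' (x i)) := by
    intro i
    have h3 := hxy i
    rw [map_add, leib, hT, smul_zero, add_zero] at h3
    change δ (algebraMap M M' (x i + y i)) = _
    rw [map_add, map_add, sub_smul, one_smul, eq_neg_of_add_eq_zero_right h3, sub_eq_add_neg]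
  -- the derivation on `M`
  let d : M →+ V ⧸ N :=
    (N.mkQ.toAddMonoidHom).comp (δ.comp (algebraMap M M').toAddMonoidHom)
  have hd : ∀ z : M, d z = N.mkQ (δ (algebraMap M M' z)) := fun z => rfl
  have dleib : ∀ a b, d (a * b) = a • d b + b • d a := by
    intro a b
    rw [hd, hd, hd, map_mul, leib, map_add, ← hsm, ← hsm, map_smul, map_smul]
  have h2K : ((2 : ℕ) : adjoin k (Set.range fun i => x i + y i)) = 0 := by
    have h3 : algebraMap k (adjoin k (Set.range fun i => x i + y i)) 2 = 0 := by rw [h2, map_zero]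
    rw [map_ofNat] at h3
    exact_mod_cast h3
  have hsep : Algebra.IsSeparable (adjoin k (Set.range fun i => x i + y i)) M :=
    MP2619.K.K2_sep (by exact_mod_cast h2K) hP.2
  have hdz : ∀ z : M, d z = 0 := by
    refine D2_sepzero hsep d dleib ?_
    intro w
    have hle : adjoin k (Set.range fun i => x i + y i) ≤
        (D2ker d dleib).toIntermediateField (fun c => by
          rw [mem_D2ker, hd, ← IsScalarTower.algebraMap_apply k M M', hk, map_zero]) := by
      rw [adjoin_le_iff]
      rintro _ ⟨i, rfl⟩
      change d (x i + y i) = 0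
      rw [hd]
      exact (Submodule.Quotient.mk_eq_zero N).2 (Submodule.subset_span ⟨i, rfl⟩)
    exact hle w.2
  have hmem : ∀ z : M, δ (algebraMap M M' z) ∈ N := by
    intro z
    have h3 := hdz z
    rw [hd] at h3
    exact (Submodule.Quotient.mk_eq_zero N).1 h3
  have hJ : ∀ i, ∃ c : Fin n → M, ∑ j, c j • U j = δ (algebraMap M M' (x i)) := by
    intro i
    exact (Submodule.mem_span_range_iff_exists_fun M).1 (hmem (x i))
  choose J hJ using hJ
  obtain ⟨P, hP'⟩ : ∃ P : Matrix (Fin n) (Fin n) (Polynomial M), ∀ i j, P i j =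
      (1 : Matrix (Fin n) (Fin n) (Polynomial M)) i j - (1 - Polynomial.X) * Polynomial.C (J i j) :=
    ⟨Matrix.of fun i j => (1 : Matrix (Fin n) (Fin n) (Polynomial M)) i j -
      (1 - Polynomial.X) * Polynomial.C (J i j), fun _ _ => rfl⟩
  have hPdet : P.det ≠ 0 := by
    intro h0
    have h3 : (Polynomial.evalRingHom (1 : M)) P.det = 0 := by rw [h0, map_zero]
    rw [RingHom.map_det] at h3
    have h4 : (Polynomial.evalRingHom (1 : M)).mapMatrix P = 1 := by
      ext i j
      rw [RingHom.mapMatrix_apply, Matrix.map_apply, hP', Matrix.one_apply, Matrix.one_apply]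
      split_ifs <;> simp
    rw [h4, Matrix.det_one] at h3
    exact one_ne_zero h3
  let A : Matrix (Fin n) (Fin n) M' := (Polynomial.aeval T : Polynomial M →ₐ[M] M').toRingHom.mapMatrix P
  have hA : A.det ≠ 0 := by
    intro h0
    have h3 : Polynomial.aeval T P.det = 0 := by
      have h4 := RingHom.map_det (Polynomial.aeval T : Polynomial M →ₐ[M] M').toRingHom P
      exact h4.trans h0
    exact hPdet ((transcendental_iff.1 h.trans) _ h3)
  have hAij : ∀ i j, A i j = (1 : Matrix (Fin n) (Fin n) M') i j -
      (1 - T) * algebraMap M M' (J i j) := by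
    intro i j
    change (Polynomial.aeval T : Polynomial M →ₐ[M] M') (P i j) = _
    rw [hP', map_sub, map_mul, map_sub, map_one, Polynomial.aeval_X, Polynomial.aeval_C,
      Matrix.one_apply, Matrix.one_apply]
    split_ifs <;> simp
  have hU0 : ∀ i, U i = 0 := by
    refine D2_det A hA U ?_
    intro i
    simp_rw [hAij, sub_smul, mul_smul, ← hsm]
    rw [Finset.sum_sub_distrib, ← Finset.smul_sum, hJ, ← hu]
    simp [Matrix.one_apply]
  have hN : N = ⊥ := by
    rw [Submodule.span_eq_bot]
    rintro _ ⟨i, rfl⟩
    exact hU0 i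
  have hM : ∀ z : M, δ (algebraMap M M' z) = 0 := by
    intro z
    have h3 := hmem z
    rw [hN, Submodule.mem_bot] at h3
    exact h3
  have hle : adjoin M ({T} : Set M') ≤ (D2ker δ leib).toIntermediateField (fun c => hM c) := by
    rw [adjoin_le_iff]
    rintro _ rfl
    exact hT
  rw [h.genM] at hle
  exact hle (mem_top (x := z))

/-- Let `δ` be a derivation of `M'` over `L1 = k(t x + y, t)` with values in an `M'`-vector space
`V` (the universal one, `V = Ω[M'⁄L1]`). Put `u = x + y`.
* `W = {z ∈ M | δ z ∈ span_M (δ u_1, …, δ u_n)}` is a subfield of `M` that contains `k` and the `u_i`,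
  and is closed under separable algebraic elements (apply `δ` to the minimal polynomial `P(z) = 0`:
  `P'(z) δ z + ∑ δ(coefficients) z^m = 0`); `M / k(u)` is separable (odd degree in characteristic two:
  `K2_sep` in `K/K2.lean`), so `W = M`: `δ x_i = ∑ J_ij δ u_j` with `J_ij ∈ M`.
* `δ t = 0` and `δ (t x_i + y_i) = 0`: `δ u_i = δ x_i + δ y_i = (1 - t) δ x_i = (1 - t) ∑ J_ij δ u_j`. The
  determinant of `1 - (1 - t) J`, a polynomial in `t` over `M` with value `1` at `t = 1`, is not zero
  (`t` is transcendental over `M`), so `δ u = 0`, hence `δ = 0` on `M` and on `M' = M(t)`.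
So `Ω[M'⁄L1] = 0` and the finite extension `M' / L1` is separable
(`Algebra.FormallyUnramified.iff_isSeparable`, `Algebra.EssFiniteType`). -/
theorem sc_sep (h : RF k M k' M' t) (h2 : (2 : k) = 0) {n : ℕ} (x y : Fin n → M)
    (hP : Pr k (fun i => x i + y i))
    (hfin : Module.finrank (adjoin (adjoin k (Set.range fun i => algebraMap k' M' t *
      algebraMap M M' (x i) + algebraMap M M' (y i))) ({algebraMap k' M' t} : Set M')) M' ≠ 0) :
    Algebra.IsSeparable (adjoin (adjoin k (Set.range fun i => algebraMap k' M' t *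
      algebraMap M M' (x i) + algebraMap M M' (y i))) ({algebraMap k' M' t} : Set M')) M' := by
  have _ : Module.Finite (adjoin (adjoin k (Set.range fun i => algebraMap k' M' t *
      algebraMap M M' (x i) + algebraMap M M' (y i))) ({algebraMap k' M' t} : Set M')) M' :=
    Module.finite_of_finrank_pos (Nat.pos_of_ne_zero hfin)
  set L0 := adjoin k (Set.range fun i => algebraMap k' M' t *
      algebraMap M M' (x i) + algebraMap M M' (y i)) with hL0
  set L1 := adjoin L0 ({algebraMap k' M' t} : Set M') with hL1
  let δ : M' →+ Ω[M'⁄L1] := (KaehlerDifferential.D L1 M').toLinearMap.toAddMonoidHom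
  have hδ : ∀ z, δ z = KaehlerDifferential.D L1 M' z := fun z => rfl
  have leib : ∀ a b, δ (a * b) = a • δ b + b • δ a := fun a b => (KaehlerDifferential.D L1 M').leibniz a b
  have hL : ∀ z : M', z ∈ L1 → δ z = 0 := by
    intro z hz
    exact (KaehlerDifferential.D L1 M').map_algebraMap (⟨z, hz⟩ : L1)
  have hL0' : ∀ z : M', z ∈ L0 → z ∈ L1 := by
    intro z hz
    exact L1.algebraMap_mem (⟨z, hz⟩ : L0)
  have hall : ∀ z, δ z = 0 := by
    refine D2_key h h2 x y hP δ leib ?_ ?_ ?_
    · intro c
      exact hL _ (hL0' _ (L0.algebraMap_mem c))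
    · exact hL _ (subset_adjoin _ _ rfl)
    · intro i
      exact hL _ (hL0' _ (subset_adjoin _ _ ⟨i, rfl⟩))
  have hsub : Subsingleton (Ω[M'⁄L1]) := by
    have h3 := KaehlerDifferential.span_range_derivation L1 M'
    have h4 : Submodule.span M' (Set.range (KaehlerDifferential.D L1 M')) = ⊥ := by
      rw [Submodule.span_eq_bot]
      rintro _ ⟨z, rfl⟩
      exact hall z
    rw [h4] at h3
    exact Submodule.subsingleton_iff M' |>.1 (subsingleton_of_bot_eq_top h3)
  have _ : Algebra.FormallyUnramified L1 M' := ⟨hsub⟩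
  exact (Algebra.FormallyUnramified.iff_isSeparable L1 M').1 inferInstance

end MP2619.R
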