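import Pool.Agent.Lib.MP_2619d0_ag.R.D2
import Pool.Agent.Lib.MP_2619d0_ag.R.D3
import Pool.Agent.Lib.MP_2619d0_ag.R.B1

/-!
Row D4: scaling one summand by a new variable preserves odd data.
-/

set_option autoImplicit false

namespace MP2619.R

universe v u

open IntermediateField

variable {k : Type v} {M : Type u} {k' : Type v} {M' : Type u} [Field k] [Field M] [Field k']
  [Field M'] [Algebra k M] [Algebra k k'] [Algebra k M'] [Algebra M M'] [Algebra k' M']
  [IsScalarTower k M M'] [IsScalarTower k k' M'] {t : k'}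

/-- the substitution `X_i ↦ x_i T + y_i` -/
noncomputable def sc_theta {k : Type v} {M : Type u} [Field k] [Field M] [Algebra k M] {n : ℕ}
    (x y : Fin n → M) : Polynomial (MvPolynomial (Fin n) k) →+* Polynomial M :=
  Polynomial.eval₂RingHom (MvPolynomial.eval₂Hom (Polynomial.C.comp (algebraMap k M))
    (fun i => Polynomial.C (x i) * Polynomial.X + Polynomial.C (y i))) Polynomial.X

theorem sc_theta_CC {k : Type v} {M : Type u} [Field k] [Field M] [Algebra k M] {n : ℕ}
    (x y : Fin n → M) (a : k) : sc_theta x y (Polynomial.C (MvPolynomial.C a)) =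
      Polynomial.C (algebraMap k M a) := by
  rw [sc_theta, Polynomial.coe_eval₂RingHom, Polynomial.eval₂_C, MvPolynomial.coe_eval₂Hom,
    MvPolynomial.eval₂_C]
  rfl

theorem sc_theta_CX {k : Type v} {M : Type u} [Field k] [Field M] [Algebra k M] {n : ℕ}
    (x y : Fin n → M) (i : Fin n) :
    sc_theta (k := k) x y (Polynomial.C (MvPolynomial.X i)) =
      Polynomial.C (x i) * Polynomial.X + Polynomial.C (y i) := by
  rw [sc_theta, Polynomial.coe_eval₂RingHom, Polynomial.eval₂_C, MvPolynomial.coe_eval₂Hom,
    MvPolynomial.eval₂_X]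

theorem sc_theta_X {k : Type v} {M : Type u} [Field k] [Field M] [Algebra k M] {n : ℕ}
    (x y : Fin n → M) : sc_theta (k := k) x y Polynomial.X = Polynomial.X := by
  rw [sc_theta, Polynomial.coe_eval₂RingHom, Polynomial.eval₂_X]

theorem sc_theta_inj {k : Type v} {M : Type u} [Field k] [Field M] [Algebra k M] {n : ℕ}
    (x y : Fin n → M) (hu : AlgebraicIndependent k (fun i => x i + y i)) :
    Function.Injective (sc_theta (k := k) x y) := by
  rw [injective_iff_map_eq_zero]
  intro Q hQ
  by_contra hQ0
  obtain ⟨q, hq, hdvd⟩ := Polynomial.exists_eq_pow_rootMultiplicity_mul_and_not_dvd Q hQ0 1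
  have h1 : sc_theta (k := k) x y (Polynomial.X - Polynomial.C 1) ≠ 0 := by
    rw [map_sub, sc_theta_X, Polynomial.C_1, map_one, ← Polynomial.C_1]
    exact Polynomial.X_sub_C_ne_zero 1
  rw [hq, map_mul, map_pow] at hQ
  have h2 := (mul_eq_zero.1 hQ).resolve_left (pow_ne_zero _ h1)
  have h3 : (Polynomial.evalRingHom (1 : M)).comp (sc_theta (k := k) x y) =
      (MvPolynomial.aeval (fun i => x i + y i) : MvPolynomial (Fin n) k →ₐ[k] M).toRingHom.comp
        (Polynomial.evalRingHom 1) := by
    apply Polynomial.ringHom_ext'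
    · apply MvPolynomial.ringHom_ext
      · intro a
        rw [RingHom.comp_apply, RingHom.comp_apply, RingHom.comp_apply, RingHom.comp_apply,
          sc_theta_CC, Polynomial.coe_evalRingHom, Polynomial.coe_evalRingHom, Polynomial.eval_C,
          Polynomial.eval_C]
        exact (MvPolynomial.aeval_C _ _).symm
      · intro i
        rw [RingHom.comp_apply, RingHom.comp_apply, RingHom.comp_apply, RingHom.comp_apply,
          sc_theta_CX, Polynomial.coe_evalRingHom, Polynomial.coe_evalRingHom, Polynomial.eval_C,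
          Polynomial.eval_add, Polynomial.eval_mul, Polynomial.eval_C, Polynomial.eval_C,
          Polynomial.eval_X, mul_one]
        have h5 : (MvPolynomial.aeval (fun i => x i + y i) :
          MvPolynomial (Fin n) k →ₐ[k] M).toRingHom (MvPolynomial.X i) = x i + y i :=
          MvPolynomial.aeval_X _ _
        rw [h5]
    · rw [RingHom.comp_apply, RingHom.comp_apply, sc_theta_X, Polynomial.coe_evalRingHom,
        Polynomial.coe_evalRingHom, Polynomial.eval_X, Polynomial.eval_X, map_one]
  have h4 := RingHom.congr_fun h3 q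
  rw [RingHom.comp_apply, h2, map_zero, RingHom.comp_apply] at h4
  have h5 : Polynomial.evalRingHom 1 q = 0 := hu (h4.symm.trans (map_zero _).symm)
  apply hdvd
  rw [Polynomial.dvd_iff_isRoot]
  exact h5

/-- `u = x + y` algebraically independent over `k`. Then `(t, t x + y)` is algebraically independent over
`k`: let `P(t, t x + y) = 0` with `P ∈ k[T][X_1, …, X_n]`, `P ≠ 0`; divide by a power of `T - 1` (also
allowed in the relation) so that `P(1, X) ≠ 0`; the polynomial `P(T, T x + y) ∈ M[T]` vanishes at the
transcendental element `t`, so it is zero; `T = 1`: `P(1, u) = 0`, contradiction. -/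
theorem sc_ind (h : RF k M k' M' t) {n : ℕ} (x y : Fin n → M)
    (hu : AlgebraicIndependent k (fun i => x i + y i)) :
    AlgebraicIndependent k (Fin.cons (algebraMap k' M' t) (fun i => algebraMap k' M' t *
      algebraMap M M' (x i) + algebraMap M M' (y i)) : Fin (n + 1) → M') := by
  have h1 := transcendental_iff_injective.1 h.trans
  have h2 : (MvPolynomial.aeval (Fin.cons (algebraMap k' M' t) (fun i => algebraMap k' M' t *
      algebraMap M M' (x i) + algebraMap M M' (y i)) : Fin (n + 1) → M') :
      MvPolynomial (Fin (n + 1)) k →ₐ[k] M').toRingHom =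
      ((Polynomial.aeval (algebraMap k' M' t) : Polynomial M →ₐ[M] M').toRingHom.comp
        (sc_theta (k := k) x y)).comp ((MvPolynomial.finSuccEquiv k n :
          MvPolynomial (Fin (n + 1)) k ≃ₐ[k] _) : MvPolynomial (Fin (n + 1)) k →+* _) := by
    apply MvPolynomial.ringHom_ext
    · intro a
      have h3 : MvPolynomial.finSuccEquiv k n (MvPolynomial.C a) =
          Polynomial.C (MvPolynomial.C a) := by
        simp [MvPolynomial.finSuccEquiv_apply]
      rw [RingHom.comp_apply, RingHom.comp_apply]
      change MvPolynomial.aeval _ (MvPolynomial.C a) = Polynomial.aeval _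
        (sc_theta x y (MvPolynomial.finSuccEquiv k n (MvPolynomial.C a)))
      rw [h3, sc_theta_CC, MvPolynomial.aeval_C, Polynomial.aeval_C,
        ← IsScalarTower.algebraMap_apply]
    · intro i
      rw [RingHom.comp_apply, RingHom.comp_apply]
      change MvPolynomial.aeval _ (MvPolynomial.X i) = Polynomial.aeval _
        (sc_theta x y (MvPolynomial.finSuccEquiv k n (MvPolynomial.X i)))
      rw [MvPolynomial.aeval_X]
      refine Fin.cases ?_ (fun j => ?_) i
      · rw [MvPolynomial.finSuccEquiv_X_zero, sc_theta_X, Polynomial.aeval_X, Fin.cons_zero]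
      · rw [MvPolynomial.finSuccEquiv_X_succ, sc_theta_CX, Fin.cons_succ, map_add, map_mul,
          Polynomial.aeval_X, Polynomial.aeval_C, Polynomial.aeval_C]
        ring
  intro P Q hPQ
  apply (MvPolynomial.finSuccEquiv k n).injective
  apply sc_theta_inj x y hu
  apply h1
  have h3 := RingHom.congr_fun h2 P
  have h4 := RingHom.congr_fun h2 Q
  rw [RingHom.comp_apply, RingHom.comp_apply] at h3 h4
  refine h3.symm.trans (Eq.trans ?_ h4)
  exact hPQ

/-- a unit valuation from the residue -/
private theorem D4b_mem_inv {M : Type*} [Field M] (O : ValuationSubring M) {a : M} (ha : a ∈ O)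
    (hr : IsLocalRing.residue O ⟨a, ha⟩ ≠ 0) : a⁻¹ ∈ O := by
  by_contra hcon
  apply hr
  rw [IsLocalRing.residue_eq_zero_iff]
  have h1 : O.valuation a < 1 := by
    rcases lt_or_ge (O.valuation a) 1 with h | h
    · exact h
    · exfalso
      apply hcon
      rw [← O.valuation_le_one_iff, map_inv₀]
      exact inv_le_one_of_one_le₀ h
  exact (ValuationSubring.valuation_lt_one_iff O ⟨a, ha⟩).mpr h1

/-- An odd place `O` of `M'` over `K1 = k(t x + y)` with `val (t - 1) < 1` contains `M`. Let
`v_i = t x_i + y_i ∈ K1`. `An v` by `an_adjoin` (`sc_ind`, `ind_cons`). `F(t x) = F(y) = 0`; by `cube_add` the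
expression of `ord_psi` (for `v`, `y`) is zero, so all `y_i ∈ O`; `t x_i = v_i - y_i ∈ O`, `t` is a unit
of `O`, so `x_i ∈ O`, and the residue of `u_i = x_i + y_i` is the residue of `v_i` (`v_i - u_i =
(t - 1) x_i`). By `pass` the residues of the `v_i` are algebraically independent over `k`: nonzero
polynomials in the `u_i` are units of `O`, so `k(u) ⊂ O`; `M` is algebraic over `k(u)`, so integral, hence
`M ⊂ O` (`LT2_integral` in `T/LT2.lean`, valuation rings are integrally closed). -/
theorem sc_place (h : RF k M k' M' t) (h2 : (2 : k) = 0) {n : ℕ} (x y : Fin n → M)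
    (hP : Pr k (fun i => x i + y i)) (hx : ∑ i, x i ^ 3 = 0) (hy : ∑ i, y i ^ 3 = 0)
    (O : ValuationSubring M')
    (hO : OP (adjoin k (Set.range fun i => algebraMap k' M' t *
      algebraMap M M' (x i) + algebraMap M M' (y i))) O)
    (ht : O.valuation (algebraMap k' M' t - 1) < 1) : Cst M O := by
  classical
  set v : Fin n → M' := fun i => algebraMap k' M' t * algebraMap M M' (x i) +
    algebraMap M M' (y i) with hv
  have hvind : AlgebraicIndependent k v := ((ind_cons _ _).mp (sc_ind h x y hP.1)).1
  have h2K : (2 : adjoin k (Set.range v)) = 0 := by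
    have h8 := congrArg (algebraMap k (adjoin k (Set.range v))) h2
    rwa [map_zero, map_ofNat] at h8
  have h2M : (2 : M') = 0 := by
    have h8 := congrArg (algebraMap k M') h2
    rwa [map_zero, map_ofNat] at h8
  let w : Fin n → adjoin k (Set.range v) := fun i => ⟨v i, subset_adjoin k _ ⟨i, rfl⟩⟩
  have hw : An w := an_adjoin v hvind w (fun i => rfl)
  -- all `y i` are in `O`
  have hyO : ∀ i, algebraMap M M' (y i) ∈ O := by
    by_contra hcon
    push Not at hcon
    obtain ⟨N, -, -, -, hne, -⟩ := ord_psi hO h2K w hw (fun i => algebraMap M M' (y i)) hcon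
    apply hne
    have h3 := cube_add h2M (fun i => algebraMap k' M' t * algebraMap M M' (x i))
      (fun i => algebraMap M M' (y i)) v (fun i => rfl)
    have h4 : ∑ i, (algebraMap k' M' t * algebraMap M M' (x i)) ^ 3 = 0 := by
      have : ∑ i, (algebraMap k' M' t * algebraMap M M' (x i)) ^ 3 =
          algebraMap k' M' t ^ 3 * algebraMap M M' (∑ i, x i ^ 3) := by
        rw [map_sum, Finset.mul_sum]
        refine Finset.sum_congr rfl fun i _ => ?_
        rw [map_pow, mul_pow]
      rw [this, hx, map_zero, mul_zero]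
    have h5 : ∑ i, (algebraMap M M' (y i)) ^ 3 = 0 := by
      have : ∑ i, (algebraMap M M' (y i)) ^ 3 = algebraMap M M' (∑ i, y i ^ 3) := by
        rw [map_sum]
        refine Finset.sum_congr rfl fun i _ => ?_
        rw [map_pow]
      rw [this, hy, map_zero]
    rw [h4, h5, add_zero] at h3
    exact h3.symm
  -- `t` is a unit of `O`
  have ht1 : algebraMap k' M' t - 1 ∈ O := by
    rw [← O.valuation_le_one_iff]
    exact ht.le
  have htO : algebraMap k' M' t ∈ O := by
    have := O.add_mem _ _ ht1 O.one_mem
    rwa [sub_add_cancel] at this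
  have htr : IsLocalRing.residue O ⟨algebraMap k' M' t, htO⟩ = 1 := by
    rw [← sub_eq_zero, ← map_one (IsLocalRing.residue O), ← map_sub,
      IsLocalRing.residue_eq_zero_iff]
    exact (ValuationSubring.valuation_lt_one_iff O _).mpr ht
  have htinv : (algebraMap k' M' t)⁻¹ ∈ O := D4b_mem_inv O htO (by rw [htr]; exact one_ne_zero)
  have htne : algebraMap k' M' t ≠ 0 := by
    intro h0
    apply one_ne_zero (α := IsLocalRing.ResidueField O)
    rw [← htr, IsLocalRing.residue_eq_zero_iff]
    refine (ValuationSubring.valuation_lt_one_iff O _).mpr ?_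
    change O.valuation (algebraMap k' M' t) < 1
    rw [h0, map_zero]
    exact zero_lt_one
  have hvO : ∀ i, v i ∈ O := fun i => hO.cst (w i)
  have hxO : ∀ i, algebraMap M M' (x i) ∈ O := by
    intro i
    have h6 : algebraMap M M' (x i) = (algebraMap k' M' t)⁻¹ * (v i - algebraMap M M' (y i)) := by
      rw [hv]
      dsimp only
      rw [add_sub_cancel_right, inv_mul_cancel_left₀ htne]
    rw [h6]
    exact O.mul_mem _ _ htinv (O.sub_mem (hvO i) (hyO i))
  have huO : ∀ i, algebraMap M M' (x i + y i) ∈ O := by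
    intro i
    rw [map_add]
    exact O.add_mem _ _ (hxO i) (hyO i)
  have hures : ∀ i, IsLocalRing.residue O ⟨algebraMap M M' (x i + y i), huO i⟩ =
      IsLocalRing.residue O ⟨v i, hvO i⟩ := by
    intro i
    rw [← sub_eq_zero, ← map_sub, IsLocalRing.residue_eq_zero_iff]
    refine (ValuationSubring.valuation_lt_one_iff O _).mpr ?_
    have h7 : ((⟨algebraMap M M' (x i + y i), huO i⟩ - ⟨v i, hvO i⟩ : O) : M') =
        -((algebraMap k' M' t - 1) * algebraMap M M' (x i)) := by
      change algebraMap M M' (x i + y i) - v i = _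
      rw [hv, map_add]
      dsimp only
      ring
    rw [h7, Valuation.map_neg, map_mul]
    exact mul_lt_one_of_lt_of_le ht ((O.valuation_le_one_iff _).mpr (hxO i))
  -- the residues of the `v i` are algebraically independent
  have hpass := pass v hvind O hO (fun i => ⟨v i, hvO i⟩) (fun i => rfl)
  have hkO : Cst k O := cst_of_tower hO.cst
  let _ : Algebra k (IsLocalRing.ResidueField O) := (rc hkO).toAlgebra
  have hind : AlgebraicIndependent k (fun i => IsLocalRing.residue O ⟨v i, hvO i⟩) := hpass.1
  let φ : k →+* O := (algebraMap k M').codRestrict O hkO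
  -- values of polynomials
  have hev : ∀ P : MvPolynomial (Fin n) k, ∃ hm : algebraMap M M'
      (MvPolynomial.aeval (fun i => x i + y i) P) ∈ O,
      IsLocalRing.residue O ⟨_, hm⟩ =
        MvPolynomial.aeval (fun i => IsLocalRing.residue O ⟨v i, hvO i⟩) P := by
    intro P
    have e1 : algebraMap M M' (MvPolynomial.aeval (fun i => x i + y i) P) =
        ((MvPolynomial.eval₂Hom φ (fun i => (⟨algebraMap M M' (x i + y i), huO i⟩ : O)) P : O) :
          M') := by
      have e2 : (algebraMap M M').comp ((MvPolynomial.aeval (fun i => x i + y i) :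
          MvPolynomial (Fin n) k →ₐ[k] M) : MvPolynomial (Fin n) k →+* M) =
          (algebraMap O M').comp (MvPolynomial.eval₂Hom φ
            (fun i => (⟨algebraMap M M' (x i + y i), huO i⟩ : O))) := by
        apply MvPolynomial.ringHom_ext
        · intro r
          simp only [RingHom.comp_apply, MvPolynomial.coe_eval₂Hom, MvPolynomial.eval₂_C,
            RingHom.coe_coe, MvPolynomial.aeval_C]
          rw [← IsScalarTower.algebraMap_apply k M M']
          rfl
        · intro i
          simp only [RingHom.comp_apply, MvPolynomial.coe_eval₂Hom, MvPolynomial.eval₂_X,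
            RingHom.coe_coe, MvPolynomial.aeval_X]
          rfl
      exact RingHom.congr_fun e2 P
    have hm : algebraMap M M' (MvPolynomial.aeval (fun i => x i + y i) P) ∈ O := by
      rw [e1]
      exact SetLike.coe_mem _
    refine ⟨hm, ?_⟩
    have e3 : (⟨_, hm⟩ : O) = MvPolynomial.eval₂Hom φ
        (fun i => (⟨algebraMap M M' (x i + y i), huO i⟩ : O)) P := Subtype.ext e1
    rw [e3]
    have e4 : (IsLocalRing.residue O).comp (MvPolynomial.eval₂Hom φ
        (fun i => (⟨algebraMap M M' (x i + y i), huO i⟩ : O))) =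
        ((MvPolynomial.aeval (fun i => IsLocalRing.residue O ⟨v i, hvO i⟩) :
          MvPolynomial (Fin n) k →ₐ[k] IsLocalRing.ResidueField O) :
          MvPolynomial (Fin n) k →+* IsLocalRing.ResidueField O) := by
      apply MvPolynomial.ringHom_ext
      · intro r
        simp only [RingHom.comp_apply, MvPolynomial.coe_eval₂Hom, MvPolynomial.eval₂_C,
            RingHom.coe_coe, MvPolynomial.aeval_C]
        rfl
      · intro i
        simp only [RingHom.comp_apply, MvPolynomial.coe_eval₂Hom, MvPolynomial.eval₂_X,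
            RingHom.coe_coe, MvPolynomial.aeval_X]
        exact hures i
    exact RingHom.congr_fun e4 P
  have hku : ∀ a : adjoin k (Set.range fun i => x i + y i), algebraMap M M' (a : M) ∈ O := by
    rintro ⟨a, ha⟩
    rw [mem_adjoin_range_iff] at ha
    obtain ⟨r, s, rfl⟩ := ha
    change algebraMap M M' (_ / _) ∈ O
    rw [map_div₀, div_eq_mul_inv]
    obtain ⟨hm, -⟩ := hev r
    obtain ⟨hm', hm''⟩ := hev s
    refine O.mul_mem _ _ hm ?_
    by_cases hs : s = 0
    · rw [hs, map_zero, map_zero, inv_zero]
      exact O.zero_mem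
    · refine D4b_mem_inv O hm' ?_
      rw [hm'']
      intro h0
      exact hs (hind.eq_zero_of_aeval_eq_zero s h0)
  -- `M` is integral over `k(u)`
  have hfin : FiniteDimensional (adjoin k (Set.range fun i => x i + y i)) M :=
    Module.finite_of_finrank_pos hP.2.pos
  intro m
  refine Pool.Agent.Lib.MP_2619d0_ag.T.LT2_integral
    (A := adjoin k (Set.range fun i => x i + y i)) O (fun a => ?_) _ ?_
  · exact hku a
  · exact (Algebra.IsIntegral.isIntegral (R := adjoin k (Set.range fun i => x i + y i)) m).algebraMap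

/-- The residue degree of the place `O` of `place_at` (`c = 1`) over `K1 = k(t x + y)` is
`[M : k(x + y)]`: the residue field is `M` (`m ↦` residue of `m` is bijective), `K1 ⊂ O` (nonzero
polynomials in the `v_i = t x_i + y_i` have residue the same polynomial in the `u_i = x_i + y_i`, which is
not zero) and the image of `K1` in the residue field corresponds to `k(u) ⊂ M`. -/
theorem sc_rdeg (h : RF k M k' M' t) {n : ℕ} (x y : Fin n → M)
    (hu : AlgebraicIndependent k (fun i => x i + y i)) (O : ValuationSubring M') (hO : Cst M O)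
    (ht : O.valuation (algebraMap k' M' t - 1) < 1)
    (hres : ∀ a : O, ∃ b : M, O.valuation ((a : M') - algebraMap M M' b) < 1) :
    Cst (adjoin k (Set.range fun i => algebraMap k' M' t *
        algebraMap M M' (x i) + algebraMap M M' (y i))) O ∧
      rdeg (adjoin k (Set.range fun i => algebraMap k' M' t *
        algebraMap M M' (x i) + algebraMap M M' (y i))) O =
      Module.finrank (adjoin k (Set.range fun i => x i + y i)) M := by
  classical
  obtain ⟨T, hT⟩ : ∃ T : M', T = algebraMap k' M' t := ⟨_, rfl⟩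
  rw [← hT] at ht ⊢
  -- the generators
  have hTO : T ∈ O := by
    have h1 : T - 1 ∈ O := (O.valuation_le_one_iff _).1 ht.le
    have h2 := O.add_mem _ _ h1 O.one_mem
    rwa [sub_add_cancel] at h2
  have hvO : ∀ i, T * algebraMap M M' (x i) + algebraMap M M' (y i) ∈ O := fun i =>
    O.add_mem _ _ (O.mul_mem _ _ hTO (hO _)) (hO _)
  let v : Fin n → M' := fun i => T * algebraMap M M' (x i) + algebraMap M M' (y i)
  let u : Fin n → M := fun i => x i + y i
  let vO : Fin n → O := fun i => ⟨v i, hvO i⟩
  let jO : M →+* O := (algebraMap M M').codRestrict O hO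
  have hjO : ∀ b, ((jO b : O) : M') = algebraMap M M' b := fun b => rfl
  -- residues
  have res_eq : ∀ a b : O, O.valuation ((a : M') - b) < 1 →
      IsLocalRing.residue O a = IsLocalRing.residue O b := by
    intro a b hab
    rw [← sub_eq_zero, ← map_sub, IsLocalRing.residue_eq_zero_iff]
    exact (O.valuation_lt_one_iff _).2 (by simpa using hab)
  have hrM : ∀ b, rc hO b = IsLocalRing.residue O (jO b) := fun b => rfl
  have hsurj : Function.Surjective (rc hO) := by
    intro z
    obtain ⟨a, rfl⟩ := IsLocalRing.residue_surjective z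
    obtain ⟨b, hb⟩ := hres a
    exact ⟨b, by rw [hrM]; exact (res_eq a (jO b) hb).symm⟩
  have hinj : Function.Injective (rc hO) := (rc hO).injective
  have hresT : IsLocalRing.residue O ⟨T, hTO⟩ = 1 := by
    have := res_eq ⟨T, hTO⟩ 1 (by simpa using ht)
    rwa [map_one] at this
  have hresv : ∀ i, IsLocalRing.residue O (vO i) = rc hO (u i) := by
    intro i
    have e1 : vO i = ⟨T, hTO⟩ * jO (x i) + jO (y i) := Subtype.ext rfl
    rw [e1, map_add, map_mul, hresT, one_mul, ← hrM, ← hrM, ← map_add]
  -- polynomials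
  let f : MvPolynomial (Fin n) k →+* O := MvPolynomial.eval₂Hom (jO.comp (algebraMap k M)) vO
  have f1 : ∀ p, ((f p : O) : M') = MvPolynomial.aeval v p := by
    intro p
    have e1 : (O.subtype.comp f) = (MvPolynomial.aeval v : MvPolynomial (Fin n) k →ₐ[k] M').toRingHom := by
      apply MvPolynomial.ringHom_ext
      · intro c
        have e2 : f (MvPolynomial.C c) = jO (algebraMap k M c) := by
          simp [f]
        have e3 : (MvPolynomial.aeval v : MvPolynomial (Fin n) k →ₐ[k] M').toRingHom
            (MvPolynomial.C c) = algebraMap k M' c := by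
          simp
        rw [e3, RingHom.comp_apply, e2]
        exact (IsScalarTower.algebraMap_apply k M M' c).symm
      · intro i
        simp [f, vO]
    exact RingHom.congr_fun e1 p
  have f2 : ∀ p, IsLocalRing.residue O (f p) = rc hO (MvPolynomial.aeval u p) := by
    intro p
    have e1 : ((IsLocalRing.residue O).comp f) =
        (rc hO).comp (MvPolynomial.aeval u : MvPolynomial (Fin n) k →ₐ[k] M).toRingHom := by
      apply MvPolynomial.ringHom_ext
      · intro c
        have e2 : f (MvPolynomial.C c) = jO (algebraMap k M c) := by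
          simp [f]
        rw [RingHom.comp_apply, e2, RingHom.comp_apply, ← hrM]
        simp
      · intro i
        have e2 : f (MvPolynomial.X i) = vO i := by simp [f]
        rw [RingHom.comp_apply, e2, RingHom.comp_apply, hresv]
        simp
    exact RingHom.congr_fun e1 p
  have main : ∀ p q : MvPolynomial (Fin n) k,
      ∃ hm : (MvPolynomial.aeval v p / MvPolynomial.aeval v q : M') ∈ O,
        IsLocalRing.residue O ⟨_, hm⟩ =
          rc hO (MvPolynomial.aeval u p / MvPolynomial.aeval u q) := by
    intro p q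
    by_cases hq : q = 0
    · subst hq
      refine ⟨by simp [O.zero_mem], ?_⟩
      have e1 : (⟨MvPolynomial.aeval v p / MvPolynomial.aeval v (0 : MvPolynomial (Fin n) k),
          by simp [O.zero_mem]⟩ : O) = 0 := Subtype.ext (by simp)
      rw [e1]
      simp
    · have hq1 : MvPolynomial.aeval u q ≠ 0 := fun h0 =>
        hq (hu (by simpa using h0))
      have hq2 : IsLocalRing.residue O (f q) ≠ 0 := by
        rw [f2]
        exact (map_ne_zero _).2 hq1
      obtain ⟨w, hw⟩ := (IsLocalRing.residue_ne_zero_iff_isUnit _).1 hq2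
      have hw1 : f q * (↑w⁻¹ : O) = 1 := by rw [← hw, Units.mul_inv]
      have hw2 : MvPolynomial.aeval v q * ((↑w⁻¹ : O) : M') = 1 := by
        rw [← f1]
        exact congrArg (fun z : O => (z : M')) hw1
      have hq3 : MvPolynomial.aeval v q ≠ 0 := fun h0 => by
        rw [h0, zero_mul] at hw2
        exact zero_ne_one hw2
      have hw3 : ((↑w⁻¹ : O) : M') = (MvPolynomial.aeval v q)⁻¹ := by
        rw [← mul_right_inj' hq3, hw2, mul_inv_cancel₀ hq3]
      have e1 : (MvPolynomial.aeval v p / MvPolynomial.aeval v q : M') =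
          ((f p * (↑w⁻¹ : O) : O) : M') := by
        rw [div_eq_mul_inv, ← hw3, ← f1]
        rfl
      have hm : (MvPolynomial.aeval v p / MvPolynomial.aeval v q : M') ∈ O := by
        rw [e1]; exact (f p * (↑w⁻¹ : O)).2
      refine ⟨hm, ?_⟩
      have e2 : (⟨_, hm⟩ : O) = f p * (↑w⁻¹ : O) := Subtype.ext e1
      have hw4 : rc hO (MvPolynomial.aeval u q) * IsLocalRing.residue O (↑w⁻¹ : O) = 1 := by
        rw [← f2, ← map_mul, hw1, map_one]
      have hq4 : rc hO (MvPolynomial.aeval u q) ≠ 0 := (map_ne_zero _).2 hq1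
      rw [e2, map_mul, f2, map_div₀, div_eq_mul_inv]
      congr 1
      rw [← mul_right_inj' hq4, hw4, mul_inv_cancel₀ hq4]
  have hC : Cst (adjoin k (Set.range v)) O := by
    intro c
    obtain ⟨p, q, hpq⟩ := (mem_adjoin_range_iff k v _).1 c.2
    obtain ⟨hm, -⟩ := main p q
    have : algebraMap (adjoin k (Set.range v)) M' c = (c : M') := rfl
    rw [this, hpq]
    exact hm
  refine ⟨hC, ?_⟩
  have hrc : ∀ (c : adjoin k (Set.range v)) (p q : MvPolynomial (Fin n) k),
      (c : M') = MvPolynomial.aeval v p / MvPolynomial.aeval v q →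
      rc hC c = rc hO (MvPolynomial.aeval u p / MvPolynomial.aeval u q) := by
    intro c p q hpq
    obtain ⟨hm, hm2⟩ := main p q
    rw [← hm2]
    have : ((algebraMap (adjoin k (Set.range v)) M').codRestrict O hC) c = ⟨_, hm⟩ :=
      Subtype.ext hpq
    show IsLocalRing.residue O _ = _
    rw [this]
  have hmem : ∀ z : adjoin k (Set.range u), rc hO (z : M) ∈ (rc hC).fieldRange := by
    intro z
    obtain ⟨p, q, hpq⟩ := (mem_adjoin_range_iff k u _).1 z.2
    refine ⟨⟨_, (mem_adjoin_range_iff k v _).2 ⟨p, q, rfl⟩⟩, ?_⟩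
    rw [hrc _ p q rfl, ← hpq]
  let i0 : adjoin k (Set.range u) →+* (rc hC).fieldRange :=
    ((rc hO).comp (algebraMap (adjoin k (Set.range u)) M)).codRestrict _ hmem
  have hi0 : Function.Bijective i0 := by
    refine ⟨i0.injective, ?_⟩
    rintro ⟨z, c, rfl⟩
    obtain ⟨p, q, hpq⟩ := (mem_adjoin_range_iff k v _).1 c.2
    refine ⟨⟨_, (mem_adjoin_range_iff k u _).2 ⟨p, q, rfl⟩⟩, ?_⟩
    exact Subtype.ext (hrc c p q hpq).symm
  have key := Algebra.finrank_eq_of_equiv_equiv (RingEquiv.ofBijective i0 hi0)
    (RingEquiv.ofBijective (rc hO) ⟨hinj, hsurj⟩) (RingHom.ext fun z => rfl)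
  have hrd : rdeg (adjoin k (Set.range v)) O =
      Module.finrank (rc hC).fieldRange (IsLocalRing.ResidueField O) := by
    unfold rdeg
    rw [dif_pos hC]
  exact hrd.trans key.symm

/-- Let `K1 = k(t x + y)`, `L1 = K1(t) = K1(t - 1)`. `[M' : L1] ≠ 0`: by `RF.pr`, `RF.pr_iff` `M'` has odd
degree over `k(t, u)`, so `fin_iff_ind` with `sc_ind` (and `finrank_cons`). `M' / L1` is separable
(`sc_sep`). Apply `fi_field` to `t - 1` over `K1` (transcendental: `sc_ind`, `ind_cons`):
`[M' : L1] = ∑_{O ∈ s} (ord O (t - 1)) rdeg K1 O`. Let `O0` be the place of `place_at` (`c = 1`); it is in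
`s` (`sc_rdeg`) and contributes `1 · [M : k(u)]`, an odd number. If `O ∈ s`, `O ≠ O0`, then `rdeg K1 O` is
even: otherwise `OP K1 O`, so `M ⊂ O` by `sc_place` and `O = O0` by the last part of `place_at`. So the
sum is odd. `RF.pr_iff`. -/
theorem sc_pr (h : RF k M k' M' t) (h2 : (2 : k) = 0) {n : ℕ} (x y : Fin n → M)
    (hP : Pr k (fun i => x i + y i)) (hx : ∑ i, x i ^ 3 = 0) (hy : ∑ i, y i ^ 3 = 0) :
    Pr k' (fun i => algebraMap k' M' t * algebraMap M M' (x i) + algebraMap M M' (y i)) := by
  classical
  set τ : M' := algebraMap k' M' t with hτ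
  set v : Fin n → M' := fun i => τ * algebraMap M M' (x i) + algebraMap M M' (y i) with hv
  have hind : AlgebraicIndependent k (Fin.cons τ v : Fin (n + 1) → M') := sc_ind h x y hP.1
  have hI := (ind_cons τ v).mp hind
  have hPu : Pr k' (fun i => algebraMap M M' (x i + y i)) := h.pr _ hP
  have hPu2 := (h.pr_iff _).mp hPu
  have hfin0 := (fin_iff_ind _ _ hPu2.1 hPu2.2.pos.ne').mp hind
  have hfin : Module.finrank (adjoin (adjoin k (Set.range v)) ({τ} : Set M')) M' ≠ 0 := by
    rwa [finrank_cons] at hfin0
  have hsep : Algebra.IsSeparable (adjoin (adjoin k (Set.range v)) ({τ} : Set M')) M' :=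
    sc_sep h h2 x y hP hfin
  rw [h.pr_iff, pr_cons]
  refine ⟨hI.1, hI.2, ?_⟩
  have hadj : adjoin (adjoin k (Set.range v)) ({τ} : Set M')
      = adjoin (adjoin k (Set.range v)) ({τ - 1} : Set M') := by
    apply le_antisymm
    · rw [adjoin_simple_le_iff]
      have h3 : τ - 1 ∈ adjoin (adjoin k (Set.range v)) ({τ - 1} : Set M') :=
        mem_adjoin_simple_self _ _
      have h4 := add_mem h3 (one_mem (adjoin (adjoin k (Set.range v)) ({τ - 1} : Set M')))
      rwa [sub_add_cancel] at h4
    · rw [adjoin_simple_le_iff]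
      exact sub_mem (mem_adjoin_simple_self _ _) (one_mem _)
  have htr : Transcendental (adjoin k (Set.range v)) (τ - 1) := by
    intro hal
    apply hI.2
    have h4 := hal.add (isAlgebraic_one (R := adjoin k (Set.range v)) (A := M'))
    rwa [sub_add_cancel] at h4
  change Odd (Module.finrank (adjoin (adjoin k (Set.range v)) ({τ} : Set M')) M')
  rw [hadj] at hfin hsep ⊢
  obtain ⟨s, hs1, hs2, hs3⟩ := fi_field (τ - 1) htr hfin hsep
  rw [← hs3]
  obtain ⟨O0, hO1, hO2, hO3, hO4, hO5, hO6⟩ := place_at (M := M) τ h.trans h.genM 1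
  rw [map_one] at hO3 hO4 hO6
  obtain ⟨hc, hrd⟩ := sc_rdeg h x y hP.1 O0 hO1 hO3 hO5
  have hmem : O0 ∈ s := (hs1 O0).mpr ⟨hc, hO3⟩
  rw [← Finset.add_sum_erase s _ hmem]
  refine Odd.add_even ?_ ?_
  · rw [hO4]
    change Odd (1 * rdeg (adjoin k (Set.range v)) O0)
    rw [one_mul]
    rw [hrd]
    exact hP.2
  · refine Finset.even_sum _ (fun O hO => ?_)
    rw [Finset.mem_erase] at hO
    apply Even.mul_left
    rw [← Nat.not_odd_iff_even]
    intro hodd
    have h5 := (hs1 O).mp hO.2
    exact hO.1 (hO6 O (sc_place h h2 x y hP hx hy O ⟨h5.1, hs2 O hO.2, hodd⟩ h5.2) h5.2)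

end MP2619.R
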