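import Pool.Agent.Lib.MP_2619d0_ag.R.D1

/-!
Row E1: adjoining a cube root.
-/

set_option autoImplicit false

namespace MP2619.R

universe v u

open IntermediateField

/-- The minimal polynomial `p` of `b` over `F` divides `X³ - b³ = (X - b) (X - w b) (X - w² b)`. If its
degree were `2`, the quotient would be a linear polynomial over `F` with root `w^j b ∈ F`, so `b ∈ F` and
the degree would be `1`. So the degree is `1` or `3`. (`adjoin.finrank`.) -/
theorem cube_odd {F : Type v} {E : Type u} [Field F] [Field E] [Algebra F E] (w : F)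
    (hw : w ^ 2 + w + 1 = 0) (b : E) (hb : ∃ c : F, algebraMap F E c = b ^ 3) :
    Odd (Module.finrank F (adjoin F ({b} : Set E))) := by
  obtain ⟨c, hc⟩ := hb
  have hP : (Polynomial.X ^ 3 - Polynomial.C c : Polynomial F).Monic :=
    Polynomial.monic_X_pow_sub_C c (by norm_num)
  have hdP : (Polynomial.X ^ 3 - Polynomial.C c : Polynomial F).natDegree = 3 :=
    Polynomial.natDegree_X_pow_sub_C
  have haev : Polynomial.aeval b (Polynomial.X ^ 3 - Polynomial.C c : Polynomial F) = 0 := by
    rw [map_sub, map_pow, Polynomial.aeval_X, Polynomial.aeval_C, hc, sub_self]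
  have hint : IsIntegral F b := ⟨_, hP, haev⟩
  have hdvd : minpoly F b ∣ (Polynomial.X ^ 3 - Polynomial.C c : Polynomial F) :=
    minpoly.dvd F b haev
  rw [IntermediateField.adjoin.finrank hint]
  have hpos := minpoly.natDegree_pos hint
  have hle : (minpoly F b).natDegree ≤ 3 := by
    rw [← hdP]
    exact Polynomial.natDegree_le_of_dvd hdvd hP.ne_zero
  have hne2 : (minpoly F b).natDegree ≠ 2 := by
    intro hd2
    obtain ⟨q, hq⟩ := hdvd
    have hqm : q.Monic := by
      have h1 := minpoly.monic hint
      have h2 : (minpoly F b * q).Monic := by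
        rw [← hq]
        exact hP
      exact h1.of_mul_monic_left h2
    have hqd : q.natDegree = 1 := by
      have h1 : (minpoly F b * q).natDegree = 3 := by
        rw [← hq]
        exact hdP
      rw [(minpoly.monic hint).natDegree_mul hqm, hd2] at h1
      omega
    have hq1 := hqm.eq_X_add_C hqd
    obtain ⟨r, hr⟩ : ∃ r : F, r = -q.coeff 0 := ⟨_, rfl⟩
    have hroot : r ^ 3 = c := by
      have h1 : Polynomial.eval r (Polynomial.X ^ 3 - Polynomial.C c : Polynomial F) = 0 := by
        rw [hq, Polynomial.eval_mul, hq1, Polynomial.eval_add, Polynomial.eval_X,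
          Polynomial.eval_C, hr, neg_add_cancel, mul_zero]
      rw [Polynomial.eval_sub, Polynomial.eval_pow, Polynomial.eval_X, Polynomial.eval_C] at h1
      exact sub_eq_zero.1 h1
    have hbr : b ^ 3 = algebraMap F E r ^ 3 := by
      rw [← hc, ← hroot, map_pow]
    have hW : algebraMap F E w ^ 2 + algebraMap F E w + 1 = 0 := by
      have h1 := congrArg (algebraMap F E) hw
      rwa [map_add, map_add, map_pow, map_one, map_zero] at h1
    have hprod : (b - algebraMap F E r) * (b - algebraMap F E w * algebraMap F E r) *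
        (b - algebraMap F E w ^ 2 * algebraMap F E r) = 0 := by
      linear_combination hbr - (b - algebraMap F E r) * (algebraMap F E r * b +
        algebraMap F E r ^ 2 * (1 - algebraMap F E w)) * hW
    have hmem : b ∈ (algebraMap F E).range := by
      rcases mul_eq_zero.1 hprod with h1 | h1
      · rcases mul_eq_zero.1 h1 with h2 | h2
        · exact ⟨r, (sub_eq_zero.1 h2).symm⟩
        · exact ⟨w * r, by rw [map_mul]; exact (sub_eq_zero.1 h2).symm⟩
      · exact ⟨w ^ 2 * r, by rw [map_mul, map_pow]; exact (sub_eq_zero.1 h1).symm⟩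
    have h3 := minpoly.natDegree_eq_one_iff.2 hmem
    omega
  have h13 : (minpoly F b).natDegree = 1 ∨ (minpoly F b).natDegree = 3 := by omega
  rcases h13 with h | h
  · rw [h]
    decide
  · rw [h]
    decide

theorem fr_aux {k : Type v} {M N : Type*} [Field k] [Field M] [Field N] [Algebra k M] [Algebra k N]
    [Algebra M N] [IsScalarTower k M N] (L : IntermediateField k M) :
    Module.finrank L N = Module.finrank (L.map (IsScalarTower.toAlgHom k M N)) N := by
  refine Algebra.finrank_eq_of_equiv_equiv
    (L.equivMap (IsScalarTower.toAlgHom k M N)).toRingEquiv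
    (RingEquiv.refl N) ?_
  apply RingHom.ext
  intro x
  rfl

theorem fr_aux2 {k : Type v} {M N : Type*} [Field k] [Field M] [Field N] [Algebra k M] [Algebra k N]
    [Algebra M N] [IsScalarTower k M N] (L : IntermediateField k M) :
    Module.finrank L M * Module.finrank M N =
      Module.finrank (L.map (IsScalarTower.toAlgHom k M N)) N := by
  rw [← fr_aux]
  exact Module.finrank_mul_finrank L M N

theorem fr_aux3 {k : Type v} {M N : Type*} [Field k] [Field M] [Field N] [Algebra k M] [Algebra k N]
    [Algebra M N] [IsScalarTower k M N] {n : ℕ} (z : Fin n → M) :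
    adjoin k (Set.range fun i => algebraMap M N (z i)) =
      (adjoin k (Set.range z)).map (IsScalarTower.toAlgHom k M N) := by
  rw [adjoin_map]
  congr 1
  ext x
  simp
theorem ai_up {k : Type v} {M N : Type*} [Field k] [Field M] [Field N] [Algebra k M] [Algebra k N]
    [Algebra M N] [IsScalarTower k M N] {n : ℕ} {z : Fin n → M}
    (hz : AlgebraicIndependent k z) : AlgebraicIndependent k (fun i => algebraMap M N (z i)) := by
  have h := hz.map' (f := IsScalarTower.toAlgHom k M N) (algebraMap M N).injective
  have e : (⇑(IsScalarTower.toAlgHom k M N) ∘ z) = (fun i => algebraMap M N (z i)) := by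
    funext i
    simp
  rwa [e] at h

theorem Pr.up {k : Type v} {M N : Type*} [Field k] [Field M] [Field N] [Algebra k M] [Algebra k N]
    [Algebra M N] [IsScalarTower k M N] (hodd : Odd (Module.finrank M N)) {n : ℕ} {z : Fin n → M}
    (hz : Pr k z) : Pr k (fun i => algebraMap M N (z i)) := by
  refine ⟨ai_up hz.1, ?_⟩
  have h2 := hz.2.mul hodd
  rw [fr_aux2 (N := N) (adjoin k (Set.range z)), ← fr_aux3 (N := N) z] at h2
  exact h2
/-- There are an extension `N = M(a, b)` of `M`, `a` transcendental over `M`, `b³ = 1 + a³`, such that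
for every tuple `u` of elements of `M` with `Pr k u`: the tuple `(a, u)` satisfies `Pr k`. Take `RF`
(`exists_RF`, `M' = M(t)`, `a = t`), and `N = adjoin M' {b}` in an algebraic closure of `M'`. By `RF.pr`,
`RF.pr_iff`: `Pr k (t, u)` in `M'`, and `[N : k(a, u)] = [N : M'] [M' : k(t, u)]`, `[N : M']` is odd by
`cube_odd`. -/
theorem exists_ab (k : Type v) (M : Type u) [Field k] [Field M] [Algebra k M] (w : k)
    (hw : w ^ 2 + w + 1 = 0) :
    ∃ (N : Type u) (_ : Field N) (_ : Algebra k N) (_ : Algebra M N) (_ : IsScalarTower k M N)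
      (a b : N), b ^ 3 = 1 + a ^ 3 ∧ Transcendental M a ∧
      ∀ (n : ℕ) (z : Fin n → M), Pr k z →
        Pr k (Fin.cons a (fun i => algebraMap M N (z i)) : Fin (n + 1) → N) := by
  obtain ⟨k', M', _, _, _, _, _, _, _, _, t, h⟩ := exists_RF k M
  let E := AlgebraicClosure M'
  obtain ⟨b, hb⟩ := IsAlgClosed.exists_pow_nat_eq
    (1 + (algebraMap M' E (algebraMap k' M' t)) ^ 3 : E) (n := 3) (by norm_num)
  let N := adjoin M' ({b} : Set E)
  let _ : Algebra k N := ((algebraMap M' N).comp (algebraMap k M')).toAlgebra
  let _ : Algebra M N := ((algebraMap M' N).comp (algebraMap M M')).toAlgebra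
  have t1 : IsScalarTower k M' N := IsScalarTower.of_algebraMap_eq' rfl
  have t2 : IsScalarTower M M' N := IsScalarTower.of_algebraMap_eq' rfl
  have t3 : IsScalarTower k M N := by
    apply IsScalarTower.of_algebraMap_eq
    intro x
    change algebraMap M' N (algebraMap k M' x) = algebraMap M' N (algebraMap M M' (algebraMap k M x))
    rw [← IsScalarTower.algebraMap_apply k M M']
  refine ⟨N, inferInstance, inferInstance, inferInstance, t3,
    algebraMap M' N (algebraMap k' M' t), ⟨b, mem_adjoin_simple_self M' b⟩, ?_, ?_, ?_⟩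
  · apply Subtype.ext
    exact hb
  · exact (transcendental_algebraMap_iff (algebraMap M' N).injective).mpr h.trans
  · intro n z hz
    have h1 := (h.pr_iff _).mp (h.pr z hz)
    have hodd : Odd (Module.finrank M' N) := by
      refine cube_odd (algebraMap k M' w) ?_ b ⟨1 + (algebraMap k' M' t) ^ 3, ?_⟩
      · rw [← map_pow, ← map_add, ← map_one (algebraMap k M'), ← map_add, hw, map_zero]
      · rw [hb, map_add, map_one, map_pow]
    have h2 := Pr.up hodd h1
    convert h2 using 1
    funext i
    refine Fin.cases ?_ (fun j => ?_) i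
    · simp
    · simp only [Fin.cons_succ]
      rfl

end MP2619.R
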