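import Pool.Agent.Lib.MP_2619d0_ag.R.A8
import Pool.Agent.Lib.MP_2619d0_ag.T.A3
import Pool.Agent.Lib.MP_2619d0_ag.T.A1

/-!
Row F1: constant points, the quadratic form.
-/

set_option autoImplicit false

namespace MP2619.R

universe v u

open MvPolynomial

/-- substitution `X = c (1, X_0, ...)` -/
noncomputable def F1_phi {k : Type v} [Field k] (N : ℕ) (c : k) :
    MvPolynomial (Fin (N + 1)) k →ₐ[k] MvPolynomial (Fin N) k :=
  aeval (fun i => C c * Pool.Agent.Lib.MP_2619d0_ag.T.gv N k i)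

theorem F1_phi_ne {k : Type v} [Field k] [Infinite k] {N : ℕ} (p : MvPolynomial (Fin (N + 1)) k)
    (hp : p ≠ 0) : ∃ c : k, c ≠ 0 ∧ F1_phi N c p ≠ 0 := by
  have h1 : p * X 0 ≠ 0 := mul_ne_zero hp (X_ne_zero 0)
  have h3 : ∃ q : Fin (N + 1) → k, eval q (p * X 0) ≠ 0 := by
    by_contra hcon
    push Not at hcon
    exact h1 (MvPolynomial.funext (fun q => by rw [hcon q, map_zero]))
  obtain ⟨q, hq⟩ := h3
  rw [map_mul, eval_X] at hq
  have hq0 : q 0 ≠ 0 := right_ne_zero_of_mul hq
  refine ⟨q 0, hq0, ?_⟩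
  intro h4
  apply left_ne_zero_of_mul hq
  have h5 := congrArg (eval (fun i : Fin N => q i.succ / q 0)) h4
  rw [map_zero] at h5
  rw [← h5]
  unfold F1_phi
  rw [← coe_aeval_eq_eval, ← coe_aeval_eq_eval]
  change _ = (aeval _) ((aeval _) p)
  rw [← AlgHom.comp_apply, comp_aeval]
  change (aeval q) p = _
  congr 1
  congr 1
  funext i
  refine Fin.cases ?_ (fun j => ?_) i
  · simp [Pool.Agent.Lib.MP_2619d0_ag.T.gv]
  · simp [Pool.Agent.Lib.MP_2619d0_ag.T.gv]
    field_simp

/-- the statement over an algebraically closed field -/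
theorem F1_alg {k : Type v} [Field k] [IsAlgClosed k] (h2 : (2 : k) = 0) {N : ℕ} (hN : 2 ≤ N)
    (a : Fin (N + 1) → k) (ha0 : a ≠ 0) (ha : ∑ i, a i ^ 3 = 0)
    (s l : MvPolynomial (Fin (N + 1)) k)
    (h : s ^ 2 * ∑ i, X i ^ 3 + s * l * ∑ i, X i ^ 2 * C (a i) + l ^ 2 * ∑ i, C (a i) ^ 2 * X i = 0) :
    s = 0 ∧ l = 0 := by
  classical
  have hinf : Infinite k := IsAlgClosed.instInfinite
  -- the key step
  have key : ∀ c : k, c ≠ 0 → F1_phi N c s = 0 ∧ F1_phi N c l = 0 := by
    intro c hc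
    have h3 := congrArg (F1_phi N c) h
    have hX : ∀ i, F1_phi N c (X i) = C c * Pool.Agent.Lib.MP_2619d0_ag.T.gv N k i := by
      intro i; simp [F1_phi]
    have hC : ∀ r : k, F1_phi N c (C r) = C r := by
      intro r; simp [F1_phi, algebraMap_eq]
    simp only [map_add, map_mul, map_pow, map_sum, map_zero, hX, hC] at h3
    set S := F1_phi N c s
    set L := F1_phi N c l
    have h4 : C c * ((C c * S) ^ 2 * ∑ i, Pool.Agent.Lib.MP_2619d0_ag.T.gv N k i ^ 3 +
        (C c * S) * ∑ i, Pool.Agent.Lib.MP_2619d0_ag.T.gv N k i ^ 2 * (L * C (a i)) +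
        ∑ i, (L * C (a i)) ^ 2 * Pool.Agent.Lib.MP_2619d0_ag.T.gv N k i) = 0 := by
      rw [← h3]
      simp only [Finset.mul_sum, ← Finset.sum_add_distrib]
      refine Finset.sum_congr rfl (fun i _ => ?_)
      ring
    have hCc : (C c : MvPolynomial (Fin N) k) ≠ 0 := by
      rw [Ne, C_eq_zero]; exact hc
    have h5 := (mul_eq_zero.mp h4).resolve_left hCc
    have hW1 : Module.finrank k (Submodule.span k {a}) ≤ 1 := by
      have := finrank_span_le_card (R := k) ({a} : Set (Fin (N + 1) → k))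
      simpa using this
    have he : (Pi.single 0 1 : Fin (N + 1) → k) ∉ Submodule.span k {a} := by
      intro hm
      obtain ⟨r, hr⟩ := Submodule.mem_span_singleton.mp hm
      have h6 : ∑ i, (r • a) i ^ 3 = 0 := by
        have : ∀ i, (r • a) i ^ 3 = r ^ 3 * a i ^ 3 := by
          intro i; simp only [Pi.smul_apply, smul_eq_mul]; ring
        rw [Finset.sum_congr rfl (fun i _ => this i), ← Finset.mul_sum, ha, mul_zero]
      rw [hr] at h6
      rw [Fin.sum_univ_succ] at h6
      simp at h6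
    obtain ⟨b, hbW, hb0, hb⟩ := Pool.Agent.Lib.MP_2619d0_ag.T.exists_b h2
      (fun r => by
        obtain ⟨z, hz⟩ := IsAlgClosed.exists_pow_nat_eq r (n := 2) (by norm_num)
        exact ⟨z, hz⟩) (Submodule.span k {a}) (by omega) he
    obtain ⟨h7, h8⟩ := Pool.Agent.Lib.MP_2619d0_ag.T.aniso_char2 h2 (Submodule.span k {a}) b hbW hb0
      hb (C c * S) (fun i => L * C (a i)) (by
        intro d
        refine Submodule.mem_span_singleton.mpr ⟨coeff d L, ?_⟩
        funext i
        simp only [Pi.smul_apply, smul_eq_mul]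
        rw [mul_comm L, coeff_C_mul, mul_comm]) h5
    refine ⟨(mul_eq_zero.mp h7).resolve_left hCc, ?_⟩
    obtain ⟨i, hi⟩ := Function.ne_iff.mp ha0
    have h9 := h8 i
    refine (mul_eq_zero.mp h9).resolve_right ?_
    rw [C_eq_zero]; exact hi
  constructor
  · by_contra hs
    obtain ⟨c, hc, h6⟩ := F1_phi_ne s hs
    exact h6 (key c hc).1
  · by_contra hl
    obtain ⟨c, hc, h6⟩ := F1_phi_ne l hl
    exact h6 (key c hc).2

/-- Suppose `(s, l) ≠ 0`. The equation is homogeneous of degree two in `(s, l)`; dividing by a power of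
`X_0 - 1` we may assume that `s`, `l` are not both divisible by `X_0 - 1`. Pass to an algebraic closure
of `k` and put `X_0 = 1`: polynomials `(s̄, l̄) ≠ 0` in `N = n - 1 ≥ 2` variables with
`s̄² ∑ u_i³ + s̄ ∑ u_i² z_i + ∑ z_i² u_i = 0` for `u = gv N k`, `z = l̄ a`. Apply `aniso_char2`
(file `T/A1.lean`) with `W` = the line spanned by `a` and `b` from `exists_b` (file `T/A3.lean`): `e_0 ∉ W`
because `F(e_0) = 1` and `F(a) = 0`, `2 · 1 < n`. It follows that `s̄ = 0`, `l̄ a = 0`, contradiction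
(`a ≠ 0`). -/
theorem const_poly {k : Type v} [Field k] (h2 : (2 : k) = 0) {N : ℕ} (hN : 2 ≤ N)
    (a : Fin (N + 1) → k) (ha0 : a ≠ 0) (ha : ∑ i, a i ^ 3 = 0)
    (s l : MvPolynomial (Fin (N + 1)) k)
    (h : s ^ 2 * ∑ i, X i ^ 3 + s * l * ∑ i, X i ^ 2 * C (a i) + l ^ 2 * ∑ i, C (a i) ^ 2 * X i = 0) :
    s = 0 ∧ l = 0 := by
  classical
  have hinj : Function.Injective (algebraMap k (AlgebraicClosure k)) :=
    (algebraMap k (AlgebraicClosure k)).injective
  have hm := map_injective (σ := Fin (N + 1)) _ hinj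
  have h3 := congrArg (map (algebraMap k (AlgebraicClosure k))) h
  simp only [map_add, map_mul, map_pow, map_sum, map_zero, map_X, map_C] at h3
  have h2' : (2 : AlgebraicClosure k) = 0 := by
    have := congrArg (algebraMap k (AlgebraicClosure k)) h2
    rwa [map_ofNat, map_zero] at this
  obtain ⟨h4, h5⟩ := F1_alg h2' hN (fun i => algebraMap k (AlgebraicClosure k) (a i)) (by
      intro h0
      apply ha0
      funext i
      apply hinj
      have := congrFun h0 i
      simpa using this) (by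
      have := congrArg (algebraMap k (AlgebraicClosure k)) ha
      simpa using this) _ _ h3
  exact ⟨hm (by rw [h4, map_zero]), hm (by rw [h5, map_zero])⟩

end MP2619.R
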