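import Pool.Agent.Lib.MP_2619d0_ag.R.C6
import Pool.Agent.Lib.MP_2619d0_ag.R.B2
import Pool.Agent.Lib.MP_2619d0_ag.R.D4

/-!
Row G1: the step `n → n + 2` if `n + 2` is not divisible by three.
-/

set_option autoImplicit false

namespace MP2619.R

universe v u

open IntermediateField

/-- `Pr` is invariant under permutations and under multiplication by nonzero constants: the generated
fields are equal (`pr_of_adjoin`). -/
theorem pr_perm {k : Type v} {M : Type u} [Field k] [Field M] [Algebra k M] {n : ℕ} (z : Fin n → M)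
    (e : Equiv.Perm (Fin n)) (h : Pr k z) : Pr k (fun i => z (e i)) := by
  refine pr_of_adjoin _ z ?_ h
  have h1 : Set.range (fun i => z (e i)) = Set.range z := e.surjective.range_comp z
  rw [h1]

theorem pr_diag {k : Type v} {M : Type u} [Field k] [Field M] [Algebra k M] {n : ℕ} (z : Fin n → M)
    (c : Fin n → k) (hc : ∀ i, c i ≠ 0) (h : Pr k z) :
    Pr k (fun i => algebraMap k M (c i) * z i) := by
  refine pr_of_adjoin _ z ?_ h
  apply le_antisymm
  · rw [adjoin_le_iff]
    rintro _ ⟨i, rfl⟩
    exact mul_mem (IntermediateField.algebraMap_mem _ _) (subset_adjoin _ _ ⟨i, rfl⟩)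
  · rw [adjoin_le_iff]
    rintro _ ⟨i, rfl⟩
    have h1 : algebraMap k M (c i) * z i ∈
        adjoin k (Set.range fun i => algebraMap k M (c i) * z i) :=
      subset_adjoin _ _ ⟨i, rfl⟩
    have h2 : algebraMap k M (c i)⁻¹ * (algebraMap k M (c i) * z i) = z i := by
      rw [← mul_assoc, ← map_mul, inv_mul_cancel₀ (hc i), map_one, one_mul]
    have h3 := mul_mem (IntermediateField.algebraMap_mem (adjoin k (Set.range fun i => algebraMap k M (c i) * z i))
      (c i)⁻¹) h1
    rw [h2] at h3
    exact h3

/-- the same for `rat` -/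
theorem rat_perm {k : Type v} {M : Type u} [Field k] [Field M] [Algebra k M] {n : ℕ} (z : Fin n → M)
    (e : Equiv.Perm (Fin n)) : rat k (fun i => z (e i)) = rat k z := by
  unfold rat
  congr 1
  ext w
  constructor
  · rintro ⟨i, j, rfl⟩
    exact ⟨e i, e j, rfl⟩
  · rintro ⟨i, j, rfl⟩
    refine ⟨e.symm i, e.symm j, ?_⟩
    simp only [Equiv.apply_symm_apply]

theorem rat_diag {k : Type v} {M : Type u} [Field k] [Field M] [Algebra k M] {n : ℕ} (z : Fin n → M)
    (c : Fin n → k) (hc : ∀ i, c i ≠ 0) :
    rat k (fun i => algebraMap k M (c i) * z i) = rat k z := by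
  have hc' : ∀ i, algebraMap k M (c i) ≠ 0 := fun i => by
    rw [Ne, map_eq_zero]
    exact hc i
  unfold rat
  apply le_antisymm
  · rw [adjoin_le_iff]
    rintro _ ⟨i, j, rfl⟩
    have h1 : algebraMap k M (c i) * z i / (algebraMap k M (c j) * z j) =
        algebraMap k M (c i / c j) * (z i / z j) := by
      rw [map_div₀, mul_div_mul_comm]
    rw [h1]
    exact mul_mem (IntermediateField.algebraMap_mem _ _) (subset_adjoin _ _ ⟨i, j, rfl⟩)
  · rw [adjoin_le_iff]
    rintro _ ⟨i, j, rfl⟩
    have h1 : z i / z j =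
        algebraMap k M (c j / c i) * (algebraMap k M (c i) * z i / (algebraMap k M (c j) * z j)) := by
      rw [map_div₀, mul_div_mul_comm, ← mul_assoc, div_mul_div_comm, mul_comm (algebraMap k M (c j)),
        div_self (mul_ne_zero (hc' i) (hc' j)), one_mul]
    rw [h1]
    exact mul_mem (IntermediateField.algebraMap_mem _ _) (subset_adjoin _ _ ⟨i, j, rfl⟩)

/-- The case `j = 1` of `move`. -/
theorem move_one {n D : ℕ} (hS : S.{v, u} n D) {k : Type v} {M : Type u} [Field k] [Field M]
    [Algebra k M] (h2 : (2 : k) = 0) (w : k) (hw : w ^ 2 + w + 1 = 0)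
    (x y : Fin (n + 1 + 1) → M) (hx : ∑ i, x i ^ 3 = 0) (hy : ∑ i, y i ^ 3 = 0)
    (hD : Algebra.trdeg k (rat k y) ≤ (D + 1 : ℕ)) (hP : Pr k (fun i => x i + y i)) :
    Pr k (fun i => (if i = 0 then algebraMap k M w * x i else if i = 1 then
      algebraMap k M w ^ 2 * x i else x i) + y i) := by
  have hw3 : w ^ 3 = 1 := by linear_combination (w - 1) * hw
  have hw0 : w ≠ 0 := by
    rintro rfl
    simp at hw3
  have hW3 : algebraMap k M w ^ 3 = 1 := by rw [← map_pow, hw3, map_one]
  have h1 := swap01 hS h2 ⟨w, hw⟩ x y hx hy hD hP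
  have hc : ∀ i : Fin (n + 1 + 1), (if i = 0 then w ^ 2 else 1 : k) ≠ 0 := by
    intro i
    split_ifs
    · exact pow_ne_zero 2 hw0
    · exact one_ne_zero
  have hd : ∀ i : Fin (n + 1 + 1), (if i = 0 then w else 1 : k) ≠ 0 := by
    intro i
    split_ifs
    · exact hw0
    · exact one_ne_zero
  have hcube : ∀ i : Fin (n + 1 + 1),
      algebraMap k M (if i = 0 then w ^ 2 else 1 : k) ^ 3 = 1 := by
    intro i
    split_ifs
    · rw [map_pow, ← pow_mul, mul_comm 2 3, pow_mul, hW3, one_pow]
    · simp
  have h2' := pr_diag _ _ hc h1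
  have hrat := rat_diag y _ hc
  have hx1 : ∑ i : Fin (n + 1 + 1), (algebraMap k M (if i = 0 then w ^ 2 else 1 : k) *
      x (Equiv.swap 0 1 i)) ^ 3 = 0 := by
    have : ∀ i : Fin (n + 1 + 1), (algebraMap k M (if i = 0 then w ^ 2 else 1 : k) *
        x (Equiv.swap 0 1 i)) ^ 3 = x (Equiv.swap 0 1 i) ^ 3 := by
      intro i
      rw [mul_pow, hcube i, one_mul]
    rw [Finset.sum_congr rfl (fun i _ => this i)]
    rw [Equiv.sum_comp (Equiv.swap 0 1) (fun i => x i ^ 3)]
    exact hx
  have hy1 : ∑ i : Fin (n + 1 + 1), (algebraMap k M (if i = 0 then w ^ 2 else 1 : k) *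
      y i) ^ 3 = 0 := by
    have : ∀ i : Fin (n + 1 + 1), (algebraMap k M (if i = 0 then w ^ 2 else 1 : k) *
        y i) ^ 3 = y i ^ 3 := by
      intro i
      rw [mul_pow, hcube i, one_mul]
    rw [Finset.sum_congr rfl (fun i _ => this i)]
    exact hy
  have h3 := swap01 hS h2 ⟨w, hw⟩
    (fun i => algebraMap k M (if i = 0 then w ^ 2 else 1 : k) * x (Equiv.swap 0 1 i))
    (fun i => algebraMap k M (if i = 0 then w ^ 2 else 1 : k) * y i) hx1 hy1
    (by rw [hrat]; exact hD) (by
      refine (congrArg (Pr k) (funext fun i => ?_)).mp h2'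
      ring)
  have h4 := pr_diag _ _ hd h3
  refine (congrArg (Pr k) (funext fun i => ?_)).mp h4
  rcases eq_or_ne i 0 with rfl | hi0
  · have e1 : (Equiv.swap (0 : Fin (n + 1 + 1)) 1) 0 = 1 := Equiv.swap_apply_left 0 1
    have e2 : (Equiv.swap (0 : Fin (n + 1 + 1)) 1) 1 = 0 := Equiv.swap_apply_right 0 1
    have e3 : (1 : Fin (n + 1 + 1)) ≠ 0 := by simp
    simp only [e1, e2, e3, if_true, if_false, map_pow, map_one, one_mul]
    linear_combination (y 0) * hW3
  · rcases eq_or_ne i 1 with rfl | hi1
    · have e1 : (Equiv.swap (0 : Fin (n + 1 + 1)) 1) 0 = 1 := Equiv.swap_apply_left 0 1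
      have e2 : (Equiv.swap (0 : Fin (n + 1 + 1)) 1) 1 = 0 := Equiv.swap_apply_right 0 1
      simp only [e1, e2, hi0, if_true, if_false, map_pow, map_one, one_mul]
    · have e1 : (Equiv.swap (0 : Fin (n + 1 + 1)) 1) i = i := Equiv.swap_apply_of_ne_of_ne hi0 hi1
      simp only [e1, hi0, hi1, if_false, map_one, one_mul]

/-- `x_0` is multiplied by `w` and `x_j` by `w²`. For `j = 1`: `swap01` for `(x, y)` gives `(x ∘ s, y)`,
`s = swap 0 1`; multiply both by `c = (w², 1, 1, …)` (`pr_diag`, `rat_diag`, `F` is unchanged because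
`w³ = 1`), apply `swap01` again, and multiply both by `(w, 1, 1, …)`: the result is
`((w x_0, w² x_1, x_2, …), y)` (`w · w² = 1`). For `j` arbitrary conjugate by the permutation
`swap 1 j` (`pr_perm`, `rat_perm`). -/
theorem move {n D : ℕ} (hS : S.{v, u} n D) {k : Type v} {M : Type u} [Field k] [Field M]
    [Algebra k M] (h2 : (2 : k) = 0) (w : k) (hw : w ^ 2 + w + 1 = 0)
    (x y : Fin (n + 1 + 1) → M) (hx : ∑ i, x i ^ 3 = 0) (hy : ∑ i, y i ^ 3 = 0)
    (hD : Algebra.trdeg k (rat k y) ≤ (D + 1 : ℕ)) (hP : Pr k (fun i => x i + y i))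
    (j : Fin (n + 1 + 1)) (hj : j ≠ 0) :
    Pr k (fun i => (if i = 0 then algebraMap k M w * x i else if i = j then
      algebraMap k M w ^ 2 * x i else x i) + y i) := by
  have e0 : (Equiv.swap (1 : Fin (n + 1 + 1)) j) 0 = 0 :=
    Equiv.swap_apply_of_ne_of_ne (by simp) (Ne.symm hj)
  have h1 := move_one hS h2 w hw (fun i => x (Equiv.swap 1 j i)) (fun i => y (Equiv.swap 1 j i))
    (by rw [Equiv.sum_comp (Equiv.swap 1 j) (fun i => x i ^ 3)]; exact hx)
    (by rw [Equiv.sum_comp (Equiv.swap 1 j) (fun i => y i ^ 3)]; exact hy)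
    (by rw [rat_perm y (Equiv.swap 1 j)]; exact hD)
    (pr_perm (fun i => x i + y i) (Equiv.swap 1 j) hP)
  have h2' := pr_perm _ (Equiv.swap 1 j) h1
  refine (congrArg (Pr k) (funext fun i => ?_)).mp h2'
  have e1 : (Equiv.swap (1 : Fin (n + 1 + 1)) j) (Equiv.swap 1 j i) = i :=
    by
      have h := (Equiv.swap (1 : Fin (n + 1 + 1)) j).symm_apply_apply i
      rwa [Equiv.symm_swap] at h
  have e2 : (Equiv.swap (1 : Fin (n + 1 + 1)) j) i = 0 ↔ i = 0 := by
    constructor
    · intro h
      have := congrArg (Equiv.swap (1 : Fin (n + 1 + 1)) j) h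
      rw [e1, e0] at this
      exact this
    · rintro rfl
      exact e0
  have e3 : (Equiv.swap (1 : Fin (n + 1 + 1)) j) i = 1 ↔ i = j := by
    constructor
    · intro h
      have := congrArg (Equiv.swap (1 : Fin (n + 1 + 1)) j) h
      rw [e1, Equiv.swap_apply_left] at this
      exact this
    · rintro rfl
      exact Equiv.swap_apply_right _ _
  simp only [e1, e2, e3]

theorem g1c_w3 {k : Type v} [Field k] (w : k) (hw : w ^ 2 + w + 1 = 0) : w ^ 3 = 1 := by
  linear_combination (w - 1) * hw

theorem g1c_cube {k : Type v} [Field k] (w : k) (hw : w ^ 2 + w + 1 = 0) (c : k) (hc : c ^ 3 = 1)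
    (n : ℕ) : (w ^ n * c) ^ 3 = 1 := by
  rw [mul_pow, ← pow_mul, mul_comm n 3, pow_mul, g1c_w3 w hw, one_pow, hc, one_mul]

/-- several moves -/
theorem g1c_moves {k : Type v} [Field k] {m : ℕ} (w : k) (hw : w ^ 2 + w + 1 = 0)
    (P : (Fin (m + 1) → k) → Prop)
    (hmove : ∀ g : Fin (m + 1) → k, (∀ i, g i ^ 3 = 1) → P g → ∀ j, j ≠ 0 →
      P (fun i => if i = 0 then w * g i else if i = j then w ^ 2 * g i else g i))
    (g : Fin (m + 1) → k) (hg : ∀ i, g i ^ 3 = 1) (hP : P g) (s : Finset (Fin (m + 1)))
    (hs : (0 : Fin (m + 1)) ∉ s) :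
    P (fun i => if i = 0 then w ^ s.card * g i else if i ∈ s then w ^ 2 * g i else g i) := by
  classical
  induction s using Finset.induction_on with
  | empty =>
    have : (fun i => if i = 0 then w ^ (∅ : Finset (Fin (m + 1))).card * g i else
        if i ∈ (∅ : Finset (Fin (m + 1))) then w ^ 2 * g i else g i) = g := by
      funext i
      split_ifs <;> simp_all
    rw [this]
    exact hP
  | insert j s hj ih =>
    have hj0 : j ≠ 0 := by
      rintro rfl
      exact hs (Finset.mem_insert_self _ _)
    have hs0 : (0 : Fin (m + 1)) ∉ s := fun h => hs (Finset.mem_insert_of_mem h)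
    have h1 := ih hs0
    have h3 : ∀ i, (fun i => if i = 0 then w ^ s.card * g i else if i ∈ s then w ^ 2 * g i
        else g i) i ^ 3 = 1 := by
      intro i
      dsimp only
      split_ifs
      · exact g1c_cube w hw _ (hg i) _
      · exact g1c_cube w hw _ (hg i) _
      · exact hg i
    have h4 := hmove _ h3 h1 j hj0
    have h5 : (fun i => if i = 0 then w ^ (insert j s).card * g i else
        if i ∈ insert j s then w ^ 2 * g i else g i) =
        (fun i => if i = 0 then w * (if i = 0 then w ^ s.card * g i else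
          if i ∈ s then w ^ 2 * g i else g i) else if i = j then
          w ^ 2 * (if i = 0 then w ^ s.card * g i else
          if i ∈ s then w ^ 2 * g i else g i) else
          (if i = 0 then w ^ s.card * g i else
          if i ∈ s then w ^ 2 * g i else g i)) := by
      funext i
      by_cases hi0 : i = 0
      · simp only [hi0, if_true, Finset.card_insert_of_notMem hj]
        rw [pow_succ]
        ring
      · simp only [hi0, if_false]
        by_cases hij : i = j
        · subst hij
          simp [hj]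
        · simp [hij]
    rw [h5]
    exact h4

/-- scaling and all moves: the coordinate `0` is multiplied by `w ^ (m + 1)` -/
theorem g1c_round {k : Type v} [Field k] {m : ℕ} (w : k) (hw : w ^ 2 + w + 1 = 0)
    (P : (Fin (m + 1) → k) → Prop)
    (hscale : ∀ g : Fin (m + 1) → k, P g → P (fun i => w * g i))
    (hmove : ∀ g : Fin (m + 1) → k, (∀ i, g i ^ 3 = 1) → P g → ∀ j, j ≠ 0 →
      P (fun i => if i = 0 then w * g i else if i = j then w ^ 2 * g i else g i))
    (g : Fin (m + 1) → k) (hg : ∀ i, g i ^ 3 = 1) (hP : P g) :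
    P (fun i => if i = 0 then w ^ (m + 1) * g i else g i) := by
  classical
  have h1 := hscale g hP
  have h3 : ∀ i, (fun i => w * g i) i ^ 3 = 1 := by
    intro i
    have := g1c_cube w hw _ (hg i) 1
    rwa [pow_one] at this
  have h4 := g1c_moves w hw P hmove _ h3 h1 (Finset.univ.erase 0) (Finset.notMem_erase _ _)
  have h5 : (fun i => if i = 0 then w ^ (m + 1) * g i else g i) =
      (fun i : Fin (m + 1) => if i = 0 then w ^ (Finset.univ.erase (0 : Fin (m + 1))).card *
        (w * g i) else if i ∈ Finset.univ.erase (0 : Fin (m + 1)) then w ^ 2 * (w * g i)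
        else w * g i) := by
    have hc : (Finset.univ.erase (0 : Fin (m + 1))).card = m := by
      rw [Finset.card_erase_of_mem (Finset.mem_univ _), Finset.card_univ, Fintype.card_fin]
      rfl
    rw [hc]
    funext i
    by_cases hi0 : i = 0
    · simp only [hi0, if_true]
      ring
    · simp only [hi0, if_false, Finset.mem_erase, ne_eq, not_false_eq_true, Finset.mem_univ,
        and_self, if_true]
      linear_combination (-(g i)) * g1c_w3 w hw
  rw [h5]
  exact h4

/-- Suppose `x, y` are odd data of level `(n + 2, D + 1)` over `k ⊂ M`. Take `RF` (`exists_RF`). By `sc_pr`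
`Pr k' (t x + y)`. Now for vectors `g ∈ {1, w, w²}^{n+2}` let `P(g)` be `Pr k' (t g x + y)` (the points
`t g x`, `y` of the cone over the Fermat cubic with coordinates in `M'`; `w ∈ k ⊂ k'`). `P(1)` holds.
* `P(g) → P(w g)` by `RF.scale` (with `x := g x`).
* `P(g) → P(g')`, `g' = g` except `g'_0 = w g_0`, `g'_j = w² g_j`, by `move` over `k'`
  (`trdeg k' (rat k' y) ≤ D + 1` by `RF.trdeg_rat`).
Hence `P(1) → P(w, w, …, w) → P(w^(n+2), 1, …, 1)` (apply `move` for `j = 1, …, n + 1`; induction on the
number of coordinates already treated), and in the same way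
`P(w^(n+2), 1, …, 1) → P(w^(2(n+2)), 1, …, 1)`. As `n + 2` is not divisible by three, `w^(n+2)` and
`w^(2(n+2))` are `w` and `w²` in some order. So `three_twists` (over `k'`, with `t x`, `y`) gives a
contradiction. -/
theorem step_not_three {n D : ℕ} (hn : ¬ 3 ∣ n + 2) (hS : S.{v, u} n D) :
    S.{v, u} (n + 1 + 1) (D + 1) := by
  intro k M _ _ _ x y hd
  obtain ⟨w, hw⟩ := hd.om
  obtain ⟨k', M', _, _, _, _, _, _, _, _, t, h⟩ := exists_RF k M
  have hw0 : w ≠ 0 := by
    rintro rfl
    simp at hw
  have h2' : (2 : k') = 0 := by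
    rw [← map_ofNat (algebraMap k k') 2, hd.two, map_zero]
  have hw' : (algebraMap k k' w) ^ 2 + algebraMap k k' w + 1 = 0 := by
    rw [← map_pow, ← map_add, ← map_one (algebraMap k k'), ← map_add, hw, map_zero]
  have htower : ∀ c : k, algebraMap k' M' (algebraMap k k' c) =
      algebraMap M M' (algebraMap k M c) := by
    intro c
    rw [← IsScalarTower.algebraMap_apply, ← IsScalarTower.algebraMap_apply]
  let T : M' := algebraMap k' M' t
  let X : (Fin (n + 1 + 1) → k) → Fin (n + 1 + 1) → M' := fun g i =>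
    T * algebraMap M M' (algebraMap k M (g i) * x i)
  let Y : Fin (n + 1 + 1) → M' := fun i => algebraMap M M' (y i)
  let P : (Fin (n + 1 + 1) → k) → Prop := fun g => Pr k' (fun i => X g i + Y i)
  have hY : ∑ i, Y i ^ 3 = 0 := by
    rw [← map_zero (algebraMap M M'), ← hd.Fy, map_sum]
    refine Finset.sum_congr rfl fun i _ => ?_
    rw [map_pow]
  have hX : ∀ g : Fin (n + 1 + 1) → k, (∀ i, g i ^ 3 = 1) → ∑ i, X g i ^ 3 = 0 := by
    intro g hg
    have h1 : ∀ i, X g i ^ 3 = T ^ 3 * algebraMap M M' (x i ^ 3) := by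
      intro i
      change (T * algebraMap M M' (algebraMap k M (g i) * x i)) ^ 3 = _
      have h3 : algebraMap k M (g i) ^ 3 = 1 := by rw [← map_pow, hg i, map_one]
      rw [mul_pow, ← map_pow (algebraMap M M'), mul_pow, h3, one_mul]
    rw [Finset.sum_congr rfl (fun i _ => h1 i), ← Finset.mul_sum, ← map_sum, hd.Fx, map_zero,
      mul_zero]
  have hP1 : P (fun _ => 1) := by
    have h1 := sc_pr h hd.two x y ⟨hd.ind, hd.odd⟩ hd.Fx hd.Fy
    have h3 : (fun i => X (fun _ => 1) i + Y i) = (fun i => algebraMap k' M' t *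
        algebraMap M M' (x i) + algebraMap M M' (y i)) := by
      funext i
      change T * algebraMap M M' (algebraMap k M 1 * x i) + algebraMap M M' (y i) = _
      rw [map_one, one_mul]
    change Pr k' (fun i => X (fun _ => 1) i + Y i)
    rw [h3]
    exact h1
  have hscale : ∀ g : Fin (n + 1 + 1) → k, P g → P (fun i => w * g i) := by
    intro g hg
    have h1 := RF.scale h w hw0 (fun i => algebraMap k M (g i) * x i) y hg
    have h3 : (fun i => X (fun i => w * g i) i + Y i) = (fun i => algebraMap k' M' t *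
        algebraMap M M' (algebraMap k M w * (algebraMap k M (g i) * x i)) +
        algebraMap M M' (y i)) := by
      funext i
      change T * algebraMap M M' (algebraMap k M (w * g i) * x i) + algebraMap M M' (y i) = _
      rw [map_mul (algebraMap k M), mul_assoc]
    change Pr k' (fun i => X (fun i => w * g i) i + Y i)
    rw [h3]
    exact h1
  have hD := RF.trdeg_rat h y (D + 1) hd.small
  have hmove : ∀ g : Fin (n + 1 + 1) → k, (∀ i, g i ^ 3 = 1) → P g → ∀ j, j ≠ 0 →
      P (fun i => if i = 0 then w * g i else if i = j then w ^ 2 * g i else g i) := by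
    intro g hg hPg j hj
    have h1 := move hS h2' (algebraMap k k' w) hw' (X g) Y (hX g hg) hY hD hPg j hj
    have h3 : (fun i => X (fun i => if i = 0 then w * g i else if i = j then w ^ 2 * g i
        else g i) i + Y i) = (fun i => (if i = 0 then algebraMap k' M' (algebraMap k k' w) * X g i
        else if i = j then algebraMap k' M' (algebraMap k k' w) ^ 2 * X g i else X g i) +
        Y i) := by
      funext i
      congr 1
      change T * algebraMap M M' (algebraMap k M (if i = 0 then w * g i else if i = j then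
        w ^ 2 * g i else g i) * x i) = _
      rw [htower]
      split_ifs
      · change _ = algebraMap M M' (algebraMap k M w) *
          (T * algebraMap M M' (algebraMap k M (g i) * x i))
        simp only [map_mul]
        ring
      · change _ = algebraMap M M' (algebraMap k M w) ^ 2 *
          (T * algebraMap M M' (algebraMap k M (g i) * x i))
        simp only [map_mul, map_pow]
        ring
      · rfl
    change Pr k' (fun i => X (fun i => if i = 0 then w * g i else if i = j then w ^ 2 * g i
        else g i) i + Y i)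
    rw [h3]
    exact h1
  have hone : ∀ i : Fin (n + 1 + 1), (fun _ => (1 : k)) i ^ 3 = 1 := fun i => one_pow 3
  have hP2 := g1c_round w hw P hscale hmove _ hone hP1
  have hcube2 : ∀ i : Fin (n + 1 + 1), (fun i : Fin (n + 1 + 1) => if i = 0 then
      w ^ (n + 1 + 1) * (1 : k) else 1) i ^ 3 = 1 := by
    intro i
    dsimp only
    split_ifs
    · exact g1c_cube w hw 1 (one_pow 3) _
    · exact one_pow 3
  have hP3 := g1c_round w hw P hscale hmove _ hcube2 hP2
  have hw3 := g1c_w3 w hw
  -- the two new twists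
  have key : ∀ c : k, P (fun i => if i = 0 then c else 1) →
      Pr k' (Fin.cons (algebraMap k' M' (algebraMap k k' c) * X (fun _ => 1) 0 + Y 0)
        (fun i => X (fun _ => 1) i.succ + Y i.succ) : Fin (n + 1 + 1) → M') := by
    intro c hc
    have h3 : (Fin.cons (algebraMap k' M' (algebraMap k k' c) * X (fun _ => 1) 0 + Y 0)
        (fun i => X (fun _ => 1) i.succ + Y i.succ) : Fin (n + 1 + 1) → M') =
        fun i => X (fun i => if i = 0 then c else 1) i + Y i := by
      funext i
      refine Fin.cases ?_ (fun i => ?_) i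
      · rw [Fin.cons_zero]
        congr 1
        change algebraMap k' M' (algebraMap k k' c) *
          (T * algebraMap M M' (algebraMap k M 1 * x 0)) =
          T * algebraMap M M' (algebraMap k M (if (0 : Fin (n + 1 + 1)) = 0 then c else 1) * x 0)
        rw [htower, if_pos rfl, map_one, one_mul, map_mul]
        ring
      · rw [Fin.cons_succ]
        congr 1
    rw [h3]
    exact hc
  have hP1' : P (fun i => if i = 0 then 1 else 1) := by
    have : (fun i : Fin (n + 1 + 1) => if i = 0 then (1 : k) else 1) = fun _ => 1 := by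
      funext i
      split_ifs <;> rfl
    rw [this]
    exact hP1
  have hP2' : P (fun i => if i = 0 then w ^ (n + 2) else 1) := by
    have : (fun i : Fin (n + 1 + 1) => if i = 0 then w ^ (n + 2) else 1) =
        fun i => if i = 0 then w ^ (n + 1 + 1) * (1 : k) else 1 := by
      funext i
      split_ifs
      · rw [mul_one]
      · rfl
    rw [this]
    exact hP2
  have hP3' : P (fun i => if i = 0 then w ^ (n + 2) * w ^ (n + 2) else 1) := by
    have : (fun i : Fin (n + 1 + 1) => if i = 0 then w ^ (n + 2) * w ^ (n + 2) else 1) =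
        fun i => if i = 0 then w ^ (n + 1 + 1) * (if i = 0 then w ^ (n + 1 + 1) * (1 : k) else 1)
          else (if i = 0 then w ^ (n + 1 + 1) * (1 : k) else 1) := by
      funext i
      split_ifs
      · rw [mul_one]
      · rfl
    rw [this]
    exact hP3
  have hmod : (n + 2) % 3 = 1 ∨ (n + 2) % 3 = 2 := by omega
  have hpow : ∀ r, (n + 2) % 3 = r → w ^ (n + 2) = w ^ r := by
    intro r hr
    conv_lhs => rw [← Nat.div_add_mod (n + 2) 3, hr]
    rw [pow_add, pow_mul, hw3, one_pow, one_mul]
  have hboth : P (fun i => if i = 0 then w else 1) ∧ P (fun i => if i = 0 then w ^ 2 else 1) := by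
    rcases hmod with h1 | h1
    · have h3 : w ^ (n + 2) = w := by rw [hpow 1 h1, pow_one]
      rw [h3] at hP2' hP3'
      exact ⟨hP2', by rw [pow_two]; exact hP3'⟩
    · have h3 : w ^ (n + 2) = w ^ 2 := hpow 2 h1
      rw [h3] at hP2' hP3'
      have h4 : w ^ 2 * w ^ 2 = w := by linear_combination w * hw3
      rw [h4] at hP3'
      exact ⟨hP3', hP2'⟩
  have a0 := key 1 hP1'
  have a1 := key w hboth.1
  have a2 := key (w ^ 2) hboth.2
  rw [map_one, map_one, one_mul] at a0
  rw [map_pow, map_pow] at a2
  exact three_twists h2' (algebraMap k k' w) hw' (X (fun _ => 1)) Y (hX _ hone) hY a0 a1 a2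

end MP2619.R
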