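import Pool.Agent.Lib.MP_2619d0_ag.K.K1

/-!
Discrete valuation rings of residue characteristic two in the field of complex numbers (with the
information that `ℂ` is algebraic over the ring).
-/

set_option autoImplicit false

namespace MP2619.R

open MvPolynomial MP2619.K

theorem TF1_div {K : Type*} [Field K] (a b : K) (hb : b ≠ 0) (h : a ^ 2 + a * b + b ^ 2 = 0) :
    (a / b) ^ 2 + a / b + 1 = 0 := by
  field_simp
  linear_combination h

/-- The discrete valuation ring. -/
theorem TF1_dvr {J : Type} (a : J → ℂ) (ha : AlgebraicIndependent ℚ a) (δ : J → ℤ)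
    (T : Finset ℂ) :
    ∃ (A : Type) (_ : CommRing A) (_ : IsDomain A) (_ : IsDiscreteValuationRing A)
      (β : A →+* ℂ), Function.Injective β ∧ (2 : A) ∈ IsLocalRing.maximalIdeal A ∧
      (∀ j, ∃ c : A, β c = a j ∧ c - (δ j : A) ∈ IsLocalRing.maximalIdeal A) ∧
      (∀ c ∈ T, ∃ a b : A, β b ≠ 0 ∧ c * β b = β a) ∧
      (∀ c : ℂ, ∃ p : Polynomial A, p ≠ 0 ∧ p.eval₂ β c = 0) ∧
      ∃ w : A, w ^ 2 + w + 1 = 0 := by
  classical
  obtain ⟨a', ha'⟩ : ∃ a' : J → ℂ, a' = fun j => (a j - δ j) / 2 := ⟨_, rfl⟩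
  have hind : AlgebraicIndependent ℤ a' := ha' ▸ K1_indep a ha δ
  obtain ⟨t, ht1, ht2⟩ := exists_isTranscendenceBasis_superset hind.to_subtype_range
  let e : MvPolynomial t ℤ →+* ℂ := (aeval ((↑) : t → ℂ) : MvPolynomial t ℤ →ₐ[ℤ] ℂ).toRingHom
  have he : Function.Injective e := ht2.1
  have hp : Prime (C 2 : MvPolynomial t ℤ) :=
    (MvPolynomial.prime_C_iff t).mpr Int.prime_two
  have hpp : (Ideal.span {(C 2 : MvPolynomial t ℤ)}).IsPrime :=
    (Ideal.span_singleton_prime hp.ne_zero).mpr hp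
  have hle : (Ideal.span {(C 2 : MvPolynomial t ℤ)}).primeCompl ≤ nonZeroDivisors _ :=
    Ideal.primeCompl_le_nonZeroDivisors _
  have hdom : IsDomain (Localization.AtPrime (Ideal.span {(C 2 : MvPolynomial t ℤ)})) :=
    IsLocalization.isDomain_localization hle
  have hdvr : IsDiscreteValuationRing
      (Localization.AtPrime (Ideal.span {(C 2 : MvPolynomial t ℤ)})) := K1_loc _ hp hpp
  have hunit : ∀ y : (Ideal.span {(C 2 : MvPolynomial t ℤ)}).primeCompl, IsUnit (e y) := by
    intro y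
    refine isUnit_iff_ne_zero.2 fun h => ?_
    rw [map_eq_zero_iff _ he] at h
    exact y.2 (h ▸ Ideal.zero_mem _)
  let φ : Localization.AtPrime (Ideal.span {(C 2 : MvPolynomial t ℤ)}) →+* ℂ :=
    IsLocalization.lift hunit
  have hφ1 : ∀ g, φ (algebraMap _ _ g) = e g := fun g => IsLocalization.lift_eq hunit g
  have hlinj : Function.Injective (algebraMap (MvPolynomial t ℤ)
      (Localization.AtPrime (Ideal.span {(C 2 : MvPolynomial t ℤ)}))) :=
    IsLocalization.injective _ hle
  have hφ : Function.Injective φ := by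
    rw [IsLocalization.lift_injective_iff]
    exact fun x y => ⟨fun h => by rw [hlinj h], fun h => by rw [he h]⟩
  have hΩ : ∀ c : ℂ, ∃ p : Polynomial (Localization.AtPrime
      (Ideal.span {(C 2 : MvPolynomial t ℤ)})), p ≠ 0 ∧ p.eval₂ φ c = 0 := by
    intro c
    have h1 := ht2.isAlgebraic
    have h2 : IsAlgebraic (Algebra.adjoin ℤ (Set.range ((↑) : t → ℂ))) c := h1.isAlgebraic c
    obtain ⟨p, hp0, hpc⟩ := h2
    let ε : Algebra.adjoin ℤ (Set.range ((↑) : t → ℂ)) ≃ₐ[ℤ] MvPolynomial t ℤ :=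
      ht2.1.aevalEquiv.symm
    let θ : Algebra.adjoin ℤ (Set.range ((↑) : t → ℂ)) →+*
        Localization.AtPrime (Ideal.span {(C 2 : MvPolynomial t ℤ)}) :=
      (algebraMap (MvPolynomial t ℤ) _).comp (ε : _ →+* MvPolynomial t ℤ)
    have hθ : Function.Injective θ := hlinj.comp ε.injective
    refine ⟨p.map θ, (Polynomial.map_ne_zero_iff hθ).2 hp0, ?_⟩
    rw [Polynomial.eval₂_map]
    have h3 : φ.comp θ = algebraMap (Algebra.adjoin ℤ (Set.range ((↑) : t → ℂ))) ℂ := by
      refine RingHom.ext fun z => ?_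
      have h4 : φ (θ z) = e (ε z) := hφ1 (ε z)
      rw [RingHom.comp_apply, h4]
      obtain ⟨q, rfl⟩ := ht2.1.aevalEquiv.surjective z
      change e (ht2.1.aevalEquiv.symm (ht2.1.aevalEquiv q)) = _
      rw [AlgEquiv.symm_apply_apply]
      exact (ht2.1.algebraMap_aevalEquiv q).symm
    rw [h3]
    exact hpc
  obtain ⟨ω, hω⟩ : ∃ ω : ℂ, ω ^ 2 + ω + 1 = 0 := by
    obtain ⟨z, hz⟩ := IsAlgClosed.exists_root (Polynomial.X ^ 2 + Polynomial.X + 1 : Polynomial ℂ)
      (by
        have : (Polynomial.X ^ 2 + Polynomial.X + 1 : Polynomial ℂ).degree = 2 := by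
          compute_degree!
        rw [this]
        norm_num)
    refine ⟨z, ?_⟩
    have h1 : (Polynomial.X ^ 2 + Polynomial.X + 1 : Polynomial ℂ).eval z = 0 := hz
    simpa using h1
  obtain ⟨A, i1, i2, i3, α, β, hβ, hαβ, hmax, hT⟩ := K1_ext φ hφ hΩ (insert ω T)
  have h2α : α (algebraMap (MvPolynomial t ℤ) _ (C 2)) = 2 :=
    (congrArg (fun z => α (algebraMap (MvPolynomial t ℤ)
      (Localization.AtPrime (Ideal.span {(C 2 : MvPolynomial t ℤ)})) z))
      (map_ofNat C 2 : (C 2 : MvPolynomial t ℤ) = 2)).trans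
      (map_ofNat (α.comp (algebraMap (MvPolynomial t ℤ) _)) 2)
  have hαinj : Function.Injective α := by
    intro p q hpq
    apply hφ
    rw [← hαβ, ← hαβ, hpq]
  refine ⟨A, i1, i2, i3, β, hβ, ?_, ?_, fun c hc => hT c (Finset.mem_insert_of_mem hc), ?_, ?_⟩
  · have h1 : α (algebraMap (MvPolynomial t ℤ) _ (C 2)) ∈ IsLocalRing.maximalIdeal A := by
      apply hmax
      exact (IsLocalization.AtPrime.to_map_mem_maximal_iff _ _ _).2
        (Ideal.mem_span_singleton_self _)
    rwa [h2α] at h1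
  · intro j
    have hj : a' j ∈ t := ht1 ⟨j, rfl⟩
    let c : A := 2 * α (algebraMap (MvPolynomial t ℤ) _ (X ⟨a' j, hj⟩)) + (δ j : A)
    refine ⟨c, ?_, ?_⟩
    · have h1 : β (α (algebraMap (MvPolynomial t ℤ) _ (X ⟨a' j, hj⟩))) = a' j := by
        rw [hαβ, hφ1]
        change (aeval ((↑) : t → ℂ) : MvPolynomial t ℤ →ₐ[ℤ] ℂ) (X ⟨a' j, hj⟩) = _
        rw [aeval_X]
      change β (2 * α (algebraMap (MvPolynomial t ℤ) _ (X ⟨a' j, hj⟩)) + (δ j : A)) = _
      rw [map_add, map_mul, h1, map_ofNat, map_intCast, ha']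
      ring
    · have h1 : α (algebraMap (MvPolynomial t ℤ) _ (C 2)) ∈ IsLocalRing.maximalIdeal A := by
        apply hmax
        exact (IsLocalization.AtPrime.to_map_mem_maximal_iff _ _ _).2
          (Ideal.mem_span_singleton_self _)
      rw [h2α] at h1
      change (2 * α (algebraMap (MvPolynomial t ℤ) _ (X ⟨a' j, hj⟩)) + (δ j : A)) - _ ∈ _
      rw [add_sub_cancel_right]
      exact Ideal.mul_mem_right _ _ h1
  · intro c
    obtain ⟨p, hp0, hpc⟩ := hΩ c
    refine ⟨p.map α, (Polynomial.map_ne_zero_iff hαinj).2 hp0, ?_⟩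
    rw [Polynomial.eval₂_map]
    have h3 : β.comp α = φ := RingHom.ext hαβ
    rw [h3]
    exact hpc
  · -- the cube root of unity
    obtain ⟨x, y, hy, hxy⟩ := hT ω (Finset.mem_insert_self _ _)
    have hy0 : y ≠ 0 := by
      rintro rfl
      exact hy (map_zero β)
    have h1 : x ^ 2 + x * y + y ^ 2 = 0 := by
      apply hβ
      rw [map_add, map_add, map_pow, map_mul, map_pow, map_zero, ← hxy]
      linear_combination (β y) ^ 2 * hω
    -- `x / y` is integral over `A`
    let K := FractionRing A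
    have hyK : algebraMap A K y ≠ 0 := by
      rw [Ne, map_eq_zero_iff _ (IsFractionRing.injective A K)]
      exact hy0
    have h2 : (algebraMap A K x / algebraMap A K y) ^ 2 + algebraMap A K x / algebraMap A K y + 1
        = 0 := by
      have h3 := congrArg (algebraMap A K) h1
      rw [map_add, map_add, map_pow, map_mul, map_pow, map_zero] at h3
      exact TF1_div _ _ hyK h3
    have hint : IsIntegral A (algebraMap A K x / algebraMap A K y) := by
      refine ⟨Polynomial.X ^ 2 + Polynomial.X + 1, ?_, ?_⟩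
      · monicity!
      · rw [Polynomial.eval₂_add, Polynomial.eval₂_add, Polynomial.eval₂_pow, Polynomial.eval₂_X,
          Polynomial.eval₂_one]
        exact h2
    obtain ⟨w, hw⟩ := IsIntegrallyClosed.isIntegral_iff.1 hint
    refine ⟨w, ?_⟩
    apply IsFractionRing.injective A K
    rw [map_add, map_add, map_pow, map_one, map_zero, hw]
    exact h2

end MP2619.R
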