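import Pool.Agent.Lib.MP_2619d0_ag.R.TF1
import Pool.Agent.Lib.MP_2619d0_ag.K.K3b

/-!
A place of odd residue degree over the Gauss valuation of residue characteristic two, for odd degree
extensions of the function field of affine space.
-/

set_option autoImplicit false

namespace MP2619.R

universe u

open MvPolynomial Pool.Agent.Lib.MP_2619d0_ag Pool.Agent.Lib.MP_2619d0_ag.T MP2619.K

/-- The place. -/
theorem TF2_place {N : ℕ} {F : MvPolynomial (Fin (N + 1)) ℂ} (hF : VG F)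
    {M : Type u} [Field M] (ψ : MvPolynomial (Fin N) ℂ →+* M) (hψ : Function.Injective ψ)
    (hodd : Odd (fd ψ)) {ι : Type} [Finite ι] (p : ι → M) :
    ∃ (A : Type) (_ : CommRing A) (_ : IsDomain A) (_ : IsDiscreteValuationRing A) (β : A →+* ℂ)
      (M2 : Subfield M) (ψ' : MvPolynomial (Fin N) A →+* M2) (O : ValuationSubring M2)
      (hO : ∀ G, ψ' G ∈ O)
      (ρ : MvPolynomial (Fin N) (IsLocalRing.ResidueField A) →+* IsLocalRing.ResidueField O)
      (c : Fin (N + 1) → Fin (N + 1) → Fin (N + 1) → O),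
      Function.Injective ψ' ∧ (∀ c : ℂ, ∃ p : Polynomial A, p ≠ 0 ∧ p.eval₂ β c = 0) ∧
      (∀ i, p i ∈ M2) ∧ (∀ G, (ψ' G : M) = ψ (map β G)) ∧
      (∀ G, O.valuation (ψ' G) < 1 ↔ ∀ d, coeff d G ∈ IsLocalRing.maximalIdeal A) ∧
      (∀ G, ρ (map (IsLocalRing.residue A) G) = IsLocalRing.residue O (ψ'.codRestrict O hO G)) ∧
      Function.Injective ρ ∧
      Odd (Module.finrank (Subfield.closure (Set.range ρ)) (IsLocalRing.ResidueField O)) ∧
      (2 : IsLocalRing.ResidueField A) = 0 ∧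
      (∃ w : IsLocalRing.ResidueField A, w ^ 2 + w + 1 = 0) ∧
      (∀ i j l, ((c i j l : M2) : M) = ψ (C (cub F i j l))) ∧
      (∀ i j l, IsLocalRing.residue O (c i j l) = if i = j ∧ j = l then 1 else 0) := by
  classical
  have hchar : CharZero M := charZero_of_injective_ringHom (f := ψ.comp C) (ψ.comp C).injective
  obtain ⟨T, hT⟩ := descend ψ hodd.pos.ne' p
  obtain ⟨A, i1, i2, i3, β, hβ, h2A, hcA, hTT, halg, w, hw⟩ :=
    TF1_dvr (fun j : Exp3 (N + 1) => coeff j.1 F) hF.2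
    (fun j => if ∃ i, j.1 = Finsupp.single i 3 then 1 else 0) (T.biUnion fun c => c.coeffs)
  have hden := SG4_den β T (fun c hc z hz => hTT z (Finset.mem_biUnion.mpr ⟨c, hc, hz⟩))
  obtain ⟨M2, hM2, hp, hfr⟩ := hT (MvPolynomial (Fin N) A) (MvPolynomial.map β) (by
    intro c hc
    obtain ⟨a, b, hb, hab⟩ := hden c hc
    refine ⟨a, b, ?_, ?_⟩
    · intro h0
      exact hb (hψ (by rw [h0, map_zero]))
    · rw [← map_mul, hab])
  obtain ⟨ψ', hψ'⟩ : ∃ ψ' : MvPolynomial (Fin N) A →+* M2,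
    ψ' = (ψ.comp (MvPolynomial.map β)).codRestrict M2 hM2 := ⟨_, rfl⟩
  have hψ'v : ∀ G, (ψ' G : M) = ψ (map β G) := fun G => by rw [hψ']; rfl
  have hψ'inj : Function.Injective ψ' := by
    intro a b hab
    have h1 : ψ (map β a) = ψ (map β b) := by
      rw [← hψ'v, ← hψ'v, hab]
    exact map_injective β hβ (hψ h1)
  rw [← hψ'] at hfr
  obtain ⟨O, hO, hval, hoddO⟩ := gauss_place ψ' hψ'inj (by rw [hfr]; exact hodd)
  obtain ⟨ρ0, hρ0⟩ : ∃ ρ0, ρ0 = (IsLocalRing.residue O).comp (ψ'.codRestrict O hO) := ⟨_, rfl⟩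
  have hρ0z : ∀ G, ρ0 G = 0 ↔ ∀ d, coeff d G ∈ IsLocalRing.maximalIdeal A := by
    intro G
    rw [← hval, ← O.valuation_lt_one_iff (⟨ψ' G, hO G⟩ : O), ← IsLocalRing.residue_eq_zero_iff, hρ0]
    rfl
  have hρ0C : ∀ a, ρ0 (C a) = 0 ↔ a ∈ IsLocalRing.maximalIdeal A := by
    intro a
    rw [hρ0z]
    constructor
    · intro h
      have h1 := h 0
      rwa [coeff_C, if_pos rfl] at h1
    · intro h d
      rw [coeff_C]
      split_ifs
      · exact h
      · exact Ideal.zero_mem _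
  -- the residue map
  obtain ⟨r, hr⟩ : ∃ r : A →+* IsLocalRing.ResidueField O, r = ρ0.comp C := ⟨_, rfl⟩
  have hloc : IsLocalHom r := by
    refine ⟨fun a ha => ?_⟩
    by_contra hna
    have h1 : a ∈ IsLocalRing.maximalIdeal A := (IsLocalRing.mem_maximalIdeal a).2 hna
    rw [← hρ0C] at h1
    rw [hr] at ha
    exact ha.ne_zero h1
  let r1 : IsLocalRing.ResidueField A →+* IsLocalRing.ResidueField O := IsLocalRing.ResidueField.lift r
  have hr1 : ∀ a, r1 (IsLocalRing.residue A a) = ρ0 (C a) := by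
    intro a
    change IsLocalRing.ResidueField.lift r (IsLocalRing.residue A a) = _
    rw [IsLocalRing.ResidueField.lift_residue_apply, hr]
    rfl
  obtain ⟨ρ1, hρ1⟩ : ∃ ρ1 : MvPolynomial (Fin N) (IsLocalRing.ResidueField A) →+*
    IsLocalRing.ResidueField O, ρ1 = eval₂Hom r1 (fun i => ρ0 (X i)) := ⟨_, rfl⟩
  have hρ1X : ∀ i, ρ1 (X i) = ρ0 (X i) := by
    intro i
    rw [hρ1, coe_eval₂Hom, eval₂_X]
  have hρ10 : ∀ G, ρ1 (map (IsLocalRing.residue A) G) = ρ0 G := by
    intro G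
    have h1 : ρ1.comp (map (IsLocalRing.residue A)) = ρ0 := by
      apply MvPolynomial.ringHom_ext
      · intro a
        rw [RingHom.comp_apply, map_C, hρ1, coe_eval₂Hom, eval₂_C, hr1]
      · intro i
        rw [RingHom.comp_apply, map_X, hρ1X]
    exact RingHom.congr_fun h1 G
  have hsurj : Function.Surjective (map (IsLocalRing.residue A) :
      MvPolynomial (Fin N) A → MvPolynomial (Fin N) (IsLocalRing.ResidueField A)) :=
    map_surjective _ IsLocalRing.residue_surjective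
  have hρ1inj : Function.Injective ρ1 := by
    rw [injective_iff_map_eq_zero]
    intro P hP
    obtain ⟨G, rfl⟩ := hsurj P
    rw [hρ10, hρ0z] at hP
    ext d
    rw [coeff_map, coeff_zero, IsLocalRing.residue_eq_zero_iff]
    exact hP d
  have hrange : Set.range ρ1 = Set.range ρ0 := by
    apply Set.Subset.antisymm
    · rintro _ ⟨P, rfl⟩
      obtain ⟨G, rfl⟩ := hsurj P
      exact ⟨G, (hρ10 G).symm⟩
    · rintro _ ⟨G, rfl⟩
      exact ⟨_, hρ10 G⟩
  have hodd1 : Odd (Module.finrank (Subfield.closure (Set.range ρ1))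
      (IsLocalRing.ResidueField O)) := by
    rw [hrange, hρ0]
    exact hoddO
  have h2res : (2 : IsLocalRing.ResidueField A) = 0 := by
    have h1 : IsLocalRing.residue A 2 = 0 := (IsLocalRing.residue_eq_zero_iff _).2 h2A
    rwa [map_ofNat] at h1
  -- coefficients
  choose cA hcA1 hcA2 using hcA
  have hdeg : ∀ i j k : Fin (N + 1), (Finsupp.single i 1 + Finsupp.single j 1 +
      Finsupp.single k 1 : Fin (N + 1) →₀ ℕ).degree = 3 := by
    intro i j k
    simp [map_add]
  obtain ⟨c, hc⟩ : ∃ c : Fin (N + 1) → Fin (N + 1) → Fin (N + 1) → O, ∀ i j k,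
      c i j k = if i ≤ j ∧ j ≤ k then (ψ'.codRestrict O hO)
        (C (cA (⟨Finsupp.single i 1 + Finsupp.single j 1 + Finsupp.single k 1, hdeg i j k⟩ :
          Exp3 (N + 1)))) else 0 := ⟨_, fun _ _ _ => rfl⟩
  have hcL : ∀ i j l, ((c i j l : M2) : M) = ψ (C (cub F i j l)) := by
    intro i j k
    rw [hc]
    unfold cub
    split_ifs with h
    · change (ψ' (C _) : M) = _
      rw [hψ'v, map_C, hcA1]
    · rw [C_0, map_zero]
      rfl
  have hcr : ∀ i j l, IsLocalRing.residue O (c i j l) = if i = j ∧ j = l then 1 else 0 := by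
    intro i j k
    rw [hc]
    by_cases h : i ≤ j ∧ j ≤ k
    · rw [if_pos h]
      have h3 := (hρ0C _).2 (hcA2 (⟨Finsupp.single i 1 + Finsupp.single j 1 + Finsupp.single k 1,
        hdeg i j k⟩ : Exp3 (N + 1)))
      rw [C_sub, map_sub, sub_eq_zero, hρ0] at h3
      change IsLocalRing.residue O ((ψ'.codRestrict O hO) (C _)) = _ at h3
      rw [h3]
      by_cases h2 : i = j ∧ j = k
      · rw [if_pos h2, if_pos]
        · rw [Int.cast_one, C_1, map_one]
        · obtain ⟨rfl, rfl⟩ := h2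
          refine ⟨i, ?_⟩
          change (Finsupp.single i 1 + Finsupp.single i 1 + Finsupp.single i 1 :
            Fin (N + 1) →₀ ℕ) = _
          rw [← Finsupp.single_add, ← Finsupp.single_add]
      · rw [if_neg h2, if_neg]
        · rw [Int.cast_zero, C_0, map_zero]
        · rintro ⟨l, hl⟩
          exact h2 (V1_sum_single i j k l hl)
    · rw [if_neg h, if_neg, map_zero]
      rintro ⟨rfl, rfl⟩
      exact h ⟨le_refl _, le_refl _⟩
  refine ⟨A, i1, i2, i3, β, M2, ψ', O, hO, ρ1, c, hψ'inj, halg, hp, hψ'v, hval, ?_, hρ1inj, hodd1,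
    h2res, ⟨IsLocalRing.residue A w, ?_⟩, hcL, hcr⟩
  · intro G
    rw [hρ10, hρ0]
    rfl
  · rw [← map_pow, ← map_add, ← map_one (IsLocalRing.residue A), ← map_add, hw, map_zero]

end MP2619.R
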