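import Pool.Agent.Lib.MP_2619d0_ag.K.K6
import Pool.Agent.Lib.MP_2619d0_ag.K.K2

/-!
Integrality of the two summands of a vector whose residue is in general position.
-/

set_option autoImplicit false

namespace MP2619.R

open Pool.Agent.Lib.MP_2619d0_ag Pool.Agent.Lib.MP_2619d0_ag.T MP2619.K

theorem TF3_mem {K : Type*} [Field K] (O : ValuationSubring K) {n : ℕ}
    (c : Fin n → Fin n → Fin n → O)
    (hc : ∀ i j l, IsLocalRing.residue O (c i j l) = if i = j ∧ j = l then 1 else 0)
    (h2 : (2 : IsLocalRing.ResidueField O) = 0) (U : Fin n → O)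
    (hU : ∀ w : Fin n → IsLocalRing.ResidueField O,
      ∑ i, w i ^ 2 * IsLocalRing.residue O (U i) = 0 → w = 0) (X Y : Fin n → K)
    (hXY : ∀ i, X i + Y i = U i) (hX : Fc (cm O.subtype c) X = 0)
    (hY : Fc (cm O.subtype c) Y = 0) (i : Fin n) : X i ∈ O := by
  classical
  by_cases hX0 : X = 0
  · rw [hX0]
    exact O.zero_mem
  obtain ⟨g, z, i0, hg, hz, hgz⟩ := K6_scale O X hX0
  have hXg : ∀ j, X j = g * (z j : K) := fun j => congrFun hgz j
  by_cases hgO : g ∈ O
  · rw [hXg]
    exact O.mul_mem _ _ hgO (z i).2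
  exfalso
  have heO : g⁻¹ ∈ O := (O.mem_or_inv_mem g).resolve_left hgO
  obtain ⟨e, he⟩ : ∃ e : O, (e : K) = g⁻¹ := ⟨⟨g⁻¹, heO⟩, rfl⟩
  have he0 : (e : K) ≠ 0 := by rw [he]; exact inv_ne_zero hg
  have he0' : e ≠ 0 := fun h => he0 (by rw [h]; rfl)
  have hres : IsLocalRing.residue O e = 0 := by
    rw [IsLocalRing.residue_eq_zero_iff, IsLocalRing.mem_maximalIdeal, mem_nonunits_iff]
    rintro ⟨u, hu⟩
    apply hgO
    have h1 : ((u : O) : K) * (((u⁻¹ : Oˣ) : O) : K) = 1 := by
      have h2 : ((u : O) * ((u⁻¹ : Oˣ) : O) : O) = 1 := Units.mul_inv u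
      exact congrArg Subtype.val h2
    rw [hu, he] at h1
    have h2 : (((u⁻¹ : Oˣ) : O) : K) = g := by
      field_simp at h1
      exact h1
    rw [← h2]
    exact (((u⁻¹ : Oˣ) : O)).2
  -- the equations
  have hsub : Function.Injective O.subtype := O.subtype_injective
  have hFz : Fc c z = 0 := by
    apply hsub
    rw [map_zero, ← Fc_cm]
    have h1 : (fun i => O.subtype (z i)) = g⁻¹ • X := by
      rw [hgz, smul_smul, inv_mul_cancel₀ hg, one_smul]
      rfl
    rw [h1, Fc_smul, hX, mul_zero]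
  have hFy : Fc c (e • U + (-1 : O) • z) = 0 := by
    apply hsub
    rw [map_zero, ← Fc_cm]
    have h1 : (fun i => O.subtype ((e • U + (-1 : O) • z) i)) = g⁻¹ • Y := by
      funext j
      change ((e * U j + (-1) * z j : O) : K) = g⁻¹ * Y j
      push_cast
      rw [he, ← hXY, hXg]
      field_simp
      ring
    rw [h1, Fc_smul, hY, mul_zero]
  rw [Fc_add, Fc_smul, Dc_smul_left, Dc_smul_right, Dc_smul_left, Dc_smul_right, Fc_smul, hFz] at hFy
  have h3 : e * (e ^ 2 * Fc c U - e * Dc c U z + Dc c z U) = 0 := by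
    linear_combination hFy
  have h4 := (mul_eq_zero.1 h3).resolve_left he0'
  have h5 := congrArg (IsLocalRing.residue O) h4
  rw [map_add, map_sub, map_mul, map_mul, map_pow, hres, K6_resD O c hc h2 z U, map_zero,
    zero_pow (by norm_num), zero_mul, zero_mul, sub_zero, zero_add] at h5
  have h6 := congrFun (hU _ h5) i0
  rw [Pi.zero_apply, hz, map_one] at h6
  exact one_ne_zero h6

/-- The two summands are integral. -/
theorem TF3_integral {K : Type*} [Field K] (O : ValuationSubring K) {n : ℕ}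
    (c : Fin n → Fin n → Fin n → O)
    (hc : ∀ i j l, IsLocalRing.residue O (c i j l) = if i = j ∧ j = l then 1 else 0)
    (h2 : (2 : IsLocalRing.ResidueField O) = 0) (U : Fin n → O)
    (hU : ∀ w : Fin n → IsLocalRing.ResidueField O,
      ∑ i, w i ^ 2 * IsLocalRing.residue O (U i) = 0 → w = 0) (X Y : Fin n → K)
    (hXY : ∀ i, X i + Y i = U i) (hX : Fc (cm O.subtype c) X = 0)
    (hY : Fc (cm O.subtype c) Y = 0) : (∀ i, X i ∈ O) ∧ ∀ i, Y i ∈ O :=
  ⟨TF3_mem O c hc h2 U hU X Y hXY hX hY,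
    TF3_mem O c hc h2 U hU Y X (fun i => by rw [add_comm]; exact hXY i) hY hX⟩

/-- The residues. -/
theorem TF3_res {K : Type*} [Field K] (O : ValuationSubring K) {n : ℕ}
    (c : Fin n → Fin n → Fin n → O)
    (hc : ∀ i j l, IsLocalRing.residue O (c i j l) = if i = j ∧ j = l then 1 else 0)
    (X : Fin n → O) (hX : Fc (cm O.subtype c) (fun i => (X i : K)) = 0) :
    ∑ i, IsLocalRing.residue O (X i) ^ 3 = 0 := by
  classical
  have h1 : Fc c X = 0 := by
    apply O.subtype_injective
    rw [map_zero, ← Fc_cm]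
    exact hX
  have h2 := congrArg (IsLocalRing.residue O) h1
  rwa [map_zero, ← Fc_cm, A4_Fc (cm (IsLocalRing.residue O) c) hc] at h2

/-- The coordinates of a generic point are linearly independent over the squares. -/
theorem TF3_indep {k κ : Type*} [Field k] [Field κ] (h2 : (2 : κ) = 0) {N : ℕ}
    (ρ : MvPolynomial (Fin N) k →+* κ) (hρ : Function.Injective ρ)
    (hodd : Odd (Module.finrank (Subfield.closure (Set.range ρ)) κ)) (u : Fin (N + 1) → κ)
    (h0 : u 0 = 1) (hu : ∀ i : Fin N, u i.succ = ρ (MvPolynomial.X i))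
    (w : Fin (N + 1) → κ) (hw : ∑ i, w i ^ 2 * u i = 0) : w = 0 := by
  classical
  have : CharP κ 2 := CharTwo.of_one_ne_zero_of_two_eq_zero one_ne_zero h2
  have hneg : ∀ a : κ, a + a = 0 := CharTwo.add_self_eq_zero
  have hj : ∀ j : Fin N, w j.succ = 0 := by
    intro j
    obtain ⟨D, hD⟩ := K2_der h2 ρ hρ hodd j
    have hsq : ∀ a : κ, D (a ^ 2) = 0 := by
      intro a
      rw [pow_two, Derivation.leibniz]
      exact hneg _
    have h5 : ∀ i : Fin N, D (w i.succ ^ 2 * u i.succ) =
        if i = j then w i.succ ^ 2 else 0 := by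
      intro i
      rw [Derivation.leibniz, hsq, smul_eq_mul, smul_eq_mul, mul_zero, add_zero, hu, hD]
      split_ifs
      · rw [mul_one]
      · rw [mul_zero]
    have e2 := congrArg D hw
    rw [Fin.sum_univ_succ, h0, mul_one, map_add, hsq, zero_add, map_sum, map_zero,
      Finset.sum_congr rfl (fun i _ => h5 i), Finset.sum_ite_eq', if_pos (Finset.mem_univ _)] at e2
    exact pow_eq_zero_iff (two_ne_zero) |>.1 e2
  have h3 : w 0 = 0 := by
    rw [Fin.sum_univ_succ, h0, mul_one, Finset.sum_eq_zero (fun i _ => by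
      rw [hj i, zero_pow (by norm_num), zero_mul]), add_zero] at hw
    exact pow_eq_zero_iff (two_ne_zero) |>.1 hw
  funext i
  exact Fin.cases h3 hj i

end MP2619.R
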