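import Pool.Agent.Lib.MP_2619d0_ag.T.Defs

/-!
Transcendence degree and residues.
-/

set_option autoImplicit false

namespace MP2619.R

universe u v

open MvPolynomial

/-- elements with algebraically independent residues are algebraically independent -/
theorem TF5_indep {A : Type*} {M : Type*} [CommRing A] [IsDomain A] [IsDiscreteValuationRing A]
    [Field M] (φ : A →+* M) (hφ : Function.Injective φ) (O : ValuationSubring M)
    (hO : ∀ a, φ a ∈ O) (r : IsLocalRing.ResidueField A →+* IsLocalRing.ResidueField O)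
    (hr : ∀ a, r (IsLocalRing.residue A a) = IsLocalRing.residue O ⟨φ a, hO a⟩) {ι : Type*}
    (b : ι → O) (hb : Function.Injective (eval₂Hom r (fun i => IsLocalRing.residue O (b i)))) :
    Function.Injective (eval₂Hom φ (fun i => (b i : M))) := by
  classical
  obtain ⟨ϖ, hϖ⟩ := IsDiscreteValuationRing.exists_irreducible A
  have hmax := (IsDiscreteValuationRing.irreducible_iff_uniformizer ϖ).mp hϖ
  have hprime : Prime (C ϖ : MvPolynomial ι A) := (MvPolynomial.prime_C_iff ι).mpr hϖ.prime
  let φO : A →+* O := φ.codRestrict O hO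
  let E : MvPolynomial ι A →+* O := eval₂Hom φO b
  have hE : ∀ P, ((E P : O) : M) = eval₂Hom φ (fun i => (b i : M)) P := by
    intro P
    have h1 : (O.subtype).comp E = eval₂Hom φ (fun i => (b i : M)) := by
      apply MvPolynomial.ringHom_ext
      · intro a
        rw [RingHom.comp_apply, coe_eval₂Hom, coe_eval₂Hom, eval₂_C, eval₂_C]
        rfl
      · intro i
        rw [RingHom.comp_apply, coe_eval₂Hom, coe_eval₂Hom, eval₂_X, eval₂_X]
        rfl
    exact RingHom.congr_fun h1 P
  have hEr : ∀ P, IsLocalRing.residue O (E P) =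
      eval₂Hom r (fun i => IsLocalRing.residue O (b i)) (map (IsLocalRing.residue A) P) := by
    intro P
    have h1 : (IsLocalRing.residue O).comp E =
        (eval₂Hom r (fun i => IsLocalRing.residue O (b i))).comp (map (IsLocalRing.residue A)) := by
      apply MvPolynomial.ringHom_ext
      · intro a
        rw [RingHom.comp_apply, RingHom.comp_apply, map_C, coe_eval₂Hom, coe_eval₂Hom, eval₂_C,
          eval₂_C, hr]
        rfl
      · intro i
        rw [RingHom.comp_apply, RingHom.comp_apply, map_X, coe_eval₂Hom, coe_eval₂Hom, eval₂_X,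
          eval₂_X]
    exact RingHom.congr_fun h1 P
  rw [injective_iff_map_eq_zero]
  intro P hP
  by_contra hP0
  obtain ⟨n, Q, hQ, hPQ⟩ := WfDvdMonoid.max_power_factor hP0 hprime.irreducible
  rw [hPQ, map_mul, map_pow] at hP
  have h1 : eval₂Hom φ (fun i => (b i : M)) (C ϖ) ≠ 0 := by
    rw [coe_eval₂Hom, eval₂_C, Ne, map_eq_zero_iff _ hφ]
    exact hϖ.ne_zero
  have h2 : eval₂Hom φ (fun i => (b i : M)) Q = 0 :=
    (mul_eq_zero.1 hP).resolve_left (pow_ne_zero n h1)
  rw [← hE] at h2
  have h3 : E Q = 0 := Subtype.ext h2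
  have h4 := hEr Q
  rw [h3, map_zero] at h4
  have h5 : map (IsLocalRing.residue A) Q = 0 := hb (h4.symm.trans (map_zero _).symm)
  apply hQ
  rw [C_dvd_iff_dvd_coeff]
  intro d
  have h6 := congrArg (coeff d) h5
  rw [coeff_map, coeff_zero, IsLocalRing.residue_eq_zero_iff] at h6
  rwa [hmax, Ideal.mem_span_singleton] at h6

/-- from a ring over which `ℂ` is algebraic to `ℂ` -/
theorem TF5_extend {A : Type} {L : Type*} [CommRing A] [IsDomain A] [Field L] [Algebra ℂ L]
    (β : A →+* ℂ) (hΩ : ∀ c : ℂ, ∃ p : Polynomial A, p ≠ 0 ∧ p.eval₂ β c = 0) {ι : Type*}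
    (q : ι → L) (hq : Function.Injective (eval₂Hom ((algebraMap ℂ L).comp β) q)) :
    AlgebraicIndependent ℂ q := by
  let _ : Algebra A ℂ := β.toAlgebra
  let _ : Algebra A L := ((algebraMap ℂ L).comp β).toAlgebra
  have : IsScalarTower A ℂ L := IsScalarTower.of_algebraMap_eq fun _ => rfl
  have : Algebra.IsAlgebraic A ℂ := ⟨fun c => hΩ c⟩
  have h1 : AlgebraicIndependent A q := hq
  exact h1.extendScalars ℂ

/-- a criterion for the transcendence degree of a generated field -/
theorem TF5_crit {k : Type v} {M : Type u} [Field k] [Field M] [Algebra k M] (S : Set M) (D : ℕ)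
    (h : ∀ z : Fin (D + 1) → M, (∀ i, z i ∈ S) → ¬ AlgebraicIndependent k z) :
    Algebra.trdeg k (IntermediateField.adjoin k S) ≤ (D : Cardinal.{u}) := by
  classical
  obtain ⟨E, hE⟩ : ∃ E, E = IntermediateField.adjoin k S := ⟨_, rfl⟩
  rw [← hE]
  have hSE : S ⊆ E := by
    rw [hE]
    exact IntermediateField.subset_adjoin k S
  let S' : Set E := {z | (z : M) ∈ S}
  have himg : E.val '' S' = S := by
    ext z
    constructor
    · rintro ⟨w, hw, rfl⟩
      exact hw
    · intro hz
      exact ⟨⟨z, hSE hz⟩, hz, rfl⟩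
  have hmap : (Algebra.adjoin k S').map E.val = Algebra.adjoin k S := by
    rw [AlgHom.map_adjoin, himg]
  have halg : Algebra.IsAlgebraic (Algebra.adjoin k S') E := by
    refine ⟨fun e => ?_⟩
    have he : (e : M) ∈ IntermediateField.adjoin k S := hE ▸ e.2
    rw [IntermediateField.mem_adjoin_iff_div] at he
    obtain ⟨r, hr, s, hs, hrs⟩ := he
    rw [← hmap] at hr hs
    obtain ⟨r', hr', hr2⟩ := hr
    obtain ⟨s', hs', hs2⟩ := hs
    by_cases hs0 : s' = 0
    · have h1 : e = 0 := by
        apply Subtype.ext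
        rw [hrs, ← hs2, hs0]
        simp
      rw [h1]
      exact isAlgebraic_zero
    · have h1 : e = r' / s' := by
        apply Subtype.ext
        rw [hrs, ← hs2, ← hr2]
        rfl
      have h2 : IsAlgebraic (Algebra.adjoin k S') r' :=
        isAlgebraic_algebraMap (⟨r', hr'⟩ : Algebra.adjoin k S')
      have h3 : IsAlgebraic (Algebra.adjoin k S') s' :=
        isAlgebraic_algebraMap (⟨s', hs'⟩ : Algebra.adjoin k S')
      rw [h1, div_eq_mul_inv]
      exact h2.mul h3.inv
  obtain ⟨t, htS, ht⟩ := exists_isTranscendenceBasis_subset (R := k) S'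
  rw [← ht.cardinalMk_eq_trdeg]
  by_contra hcon
  push Not at hcon
  have h1 : ((D + 1 : ℕ) : Cardinal.{u}) ≤ Cardinal.mk t := by
    have h2 := Order.succ_le_of_lt hcon
    rw [Cardinal.succ_natCast] at h2
    exact_mod_cast h2
  obtain ⟨f⟩ : Nonempty (Fin (D + 1) ↪ t) := by
    rw [← Cardinal.lift_mk_le', Cardinal.mk_fin, Cardinal.lift_natCast, Cardinal.lift_id']
    simpa using h1
  refine h (fun i => (((f i : t) : E) : M)) (fun i => htS (f i).2) ?_
  have h2 := ht.1.comp f f.injective
  exact h2.map' (f := E.val) E.val.injective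

end MP2619.R
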