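import Pool.Agent.Lib.MP_2619d0_ag.R.Defs
import Pool.Agent.Lib.MP_2619d0_ag.R.TF2
import Pool.Agent.Lib.MP_2619d0_ag.R.TF4
import Pool.Agent.Lib.MP_2619d0_ag.R.TF5

/-!
The transfer from characteristic zero to characteristic two.
-/

set_option autoImplicit false

namespace MP2619.R

universe u

open MvPolynomial Pool.Agent.Lib.MP_2619d0_ag Pool.Agent.Lib.MP_2619d0_ag.T MP2619.K

/-- Odd data over `ℂ` specialise to odd data in characteristic two. -/
theorem TF6_transfer {N D : ℕ} {F : MvPolynomial (Fin (N + 1)) ℂ} (hF : VG F)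
    {L M : Type u} [Field L] [Algebra ℂ L] [Field M] (ι : L →+* M)
    (ψ : MvPolynomial (Fin N) ℂ →+* M) (hψC : ∀ a, ψ (C a) = ι (algebraMap ℂ L a))
    (hψ : Function.Injective ψ) (hodd : Odd (fd ψ)) (x' y' : Fin (N + 1) → M)
    (hxy : ∀ i, x' i + y' i = yh ψ i) (hFx : Fc (cc F ψ) x' = 0) (hFy : Fc (cc F ψ) y' = 0)
    (x : Fin (N + 1) → L) (μ : M) (hyx : ∀ i, y' i = μ * ι (x i))
    (hx : Algebra.trdeg ℂ (IntermediateField.adjoin ℂ {z : L | ∃ i j, z = x i / x j}) ≤
      (D : Cardinal.{u})) (hS : S.{0, u} (N + 1) D) : False := by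
  classical
  obtain ⟨A, _, _, _, β, M2, ψ', O, hO, ρ, c, hψ'inj, hΩ, hp, hψ'v, hval, hρ, hρinj, hρodd, h2A,
    hom, hcM, hcr⟩ := TF2_place hF ψ hψ hodd (Sum.elim x' y')
  have h2O : (2 : IsLocalRing.ResidueField O) = 0 := by
    have h1 := congrArg (fun a => ρ (C a)) h2A
    simp only [map_ofNat, map_zero] at h1
    exact h1
  -- vectors over `M2`
  let xM : Fin (N + 1) → M2 := fun i => ⟨x' i, hp (Sum.inl i)⟩
  let yM : Fin (N + 1) → M2 := fun i => ⟨y' i, hp (Sum.inr i)⟩
  let U : Fin (N + 1) → O := Fin.cons 1 (fun i => (ψ'.codRestrict O hO) (X i))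
  have hU0 : U 0 = 1 := rfl
  have hUs : ∀ i : Fin N, U i.succ = (ψ'.codRestrict O hO) (X i) := fun _ => rfl
  have hUM : ∀ i, ((U i : M2) : M) = yh ψ i := by
    intro i
    refine Fin.cases ?_ (fun j => ?_) i
    · rw [hU0]
      rfl
    · rw [hUs]
      change ((ψ' (X j) : M2) : M) = _
      rw [hψ'v, map_X]
      rfl
  have hcc : cm M2.subtype (cm O.subtype c) = cc F ψ := by
    funext i j l
    exact hcM i j l
  have hFM : ∀ v : Fin (N + 1) → M2, Fc (cc F ψ) (fun i => (v i : M)) = 0 →
      Fc (cm O.subtype c) v = 0 := by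
    intro v hv
    have h1 : Fc (cm M2.subtype (cm O.subtype c)) (fun i => (v i : M)) =
      ((Fc (cm O.subtype c) v : M2) : M) := Fc_cm M2.subtype v
    rw [hcc, hv] at h1
    exact Subtype.ext h1.symm
  have hsum : ∀ i, xM i + yM i = (U i : M2) := by
    intro i
    apply Subtype.ext
    rw [hUM, ← hxy]
    rfl
  have hUind : ∀ w : Fin (N + 1) → IsLocalRing.ResidueField O,
      ∑ i, w i ^ 2 * IsLocalRing.residue O (U i) = 0 → w = 0 := by
    intro w hw
    refine TF3_indep h2O ρ hρinj hρodd (fun i => IsLocalRing.residue O (U i)) ?_ ?_ w hw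
    · rw [hU0, map_one]
    · intro i
      rw [hUs, ← hρ, map_X]
  obtain ⟨hxO, hyO⟩ := TF3_integral O c hcr h2O U hUind xM yM hsum (hFM xM hFx) (hFM yM hFy)
  let xO : Fin (N + 1) → O := fun i => ⟨xM i, hxO i⟩
  let yO : Fin (N + 1) → O := fun i => ⟨yM i, hyO i⟩
  have hFxb := TF3_res O c hcr xO (hFM xM hFx)
  have hFyb := TF3_res O c hcr yO (hFM yM hFy)
  have hsumO : ∀ i, xO i + yO i = U i := fun i => Subtype.ext (hsum i)
  -- the residues
  obtain ⟨xb, hxb⟩ : ∃ xb : Fin (N + 1) → IsLocalRing.ResidueField O,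
    ∀ i, xb i = IsLocalRing.residue O (xO i) := ⟨_, fun _ => rfl⟩
  obtain ⟨yb, hyb⟩ : ∃ yb : Fin (N + 1) → IsLocalRing.ResidueField O,
    ∀ i, yb i = IsLocalRing.residue O (yO i) := ⟨_, fun _ => rfl⟩
  obtain ⟨ub, hub⟩ : ∃ ub : Fin (N + 1) → IsLocalRing.ResidueField O,
    ∀ i, ub i = IsLocalRing.residue O (U i) := ⟨_, fun _ => rfl⟩
  have hub0 : ub 0 = 1 := by rw [hub, hU0, map_one]
  have hubs : ∀ i : Fin N, ub i.succ = ρ (X i) := by
    intro i
    rw [hub, hUs, ← hρ, map_X]
  have hxyb : ∀ i, xb i + yb i = ub i := by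
    intro i
    rw [hxb, hyb, hub, ← map_add, hsumO]
  let κ := IsLocalRing.ResidueField O
  let r : IsLocalRing.ResidueField A →+* κ := ρ.comp C
  let _ : Algebra (IsLocalRing.ResidueField A) (MM κ) := ((cM κ).comp r).toAlgebra
  have halg : ∀ a, algebraMap (IsLocalRing.ResidueField A) (MM κ) a = cM κ (ρ (C a)) :=
    fun _ => rfl
  have hfun : (fun i => sv κ * cM κ (xb i) + sv κ * cM κ (yb i)) =
      fun i => sv κ * cM κ (ub i) := by
    funext i
    rw [← mul_add, ← map_add, hxyb]
  have hs := TF4_sv_ne κ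
  refine hS (IsLocalRing.ResidueField A) (MM κ) (fun i => sv κ * cM κ (xb i))
    (fun i => sv κ * cM κ (yb i)) ⟨h2A, hom, ?_, ?_, ?_, ?_, ?_⟩
  · rw [hfun]
    exact TF4_ind ρ hρinj ub hub0 hubs halg
  · rw [hfun]
    exact TF4_odd ρ hρodd ub hub0 hubs halg
  · have h1 : ∑ i, (sv κ * cM κ (xb i)) ^ 3 = sv κ ^ 3 * cM κ (∑ i, xb i ^ 3) := by
      rw [map_sum, Finset.mul_sum]
      refine Finset.sum_congr rfl fun i _ => ?_
      rw [map_pow]
      ring
    rw [h1, Finset.sum_congr rfl (fun i _ => by rw [hxb i]), hFxb, map_zero, mul_zero]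
  · have h1 : ∑ i, (sv κ * cM κ (yb i)) ^ 3 = sv κ ^ 3 * cM κ (∑ i, yb i ^ 3) := by
      rw [map_sum, Finset.mul_sum]
      refine Finset.sum_congr rfl fun i _ => ?_
      rw [map_pow]
      ring
    rw [h1, Finset.sum_congr rfl (fun i _ => by rw [hyb i]), hFyb, map_zero, mul_zero]
  · -- the transcendence degree
    refine TF5_crit _ D ?_
    intro z hz hzind
    choose i j hij using hz
    have hzl : ∀ l, z l = cM κ (yb (i l) / yb (j l)) := by
      intro l
      rw [hij, mul_div_mul_left _ _ hs, map_div₀]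
    have hne : ∀ l, yb (j l) ≠ 0 := by
      intro l h0
      apply hzind.ne_zero l
      rw [hzl, h0, div_zero, map_zero]
    have hunit : ∀ l, ∃ e : O, yO (j l) * e = 1 := by
      intro l
      have h1 : IsUnit (yO (j l)) := by
        by_contra h2
        apply hne l
        rw [hyb, IsLocalRing.residue_eq_zero_iff, IsLocalRing.mem_maximalIdeal, mem_nonunits_iff]
        exact h2
      exact h1.exists_right_inv
    choose e he using hunit
    obtain ⟨b, hb⟩ : ∃ b : Fin (D + 1) → O, ∀ l, b l = yO (i l) * e l := ⟨_, fun _ => rfl⟩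
    have hbres : ∀ l, IsLocalRing.residue O (b l) = yb (i l) / yb (j l) := by
      intro l
      rw [eq_div_iff (hne l), hb, map_mul, ← hyb, hyb (j l), mul_assoc, mul_comm _ (IsLocalRing.residue O (yO (j l))),
        ← map_mul, he, map_one, mul_one]
    have heM : ∀ l, y' (j l) * ((e l : M2) : M) = 1 := by
      intro l
      exact congrArg (fun w : O => ((w : M2) : M)) (he l)
    have hbM : ∀ l, ((b l : M2) : M) = ι (x (i l) / x (j l)) := by
      intro l
      have h1 : ((b l : M2) : M) = y' (i l) * ((e l : M2) : M) := by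
        rw [hb]
        rfl
      have h2 := heM l
      have h3 : y' (j l) ≠ 0 := left_ne_zero_of_mul (h2 ▸ one_ne_zero)
      rw [hyx] at h3
      have h4 : μ ≠ 0 := left_ne_zero_of_mul h3
      have h5 : ι (x (j l)) ≠ 0 := right_ne_zero_of_mul h3
      rw [h1, map_div₀, eq_div_iff h5, hyx (i l)]
      rw [hyx (j l)] at h2
      linear_combination ι (x (i l)) * h2
    -- independence over the residue field of `A`
    have hbind : Function.Injective (eval₂Hom r (fun l => IsLocalRing.residue O (b l))) := by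
      have h1 : (aeval z : MvPolynomial (Fin (D + 1)) (IsLocalRing.ResidueField A)
          →ₐ[IsLocalRing.ResidueField A] MM κ).toRingHom =
          (cM κ).comp (eval₂Hom r (fun l => IsLocalRing.residue O (b l))) := by
        apply MvPolynomial.ringHom_ext
        · intro a
          rw [RingHom.comp_apply, coe_eval₂Hom, eval₂_C]
          exact aeval_C _ _
        · intro l
          rw [RingHom.comp_apply, coe_eval₂Hom, eval₂_X, hbres, ← hzl]
          exact aeval_X _ _
      intro P Q hPQ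
      apply hzind
      have h2 := RingHom.congr_fun h1 P
      have h3 := RingHom.congr_fun h1 Q
      rw [RingHom.comp_apply, hPQ, ← RingHom.comp_apply, ← h1] at h2
      exact h2
    have hindA := TF5_indep (ψ'.comp C) (hψ'inj.comp (C_injective _ _)) O (fun a => hO _) r
      (fun a => by
        change ρ (C (IsLocalRing.residue A a)) = _
        have h1 := hρ (C a)
        rw [map_C] at h1
        rw [h1]
        rfl) b hbind
    obtain ⟨q, hq⟩ : ∃ q : Fin (D + 1) → L, ∀ l, q l = x (i l) / x (j l) := ⟨_, fun _ => rfl⟩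
    have hqinj : Function.Injective (eval₂Hom ((algebraMap ℂ L).comp β) q) := by
      have h1 : (M2.subtype).comp (eval₂Hom (ψ'.comp C) (fun l => (b l : M2))) =
          ι.comp (eval₂Hom ((algebraMap ℂ L).comp β) q) := by
        apply MvPolynomial.ringHom_ext
        · intro a
          rw [RingHom.comp_apply, RingHom.comp_apply, coe_eval₂Hom, coe_eval₂Hom, eval₂_C, eval₂_C]
          change ((ψ' (C a) : M2) : M) = ι (algebraMap ℂ L (β a))
          rw [hψ'v, map_C, hψC]
        · intro l
          rw [RingHom.comp_apply, RingHom.comp_apply, coe_eval₂Hom, coe_eval₂Hom, eval₂_X, eval₂_X,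
            hq]
          exact hbM l
      intro P Q hPQ
      apply hindA
      apply M2.subtype.injective
      have h2 := RingHom.congr_fun h1 P
      have h3 := RingHom.congr_fun h1 Q
      rw [RingHom.comp_apply, RingHom.comp_apply] at h2 h3
      rw [h2, h3, hPQ]
    have hqC := TF5_extend β hΩ q hqinj
    -- contradiction
    let E := IntermediateField.adjoin ℂ {z : L | ∃ i j, z = x i / x j}
    have hqE : ∀ l, q l ∈ E := by
      intro l
      rw [hq]
      exact IntermediateField.subset_adjoin _ _ ⟨i l, j l, rfl⟩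
    have hqE' : AlgebraicIndependent ℂ (fun l => (⟨q l, hqE l⟩ : E)) :=
      AlgebraicIndependent.of_comp E.val hqC
    have h1 := hqE'.lift_cardinalMk_le_trdeg
    rw [Cardinal.mk_fin, Cardinal.lift_natCast, Cardinal.lift_id'] at h1
    have h2 := h1.trans hx
    have h3 : D + 1 ≤ D := by exact_mod_cast h2
    omega

end MP2619.R
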