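import Pool.Agent.Lib.MP_2619d0_ag.R.TF6
import Pool.Agent.Lib.MP_2619d0_ag.T.SG8

/-!
The third point theorem for points of small transcendence degree.
-/

set_option autoImplicit false

namespace MP2619.R

universe u

open MvPolynomial Pool.Agent.Lib.MP_2619d0_ag Pool.Agent.Lib.MP_2619d0_ag.T MP2619.K

/-- The function field of the hypersurface has transcendence degree `m`. -/
theorem TF7_trdeg {m : ℕ} {F : MvPolynomial (Fin (m + 1 + 1)) ℂ} (hF : VG F)
    {L : Type u} [Field L] [Algebra ℂ L] (a : Fin (m + 1 + 1) → L)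
    (hg : Gp F (ev a)) (hodd : Odd (fd (ev a))) :
    (m : Cardinal.{u}) ≤ Algebra.trdeg ℂ (ratioF a) := by
  obtain ⟨hinj, -⟩ := K3_deg hF (ev a) hg hodd
  have hX : ∀ i : Fin m, K3_psi (ev a) (X i) = a i.succ.succ / a 0 := by
    intro i
    rw [K3_psi_X]
    change aeval (fun i : Fin (m + 1) => a i.succ / a 0) (X i.succ) = _
    rw [aeval_X]
  have hmem : ∀ i : Fin m, K3_psi (ev a) (X i) ∈ ratioF a := by
    intro i
    rw [hX]
    exact IntermediateField.subset_adjoin _ _ ⟨_, _, rfl⟩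
  have h1 : AlgebraicIndependent ℂ (fun i : Fin m => K3_psi (ev a) (X i)) := by
    have h2 : (aeval (fun i : Fin m => K3_psi (ev a) (X i)) :
        MvPolynomial (Fin m) ℂ →ₐ[ℂ] L).toRingHom = K3_psi (ev a) := by
      apply MvPolynomial.ringHom_ext
      · intro c
        rw [K3_psi_C]
        change aeval _ (C c) = aeval _ (C c)
        rw [aeval_C, aeval_C]
      · intro i
        exact aeval_X _ _
    intro P Q hPQ
    apply hinj
    rw [← h2]
    exact hPQ
  have h3 : AlgebraicIndependent ℂ (fun i : Fin m => (⟨K3_psi (ev a) (X i), hmem i⟩ : ratioF a)) :=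
    AlgebraicIndependent.of_comp (ratioF a).val h1
  have h4 := h3.lift_cardinalMk_le_trdeg
  rwa [Cardinal.mk_fin, Cardinal.lift_natCast, Cardinal.lift_id'] at h4

variable {N D : ℕ} {F : MvPolynomial (Fin (N + 1)) ℂ} {L : Type u} [Field L] [Algebra ℂ L]

/-- The secant theorem for a point of small transcendence degree. -/
theorem TF7_secant (hN : 2 ≤ N) (hF : VG F) (hS : S.{0, u} (N + 1) D) (hDN : D + 1 < N)
    (y : Fin (N + 1) → L) (hy0 : y 0 = 1)
    (hy : Gp F (ev y)) (hodd : Odd (fd (ev y))) (a : Fin (N + 1) → L) (ha0 : a ≠ 0)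
    (hFa : Fc (cL L F) a = 0) (hD : Algebra.trdeg ℂ (ratioF a) ≤ (D : Cardinal.{u})) :
    Dc (cL L F) a y ≠ 0 ∧ third (cL L F) y a 0 ≠ 0 ∧ Gp F (ev (third (cL L F) y a)) ∧
    Odd (fd (ev (third (cL L F) y a))) := by
  have hng : ∀ b : Fin (N + 1) → L, Gp F (ev b) → Odd (fd (ev b)) →
      Algebra.trdeg ℂ (ratioF b) ≤ (D : Cardinal.{u}) → False := by
    intro b hg ho hb
    obtain ⟨m, rfl⟩ : ∃ m, N = m + 1 := ⟨N - 1, by omega⟩
    have h1 := (TF7_trdeg hF b hg ho).trans hb
    have h2 : m ≤ D := by exact_mod_cast h1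
    omega
  have hlin : LinearIndependent L ![y, a] := by
    rw [LinearIndependent.pair_iff]
    intro s t hst
    by_cases ht : t = 0
    · subst ht
      rw [zero_smul, add_zero] at hst
      have h1 := congrFun hst 0
      rw [Pi.smul_apply, hy0, Pi.zero_apply, smul_eq_mul, mul_one] at h1
      exact ⟨h1, rfl⟩
    · exfalso
      have h1 : a = (-(s / t)) • y := by
        funext i
        have h2 := congrFun hst i
        simp only [Pi.add_apply, Pi.smul_apply, Pi.zero_apply, smul_eq_mul] at h2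
        rw [Pi.smul_apply, smul_eq_mul]
        field_simp
        linear_combination h2
      have hs : -(s / t) ≠ 0 := by
        intro h0
        rw [h0, zero_smul] at h1
        exact ha0 h1
      have hev : ev a = ev y := T1b_ev a y _ hs h1
      exact hng a (hev ▸ hy) (hev ▸ hodd) hD
  obtain ⟨hinj, hpar⟩ := parity hN hF y a hy0 hy hodd hlin hFa
  rcases hpar with hpar | ⟨hDc, hpar⟩
  · exfalso
    have hu := uu_zero_ne y a hy0
    have hFy := Fc_of_Gp hF.1 y hy0 hy
    refine TF6_transfer hF (cM L) (psi y a) (fun c => ?_) hinj hpar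
      (fun i => (uu y a 0)⁻¹ * cM L (y i)) (fun i => ((uu y a 0)⁻¹ * sv L) * cM L (a i)) ?_ ?_ ?_ a
      ((uu y a 0)⁻¹ * sv L) (fun i => rfl) hD hS
    · rw [psi, coe_eval₂Hom, eval₂_C]
      rfl
    · intro i
      rw [yh_psi y a hu, Pi.smul_apply, smul_eq_mul]
      simp only [uu]
      ring
    · have h1 : (fun i => (uu y a 0)⁻¹ * cM L (y i)) = (uu y a 0)⁻¹ • fun i => cM L (y i) := rfl
      rw [cc_psi, h1, Fc_smul, Fc_cm, hFy, map_zero, mul_zero]
    · have h1 : (fun i => ((uu y a 0)⁻¹ * sv L) * cM L (a i)) =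
          ((uu y a 0)⁻¹ * sv L) • fun i => cM L (a i) := rfl
      rw [cc_psi, h1, Fc_smul, Fc_cm, hFa, map_zero, mul_zero]
  · refine ⟨hDc, ?_⟩
    rcases hpar with ⟨-, hg, ho⟩ | h
    · exact (hng a hg ho hD).elim
    · exact h

/-- The third point theorem for points of small transcendence degree, in homogeneous coordinates. -/
theorem third_small (hN : 2 ≤ N) (hF : VG F) (hS : S.{0, u} (N + 1) D) (hDN : D + 1 < N)
    (y : Fin (N + 1) → L) (hy : IsGP F y)
    (hodd : Odd (Module.finrank (ratioF y) L)) (x : Fin (N + 1) → L) (hx : aeval x F = 0)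
    (hxy : ∀ c : L, x ≠ c • y) (hD : Algebra.trdeg ℂ (ratioF x) ≤ (D : Cardinal.{u})) :
    IsGP F (fun i => (∑ j, y j * aeval x (pderiv j F)) * y i -
        (∑ j, x j * aeval y (pderiv j F)) * x i) ∧
      Odd (Module.finrank (ratioF (fun i => (∑ j, y j * aeval x (pderiv j F)) * y i -
        (∑ j, x j * aeval y (pderiv j F)) * x i)) L) := by
  have hx0 : x ≠ 0 := by
    rintro rfl
    apply hxy 0
    rw [zero_smul]
  have hy00 : y 0 ≠ 0 := ((isGP_iff hN hF y).mp hy).1
  have hinv : (y 0)⁻¹ ≠ 0 := inv_ne_zero hy00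
  set y' : Fin (N + 1) → L := (y 0)⁻¹ • y with hy'
  have hy'0 : y' 0 = 1 := by
    rw [hy', Pi.smul_apply, smul_eq_mul, inv_mul_cancel₀ hy00]
  have hGP' : IsGP F y' := IsGP.smul _ hinv y hy
  have hGp' : Gp F (ev y') := ((isGP_iff hN hF y').mp hGP').2
  have hodd' : Odd (fd (ev y')) := by
    rw [← finrank_ratioF y' (by rw [hy'0]; exact one_ne_zero), hy', ratioF_smul _ hinv y]
    exact hodd
  have hFx : Fc (cL L F) x = 0 := by
    rw [← hx]
    exact (aeval_eq_Fc hF.1 x).symm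
  obtain ⟨hDc, ht0, htg, hto⟩ := TF7_secant hN hF hS hDN y' hy'0 hGp' hodd' x hx0 hFx hD
  have h3 : (∑ j, y j * aeval x (pderiv j F)) = Dc (cL L F) x y :=
    (Dc_eq_sum_pderiv hF.1 x y).symm
  have h4 : (∑ j, x j * aeval y (pderiv j F)) = Dc (cL L F) y x :=
    (Dc_eq_sum_pderiv hF.1 y x).symm
  have hk : (y 0) ^ 2 ≠ 0 := pow_ne_zero _ hy00
  have hthird : (fun i => (∑ j, y j * aeval x (pderiv j F)) * y i -
      (∑ j, x j * aeval y (pderiv j F)) * x i) = ((y 0) ^ 2) • third (cL L F) y' x := by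
    funext i
    rw [h3, h4, Pi.smul_apply, smul_eq_mul, third, hy', Dc_smul_right, Dc_smul_left,
      Pi.smul_apply, smul_eq_mul]
    field_simp
  have hGP3 : IsGP F (third (cL L F) y' x) := (isGP_iff hN hF _).mpr ⟨ht0, htg⟩
  rw [hthird]
  refine ⟨IsGP.smul _ hk _ hGP3, ?_⟩
  rw [ratioF_smul _ hk, finrank_ratioF _ ht0]
  exact hto

end MP2619.R
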